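import Pool.Agent.Helper947.Geo.G6

set_option autoImplicit false
open MvPolynomial

namespace Pool.Agent.Helper947.Geo

theorem projv_ker {N : ℕ} (P x : Fin (N + 1) → ℂ) (hP : P (Fin.last N) ≠ 0)
    (h : projv P x = 0) : ∃ c : ℂ, x = c • P := by
  refine ⟨x (Fin.last N) / P (Fin.last N), ?_⟩
  funext i
  refine Fin.lastCases ?_ (fun i => ?_) i
  · simp only [Pi.smul_apply, smul_eq_mul]
    field_simp
  · have h1 := congrFun h i
    simp only [projv, Pi.zero_apply] at h1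
    simp only [Pi.smul_apply, smul_eq_mul]
    field_simp
    linear_combination h1

/-- for a general point all ranks take their generic values -/
theorem generic_ranks {d : ℕ} (hd : 0 < d) {K : Type} [Fintype K] (z : K → Fin d → ℂ) (M : ℕ) :
    ∃ (φ : MvPolynomial (Fin d) ℂ) (r : ℕ → ℕ), φ ≠ 0 ∧ ∀ P : Fin d → ℂ, eval P φ ≠ 0 →
      ∀ m, m < M → Module.finrank ℂ (relSpace z m P) = r m := by
  classical
  haveI : NeZero d := ⟨by omega⟩
  have hex : ∀ m, ∃ r, ∃ P : Fin d → ℂ, P ≠ 0 ∧ Module.finrank ℂ (relSpace z m P) = r := by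
    intro m
    exact ⟨_, Pi.single 0 1, by simp, rfl⟩
  have hr : ∀ m, ∃ ψ : MvPolynomial (Fin d) ℂ, ψ ≠ 0 ∧ ∀ P : Fin d → ℂ, eval P ψ ≠ 0 →
      Module.finrank ℂ (relSpace z m P) ≤ Nat.find (hex m) := by
    intro m
    obtain ⟨P₁, hP₁, h₁⟩ := Nat.find_spec (hex m)
    exact semicont z m _ P₁ hP₁ h₁.le
  choose ψ hψ0 hψ using hr
  refine ⟨X 0 * ∏ m ∈ Finset.range M, ψ m, fun m => Nat.find (hex m),
    mul_ne_zero (X_ne_zero 0) (Finset.prod_ne_zero_iff.mpr fun m _ => hψ0 m), ?_⟩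
  intro P hP m hm
  rw [map_mul, map_prod, eval_X] at hP
  apply le_antisymm
  · exact hψ m P (Finset.prod_ne_zero_iff.mp (right_ne_zero_of_mul hP) m (Finset.mem_range.mpr hm))
  · apply Nat.find_min'
    refine ⟨P, ?_, rfl⟩
    rintro rfl
    exact left_ne_zero_of_mul hP rfl

end Pool.Agent.Helper947.Geo
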