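import Pool.Agent.Helper947.Geo.Core2

set_option autoImplicit false
open MvPolynomial

namespace Pool.Agent.Helper947.Geo

/-- linear form -/
noncomputable def lf {d : ℕ} (η : Fin d → ℂ) : MvPolynomial (Fin d) ℂ := ∑ i, C (η i) * X i

/-- restriction to the curve `t ↦ P + t v` -/
noncomputable def cur {d : ℕ} (P v : Fin d → ℂ) : MvPolynomial (Fin d) ℂ →ₐ[ℂ] Polynomial ℂ :=
  aeval (fun i => Polynomial.C (P i) + Polynomial.C (v i) * Polynomial.X)

/-- restriction to the family of curves `t ↦ x w + y w' + t v` -/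
noncomputable def ex {d : ℕ} (w w' v : Fin d → ℂ) :
    MvPolynomial (Fin d) ℂ →ₐ[ℂ] Polynomial (MvPolynomial (Fin 2) ℂ) :=
  aeval (fun i => Polynomial.C (C (w i) * X 0 + C (w' i) * X 1) +
    Polynomial.C (C (v i)) * Polynomial.X)

theorem eval_lf {d : ℕ} (η P : Fin d → ℂ) : eval P (lf η) = η ⬝ᵥ P := by
  simp [lf, dotProduct]

theorem cur_lf {d : ℕ} (P v η : Fin d → ℂ) :
    cur P v (lf η) = Polynomial.C (η ⬝ᵥ P) + Polynomial.C (η ⬝ᵥ v) * Polynomial.X := by
  simp only [lf, cur, map_sum, map_mul, aeval_X, dotProduct, Finset.sum_mul]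
  rw [← Finset.sum_add_distrib]
  apply Finset.sum_congr rfl
  intro i _
  have : (aeval fun i => Polynomial.C (P i) + Polynomial.C (v i) * Polynomial.X) (C (η i))
      = Polynomial.C (η i) := by
    rw [MvPolynomial.aeval_C]; rfl
  rw [this]
  ring

theorem ex_C {d : ℕ} (w w' v : Fin d → ℂ) (c : ℂ) : ex w w' v (C c) = Polynomial.C (C c) := by
  rw [ex, MvPolynomial.aeval_C]; rfl

theorem ex_lf {d : ℕ} (w w' v η : Fin d → ℂ) :
    ex w w' v (lf η) = Polynomial.C (C (η ⬝ᵥ w) * X 0 + C (η ⬝ᵥ w') * X 1) +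
      Polynomial.C (C (η ⬝ᵥ v)) * Polynomial.X := by
  have h1 : ∀ i, ex w w' v (X i) = Polynomial.C (C (w i) * X 0 + C (w' i) * X 1) +
      Polynomial.C (C (v i)) * Polynomial.X := by
    intro i
    rw [ex, MvPolynomial.aeval_X]
  simp only [lf, map_sum, map_mul, h1, ex_C, dotProduct, Finset.sum_mul, map_add]
  rw [← Finset.sum_add_distrib, ← Finset.sum_add_distrib]
  apply Finset.sum_congr rfl
  intro i _
  ring

theorem eval_cur {d : ℕ} (P v : Fin d → ℂ) (f : MvPolynomial (Fin d) ℂ) (t : ℂ) :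
    (cur P v f).eval t = eval (P + t • v) f := by
  have h : (Polynomial.evalRingHom t).comp (cur P v : MvPolynomial (Fin d) ℂ →+* Polynomial ℂ)
      = eval (P + t • v) := by
    apply MvPolynomial.ringHom_ext
    · intro r
      simp [cur]
    · intro i
      simp [cur]
      ring
  have := congrArg (fun g : MvPolynomial (Fin d) ℂ →+* ℂ => g f) h
  simpa using this

theorem map_ex {d : ℕ} (w w' v : Fin d → ℂ) (f : MvPolynomial (Fin d) ℂ) (x y : ℂ) :
    (ex w w' v f).map (eval ![x, y]) = cur (x • w + y • w') v f := by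
  have h : (Polynomial.mapRingHom (eval ![x, y])).comp
      (ex w w' v : MvPolynomial (Fin d) ℂ →+* Polynomial (MvPolynomial (Fin 2) ℂ))
      = (cur (x • w + y • w') v : MvPolynomial (Fin d) ℂ →+* Polynomial ℂ) := by
    apply MvPolynomial.ringHom_ext
    · intro r
      simp [cur, ex]
    · intro i
      simp [cur, ex]
      ring
  have := congrArg (fun g : MvPolynomial (Fin d) ℂ →+* Polynomial ℂ => g f) h
  simpa using this

theorem DD_lf {d : ℕ} (z η : Fin d → ℂ) : DD z (lf η) = C (η ⬝ᵥ z) := by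
  have h : ∀ i, C (z i) * pderiv i (lf η) = C (η i * z i) := by
    intro i
    simp only [lf, map_sum]
    rw [Finset.sum_eq_single i]
    · simp [mul_comm]
    · intro j _ hj
      simp [pderiv_X, hj]
    · simp
  simp only [DD, h, dotProduct, map_sum]

theorem DD_mul {d : ℕ} (z : Fin d → ℂ) (f g : MvPolynomial (Fin d) ℂ) :
    DD z (f * g) = DD z f * g + f * DD z g := by
  simp only [DD, Derivation.leibniz, smul_eq_mul, Finset.sum_mul, Finset.mul_sum]
  rw [← Finset.sum_add_distrib]
  apply Finset.sum_congr rfl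
  intro i _
  ring

end Pool.Agent.Helper947.Geo
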