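import Pool.Agent.Helper947.Geo.A1
import Pool.Agent.Helper947.Geo.Core3

set_option autoImplicit false
open MvPolynomial

namespace Pool.Agent.Helper947.Geo

theorem pi_exists_orth {N : ℕ} (hN : 3 ≤ N) (x y : Fin (N + 1) → ℂ) :
    ∃ e : Fin (N + 1) → ℂ, e ≠ 0 ∧ e ⬝ᵥ x = 0 ∧ e ⬝ᵥ y = 0 := by
  have hk : LinearMap.ker (Matrix.mulVecLin (Matrix.of ![x, y])) ≠ ⊥ := by
    apply LinearMap.ker_ne_bot_of_finrank_lt
    rw [Module.finrank_fin_fun, Module.finrank_fin_fun]
    omega
  obtain ⟨e, he, he0⟩ := Submodule.exists_mem_ne_zero_of_ne_bot hk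
  rw [LinearMap.mem_ker, Matrix.mulVecLin_apply] at he
  refine ⟨e, he0, ?_, ?_⟩
  · have h := congrFun he 0
    rw [dotProduct_comm]
    exact h
  · have h := congrFun he 1
    rw [dotProduct_comm]
    exact h

theorem pi_lf_ne {d : ℕ} {e : Fin d → ℂ} (he : e ≠ 0) : lf e ≠ 0 := by
  obtain ⟨i, hi⟩ := Function.ne_iff.1 he
  intro h
  have h1 := eval_lf e (Pi.single i 1)
  rw [h, map_zero, dotProduct_single, mul_one] at h1
  exact hi h1.symm

/-- the projection as a linear map -/
def pi_L {N : ℕ} (P : Fin (N + 1) → ℂ) : (Fin (N + 1) → ℂ) →ₗ[ℂ] (Fin N → ℂ) where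
  toFun := projv P
  map_add' x y := by
    funext i
    simp only [projv, Pi.add_apply]
    ring
  map_smul' c x := by
    funext i
    simp only [projv, Pi.smul_apply, smul_eq_mul, RingHom.id_apply]
    ring

/-- projections of a family from a general point -/
theorem projv_indep {N : ℕ} {K : Type} [Fintype K] (z : K → Fin (N + 1) → ℂ)
    (hz : ∀ k l, k ≠ l → LinearIndependent ℂ ![z k, z l]) (h0 : ∀ k, z k ≠ 0) (hN : 3 ≤ N)
    (hsp : Submodule.span ℂ (Set.range z) = ⊤) :
    ∃ φ : MvPolynomial (Fin (N + 1)) ℂ, φ ≠ 0 ∧ ∀ P : Fin (N + 1) → ℂ, eval P φ ≠ 0 →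
      P (Fin.last N) ≠ 0 ∧
      (∀ k l, k ≠ l → LinearIndependent ℂ ![projv P (z k), projv P (z l)]) ∧
      (∀ k, projv P (z k) ≠ 0) ∧
      Submodule.span ℂ (Set.range fun k => projv P (z k)) = ⊤ := by
  classical
  choose e he0 he1 he2 using fun k l => pi_exists_orth hN (z k) (z l)
  refine ⟨X (Fin.last N) * ∏ k, ∏ l, lf (e k l), ?_, ?_⟩
  · refine mul_ne_zero (X_ne_zero _) ?_
    rw [Finset.prod_ne_zero_iff]
    intro k _
    rw [Finset.prod_ne_zero_iff]
    intro l _
    exact pi_lf_ne (he0 k l)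
  · intro P hP
    rw [map_mul, eval_X, map_prod] at hP
    have hPl : P (Fin.last N) ≠ 0 := left_ne_zero_of_mul hP
    have hPe : ∀ k l, e k l ⬝ᵥ P ≠ 0 := by
      intro k l
      have h1 := Finset.prod_ne_zero_iff.1 (right_ne_zero_of_mul hP) k (Finset.mem_univ k)
      rw [map_prod] at h1
      have h2 := Finset.prod_ne_zero_iff.1 h1 l (Finset.mem_univ l)
      rwa [eval_lf] at h2
    refine ⟨hPl, ?_, ?_, ?_⟩
    · intro k l hkl
      rw [LinearIndependent.pair_iff]
      intro s t hst
      have h1 : projv P (s • z k + t • z l) = 0 := by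
        have h2 := (pi_L P).map_add (s • z k) (t • z l)
        rw [map_smul, map_smul] at h2
        exact h2.trans hst
      obtain ⟨c, hc⟩ := projv_ker P _ hPl h1
      have hc0 : c = 0 := by
        have h3 := congrArg (fun v => e k l ⬝ᵥ v) hc
        simp only [dotProduct_add, dotProduct_smul, he1, he2, smul_eq_mul, mul_zero,
          add_zero] at h3
        rcases mul_eq_zero.1 h3.symm with h | h
        · exact h
        · exact absurd h (hPe k l)
      rw [hc0, zero_smul] at hc
      exact LinearIndependent.pair_iff.1 (hz k l hkl) s t hc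
    · intro k hk
      obtain ⟨c, hc⟩ := projv_ker P _ hPl hk
      have hc0 : c = 0 := by
        have h3 := congrArg (fun v => e k k ⬝ᵥ v) hc
        simp only [dotProduct_smul, he1, smul_eq_mul] at h3
        rcases mul_eq_zero.1 h3.symm with h | h
        · exact h
        · exact absurd h (hPe k k)
      rw [hc0, zero_smul] at hc
      exact h0 k hc
    · have hr : (Set.range fun k => projv P (z k)) = (pi_L P) '' Set.range z := by
        rw [← Set.range_comp]
        rfl
      rw [hr, ← Submodule.map_span, hsp, Submodule.map_top, LinearMap.range_eq_top]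
      intro y
      refine ⟨Fin.snoc (α := fun _ => ℂ) (fun i => y i / P (Fin.last N)) 0, ?_⟩
      funext i
      show P (Fin.last N) * (Fin.snoc (α := fun _ => ℂ) (fun i => y i / P (Fin.last N)) 0 :
        Fin (N + 1) → ℂ) i.castSucc - (Fin.snoc (α := fun _ => ℂ) (fun i => y i / P (Fin.last N)) 0 :
        Fin (N + 1) → ℂ) (Fin.last N) * P i.castSucc = y i
      rw [Fin.snoc_castSucc, Fin.snoc_last, zero_mul, sub_zero]
      field_simp

end Pool.Agent.Helper947.Geo
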