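import Pool.Agent.Helper947.Geo.A2

set_option autoImplicit false
open MvPolynomial

namespace Pool.Agent.Helper947.Geo

theorem card_four {K : Type} [Fintype K] (w : K → Fin 3 → ℂ)
    (hsp : Submodule.span ℂ (Set.range w) = ⊤)
    (I : Ideal (MvPolynomial (Fin 3) ℂ)) (hI : IsVan w I)
    (h1 : Module.finrank ℂ (evRel w 1) = 1) : Fintype.card K = 4 := by
  have h2 := finrank_evRel w 1 I hI
  have h3 := finrank_forms 2 1
  have h4 : (homogeneousSubmodule (Fin 3) ℂ 1 ⊓ I.restrictScalars ℂ) = ⊥ := by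
    rw [eq_bot_iff]
    rintro f ⟨hf1, hf2⟩
    have hf2' : f ∈ I := hf2
    have hf3 : f.IsHomogeneous 1 := hf1
    rw [hI] at hf2'
    rw [Submodule.mem_bot]
    obtain ⟨L, hL⟩ := zz_eval_lin f hf3
    have hL0 : L = 0 := by
      apply LinearMap.ext_on_range hsp
      intro k
      rw [hL, LinearMap.zero_apply]
      have := hf2' k 1
      simpa using this
    apply MvPolynomial.funext
    intro v
    rw [← hL, hL0, LinearMap.zero_apply, map_zero]
  rw [h4, finrank_bot, h1] at h2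
  rw [show homogeneousSubmodule (Fin 3) ℂ 1 = homogeneousSubmodule (Fin (2 + 1)) ℂ 1 from rfl, h3] at h2
  norm_num [Nat.choose] at h2
  omega

theorem geo_general {N : ℕ} (hN : 2 ≤ N) {K : Type} [Fintype K] [DecidableEq K]
    (z : K → Fin (N + 2) → ℂ)
    (hgen : ∀ s : Finset K, s.card ≤ N + 2 → LinearIndependent ℂ (fun k : s => z k))
    (hsp : Submodule.span ℂ (Set.range z) = ⊤)
    (h : MvPolynomial (Fin (N + 2)) ℂ) (hh : h ≠ 0)
    (hci : ∀ P : Fin (N + 2) → ℂ, P (Fin.last (N + 1)) ≠ 0 → eval P h ≠ 0 →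
      ∃ F : Fin N → MvPolynomial (Fin (N + 1)) ℂ, (∀ i, ∃ a, (F i).IsHomogeneous a) ∧ IsReg F ∧
        IsVan (fun k => projv P (z k)) (Ideal.span (Set.range F))) :
    N = 2 ∧ Fintype.card K = 4 := by
  classical
  have hz : ∀ k l, k ≠ l → LinearIndependent ℂ ![z k, z l] := by
    intro k l hkl
    have h1 := hgen {k, l} (by rw [Finset.card_pair hkl]; omega)
    let e : Fin 2 → ({k, l} : Finset K) := ![⟨k, by simp⟩, ⟨l, by simp⟩]
    have he : Function.Injective e := by
      intro a b hab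
      fin_cases a <;> fin_cases b <;> simp_all [e, hkl, hkl.symm]
    have h2 := h1.comp e he
    convert h2 using 1
    funext i
    fin_cases i <;> rfl
  have h0 : ∀ k, z k ≠ 0 := by
    intro k
    have h1 := hgen {k} (by simp)
    have := h1.ne_zero ⟨k, by simp⟩
    exact this
  obtain ⟨φ₁, hφ₁, hφ₁'⟩ := projv_indep z hz h0 (by omega) hsp
  obtain ⟨φ₂, r, hφ₂, hr⟩ := generic_ranks (by omega) z (Fintype.card K)
  obtain ⟨P₀, hP₀⟩ := g4_exists_ne (h * (φ₁ * φ₂)) (mul_ne_zero hh (mul_ne_zero hφ₁ hφ₂))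
  rw [map_mul, map_mul] at hP₀
  have hPh := left_ne_zero_of_mul hP₀
  have hP1 := left_ne_zero_of_mul (right_ne_zero_of_mul hP₀)
  have hP2 := right_ne_zero_of_mul (right_ne_zero_of_mul hP₀)
  obtain ⟨hlast, hw, hw0, hwsp⟩ := hφ₁' P₀ hP1
  obtain ⟨F, hFh, hFr, hFI⟩ := hci P₀ hlast hPh
  choose a ha using hFh
  obtain ⟨ha2, hn⟩ := ci_rel (fun k => projv P₀ (z k)) hw hw0 hwsp F a ha hFr hFI
  have hsum : 2 * N ≤ ∑ i, a i := by
    calc 2 * N = ∑ _i : Fin N, 2 := by simp [mul_comm]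
      _ ≤ ∑ i, a i := Finset.sum_le_sum fun i _ => ha2 i
  obtain ⟨n, hnn⟩ : ∃ n, n + (N + 1) = ∑ i, a i := ⟨∑ i, a i - (N + 1), by omega⟩
  obtain ⟨hr1, hr2⟩ := hn n hnn
  have hnK : n < Fintype.card K := by
    by_contra hge
    push Not at hge
    rw [evRel_large (fun k => projv P₀ (z k)) hw hw0 n hge, finrank_bot] at hr1
    omega
  by_cases hn2 : 2 ≤ n
  · exfalso
    refine core_general (by omega) z n hn2 hgen φ₂ hφ₂ ?_ ?_
    · intro P hP hbot
      have h5 := hr P hP n hnK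
      have h6 := hr P₀ hP2 n hnK
      rw [relSpace_eq z n P₀ hlast, hr1] at h6
      rw [hbot, finrank_bot] at h5
      omega
    · intro P hP
      have h5 := hr P hP (n - 1) (by omega)
      have h6 := hr P₀ hP2 (n - 1) (by omega)
      rw [relSpace_eq z (n - 1) P₀ hlast, hr2 (by omega)] at h6
      omega
  · have hn1 : n = 1 := by omega
    have hN2 : N = 2 := by omega
    subst hN2
    refine ⟨rfl, ?_⟩
    subst hn1
    exact card_four (fun k => projv P₀ (z k)) hwsp _ hFI hr1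

end Pool.Agent.Helper947.Geo
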