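import Pool.Agent.Helper947.Geo.A3

set_option autoImplicit false
open MvPolynomial
open scoped LinearAlgebra.Projectivization

namespace Pool.Agent.Helper947.Geo

theorem h170_ofList {R : Type*} [CommRing R] {m : ℕ} (F : Fin m → R) (j : Fin m) :
    Ideal.ofList ((List.ofFn F).take j) = Ideal.span (F '' {i | i < j}) := by
  unfold Ideal.ofList
  congr 1
  ext r
  simp only [Set.mem_setOf_eq, Set.mem_image]
  constructor
  · intro hr
    rw [List.mem_iff_getElem] at hr
    obtain ⟨n, hn, rfl⟩ := hr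
    rw [List.length_take, List.length_ofFn] at hn
    refine ⟨⟨n, by omega⟩, ?_, ?_⟩
    · show n < j.1
      omega
    · rw [List.getElem_take, List.getElem_ofFn]
  · rintro ⟨i, hi, rfl⟩
    rw [List.mem_iff_getElem]
    have hi' : i.1 < j.1 := hi
    refine ⟨i.1, ?_, ?_⟩
    · rw [List.length_take, List.length_ofFn]
      omega
    · rw [List.getElem_take, List.getElem_ofFn]

/-- regular sequences in the sense of Mathlib -/
theorem isReg_of_isRegular {N m : ℕ} (F : Fin m → MvPolynomial (Fin N) ℂ)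
    (h : RingTheory.Sequence.IsRegular (MvPolynomial (Fin N) ℂ) (List.ofFn F)) : IsReg F := by
  intro j g hg
  have h1 := h.toIsWeaklyRegular.regular_mod_prev j.1 (by rw [List.length_ofFn]; exact j.2)
  rw [List.getElem_ofFn] at h1
  have h2 : (Ideal.ofList ((List.ofFn F).take j.1) • (⊤ : Submodule (MvPolynomial (Fin N) ℂ) (MvPolynomial (Fin N) ℂ)))
      = Ideal.span (F '' {i | i < j}) := by
    rw [h170_ofList, smul_eq_mul, Ideal.mul_top]
  rw [h2] at h1
  have h3 : F j • (Submodule.Quotient.mk g : MvPolynomial (Fin N) ℂ ⧸ (Ideal.span (F '' {i | i < j}))) =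
      F j • 0 := by
    rw [← Submodule.Quotient.mk_smul, smul_zero]
    exact (Submodule.Quotient.mk_eq_zero _).2 (by simpa using hg)
  have h4 := h1 h3
  exact (Submodule.Quotient.mk_eq_zero _).1 h4

theorem grid_four_core (b : Module.Basis (Fin 4) ℂ (Fin 4 → ℂ)) (S T : Finset (Fin 4)) :
    Module.finrank ℂ (Submodule.span ℂ (b '' (S : Set (Fin 4)))) = S.card ∧
    (Submodule.span ℂ (b '' (S : Set (Fin 4)))) ⊓ (Submodule.span ℂ (b '' (T : Set (Fin 4)))) =
      Submodule.span ℂ (b '' ((S ∩ T : Finset (Fin 4)) : Set (Fin 4))) := by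
  constructor
  · rw [Set.image_eq_range]
    have h := finrank_span_eq_card (R := ℂ) (b := fun k : ((S : Finset (Fin 4)) : Set (Fin 4)) => b k)
      (b.linearIndependent.comp _ Subtype.val_injective)
    rw [h]
    simp
  · ext x
    rw [Submodule.mem_inf, b.mem_span_image, b.mem_span_image, b.mem_span_image]
    norm_cast
    rw [Finset.subset_inter_iff]

/-- four independent points form a `(2,2)`-grid -/
theorem grid_four (Z : Finset (ℙ ℂ (Fin 4 → ℂ))) (hZ : Z.card = 4)
    (hsp : ∀ c : Fin 4 → ℂ, (∀ z ∈ Z, ∑ i, c i * z.rep i = 0) → c = 0) :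
    ∃ (m n : ℕ) (L : Fin m → Submodule ℂ (Fin 4 → ℂ)) (M : Fin n → Submodule ℂ (Fin 4 → ℂ)),
        (∀ i, Module.finrank ℂ (L i) = 2) ∧ (∀ j, Module.finrank ℂ (M j) = 2) ∧
        (∀ i i', i ≠ i' → L i ⊓ L i' = ⊥) ∧ (∀ j j', j ≠ j' → M j ⊓ M j' = ⊥) ∧
        (∀ i j, L i ⊓ M j ≠ ⊥) ∧
        ∀ z : ℙ ℂ (Fin 4 → ℂ), z ∈ Z ↔ ∃ i j, z.rep ∈ L i ∧ z.rep ∈ M j := by
  classical
  let e := Finset.equivFinOfCardEq hZ
  let v : Fin 4 → (Fin 4 → ℂ) := fun k => ((e.symm k : Z) : ℙ ℂ (Fin 4 → ℂ)).rep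
  have hvLI : LinearIndependent ℂ v := by
    have h1 : LinearIndependent ℂ (Matrix.of v).row := by
      rw [Matrix.linearIndependent_rows_iff_isUnit, ← Matrix.mulVec_injective_iff_isUnit]
      intro c c' hcc
      rw [← sub_eq_zero]
      refine hsp _ (fun z hz => ?_)
      have h2 := congrFun hcc (e ⟨z, hz⟩)
      have h3 : v (e ⟨z, hz⟩) = z.rep := by
        simp only [v]
        rw [Equiv.symm_apply_apply]
      simp only [Matrix.mulVec, dotProduct, Matrix.of_apply] at h2
      rw [h3] at h2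
      simp only [Pi.sub_apply, sub_mul, Finset.sum_sub_distrib]
      rw [sub_eq_zero]
      simpa only [mul_comm] using h2
    exact h1
  let b : Module.Basis (Fin 4) ℂ (Fin 4 → ℂ) := basisOfLinearIndependentOfCardEqFinrank hvLI (by simp)
  have hb : ∀ k, b k = v k := by
    intro k
    simp [b]
  let SL : Fin 2 → Finset (Fin 4) := fun i => if i = 0 then {0, 1} else {2, 3}
  let SM : Fin 2 → Finset (Fin 4) := fun j => if j = 0 then {0, 2} else {1, 3}
  let K : Fin 2 → Fin 2 → Fin 4 := fun i j => if i = 0 then (if j = 0 then 0 else 1) else (if j = 0 then 2 else 3)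
  have hK : ∀ i j, SL i ∩ SM j = {K i j} := by decide
  have hKs : ∀ k, ∃ i j, K i j = k := by decide
  have hSL : ∀ i, (SL i).card = 2 := by decide
  have hSM : ∀ i, (SM i).card = 2 := by decide
  have hSLd : ∀ i i', i ≠ i' → SL i ∩ SL i' = ∅ := by decide
  have hSMd : ∀ i i', i ≠ i' → SM i ∩ SM i' = ∅ := by decide
  have hspan : ∀ i j, Submodule.span ℂ (b '' (SL i : Set (Fin 4))) ⊓ Submodule.span ℂ (b '' (SM j : Set (Fin 4))) =
      Submodule.span ℂ {v (K i j)} := by
    intro i j
    rw [(grid_four_core b (SL i) (SM j)).2, hK, Finset.coe_singleton, Set.image_singleton, hb]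
  refine ⟨2, 2, fun i => Submodule.span ℂ (b '' (SL i : Set (Fin 4))),
    fun j => Submodule.span ℂ (b '' (SM j : Set (Fin 4))), ?_, ?_, ?_, ?_, ?_, ?_⟩
  · intro i
    rw [(grid_four_core b (SL i) ∅).1, hSL]
  · intro i
    rw [(grid_four_core b (SM i) ∅).1, hSM]
  · intro i i' hii
    simp only
    rw [(grid_four_core b (SL i) (SL i')).2, hSLd i i' hii]
    simp
  · intro i i' hii
    simp only
    rw [(grid_four_core b (SM i) (SM i')).2, hSMd i i' hii]
    simp
  · intro i j
    simp only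
    rw [hspan, Ne, Submodule.span_singleton_eq_bot]
    exact Projectivization.rep_nonzero _
  · intro z
    constructor
    · intro hz
      obtain ⟨i, j, hij⟩ := hKs (e ⟨z, hz⟩)
      have h3 : v (K i j) = z.rep := by
        simp only [v]
        rw [hij, Equiv.symm_apply_apply]
      have h4 : z.rep ∈ Submodule.span ℂ (b '' (SL i : Set (Fin 4))) ⊓ Submodule.span ℂ (b '' (SM j : Set (Fin 4))) := by
        rw [hspan, h3]
        exact Submodule.mem_span_singleton_self _
      exact ⟨i, j, h4.1, h4.2⟩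
    · rintro ⟨i, j, h1, h2⟩
      have h4 : z.rep ∈ Submodule.span ℂ (b '' (SL i : Set (Fin 4))) ⊓ Submodule.span ℂ (b '' (SM j : Set (Fin 4))) := ⟨h1, h2⟩
      rw [hspan, Submodule.mem_span_singleton] at h4
      obtain ⟨a, ha⟩ := h4
      have h5 : z = ((e.symm (K i j) : Z) : ℙ ℂ (Fin 4 → ℂ)) := by
        rw [← Projectivization.mk_rep z, ← Projectivization.mk_rep ((e.symm (K i j) : Z) : ℙ ℂ (Fin 4 → ℂ)),
          Projectivization.mk_eq_mk_iff']
        exact ⟨a, ha⟩
      rw [h5]
      exact (e.symm (K i j)).2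

end Pool.Agent.Helper947.Geo
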