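import Pool.Agent.Helper947.Geo.A4

set_option autoImplicit false
open MvPolynomial
open scoped LinearAlgebra.Projectivization

namespace Pool.Agent.Helper947.Geo

/-- four independent points form a `(2,2)`-grid -/
theorem grid_four_strong (Z : Finset (ℙ ℂ (Fin 4 → ℂ))) (hZ : Z.card = 4)
    (hsp : ∀ c : Fin 4 → ℂ, (∀ z ∈ Z, ∑ i, c i * z.rep i = 0) → c = 0) :
    ∃ (L : Fin 2 → Submodule ℂ (Fin 4 → ℂ)) (M : Fin 2 → Submodule ℂ (Fin 4 → ℂ)),
        (∀ i, Module.finrank ℂ (L i) = 2) ∧ (∀ j, Module.finrank ℂ (M j) = 2) ∧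
        (∀ i i', i ≠ i' → L i ⊓ L i' = ⊥) ∧ (∀ j j', j ≠ j' → M j ⊓ M j' = ⊥) ∧
        (∀ i j, Module.finrank ℂ ↥(L i ⊓ M j) = 1) ∧
        ∀ z : ℙ ℂ (Fin 4 → ℂ), z ∈ Z ↔ ∃ i j, z.rep ∈ L i ∧ z.rep ∈ M j := by
  classical
  let e := Finset.equivFinOfCardEq hZ
  let v : Fin 4 → (Fin 4 → ℂ) := fun k => ((e.symm k : Z) : ℙ ℂ (Fin 4 → ℂ)).rep
  have hvLI : LinearIndependent ℂ v := by
    have h1 : LinearIndependent ℂ (Matrix.of v).row := by
      rw [Matrix.linearIndependent_rows_iff_isUnit, ← Matrix.mulVec_injective_iff_isUnit]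
      intro c c' hcc
      rw [← sub_eq_zero]
      refine hsp _ (fun z hz => ?_)
      have h2 := congrFun hcc (e ⟨z, hz⟩)
      have h3 : v (e ⟨z, hz⟩) = z.rep := by
        simp only [v]
        rw [Equiv.symm_apply_apply]
      simp only [Matrix.mulVec, dotProduct, Matrix.of_apply] at h2
      rw [h3] at h2
      simp only [Pi.sub_apply, sub_mul, Finset.sum_sub_distrib]
      rw [sub_eq_zero]
      simpa only [mul_comm] using h2
    exact h1
  let b : Module.Basis (Fin 4) ℂ (Fin 4 → ℂ) := basisOfLinearIndependentOfCardEqFinrank hvLI (by simp)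
  have hb : ∀ k, b k = v k := by
    intro k
    simp [b]
  let SL : Fin 2 → Finset (Fin 4) := fun i => if i = 0 then {0, 1} else {2, 3}
  let SM : Fin 2 → Finset (Fin 4) := fun j => if j = 0 then {0, 2} else {1, 3}
  let K : Fin 2 → Fin 2 → Fin 4 := fun i j => if i = 0 then (if j = 0 then 0 else 1) else (if j = 0 then 2 else 3)
  have hK : ∀ i j, SL i ∩ SM j = {K i j} := by decide
  have hKs : ∀ k, ∃ i j, K i j = k := by decide
  have hSL : ∀ i, (SL i).card = 2 := by decide
  have hSM : ∀ i, (SM i).card = 2 := by decide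
  have hSLd : ∀ i i', i ≠ i' → SL i ∩ SL i' = ∅ := by decide
  have hSMd : ∀ i i', i ≠ i' → SM i ∩ SM i' = ∅ := by decide
  have hspan : ∀ i j, Submodule.span ℂ (b '' (SL i : Set (Fin 4))) ⊓ Submodule.span ℂ (b '' (SM j : Set (Fin 4))) =
      Submodule.span ℂ {v (K i j)} := by
    intro i j
    rw [(grid_four_core b (SL i) (SM j)).2, hK, Finset.coe_singleton, Set.image_singleton, hb]
  refine ⟨fun i => Submodule.span ℂ (b '' (SL i : Set (Fin 4))),
    fun j => Submodule.span ℂ (b '' (SM j : Set (Fin 4))), ?_, ?_, ?_, ?_, ?_, ?_⟩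
  · intro i
    rw [(grid_four_core b (SL i) ∅).1, hSL]
  · intro i
    rw [(grid_four_core b (SM i) ∅).1, hSM]
  · intro i i' hii
    simp only
    rw [(grid_four_core b (SL i) (SL i')).2, hSLd i i' hii]
    simp
  · intro i i' hii
    simp only
    rw [(grid_four_core b (SM i) (SM i')).2, hSMd i i' hii]
    simp
  · intro i j
    simp only
    rw [hspan]
    exact finrank_span_singleton (Projectivization.rep_nonzero _)
  · intro z
    constructor
    · intro hz
      obtain ⟨i, j, hij⟩ := hKs (e ⟨z, hz⟩)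
      have h3 : v (K i j) = z.rep := by
        simp only [v]
        rw [hij, Equiv.symm_apply_apply]
      have h4 : z.rep ∈ Submodule.span ℂ (b '' (SL i : Set (Fin 4))) ⊓ Submodule.span ℂ (b '' (SM j : Set (Fin 4))) := by
        rw [hspan, h3]
        exact Submodule.mem_span_singleton_self _
      exact ⟨i, j, h4.1, h4.2⟩
    · rintro ⟨i, j, h1, h2⟩
      have h4 : z.rep ∈ Submodule.span ℂ (b '' (SL i : Set (Fin 4))) ⊓ Submodule.span ℂ (b '' (SM j : Set (Fin 4))) := ⟨h1, h2⟩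
      rw [hspan, Submodule.mem_span_singleton] at h4
      obtain ⟨a, ha⟩ := h4
      have h5 : z = ((e.symm (K i j) : Z) : ℙ ℂ (Fin 4 → ℂ)) := by
        rw [← Projectivization.mk_rep z, ← Projectivization.mk_rep ((e.symm (K i j) : Z) : ℙ ℂ (Fin 4 → ℂ)),
          Projectivization.mk_eq_mk_iff']
        exact ⟨a, ha⟩
      rw [h5]
      exact (e.symm (K i j)).2
end Pool.Agent.Helper947.Geo
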