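import Pool.Agent.Helper947.Geo.Core3

set_option autoImplicit false
open MvPolynomial

namespace Pool.Agent.Helper947.Geo

/-- multiplication of a relation by a linear form -/
theorem rel_mul {d : ℕ} {K : Type} [Fintype K] (z : K → Fin d → ℂ) (m : ℕ) (P θ : Fin d → ℂ)
    (hθ : P ⬝ᵥ θ = 0) (c : K → ℂ) (hc : c ∈ relSpace z (m + 1) P) :
    (fun k => c k * (z k ⬝ᵥ θ)) ∈ relSpace z m P := by
  intro η hη
  have key : (∑ k, Polynomial.C (c k) * (Polynomial.C (z k ⬝ᵥ η) +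
      Polynomial.C (z k ⬝ᵥ θ) * Polynomial.X) ^ (m + 1) : Polynomial ℂ) = 0 := by
    apply Polynomial.funext
    intro t
    rw [Polynomial.eval_finsetSum, Polynomial.eval_zero]
    have h := hc (η + t • θ) (by rw [dotProduct_add, dotProduct_smul, hη, hθ]; simp)
    rw [← h]
    refine Finset.sum_congr rfl fun k _ => ?_
    rw [Polynomial.eval_mul, Polynomial.eval_pow, Polynomial.eval_add, Polynomial.eval_mul,
      Polynomial.eval_C, Polynomial.eval_C, Polynomial.eval_C, Polynomial.eval_X,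
      dotProduct_add, dotProduct_smul, smul_eq_mul]
    ring
  have hd := congrArg (fun p => (Polynomial.derivative p).eval 0) key
  simp only [Polynomial.derivative_sum, Polynomial.derivative_zero, Polynomial.eval_zero,
    Polynomial.eval_finsetSum, Polynomial.derivative_C_mul, Polynomial.derivative_pow,
    Polynomial.derivative_add, Polynomial.derivative_C, Polynomial.derivative_X,
    Polynomial.eval_mul, Polynomial.eval_C, Polynomial.eval_pow, Polynomial.eval_add,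
    Polynomial.eval_X, Nat.add_sub_cancel, zero_add, mul_zero, add_zero, mul_one] at hd
  have hm : ((m + 1 : ℕ) : ℂ) ≠ 0 := Nat.cast_ne_zero.mpr (Nat.succ_ne_zero m)
  have e : ∑ k, c k * (((m + 1 : ℕ) : ℂ) * (z k ⬝ᵥ η) ^ m * (z k ⬝ᵥ θ))
      = ((m + 1 : ℕ) : ℂ) * ∑ k, c k * (z k ⬝ᵥ θ) * (z k ⬝ᵥ η) ^ m := by
    rw [Finset.mul_sum]
    exact Finset.sum_congr rfl fun k _ => by ring
  rw [e] at hd
  exact (mul_eq_zero.mp hd).resolve_left hm

theorem card_rel_sep {d : ℕ} (S : Submodule ℂ (Fin d → ℂ)) (x : Fin d → ℂ) (hx : x ∉ S) :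
    ∃ θ : Fin d → ℂ, (∀ s ∈ S, s ⬝ᵥ θ = 0) ∧ x ⬝ᵥ θ ≠ 0 := by
  obtain ⟨f, hf1, hf2⟩ := Submodule.exists_dual_map_eq_bot_of_notMem hx inferInstance
  have hf : ∀ y : Fin d → ℂ, y ⬝ᵥ (fun i => f (fun j => if i = j then 1 else 0)) = f y := by
    intro y
    rw [LinearMap.pi_apply_eq_sum_univ f y]
    rfl
  refine ⟨fun i => f (fun j => if i = j then 1 else 0), ?_, ?_⟩
  · intro s hs
    rw [hf]
    have h1 : f s ∈ S.map f := Submodule.mem_map_of_mem hs
    rw [hf2] at h1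
    exact (Submodule.mem_bot ℂ).1 h1
  · rw [hf]
    exact hf1

theorem card_rel_two {d : ℕ} {K : Type} [Fintype K] [DecidableEq K] (z : K → Fin d → ℂ) (n : ℕ)
    (P : Fin d → ℂ) (c : K → ℂ) (hc : c ∈ relSpace z n P) (W : Finset K) (hW : W.Nonempty)
    (h1 : ∀ k ∈ W, c k ≠ 0) (h2 : ∀ k, k ∉ W → c k = 0)
    (hP : ∀ k ∈ W, ∀ l ∈ W, P ∉ Submodule.span ℂ {z k, z l})
    (h0 : ∀ k ∈ W, z k ≠ 0) : 2 ≤ W.card := by
  by_contra hcon
  have hpos := Finset.card_pos.2 hW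
  have hone : W.card = 1 := by omega
  obtain ⟨w0, hw0⟩ := Finset.card_eq_one.1 hone
  have hw0m : w0 ∈ W := by rw [hw0]; exact Finset.mem_singleton_self _
  have hns : z w0 ∉ Submodule.span ℂ {P} := by
    intro hm
    obtain ⟨a, ha⟩ := Submodule.mem_span_singleton.1 hm
    have ha0 : a ≠ 0 := by
      intro ha0
      rw [ha0, zero_smul] at ha
      exact h0 w0 hw0m ha.symm
    apply hP w0 hw0m w0 hw0m
    rw [Submodule.mem_span_pair]
    refine ⟨a⁻¹, 0, ?_⟩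
    rw [zero_smul, add_zero, ← ha, smul_smul, inv_mul_cancel₀ ha0, one_smul]
  obtain ⟨η, hη1, hη2⟩ := card_rel_sep _ _ hns
  have h3 := hc η (hη1 P (Submodule.mem_span_singleton_self P))
  rw [Finset.sum_eq_single w0] at h3
  · rcases mul_eq_zero.1 h3 with h4 | h4
    · exact h1 w0 hw0m h4
    · exact absurd h4 (pow_ne_zero n hη2)
  · intro k _ hk
    have hkW : k ∉ W := by rw [hw0]; simpa using hk
    rw [h2 k hkW, zero_mul]
  · intro h; exact absurd (Finset.mem_univ _) h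

/-- a relation of degree `n` has at least `n + 2` terms -/
theorem card_rel {d : ℕ} {K : Type} [Fintype K] [DecidableEq K] (z : K → Fin d → ℂ) (n : ℕ)
    (P : Fin d → ℂ) (c : K → ℂ) (hc : c ∈ relSpace z n P) (W : Finset K) (hW : W.Nonempty)
    (h1 : ∀ k ∈ W, c k ≠ 0) (h2 : ∀ k, k ∉ W → c k = 0)
    (hP : ∀ k ∈ W, ∀ l ∈ W, P ∉ Submodule.span ℂ {z k, z l})
    (hz : ∀ k ∈ W, ∀ l ∈ W, k ≠ l → LinearIndependent ℂ ![z k, z l])
    (h0 : ∀ k ∈ W, z k ≠ 0) : n + 2 ≤ W.card := by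
  induction n generalizing c W with
  | zero => exact card_rel_two z 0 P c hc W hW h1 h2 hP h0
  | succ n ih =>
    have hcard := card_rel_two z (n + 1) P c hc W hW h1 h2 hP h0
    obtain ⟨w0, hw0, w1, hw1, hne⟩ := Finset.one_lt_card.1 (show 1 < W.card by omega)
    have hns : z w0 ∉ Submodule.span ℂ {P, z w1} := by
      intro hm
      obtain ⟨a, b, hab⟩ := Submodule.mem_span_pair.1 hm
      by_cases ha0 : a = 0
      · have hli := LinearIndependent.pair_iff.1 (hz w0 hw0 w1 hw1 hne) 1 (-b) (by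
          rw [← hab, ha0]
          simp)
        exact one_ne_zero hli.1
      · apply hP w0 hw0 w1 hw1
        rw [Submodule.mem_span_pair]
        refine ⟨a⁻¹, -(a⁻¹ * b), ?_⟩
        rw [← hab, smul_add, smul_smul, smul_smul, inv_mul_cancel₀ ha0, one_smul, neg_smul]
        abel
    obtain ⟨θ, hθ1, hθ2⟩ := card_rel_sep _ _ hns
    have hPθ : P ⬝ᵥ θ = 0 := hθ1 P (Submodule.subset_span (by simp))
    have hw1θ : z w1 ⬝ᵥ θ = 0 := hθ1 (z w1) (Submodule.subset_span (by simp))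
    have hc' := rel_mul z n P θ hPθ c hc
    have hsub : W.filter (fun k => z k ⬝ᵥ θ ≠ 0) ⊆ W := Finset.filter_subset _ _
    have h3 := ih (fun k => c k * (z k ⬝ᵥ θ)) hc' (W.filter (fun k => z k ⬝ᵥ θ ≠ 0))
      ⟨w0, Finset.mem_filter.2 ⟨hw0, hθ2⟩⟩
      (fun k hk => mul_ne_zero (h1 k (hsub hk)) (Finset.mem_filter.1 hk).2)
      (fun k hk => by
        by_cases hkW : k ∈ W
        · have h4 : z k ⬝ᵥ θ = 0 := by
            by_contra h5
            exact hk (Finset.mem_filter.2 ⟨hkW, h5⟩)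
          show c k * (z k ⬝ᵥ θ) = 0
          rw [h4, mul_zero]
        · show c k * (z k ⬝ᵥ θ) = 0
          rw [h2 k hkW, zero_mul])
      (fun k hk l hl => hP k (hsub hk) l (hsub hl))
      (fun k hk l hl => hz k (hsub hk) l (hsub hl))
      (fun k hk => h0 k (hsub hk))
    have h6 : (W.filter (fun k => z k ⬝ᵥ θ ≠ 0)).card < W.card := by
      refine Finset.card_lt_card ⟨hsub, fun h => ?_⟩
      exact (Finset.mem_filter.1 (h hw1)).2 hw1θ
    omega

theorem pole_linear_add {d : ℕ} (g : Fin d → MvPolynomial (Fin d) ℂ) (x y : Fin d → ℂ) :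
    lin g (x + y) = lin g x + lin g y := by
  unfold lin
  rw [← Finset.sum_add_distrib]
  refine Finset.sum_congr rfl fun j _ => ?_
  rw [Pi.add_apply, C_add]; ring

theorem pole_linear_smul {d : ℕ} (g : Fin d → MvPolynomial (Fin d) ℂ) (a : ℂ) (x : Fin d → ℂ) :
    lin g (a • x) = C a * lin g x := by
  unfold lin
  rw [Finset.mul_sum]
  refine Finset.sum_congr rfl fun j _ => ?_
  rw [Pi.smul_apply, smul_eq_mul, C_mul]; ring

theorem pole_linear_single {d : ℕ} (g : Fin d → MvPolynomial (Fin d) ℂ) (j : Fin d) :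
    lin g (Pi.single j 1) = g j := by
  unfold lin
  rw [Finset.sum_eq_single j]
  · rw [Pi.single_eq_same, C_1, mul_one]
  · intro i _ hi
    rw [Pi.single_eq_of_ne hi, C_0, mul_zero]
  · intro h; exact absurd (Finset.mem_univ _) h

/-- the vectors at which `lin g` is divisible by `δ` -/
noncomputable def pole_linear_S {d : ℕ} (g : Fin d → MvPolynomial (Fin d) ℂ)
    (δ : MvPolynomial (Fin d) ℂ) : Submodule ℂ (Fin d → ℂ) where
  carrier := {x | δ ∣ lin g x}
  add_mem' := by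
    intro x y hx hy
    show δ ∣ lin g (x + y)
    rw [pole_linear_add]; exact dvd_add hx hy
  zero_mem' := by
    show δ ∣ lin g 0
    simp [lin]
  smul_mem' := by
    intro a x hx
    show δ ∣ lin g (a • x)
    rw [pole_linear_smul]; exact Dvd.dvd.mul_left hx _

/-- the vectors orthogonal to `η` -/
noncomputable def pole_linear_T {d : ℕ} (η : Fin d → ℂ) : Submodule ℂ (Fin d → ℂ) where
  carrier := {x | η ⬝ᵥ x = 0}
  add_mem' := by
    intro x y hx hy
    show η ⬝ᵥ (x + y) = 0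
    rw [dotProduct_add, show η ⬝ᵥ x = 0 from hx, show η ⬝ᵥ y = 0 from hy, add_zero]
  zero_mem' := by
    show η ⬝ᵥ (0 : Fin d → ℂ) = 0
    simp
  smul_mem' := by
    intro a x hx
    show η ⬝ᵥ (a • x) = 0
    rw [dotProduct_smul, show η ⬝ᵥ x = 0 from hx, smul_zero]

/-- poles are planes -/
theorem pole_linear {K : Type} [Fintype K] (z : K → Fin 4 → ℂ)
    (h3 : ∀ k l m, k ≠ l → k ≠ m → l ≠ m → LinearIndependent ℂ ![z k, z l, z m])
    (l : K → MvPolynomial (Fin 4) ℂ) (Q : MvPolynomial (Fin 4) ℂ)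
    (g : Fin 4 → MvPolynomial (Fin 4) ℂ)
    (c : ℂ) (hg : ∑ j, g j * X j = C c * Q)
    (hs : ∀ k, Q * DD (z k) (l k) = lin g (z k) * l k)
    (δ : MvPolynomial (Fin 4) ℂ) (hδ : Irreducible δ) (hδQ : δ ∣ Q) (hp : ∃ j, ¬ δ ∣ g j)
    (k₁ k₂ k₃ : K) (h12 : k₁ ≠ k₂) (h13 : k₁ ≠ k₃) (h23 : k₂ ≠ k₃)
    (hk₁ : ¬ δ ∣ l k₁) (hk₂ : ¬ δ ∣ l k₂) (hk₃ : ¬ δ ∣ l k₃) :
    ∃ η : Fin 4 → ℂ, η ≠ 0 ∧ Associated δ (lf η) ∧ ∀ k, ¬ δ ∣ l k → η ⬝ᵥ z k = 0 := by
  classical
  have hδp : Prime δ := hδ.prime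
  obtain ⟨j₀, hj₀⟩ := hp
  have hA : ∀ k, ¬ δ ∣ l k → z k ∈ pole_linear_S g δ := by
    intro k hk
    have h1 : δ ∣ lin g (z k) * l k := by rw [← hs k]; exact Dvd.dvd.mul_right hδQ _
    exact (hδp.dvd_or_dvd h1).resolve_right hk
  have hST : pole_linear_S g δ ≠ ⊤ := by
    intro h
    have : (Pi.single j₀ 1 : Fin 4 → ℂ) ∈ pole_linear_S g δ := by rw [h]; trivial
    have h2 : δ ∣ lin g (Pi.single j₀ 1) := this
    rw [pole_linear_single] at h2
    exact hj₀ h2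
  have hli := h3 k₁ k₂ k₃ h12 h13 h23
  have hfs : Module.finrank ℂ (Submodule.span ℂ (Set.range ![z k₁, z k₂, z k₃])) = 3 := by
    rw [finrank_span_eq_card hli]; simp
  have hsub : Submodule.span ℂ (Set.range ![z k₁, z k₂, z k₃]) ≤ pole_linear_S g δ := by
    rw [Submodule.span_le]
    rintro _ ⟨i, rfl⟩
    fin_cases i
    · exact hA k₁ hk₁
    · exact hA k₂ hk₂
    · exact hA k₃ hk₃
  have hSspan : Submodule.span ℂ (Set.range ![z k₁, z k₂, z k₃]) = pole_linear_S g δ := by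
    apply Submodule.eq_of_le_of_finrank_le hsub
    have h := Submodule.finrank_lt hST
    rw [Module.finrank_fin_fun] at h
    rw [hfs]; omega
  -- the normal vector
  obtain ⟨η, hη0, hη⟩ : ∃ η : Fin 4 → ℂ, η ≠ 0 ∧ ∀ i : Fin 3, η ⬝ᵥ (![z k₁, z k₂, z k₃] i) = 0 := by
    have hker := LinearMap.ker_ne_bot_of_finrank_lt
      (f := Matrix.mulVecLin (Matrix.of ![z k₁, z k₂, z k₃]))
      (by rw [Module.finrank_fin_fun, Module.finrank_fin_fun]; norm_num)
    obtain ⟨η, hη1, hη2⟩ := (Submodule.ne_bot_iff _).mp hker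
    refine ⟨η, hη2, fun i => ?_⟩
    have h := congrFun (LinearMap.mem_ker.mp hη1) i
    rw [Matrix.mulVecLin_apply] at h
    rw [dotProduct_comm]
    exact h
  have hTT : pole_linear_T η ≠ ⊤ := by
    intro h
    apply hη0
    funext j
    have h1 : (Pi.single j 1 : Fin 4 → ℂ) ∈ pole_linear_T η := by rw [h]; trivial
    have h2 : η ⬝ᵥ (Pi.single j 1 : Fin 4 → ℂ) = 0 := h1
    rw [dotProduct_single, mul_one] at h2
    exact h2
  have hsubT : Submodule.span ℂ (Set.range ![z k₁, z k₂, z k₃]) ≤ pole_linear_T η := by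
    rw [Submodule.span_le]
    rintro _ ⟨i, rfl⟩
    exact hη i
  have hTspan : Submodule.span ℂ (Set.range ![z k₁, z k₂, z k₃]) = pole_linear_T η := by
    apply Submodule.eq_of_le_of_finrank_le hsubT
    have h := Submodule.finrank_lt hTT
    rw [Module.finrank_fin_fun] at h
    rw [hfs]; omega
  have hST' : pole_linear_S g δ = pole_linear_T η := hSspan.symm.trans hTspan
  refine ⟨η, hη0, ?_, fun k hk => ?_⟩
  swap
  · have h := hA k hk
    rw [hST'] at h
    exact h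
  obtain ⟨j₁, hj₁⟩ := Function.ne_iff.mp hη0
  have hj₁' : η j₁ ≠ 0 := hj₁
  set e : Fin 4 → ℂ := (η j₁)⁻¹ • Pi.single j₁ 1 with he
  have hηe : η ⬝ᵥ e = 1 := by
    rw [he, dotProduct_smul, dotProduct_single, mul_one, smul_eq_mul, inv_mul_cancel₀ hj₁']
  have hgj : ∀ j, δ ∣ g j - C (η j) * lin g e := by
    intro j
    have h1 : (Pi.single j 1 : Fin 4 → ℂ) + (-(η j)) • e ∈ pole_linear_T η := by
      show η ⬝ᵥ ((Pi.single j 1 : Fin 4 → ℂ) + (-(η j)) • e) = 0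
      rw [dotProduct_add, dotProduct_smul, hηe, dotProduct_single, smul_eq_mul]
      ring
    rw [← hST'] at h1
    have h2 : δ ∣ lin g ((Pi.single j 1 : Fin 4 → ℂ) + (-(η j)) • e) := h1
    rw [pole_linear_add, pole_linear_smul, pole_linear_single, C_neg] at h2
    have e2 : g j - C (η j) * lin g e = g j + -C (η j) * lin g e := by ring
    rw [e2]; exact h2
  have hsum : δ ∣ C c * Q - lf η * lin g e := by
    have e1 : C c * Q - lf η * lin g e = ∑ j, (g j - C (η j) * lin g e) * X j := by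
      rw [← hg]
      unfold lf
      rw [Finset.sum_mul, ← Finset.sum_sub_distrib]
      exact Finset.sum_congr rfl fun j _ => by ring
    rw [e1]
    exact Finset.dvd_sum fun j _ => Dvd.dvd.mul_right (hgj j) _
  have hdl : δ ∣ lf η * lin g e := by
    have h1 : δ ∣ C c * Q := Dvd.dvd.mul_left hδQ _
    have h2 := dvd_sub h1 hsum
    rwa [sub_sub_cancel] at h2
  have hne : ¬ δ ∣ lin g e := by
    intro h
    apply hj₀
    have h1 : δ ∣ C (η j₀) * lin g e := Dvd.dvd.mul_left h _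
    have h2 := dvd_add (hgj j₀) h1
    rwa [sub_add_cancel] at h2
  have hdη : δ ∣ lf η := (hδp.dvd_or_dvd hdl).resolve_right hne
  obtain ⟨u, hu⟩ := hdη
  have hlf0 : lf η ≠ 0 := by
    intro h
    have h1 := congrArg (eval (Pi.single j₁ 1)) h
    rw [eval_lf, dotProduct_single, mul_one, map_zero] at h1
    exact hj₁' h1
  have hδ0 : δ ≠ 0 := hδ.ne_zero
  have hu0 : u ≠ 0 := by
    rintro rfl
    rw [mul_zero] at hu
    exact hlf0 hu
  have hdeg : (lf η).totalDegree ≤ 1 := by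
    unfold lf
    refine totalDegree_finsetSum_le fun i _ => ?_
    refine (totalDegree_mul _ _).trans ?_
    rw [totalDegree_C, totalDegree_X]
  have hd1 : (lf η).totalDegree = δ.totalDegree + u.totalDegree := by
    rw [hu]; exact totalDegree_mul_of_isDomain hδ0 hu0
  have hδd : δ.totalDegree ≠ 0 := by
    intro h
    rw [totalDegree_eq_zero_iff_eq_C] at h
    apply hδ.not_isUnit
    rw [h]
    apply IsUnit.map
    rw [isUnit_iff_ne_zero]
    intro h0
    rw [h0, C_0] at h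
    exact hδ0 h
  have hud : u.totalDegree = 0 := by omega
  have huU : IsUnit u := by
    rw [totalDegree_eq_zero_iff_eq_C] at hud
    rw [hud]
    apply IsUnit.map
    rw [isUnit_iff_ne_zero]
    intro h0
    rw [h0, C_0] at hud
    exact hu0 hud
  rw [hu]
  exact (associated_mul_unit_right δ u huU)

theorem aux_DD_pow {d : ℕ} (z η : Fin d → ℂ) (n : ℕ) :
    DD z (lf η ^ (n + 1)) = C (((n : ℂ) + 1) * (η ⬝ᵥ z)) * lf η ^ n := by
  induction n with
  | zero => simp [DD_lf]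
  | succ n ih =>
    rw [pow_succ, DD_mul, ih, DD_lf]
    push_cast
    simp only [map_mul, map_add, map_one]
    ring

theorem aux_DD_pow_zero {d : ℕ} (z η : Fin d → ℂ) (n : ℕ) (h : η ⬝ᵥ z = 0) :
    DD z (lf η ^ n) = 0 := by
  cases n with
  | zero => simp [DD]
  | succ n => rw [aux_DD_pow, h]; simp

theorem aux_lin_add {d : ℕ} (g : Fin d → MvPolynomial (Fin d) ℂ) (x y : Fin d → ℂ) :
    lin g (x + y) = lin g x + lin g y := by
  simp only [lin, Pi.add_apply, map_add, mul_add, Finset.sum_add_distrib]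

theorem aux_lin_smul {d : ℕ} (g : Fin d → MvPolynomial (Fin d) ℂ) (c : ℂ) (x : Fin d → ℂ) :
    lin g (c • x) = C c * lin g x := by
  simp only [lin, Pi.smul_apply, smul_eq_mul, map_mul, Finset.mul_sum]
  refine Finset.sum_congr rfl fun i _ => ?_
  ring

theorem aux_lin_zero {d : ℕ} (g : Fin d → MvPolynomial (Fin d) ℂ) : lin g 0 = 0 := by
  simp [lin]

theorem aux_lin_single {d : ℕ} (g : Fin d → MvPolynomial (Fin d) ℂ) (j : Fin d) :
    lin g (Pi.single j 1) = g j := by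
  unfold lin
  rw [Finset.sum_eq_single j]
  · simp
  · intro b _ hb
    simp [Pi.single_apply, hb]
  · simp

theorem aux_span_top {K : Type} (z : K → Fin 4 → ℂ)
    (hsp : ∀ η : Fin 4 → ℂ, (∀ k, η ⬝ᵥ z k = 0) → η = 0) :
    Submodule.span ℂ (Set.range z) = ⊤ := by
  by_contra hne
  obtain ⟨f, hf0, hf⟩ := Submodule.exists_le_ker_of_lt_top _ (lt_top_iff_ne_top.mpr hne)
  apply hf0
  have hfx : ∀ x : Fin 4 → ℂ, f x = (fun i => f (Pi.single i 1)) ⬝ᵥ x := by
    intro x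
    have hx : x = ∑ i, x i • (Pi.single i (1 : ℂ) : Fin 4 → ℂ) := by
      ext j
      simp [Finset.sum_apply, Pi.single_apply]
    conv_lhs => rw [hx]
    rw [map_sum]
    simp only [map_smul, smul_eq_mul, dotProduct]
    refine Finset.sum_congr rfl fun i _ => ?_
    ring
  have h0 := hsp (fun i => f (Pi.single i 1)) (fun k => by
    rw [← hfx]
    exact hf (Submodule.subset_span ⟨k, rfl⟩))
  refine LinearMap.ext fun x => ?_
  rw [hfx, h0]
  simp

/-- poles are simple, and their residues -/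
theorem pole_simple {K : Type} [Fintype K] (z : K → Fin 4 → ℂ)
    (hsp : ∀ η : Fin 4 → ℂ, (∀ k, η ⬝ᵥ z k = 0) → η = 0)
    (l : K → MvPolynomial (Fin 4) ℂ) (hl0 : ∀ k, l k ≠ 0) (Q : MvPolynomial (Fin 4) ℂ)
    (g : Fin 4 → MvPolynomial (Fin 4) ℂ)
    (hs : ∀ k, Q * DD (z k) (l k) = lin g (z k) * l k)
    (η : Fin 4 → ℂ) (hη : Irreducible (lf η)) (hQ : Q ≠ 0) (hηQ : lf η ∣ Q)
    (hp : ∃ j, ¬ lf η ∣ g j) (hW : ∀ k, ¬ lf η ∣ l k → η ⬝ᵥ z k = 0)
    (k₁ k₂ k₃ : K) (hi : LinearIndependent ℂ ![z k₁, z k₂, z k₃])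
    (hk₁ : ¬ lf η ∣ l k₁) (hk₂ : ¬ lf η ∣ l k₂) (hk₃ : ¬ lf η ∣ l k₃) :
    ∃ (μ : ℕ) (Q' : MvPolynomial (Fin 4) ℂ), 1 ≤ μ ∧ Q = lf η * Q' ∧ ¬ lf η ∣ Q' ∧
      (∀ k, η ⬝ᵥ z k ≠ 0 → ∃ ν, l k = lf η ^ μ * ν ∧ ¬ lf η ∣ ν) ∧
      ∀ x : Fin 4 → ℂ, lf η ∣ lin g x - C ((μ : ℂ) * (η ⬝ᵥ x)) * Q' := by
  have hπ : Prime (lf η) := hη.prime
  -- powers
  obtain ⟨r, Q1, hQ1, hQeq⟩ := WfDvdMonoid.max_power_factor hQ hη
  have hr : r ≠ 0 := by
    rintro rfl
    rw [pow_zero, one_mul] at hQeq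
    exact hQ1 (hQeq ▸ hηQ)
  obtain ⟨r', rfl⟩ := Nat.exists_eq_succ_of_ne_zero hr
  replace hQeq : Q = lf η ^ (r' + 1) * Q1 := hQeq
  have hπ0 : lf η ≠ 0 := hη.ne_zero
  -- (A)
  have hA : ∀ k, η ⬝ᵥ z k = 0 → lf η ∣ lin g (z k) := by
    intro k hk
    obtain ⟨m, ν, hν, hl⟩ := WfDvdMonoid.max_power_factor (hl0 k) hη
    have h1 := hs k
    rw [hl, DD_mul, aux_DD_pow_zero _ _ _ hk, zero_mul, zero_add] at h1
    have h2 : lf η ^ m * (Q * DD (z k) ν) = lf η ^ m * (lin g (z k) * ν) := by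
      linear_combination h1
    have h3 := mul_left_cancel₀ (pow_ne_zero m hπ0) h2
    have h4 : lf η ∣ lin g (z k) * ν := by
      rw [← h3]
      exact Dvd.dvd.mul_right hηQ _
    rcases hπ.dvd_or_dvd h4 with h5 | h5
    · exact h5
    · exact absurd h5 hν
  -- (B)
  have hB : ∀ k, η ⬝ᵥ z k ≠ 0 → ∃ (n : ℕ) (ν : MvPolynomial (Fin 4) ℂ),
      l k = lf η ^ (n + 1) * ν ∧ ¬ lf η ∣ ν ∧
      lf η ^ r' * Q1 * (C (((n : ℂ) + 1) * (η ⬝ᵥ z k)) * ν + lf η * DD (z k) ν) =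
        lin g (z k) * ν := by
    intro k hk
    obtain ⟨m, ν, hν, hl⟩ := WfDvdMonoid.max_power_factor (hl0 k) hη
    have hm : m ≠ 0 := by
      rintro rfl
      rw [pow_zero, one_mul] at hl
      exact hk (hW k (hl ▸ hν))
    obtain ⟨n, rfl⟩ := Nat.exists_eq_succ_of_ne_zero hm
    refine ⟨n, ν, hl, hν, ?_⟩
    have h1 := hs k
    rw [hl, DD_mul, Nat.succ_eq_add_one, aux_DD_pow, hQeq] at h1
    have h2 : lf η ^ (n + 1) * (lf η ^ r' * Q1 *
        (C (((n : ℂ) + 1) * (η ⬝ᵥ z k)) * ν + lf η * DD (z k) ν)) =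
        lf η ^ (n + 1) * (lin g (z k) * ν) := by
      linear_combination h1
    exact mul_left_cancel₀ (pow_ne_zero _ hπ0) h2
  have hspan := aux_span_top z hsp
  -- r = 1
  have hr1 : r' = 0 := by
    by_contra hr'
    obtain ⟨r'', rfl⟩ := Nat.exists_eq_succ_of_ne_zero hr'
    have hall : ∀ k, lf η ∣ lin g (z k) := by
      intro k
      by_cases hk : η ⬝ᵥ z k = 0
      · exact hA k hk
      · obtain ⟨n, ν, -, hν, h1⟩ := hB k hk
        have h4 : lf η ∣ lin g (z k) * ν := by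
          rw [← h1, Nat.succ_eq_add_one, pow_succ]
          exact ⟨lf η ^ r'' * Q1 * (C (((n : ℂ) + 1) * (η ⬝ᵥ z k)) * ν + lf η * DD (z k) ν),
            by ring⟩
        rcases hπ.dvd_or_dvd h4 with h5 | h5
        · exact h5
        · exact absurd h5 hν
    obtain ⟨j, hj⟩ := hp
    apply hj
    rw [← aux_lin_single g j]
    have hmem : (Pi.single j (1 : ℂ) : Fin 4 → ℂ) ∈ Submodule.span ℂ (Set.range z) := by
      rw [hspan]; trivial
    refine Submodule.span_induction (p := fun x _ => lf η ∣ lin g x) ?_ ?_ ?_ ?_ hmem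
    · rintro _ ⟨k, rfl⟩
      exact hall k
    · rw [aux_lin_zero]; exact dvd_zero _
    · intro x y _ _ hx hy
      rw [aux_lin_add]; exact dvd_add hx hy
    · intro a x _ hx
      rw [aux_lin_smul]; exact Dvd.dvd.mul_left hx _
  subst hr1
  -- k0
  have hη0 : η ≠ 0 := by
    rintro rfl
    apply hπ0
    simp [lf]
  obtain ⟨k0, hk0⟩ : ∃ k, η ⬝ᵥ z k ≠ 0 := by
    by_contra hcon
    push Not at hcon
    exact hη0 (hsp η hcon)
  have hC : ∀ k (hk : η ⬝ᵥ z k ≠ 0), ∃ (n : ℕ) (ν : MvPolynomial (Fin 4) ℂ),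
      l k = lf η ^ (n + 1) * ν ∧ ¬ lf η ∣ ν ∧
      lf η ∣ lin g (z k) - C (((n : ℂ) + 1) * (η ⬝ᵥ z k)) * Q1 := by
    intro k hk
    obtain ⟨n, ν, hl, hν, h1⟩ := hB k hk
    refine ⟨n, ν, hl, hν, ?_⟩
    have h4 : lf η ∣ (lin g (z k) - C (((n : ℂ) + 1) * (η ⬝ᵥ z k)) * Q1) * ν := by
      refine ⟨Q1 * DD (z k) ν, ?_⟩
      rw [pow_zero, one_mul] at h1
      linear_combination -h1
    rcases hπ.dvd_or_dvd h4 with h5 | h5
    · exact h5
    · exact absurd h5 hν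
  obtain ⟨n0, ν0, hl0', hν0, hd0⟩ := hC k0 hk0
  have hz1 := hW k₁ hk₁
  have hz2 := hW k₂ hk₂
  have hz3 := hW k₃ hk₃
  -- all x
  have hall : ∀ x : Fin 4 → ℂ, lf η ∣ lin g x - C (((n0 : ℂ) + 1) * (η ⬝ᵥ x)) * Q1 := by
    intro x
    have hli : LinearIndependent ℂ (Fin.cons (z k0) ![z k₁, z k₂, z k₃] : Fin 4 → Fin 4 → ℂ) := by
      rw [linearIndependent_finCons]
      refine ⟨hi, fun hmem => hk0 ?_⟩
      refine Submodule.span_induction (p := fun x _ => η ⬝ᵥ x = 0) ?_ ?_ ?_ ?_ hmem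
      · rintro _ ⟨i, rfl⟩
        fin_cases i
        · exact hz1
        · exact hz2
        · exact hz3
      · simp
      · intro x y _ _ hx hy
        rw [dotProduct_add, hx, hy, add_zero]
      · intro a x _ hx
        rw [dotProduct_smul, hx, smul_zero]
    have htop := hli.span_eq_top_of_card_eq_finrank (by simp)
    have hmem : x ∈ Submodule.span ℂ (Set.range
        (Fin.cons (z k0) ![z k₁, z k₂, z k₃] : Fin 4 → Fin 4 → ℂ)) := by
      rw [htop]; trivial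
    refine Submodule.span_induction
      (p := fun x _ => lf η ∣ lin g x - C (((n0 : ℂ) + 1) * (η ⬝ᵥ x)) * Q1) ?_ ?_ ?_ ?_ hmem
    · rintro _ ⟨i, rfl⟩
      have hzero : ∀ k, η ⬝ᵥ z k = 0 →
          lf η ∣ lin g (z k) - C (((n0 : ℂ) + 1) * (η ⬝ᵥ z k)) * Q1 := by
        intro k hk
        rw [hk, mul_zero, map_zero, zero_mul, sub_zero]
        exact hA k hk
      fin_cases i
      · exact hd0
      · exact hzero _ hz1
      · exact hzero _ hz2
      · exact hzero _ hz3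
    · rw [aux_lin_zero]; simp
    · intro x y _ _ hx hy
      have e : lin g (x + y) - C (((n0 : ℂ) + 1) * (η ⬝ᵥ (x + y))) * Q1 =
          (lin g x - C (((n0 : ℂ) + 1) * (η ⬝ᵥ x)) * Q1) +
          (lin g y - C (((n0 : ℂ) + 1) * (η ⬝ᵥ y)) * Q1) := by
        rw [aux_lin_add, dotProduct_add, mul_add, map_add]; ring
      rw [e]; exact dvd_add hx hy
    · intro a x _ hx
      have e : lin g (a • x) - C (((n0 : ℂ) + 1) * (η ⬝ᵥ (a • x))) * Q1 =
          C a * (lin g x - C (((n0 : ℂ) + 1) * (η ⬝ᵥ x)) * Q1) := by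
        rw [aux_lin_smul, dotProduct_smul, smul_eq_mul]
        simp only [map_mul]
        ring
      rw [e]; exact Dvd.dvd.mul_left hx _
  refine ⟨n0 + 1, Q1, by omega, ?_, hQ1, ?_, ?_⟩
  · rw [hQeq]; simp
  · intro k hk
    obtain ⟨n, ν, hl, hν, hd⟩ := hC k hk
    have h1 := dvd_sub (hall (z k)) hd
    have e : (lin g (z k) - C (((n0 : ℂ) + 1) * (η ⬝ᵥ z k)) * Q1) -
        (lin g (z k) - C (((n : ℂ) + 1) * (η ⬝ᵥ z k)) * Q1) =
        C (((n : ℂ) - n0) * (η ⬝ᵥ z k)) * Q1 := by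
      have : C (((n : ℂ) - n0) * (η ⬝ᵥ z k)) =
          C (((n : ℂ) + 1) * (η ⬝ᵥ z k)) - (C (((n0 : ℂ) + 1) * (η ⬝ᵥ z k)) :
            MvPolynomial (Fin 4) ℂ) := by
        rw [← map_sub]; congr 1; ring
      rw [this]; ring
    rw [e] at h1
    have h2 : ((n : ℂ) - n0) * (η ⬝ᵥ z k) = 0 := by
      by_contra hne
      rcases hπ.dvd_or_dvd h1 with h3 | h3
      · have hu : IsUnit (C (((n : ℂ) - n0) * (η ⬝ᵥ z k)) : MvPolynomial (Fin 4) ℂ) :=
          (isUnit_iff_ne_zero.mpr hne).map C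
        exact hη.not_isUnit (isUnit_of_dvd_unit h3 hu)
      · exact hQ1 h3
    have h3 : n = n0 := by
      rcases mul_eq_zero.mp h2 with h4 | h4
      · exact_mod_cast sub_eq_zero.mp h4
      · exact absurd h4 hk
    subst h3
    exact ⟨ν, hl, hν⟩
  · intro x
    have := hall x
    push_cast
    exact this

end Pool.Agent.Helper947.Geo
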