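import Pool.Agent.Helper947.Geo.G5a

set_option autoImplicit false
open MvPolynomial

namespace Pool.Agent.Helper947.Geo

theorem s_deriv {K : Type} [Fintype K] (c A B : K → ℂ) (m : ℕ)
    (h : ∀ t : ℂ, ∑ k, c k * (A k + t * B k) ^ (m + 1) = 0) :
    ∑ k, (c k * B k) * A k ^ m = 0 := by
  set p : Polynomial ℂ := ∑ k, Polynomial.C (c k) *
    (Polynomial.C (A k) + Polynomial.X * Polynomial.C (B k)) ^ (m + 1) with hp
  have hp0 : p = 0 := by
    apply Polynomial.funext
    intro t
    rw [Polynomial.eval_zero, ← h t, hp, Polynomial.eval_finsetSum]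
    apply Finset.sum_congr rfl
    intro k _
    simp only [Polynomial.eval_mul, Polynomial.eval_C, Polynomial.eval_pow, Polynomial.eval_add,
      Polynomial.eval_X]
  have hd : (Polynomial.derivative p).eval 0 = 0 := by
    rw [hp0]
    simp
  have he : (Polynomial.derivative p).eval 0 = (m + 1) * ∑ k, (c k * B k) * A k ^ m := by
    rw [hp, Polynomial.derivative_sum, Polynomial.eval_finsetSum, Finset.mul_sum]
    apply Finset.sum_congr rfl
    intro k _
    simp [Polynomial.derivative_pow]
    ring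
  rw [he] at hd
  rcases mul_eq_zero.mp hd with h1 | h1
  · exfalso
    have : ((m + 1 : ℕ) : ℂ) = 0 := by push_cast; exact h1
    exact Nat.cast_ne_zero.mpr (Nat.succ_ne_zero m) this
  · exact h1

theorem s_mono {N : ℕ} {K : Type} [Fintype K] (w : K → Fin N → ℂ) :
    ∀ (m : ℕ) (c : K → ℂ) (_ : ∀ η : Fin N → ℂ, ∑ k, c k * (w k ⬝ᵥ η) ^ m = 0)
      (α : Fin N →₀ ℕ), ∑ i, α i = m → ∑ k, c k * ∏ i, w k i ^ α i = 0 := by
  intro m
  induction m with
  | zero =>
    intro c h α hα
    have h0 : ∀ i, α i = 0 := by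
      intro i
      have := Finset.sum_eq_zero_iff.mp hα i (Finset.mem_univ _)
      exact this
    have := h 0
    simpa [h0] using this
  | succ m ih =>
    intro c h α hα
    obtain ⟨i, hi⟩ : ∃ i, α i ≠ 0 := by
      by_contra hcon
      push Not at hcon
      simp [hcon] at hα
    have hc' : ∀ η : Fin N → ℂ, ∑ k, (c k * w k i) * (w k ⬝ᵥ η) ^ m = 0 := by
      intro η
      apply s_deriv c (fun k => w k ⬝ᵥ η) (fun k => w k i) m
      intro t
      rw [← h (η + t • Pi.single i 1)]
      apply Finset.sum_congr rfl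
      intro k _
      rw [dotProduct_add, dotProduct_smul, dotProduct_single]
      simp
    set β : Fin N →₀ ℕ := α - Finsupp.single i 1 with hβdef
    have hβ := ih _ hc' β (by
      have h1 : ∑ j, β j + ∑ j, (Finsupp.single i 1 : Fin N →₀ ℕ) j =
          ∑ j, α j := by
        rw [← Finset.sum_add_distrib]
        apply Finset.sum_congr rfl
        intro j _
        rw [hβdef, Finsupp.tsub_apply]
        by_cases hj : i = j
        · subst hj
          rw [Finsupp.single_eq_same]
          omega
        · rw [Finsupp.single_apply, if_neg hj]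
          omega
      have h2 : ∑ j, (Finsupp.single i 1 : Fin N →₀ ℕ) j = 1 := by
        simp [Finsupp.single_apply]
      omega)
    rw [← hβ]
    apply Finset.sum_congr rfl
    intro k _
    rw [mul_assoc]
    congr 1
    have h3 : ∏ j, w k j ^ α j = ∏ j, (w k j ^ (Finsupp.single i 1 : Fin N →₀ ℕ) j *
        w k j ^ β j) := by
      apply Finset.prod_congr rfl
      intro j _
      rw [← pow_add]
      congr 1
      rw [hβdef, Finsupp.tsub_apply]
      by_cases hj : i = j
      · subst hj
        rw [Finsupp.single_eq_same]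
        omega
      · rw [Finsupp.single_apply, if_neg hj]
        omega
    rw [h3, Finset.prod_mul_distrib]
    congr 1
    rw [Finset.prod_eq_single i]
    · simp
    · intro b _ hb
      rw [Finsupp.single_apply, if_neg (Ne.symm hb), pow_zero]
    · intro hcon
      exact absurd (Finset.mem_univ _) hcon

/-- polarization -/
theorem polarize {N : ℕ} {K : Type} [Fintype K] (w : K → Fin N → ℂ) (m : ℕ) (c : K → ℂ)
    (h : ∀ η : Fin N → ℂ, ∑ k, c k * (w k ⬝ᵥ η) ^ m = 0) : c ∈ evRel w m := by
  intro f hf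
  simp only [MvPolynomial.eval_eq', Finset.mul_sum]
  rw [Finset.sum_comm]
  apply Finset.sum_eq_zero
  intro α hα
  have h1 : ∑ i, α i = m := by
    have := hf (MvPolynomial.mem_support_iff.mp hα)
    rw [Finsupp.weight_apply, Finsupp.sum_fintype _ _ (fun i => by simp)] at this
    simpa using this
  have h2 := s_mono w m c h α h1
  calc ∑ k, c k * (coeff α f * ∏ i, w k i ^ α i)
      = coeff α f * ∑ k, c k * ∏ i, w k i ^ α i := by
        rw [Finset.mul_sum]
        apply Finset.sum_congr rfl
        intro k _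
        ring
    _ = 0 := by rw [h2, mul_zero]

lemma finrank_evRel_aux_smul {N m : ℕ} {f : MvPolynomial (Fin N) ℂ} (hf : f.IsHomogeneous m)
    (t : ℂ) (w : Fin N → ℂ) : eval (t • w) f = t ^ m * eval w f := by
  rw [eval_eq, eval_eq, Finset.mul_sum]
  refine Finset.sum_congr rfl fun d hd => ?_
  have hd' : coeff d f ≠ 0 := mem_support_iff.1 hd
  have h1 : d.degree = m := by
    have h := hf hd'
    have h2 : Finsupp.degree d = Finsupp.weight (1 : Fin N → ℕ) d := by
      have := DFunLike.congr_fun (Finsupp.degree_eq_weight_one (R := ℕ) (σ := Fin N)) d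
      exact this
    rw [h2]
    exact h
  have h2 : ∏ i, (t • w) i ^ d i = t ^ m * ∏ i, w i ^ d i := by
    simp only [Pi.smul_apply, smul_eq_mul, mul_pow, Finset.prod_mul_distrib]
    congr 1
    rw [Finset.prod_pow_eq_pow_sum, ← h1, Finsupp.degree_eq_sum]
  have h3 : ∀ v : Fin N → ℂ, ∏ i ∈ d.support, v i ^ d i = ∏ i, v i ^ d i := by
    intro v
    refine Finset.prod_subset (Finset.subset_univ _) fun i _ hi => ?_
    rw [Finsupp.notMem_support_iff.1 hi, pow_zero]
  rw [h3, h3, h2]
  ring

/-- rank and nullity -/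
theorem finrank_evRel {N : ℕ} {K : Type} [Fintype K] (w : K → Fin N → ℂ) (m : ℕ)
    (I : Ideal (MvPolynomial (Fin N) ℂ)) (hI : IsVan w I) :
    Module.finrank ℂ (evRel w m) + Module.finrank ℂ (homogeneousSubmodule (Fin N) ℂ m) =
      Fintype.card K + Module.finrank ℂ
        ↥(homogeneousSubmodule (Fin N) ℂ m ⊓ I.restrictScalars ℂ) := by
  classical
  set V := homogeneousSubmodule (Fin N) ℂ m with hV
  haveI : Module.Finite ℂ V := Module.Finite.iff_fg.2 (homogeneousSubmodule_fg (Fin N) ℂ m)
  let ev : V →ₗ[ℂ] (K → ℂ) :=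
    LinearMap.pi (fun k => (MvPolynomial.aeval (w k)).toLinearMap.comp V.subtype)
  have hev : ∀ (f : V) (k : K), ev f k = eval (w k) f.1 := by
    intro f k
    change (MvPolynomial.aeval (w k)) f.1 = _
    rw [MvPolynomial.aeval_eq_eval]
  have h1 := LinearMap.finrank_range_add_finrank_ker ev
  have hker : (LinearMap.ker ev).map V.subtype = V ⊓ I.restrictScalars ℂ := by
    ext f
    constructor
    · rintro ⟨g, hg, rfl⟩
      refine ⟨g.2, ?_⟩
      change g.1 ∈ I
      rw [hI]
      intro k t
      rw [finrank_evRel_aux_smul g.2, ← hev]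
      have : ev g = 0 := hg
      rw [this]
      simp
    · rintro ⟨hf1, hf2⟩
      refine ⟨⟨f, hf1⟩, ?_, rfl⟩
      change ev ⟨f, hf1⟩ = 0
      funext k
      rw [hev]
      change f ∈ I at hf2
      have := (hI f).1 hf2 k 1
      rwa [one_smul] at this
  have h2 : Module.finrank ℂ (LinearMap.ker ev) =
      Module.finrank ℂ ↥(V ⊓ I.restrictScalars ℂ) := by
    rw [← hker, Submodule.finrank_map_subtype_eq]
  have h3 := Subspace.finrank_add_finrank_dualAnnihilator_eq (LinearMap.range ev)
  have hann : (evRel w m).map (dotProductEquiv ℂ K).toLinearMap =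
      (LinearMap.range ev).dualAnnihilator := by
    ext φ
    constructor
    · rintro ⟨c, hc, rfl⟩
      rw [Submodule.mem_dualAnnihilator]
      rintro v ⟨f, rfl⟩
      have := hc f.1 f.2
      change c ⬝ᵥ (ev f) = 0
      unfold dotProduct
      simp only [hev]
      exact this
    · intro hφ
      rw [Submodule.mem_dualAnnihilator] at hφ
      refine ⟨(dotProductEquiv ℂ K).symm φ, ?_, (dotProductEquiv ℂ K).apply_symm_apply φ⟩
      intro f hf
      have h := hφ (ev ⟨f, hf⟩) ⟨_, rfl⟩
      rw [← (dotProductEquiv ℂ K).apply_symm_apply φ] at h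
      change (dotProductEquiv ℂ K).symm φ ⬝ᵥ (ev ⟨f, hf⟩) = 0 at h
      unfold dotProduct at h
      simp only [hev] at h
      exact h
  have h4 : Module.finrank ℂ (evRel w m) =
      Module.finrank ℂ (LinearMap.range ev).dualAnnihilator := by
    rw [← hann]
    exact (LinearEquiv.finrank_map_eq (dotProductEquiv ℂ K) (evRel w m)).symm
  rw [Module.finrank_fintype_fun_eq_card] at h3
  omega

/-- linear form -/
noncomputable def evL {N : ℕ} (η : Fin N → ℂ) : MvPolynomial (Fin N) ℂ := ∑ i, C (η i) * X i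

theorem evL_hom {N : ℕ} (η : Fin N → ℂ) : (evL η).IsHomogeneous 1 := by
  unfold evL
  apply IsHomogeneous.sum
  intro i _
  have := (isHomogeneous_C (Fin N) (η i)).mul (isHomogeneous_X ℂ i)
  simpa using this

theorem evL_eval {N : ℕ} (η v : Fin N → ℂ) : eval v (evL η) = ∑ i, η i * v i := by
  unfold evL
  simp [map_sum]

theorem ev_sep {N : ℕ} (a b : Fin N → ℂ) (h : LinearIndependent ℂ ![a, b]) :
    ∃ η : Fin N → ℂ, ∑ i, η i * b i = 0 ∧ ∑ i, η i * a i ≠ 0 := by
  have h1 : a ∉ Submodule.span ℂ {b} := by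
    intro hc
    rw [Submodule.mem_span_singleton] at hc
    obtain ⟨t, ht⟩ := hc
    rw [LinearIndependent.pair_iff] at h
    have := h (-1) t (by rw [ht]; simp)
    simp at this
  obtain ⟨f, hf1, hf2⟩ := Submodule.exists_dual_map_eq_bot_of_notMem h1 inferInstance
  have hfb : f b = 0 := by
    have h2 : f b ∈ (Submodule.span ℂ {b}).map f :=
      Submodule.mem_map_of_mem (Submodule.mem_span_singleton_self b)
    rw [hf2] at h2
    exact (Submodule.mem_bot ℂ).mp h2
  have hfx : ∀ v : Fin N → ℂ, ∑ i, f (Pi.single i 1) * v i = f v := by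
    intro v
    conv_rhs => rw [pi_eq_sum_univ' v]
    rw [map_sum]
    refine Finset.sum_congr rfl fun i _ => ?_
    rw [map_smul, smul_eq_mul, mul_comm]
  exact ⟨fun i => f (Pi.single i 1), by rw [hfx]; exact hfb, by rw [hfx]; exact hf1⟩

/-- no relations in large degree -/
theorem evRel_large {N : ℕ} {K : Type} [Fintype K] (w : K → Fin N → ℂ)
    (hw : ∀ k l, k ≠ l → LinearIndependent ℂ ![w k, w l]) (h0 : ∀ k, w k ≠ 0) (m : ℕ)
    (hm : Fintype.card K ≤ m) : evRel w m = ⊥ := by
  classical
  rw [eq_bot_iff]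
  intro c hc
  rw [Submodule.mem_bot]
  funext k
  have hex : ∀ l, ∃ η : Fin N → ℂ, l ≠ k → ∑ i, η i * w l i = 0 ∧ ∑ i, η i * w k i ≠ 0 := by
    intro l
    by_cases hl : l = k
    · exact ⟨0, fun h => absurd hl h⟩
    · obtain ⟨η, h1, h2⟩ := ev_sep (w k) (w l) (hw k l (Ne.symm hl))
      exact ⟨η, fun _ => ⟨h1, h2⟩⟩
  choose η hη using hex
  obtain ⟨i0, hi0⟩ := Function.ne_iff.mp (h0 k)
  have hcard : (Finset.univ.erase k).card = Fintype.card K - 1 := by
    rw [Finset.card_erase_of_mem (Finset.mem_univ k), Finset.card_univ]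
  have hpos : 0 < Fintype.card K := Fintype.card_pos_iff.mpr ⟨k⟩
  set f : MvPolynomial (Fin N) ℂ := (∏ l ∈ Finset.univ.erase k, evL (η l)) *
    evL (Pi.single i0 1) ^ (m - (Fintype.card K - 1)) with hf
  have hfh : f.IsHomogeneous m := by
    have h1 : (∏ l ∈ Finset.univ.erase k, evL (η l)).IsHomogeneous
        (∑ l ∈ Finset.univ.erase k, 1) :=
      IsHomogeneous.prod _ _ _ fun l _ => evL_hom (η l)
    have h2 := (evL_hom (N := N) (Pi.single i0 1)).pow (m - (Fintype.card K - 1))
    have h3 := h1.mul h2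
    rw [Finset.sum_const, hcard, smul_eq_mul, mul_one, one_mul] at h3
    have h4 : Fintype.card K - 1 + (m - (Fintype.card K - 1)) = m := by omega
    rw [h4] at h3
    exact h3
  have h1 := hc f hfh
  rw [Finset.sum_eq_single k] at h1
  · rcases mul_eq_zero.mp h1 with h2 | h2
    · exact h2
    · exfalso
      rw [hf, map_mul, map_prod, map_pow] at h2
      rcases mul_eq_zero.mp h2 with h3 | h3
      · rw [Finset.prod_eq_zero_iff] at h3
        obtain ⟨l, hl, h4⟩ := h3
        rw [evL_eval] at h4
        exact (hη l (Finset.ne_of_mem_erase hl)).2 h4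
      · have h4 := eq_zero_of_pow_eq_zero h3
        rw [evL_eval] at h4
        simp only [Pi.single_apply, ite_mul, one_mul, zero_mul, Finset.sum_ite_eq',
          Finset.mem_univ, if_true] at h4
        exact hi0 h4
  · intro l _ hl
    rw [hf, map_mul, map_prod]
    have h2 : ∏ l' ∈ Finset.univ.erase k, eval (w l) (evL (η l')) = 0 := by
      apply Finset.prod_eq_zero (Finset.mem_erase.mpr ⟨hl, Finset.mem_univ l⟩)
      rw [evL_eval]
      exact (hη l hl).1
    rw [h2, zero_mul, mul_zero]
  · intro h; exact absurd (Finset.mem_univ k) h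

/-- number of monomials -/
theorem finrank_forms (N m : ℕ) : Module.finrank ℂ (homogeneousSubmodule (Fin (N + 1)) ℂ m) =
    (N + m).choose N := by
  classical
  have e0 : ({d : Fin (N + 1) →₀ ℕ | d.degree = m} : Set (Fin (N + 1) →₀ ℕ)) =
      ((Finset.univ : Finset (Fin (N + 1))).finsuppAntidiag m : Set (Fin (N + 1) →₀ ℕ)) := by
    ext d
    simp [Finset.mem_finsuppAntidiag, Finsupp.degree_eq_sum]
  rw [homogeneousSubmodule_eq_finsupp_supported, e0,
    LinearEquiv.finrank_eq (AddMonoidAlgebra.supportedEquivFinsupp (S := ℂ) (R := ℂ)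
      ((Finset.univ : Finset (Fin (N + 1))).finsuppAntidiag m : Set (Fin (N + 1) →₀ ℕ))),
    Module.finrank_finsupp_self]
  simp only [SetLike.coe_sort_coe, Fintype.card_coe]
  rw [Finset.card_finsuppAntidiag_nat_eq_choose]
  rw [Finset.card_univ, Fintype.card_fin]
  rw [show N + 1 + m - 1 = N + m by omega]
  exact Nat.choose_symm_add.symm

theorem num_G (m : ℕ) (k : ℕ) :
    (∑ l ∈ Finset.range m, (Polynomial.X : Polynomial ℤ) ^ l).coeff k = if k < m then 1 else 0 := by
  rw [Polynomial.finset_sum_coeff]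
  simp [Polynomial.coeff_X_pow]

theorem num_deg (m : ℕ) (hm : 2 ≤ m) :
    (∑ l ∈ Finset.range m, (Polynomial.X : Polynomial ℤ) ^ l).natDegree = m - 1 := by
  apply le_antisymm
  · rw [Polynomial.natDegree_le_iff_coeff_eq_zero]
    intro k hk
    rw [num_G, if_neg (by omega)]
  · apply Polynomial.le_natDegree_of_ne_zero
    rw [num_G, if_pos (by omega)]
    exact one_ne_zero

theorem num_next (m : ℕ) (hm : 2 ≤ m) :
    (∑ l ∈ Finset.range m, (Polynomial.X : Polynomial ℤ) ^ l).nextCoeff = 1 := by
  rw [Polynomial.nextCoeff, num_deg m hm, if_neg (by omega), num_G, if_pos (by omega)]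

/-- the numerical consequence of the recursion, for `N - 1` forms in `N` variables -/
theorem numeric (N : ℕ) (a : Fin N → ℕ) (ha : ∀ i, 2 ≤ a i) (H : ℕ → ℕ → ℤ)
    (h0 : ∀ j, H 0 j = ((N + j).choose N : ℕ))
    (hs : ∀ i (hi : i < N) j, H (i + 1) j =
      H i j - (if a ⟨i, hi⟩ ≤ j then H i (j - a ⟨i, hi⟩) else 0)) (n : ℕ)
    (hn : n + (N + 1) = ∑ i, a i) (T : ℤ) (hT : ∃ J, ∀ j, J ≤ j → H N j = T) :
    H N n = T - 1 ∧ (1 ≤ n → H N (n - 1) = T - (N + 1)) := by
  classical
  set G : Fin N → Polynomial ℤ := fun i => ∑ l ∈ Finset.range (a i), Polynomial.X ^ l with hG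
  set p : Polynomial ℤ := ∏ i, G i with hp
  have hmon : ∀ i, (G i).Monic := fun i => Polynomial.monic_geom_sum_X (by have := ha i; omega)
  have hpm : p.Monic := Polynomial.monic_prod_of_monic _ _ fun i _ => hmon i
  have hpd : p.natDegree = n + 1 := by
    rw [hp, Polynomial.natDegree_prod_of_monic _ _ fun i _ => hmon i]
    have h1 : ∑ i, (G i).natDegree = ∑ i, (a i - 1) :=
      Finset.sum_congr rfl fun i _ => num_deg _ (ha i)
    rw [h1]
    have h2 : ∑ i, (a i - 1) + N = ∑ i, a i := by
      have : ∑ i : Fin N, (a i - 1 + 1) = ∑ i, a i :=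
        Finset.sum_congr rfl fun i _ => by have := ha i; omega
      rw [← this, Finset.sum_add_distrib]
      simp
    omega
  have hpn : p.coeff n = N := by
    have h1 : p.nextCoeff = p.coeff n := by
      rw [Polynomial.nextCoeff, hpd, if_neg (by omega)]
      rfl
    rw [← h1, hp, Polynomial.Monic.nextCoeff_prod _ _ fun i _ => hmon i]
    rw [Finset.sum_congr rfl fun i _ => num_next (a i) (ha i)]
    simp
  have hp1 : p.coeff (n + 1) = 1 := by
    rw [← hpd]
    exact hpm
  have hp0 : ∀ j, n + 1 < j → p.coeff j = 0 := by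
    intro j hj
    exact Polynomial.coeff_eq_zero_of_natDegree_lt (by omega)
  -- power series
  have key : ∀ i, i ≤ N → (PowerSeries.mk (H i)) * (1 - PowerSeries.X) ^ (N + 1)
      = ∏ l ∈ Finset.range i, (1 - (PowerSeries.X : PowerSeries ℤ) ^ (if h : l < N then a ⟨l, h⟩ else 1)) := by
    intro i
    induction i with
    | zero =>
      intro _
      rw [Finset.prod_range_zero]
      have e1 : PowerSeries.mk (H 0) = (PowerSeries.mk 1 : PowerSeries ℤ) ^ (N + 1) := by
        rw [PowerSeries.mk_one_pow_eq_mk_choose_add]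
        ext j
        rw [PowerSeries.coeff_mk, PowerSeries.coeff_mk, h0]
      rw [e1, ← mul_pow, PowerSeries.mk_one_mul_one_sub_eq_one, one_pow]
    | succ i ih =>
      intro hi
      have hi' : i < N := hi
      rw [Finset.prod_range_succ, ← ih hi'.le, dif_pos hi']
      have e1 : PowerSeries.mk (H (i + 1)) = PowerSeries.mk (H i)
          - PowerSeries.X ^ (a ⟨i, hi'⟩) * PowerSeries.mk (H i) := by
        ext j
        rw [map_sub, PowerSeries.coeff_X_pow_mul', PowerSeries.coeff_mk, PowerSeries.coeff_mk,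
          PowerSeries.coeff_mk, hs i hi' j]
      rw [e1]
      ring
  have hN := key N le_rfl
  rw [Finset.prod_range] at hN
  have e2 : ∏ i : Fin N, (1 - (PowerSeries.X : PowerSeries ℤ) ^ (if h : (i : ℕ) < N then a ⟨i, h⟩ else 1))
      = (1 - PowerSeries.X) ^ N * (p : PowerSeries ℤ) := by
    have e3 : ∀ i : Fin N, (1 - (PowerSeries.X : PowerSeries ℤ) ^ (if h : (i : ℕ) < N then a ⟨i, h⟩ else 1))
        = (1 - PowerSeries.X) * (G i : PowerSeries ℤ) := by
      intro i
      rw [dif_pos i.2, ← mul_neg_geom_sum]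
      congr 1
      rw [hG]
      simp only [Fin.eta]
      have : ((∑ l ∈ Finset.range (a i), Polynomial.X ^ l : Polynomial ℤ) : PowerSeries ℤ)
          = Polynomial.coeToPowerSeries.ringHom (∑ l ∈ Finset.range (a i), Polynomial.X ^ l) := rfl
      rw [this, map_sum]
      refine Finset.sum_congr rfl fun l _ => ?_
      rw [map_pow]
      simp
    rw [Finset.prod_congr rfl fun i _ => e3 i, Finset.prod_mul_distrib, Finset.prod_const,
      Finset.card_univ, Fintype.card_fin]
    congr 1
    have : (p : PowerSeries ℤ) = Polynomial.coeToPowerSeries.ringHom p := rfl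
    rw [this, hp, map_prod]
    rfl
  rw [e2, pow_succ] at hN
  have hne : ((1 : PowerSeries ℤ) - PowerSeries.X) ^ N ≠ 0 := by
    apply pow_ne_zero
    intro h
    have := congrArg (PowerSeries.coeff 0) h
    simp at this
  have hfin : PowerSeries.mk (H N) * (1 - PowerSeries.X) = (p : PowerSeries ℤ) := by
    apply mul_left_cancel₀ hne
    rw [← hN]
    ring
  have hstep : ∀ j, H N (j + 1) - H N j = p.coeff (j + 1) := by
    intro j
    have := congrArg (PowerSeries.coeff (j + 1)) hfin
    rw [mul_sub, mul_one, map_sub, PowerSeries.coeff_succ_mul_X, PowerSeries.coeff_mk,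
      PowerSeries.coeff_mk, Polynomial.coeff_coe] at this
    exact this
  have hconst : ∀ j, H N (n + 1 + j) = H N (n + 1) := by
    intro j
    induction j with
    | zero => rfl
    | succ j ih =>
      have h1 := hstep (n + 1 + j)
      rw [hp0 _ (by omega)] at h1
      rw [← add_assoc]
      linarith
  obtain ⟨J, hJ⟩ := hT
  have hT' : H N (n + 1) = T := by
    rw [← hconst J]
    exact hJ _ (by omega)
  have h1 := hstep n
  rw [hp1] at h1
  refine ⟨by linarith, fun hn1 => ?_⟩
  have h2 := hstep (n - 1)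
  rw [Nat.sub_add_cancel hn1, hpn] at h2
  linarith

end Pool.Agent.Helper947.Geo
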