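import Pool.Agent.Helper947.Geo.Core3
import Pool.Agent.Helper947.Geo.G5

set_option autoImplicit false
open MvPolynomial

namespace Pool.Agent.Helper947.Geo

theorem cb_part {m a b : ℕ} {F G A B p : MvPolynomial (Fin 3) ℂ} (hF : F.IsHomogeneous a)
    (hG : G.IsHomogeneous b) (hp : p.IsHomogeneous m) (h : A * F + B * G = p) :
    ∃ A' B' : MvPolynomial (Fin 3) ℂ, A' * F + B' * G = p ∧
      (A' = 0 ∨ (a ≤ m ∧ A'.IsHomogeneous (m - a))) ∧
      (B' = 0 ∨ (b ≤ m ∧ B'.IsHomogeneous (m - b))) := by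
  classical
  let _ : GradedAlgebra (homogeneousSubmodule (Fin 3) ℂ) := MvPolynomial.gradedAlgebra
  have e := congrArg (fun q => ((DirectSum.decompose (homogeneousSubmodule (Fin 3) ℂ) q m :
    homogeneousSubmodule (Fin 3) ℂ m) : MvPolynomial (Fin 3) ℂ)) h
  simp only [DirectSum.decompose_add, DirectSum.add_apply, Submodule.coe_add] at e
  rw [DirectSum.coe_decompose_mul_of_right_mem (homogeneousSubmodule (Fin 3) ℂ) m
      (show F ∈ homogeneousSubmodule (Fin 3) ℂ a from hF),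
    DirectSum.coe_decompose_mul_of_right_mem (homogeneousSubmodule (Fin 3) ℂ) m
      (show G ∈ homogeneousSubmodule (Fin 3) ℂ b from hG),
    DirectSum.decompose_of_mem_same (homogeneousSubmodule (Fin 3) ℂ)
      (show p ∈ homogeneousSubmodule (Fin 3) ℂ m from hp)] at e
  refine ⟨if a ≤ m then ((DirectSum.decompose (homogeneousSubmodule (Fin 3) ℂ) A (m - a) :
      homogeneousSubmodule (Fin 3) ℂ (m - a)) : MvPolynomial (Fin 3) ℂ) else 0,
    if b ≤ m then ((DirectSum.decompose (homogeneousSubmodule (Fin 3) ℂ) B (m - b) :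
      homogeneousSubmodule (Fin 3) ℂ (m - b)) : MvPolynomial (Fin 3) ℂ) else 0, ?_, ?_, ?_⟩
  · rw [← e]
    split_ifs <;> simp
  · by_cases ha : a ≤ m
    · right
      rw [if_pos ha]
      exact ⟨ha, (DirectSum.decompose (homogeneousSubmodule (Fin 3) ℂ) A (m - a)).2⟩
    · left
      rw [if_neg ha]
  · by_cases hb : b ≤ m
    · right
      rw [if_pos hb]
      exact ⟨hb, (DirectSum.decompose (homogeneousSubmodule (Fin 3) ℂ) B (m - b)).2⟩
    · left
      rw [if_neg hb]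

theorem cb_eval_smul (f : MvPolynomial (Fin 3) ℂ) (n : ℕ) (hf : f.IsHomogeneous n) (t : ℂ)
    (P : Fin 3 → ℂ) : eval (t • P) f = t ^ n * eval P f := by
  rw [eval_eq', eval_eq', Finset.mul_sum]
  refine Finset.sum_congr rfl fun d hd => ?_
  have hdeg : ∑ i, d i = n := by
    have h := hf (mem_support_iff.1 hd)
    rw [Finsupp.weight_apply, Finsupp.sum_fintype _ _ (by simp)] at h
    simpa using h
  have : ∏ i, (t • P) i ^ d i = t ^ n * ∏ i, P i ^ d i := by
    simp only [Pi.smul_apply, smul_eq_mul, mul_pow, Finset.prod_mul_distrib,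
      Finset.prod_pow_eq_pow_sum, hdeg]
  rw [this]
  ring

theorem cb_lf_hom (η : Fin 3 → ℂ) : (lf η).IsHomogeneous 1 :=
  IsHomogeneous.sum _ _ _ fun _ _ => isHomogeneous_C_mul_X _ _

theorem cb_lf_prime (η x : Fin 3 → ℂ) (h : η ⬝ᵥ x ≠ 0) : Prime (lf η) := by
  have hne : lf η ≠ 0 := by
    intro h0
    apply h
    rw [← eval_lf, h0, map_zero]
  have h1 : (lf η).totalDegree = 1 := (cb_lf_hom η).totalDegree hne
  refine (irreducible_of_totalDegree_eq_one h1 ?_).prime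
  intro c hc
  rw [isUnit_iff_ne_zero]
  rintro rfl
  apply hne
  ext i
  rw [coeff_zero]
  exact zero_dvd_iff.1 (hc i)

theorem cb_forms (w : Fin 3 → ℂ) (hw : w ≠ 0) : ∃ η₁ η₂ : Fin 3 → ℂ, η₁ ⬝ᵥ w = 0 ∧ η₂ ⬝ᵥ w = 0 ∧
    Prime (lf η₁) ∧ ¬ lf η₁ ∣ lf η₂ := by
  obtain ⟨i, hi⟩ : ∃ i, w i ≠ 0 := by
    by_contra hcon
    push Not at hcon
    exact hw (funext hcon)
  have h1 : ∀ j : Fin 3, ∀ x : Fin 3 → ℂ,
      (w i • Pi.single j (1 : ℂ) - w j • Pi.single i (1 : ℂ)) ⬝ᵥ x = w i * x j - w j * x i := by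
    intro j x
    rw [sub_dotProduct, smul_dotProduct, smul_dotProduct, single_dotProduct, single_dotProduct,
      one_mul, one_mul, smul_eq_mul, smul_eq_mul]
  have hij : i + 1 ≠ i := by fin_cases i <;> decide
  have hik : i + 2 ≠ i := by fin_cases i <;> decide
  have hjk : i + 1 ≠ i + 2 := by fin_cases i <;> decide
  refine ⟨w i • Pi.single (i + 1) (1 : ℂ) - w (i + 1) • Pi.single i (1 : ℂ),
    w i • Pi.single (i + 2) (1 : ℂ) - w (i + 2) • Pi.single i (1 : ℂ), ?_, ?_, ?_, ?_⟩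
  · rw [h1]
    ring
  · rw [h1]
    ring
  · apply cb_lf_prime _ (Pi.single (i + 1) 1)
    rw [h1, Pi.single_eq_same, Pi.single_eq_of_ne hij.symm]
    simpa using hi
  · rintro ⟨q, hq⟩
    have h2 := congrArg (eval (Pi.single (i + 2) (1 : ℂ))) hq
    rw [map_mul, eval_lf, eval_lf, h1, h1, Pi.single_eq_same, Pi.single_eq_of_ne hik.symm,
      Pi.single_eq_of_ne hjk] at h2
    apply hi
    simpa using h2

theorem cb_zero {G A C' l₁ l₂ : MvPolynomial (Fin 3) ℂ} {a b m : ℕ} (hG : G.IsHomogeneous b)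
    (hG0 : G ≠ 0) (hl₁ : l₁.IsHomogeneous 1) (hl₂ : l₂.IsHomogeneous 1) (hm : m + 2 = a + b)
    (hA : A = 0 ∨ (a ≤ m ∧ A.IsHomogeneous (m - a)))
    (hC : C' = 0 ∨ (a ≤ m ∧ C'.IsHomogeneous (m - a))) (h : G ∣ l₂ * A - l₁ * C') :
    l₂ * A = l₁ * C' := by
  by_contra hne
  have hne' : l₂ * A - l₁ * C' ≠ 0 := sub_ne_zero.2 hne
  have ham : a ≤ m := by
    rcases hA with hA | hA
    · rcases hC with hC | hC
      · exact absurd (by rw [hA, hC]; simp) hne'
      · exact hC.1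
    · exact hA.1
  have hA' : A.IsHomogeneous (m - a) := by
    rcases hA with hA | hA
    · rw [hA]
      exact isHomogeneous_zero _ _ _
    · exact hA.2
  have hC'' : C'.IsHomogeneous (m - a) := by
    rcases hC with hC | hC
    · rw [hC]
      exact isHomogeneous_zero _ _ _
    · exact hC.2
  have hH : (l₂ * A - l₁ * C').IsHomogeneous (1 + (m - a)) :=
    (hl₂.mul hA').sub (hl₁.mul hC'')
  have hd := hH.totalDegree hne'
  obtain ⟨q, hq⟩ := h
  have hq0 : q ≠ 0 := by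
    rintro rfl
    rw [mul_zero] at hq
    exact hne' hq
  rw [hq, totalDegree_mul_of_isDomain hG0 hq0, hG.totalDegree hG0] at hd
  omega

/-- Cayley-Bacharach for a complete intersection of two plane curves -/
theorem cb {K : Type} [Fintype K] [DecidableEq K] (w : K → Fin 3 → ℂ)
    (h0 : ∀ k, w k ≠ 0)
    (F G : MvPolynomial (Fin 3) ℂ) (a b n : ℕ) (hF : F.IsHomogeneous a) (hG : G.IsHomogeneous b)
    (hF0 : F ≠ 0) (hG0 : G ≠ 0) (hFG : IsRelPrime F G) (hn : n + 3 = a + b)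
    (hI : IsVan w (Ideal.span {F, G})) (f : MvPolynomial (Fin 3) ℂ) (hf : f.IsHomogeneous n)
    (k₀ : K) (h : ∀ k, k ≠ k₀ → eval (w k) f = 0) : eval (w k₀) f = 0 := by
  obtain ⟨η₁, η₂, h1, h2, hp1, hnd⟩ := cb_forms (w k₀) (h0 k₀)
  have hmem : ∀ η : Fin 3 → ℂ, η ⬝ᵥ w k₀ = 0 → lf η * f ∈ Ideal.span {F, G} := by
    intro η hη
    rw [hI]
    intro k t
    rw [map_mul, eval_lf]
    by_cases hk : k = k₀
    · rw [hk, dotProduct_smul, hη, smul_zero, zero_mul]
    · rw [cb_eval_smul f n hf, h k hk, mul_zero, mul_zero]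
  obtain ⟨A₀, B₀, hAB₀⟩ := Ideal.mem_span_pair.1 (hmem η₁ h1)
  obtain ⟨C₀, D₀, hCD₀⟩ := Ideal.mem_span_pair.1 (hmem η₂ h2)
  have hl1 := cb_lf_hom η₁
  have hl2 := cb_lf_hom η₂
  obtain ⟨A, B, hAB, hA, hB⟩ := cb_part hF hG (hl1.mul hf) hAB₀
  obtain ⟨C', D, hCD, hC, hD⟩ := cb_part hF hG (hl2.mul hf) hCD₀
  have hrel : (lf η₂ * A - lf η₁ * C') * F = (lf η₁ * D - lf η₂ * B) * G := by
    linear_combination (lf η₂) * hAB - (lf η₁) * hCD
  have hG1 : G ∣ (lf η₂ * A - lf η₁ * C') * F := by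
    rw [hrel]
    exact dvd_mul_left _ _
  have hG2 : G ∣ lf η₂ * A - lf η₁ * C' := hFG.symm.dvd_of_dvd_mul_right hG1
  have e1 : lf η₂ * A = lf η₁ * C' := cb_zero hG hG0 hl1 hl2 (by omega) hA hC hG2
  have e2 : lf η₁ * D = lf η₂ * B := by
    rw [e1, sub_self, zero_mul] at hrel
    exact sub_eq_zero.1 ((mul_eq_zero.1 hrel.symm).resolve_right hG0)
  have hA1 : lf η₁ ∣ A := by
    have : lf η₁ ∣ lf η₂ * A := by
      rw [e1]
      exact dvd_mul_right _ _
    exact (hp1.dvd_or_dvd this).resolve_left hnd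
  have hB1 : lf η₁ ∣ B := by
    have : lf η₁ ∣ lf η₂ * B := by
      rw [← e2]
      exact dvd_mul_right _ _
    exact (hp1.dvd_or_dvd this).resolve_left hnd
  obtain ⟨A', rfl⟩ := hA1
  obtain ⟨B', rfl⟩ := hB1
  have hf' : f = A' * F + B' * G := by
    apply mul_left_cancel₀ hp1.ne_zero
    rw [← hAB]
    ring
  have hfI : f ∈ Ideal.span {F, G} := Ideal.mem_span_pair.2 ⟨A', B', hf'.symm⟩
  have h3 := (hI f).1 hfI k₀ 1
  rw [one_smul] at h3
  exact h3

/-- all coefficients of the relation are nonzero -/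
theorem cb_nonzero {K : Type} [Fintype K] [DecidableEq K] (w : K → Fin 3 → ℂ)
    (h0 : ∀ k, w k ≠ 0)
    (F G : MvPolynomial (Fin 3) ℂ) (a b n : ℕ) (hF : F.IsHomogeneous a) (hG : G.IsHomogeneous b)
    (hF0 : F ≠ 0) (hG0 : G ≠ 0) (hFG : IsRelPrime F G) (hn : n + 3 = a + b)
    (hI : IsVan w (Ideal.span {F, G})) (h1 : Module.finrank ℂ (evRel w n) = 1)
    (c : K → ℂ) (hc : c ∈ evRel w n) (hc0 : c ≠ 0) : ∀ k, c k ≠ 0 := by
  intro k₀ hk0
  -- every element of evRel vanishes at k₀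
  have hall : ∀ c' ∈ evRel w n, c' k₀ = 0 := by
    intro c' hc'
    have hne : (⟨c, hc⟩ : evRel w n) ≠ 0 := by
      intro h
      exact hc0 (congrArg Subtype.val h)
    obtain ⟨r, hr⟩ := exists_smul_eq_of_finrank_eq_one h1 hne ⟨c', hc'⟩
    have h2 : r • c = c' := congrArg Subtype.val hr
    rw [← h2]
    simp [hk0]
  let ev : MvPolynomial (Fin 3) ℂ →ₗ[ℂ] (K → ℂ) :=
    LinearMap.pi (fun k => (MvPolynomial.aeval (w k) : MvPolynomial (Fin 3) ℂ →ₐ[ℂ] ℂ).toLinearMap)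
  let E : Submodule ℂ (K → ℂ) := (homogeneousSubmodule (Fin 3) ℂ n).map ev
  have hmem : (Pi.single k₀ (1 : ℂ) : K → ℂ) ∈ E := by
    by_contra hnot
    obtain ⟨φ, hφ1, hφ2⟩ := Submodule.exists_le_ker_of_notMem hnot
    have hc' : (fun k => φ (Pi.single k (1 : ℂ))) ∈ evRel w n := by
      intro f hf
      have h2 : ev f ∈ E := Submodule.mem_map_of_mem ((mem_homogeneousSubmodule n f).2 hf)
      have h3 : φ (ev f) = 0 := hφ2 h2
      rw [LinearMap.pi_apply_eq_sum_univ φ (ev f)] at h3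
      rw [← h3]
      apply Finset.sum_congr rfl
      intro k _
      have h4 : ev f k = eval (w k) f := by
        change MvPolynomial.aeval (w k) f = eval (w k) f
        rw [MvPolynomial.aeval_eq_eval]
      have h5 : (fun j => if k = j then (1:ℂ) else 0) = Pi.single k (1 : ℂ) := by
        funext j
        by_cases h : k = j
        · subst h; simp
        · simp [h, Pi.single_apply, Ne.symm h]
      rw [h4, h5, smul_eq_mul, mul_comm]
    exact hφ1 (hall _ hc')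
  obtain ⟨f, hf, hfe⟩ := hmem
  have hf' : f.IsHomogeneous n := (mem_homogeneousSubmodule n f).1 hf
  have hev : ∀ k, eval (w k) f = (Pi.single k₀ (1 : ℂ) : K → ℂ) k := by
    intro k
    rw [← hfe]
    change eval (w k) f = MvPolynomial.aeval (w k) f
    rw [MvPolynomial.aeval_eq_eval]
  have h3 := cb w h0 F G a b n hF hG hF0 hG0 hFG hn hI f hf' k₀ (by
    intro k hk
    rw [hev k]
    simp [hk])
  rw [hev k₀] at h3
  simp at h3

theorem coprime_lf_inj {d : ℕ} (η : Fin d → ℂ) (h : lf η = 0) : η = 0 := by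
  funext i
  have h1 := congrArg (eval (Pi.single i 1)) h
  rw [eval_lf, map_zero] at h1
  rw [dotProduct_single, mul_one] at h1
  exact h1

theorem coprime_lf_ne {d : ℕ} (η : Fin d → ℂ) (hη : η ≠ 0) : lf η ≠ 0 :=
  fun h => hη (coprime_lf_inj η h)

theorem coprime_lf_dvd {d : ℕ} (δ : MvPolynomial (Fin d) ℂ) (hδ : Irreducible δ) (η : Fin d → ℂ)
    (hη : η ≠ 0) (h : δ ∣ lf η) : ∃ c : ℂ, c ≠ 0 ∧ lf η = C c * δ := by
  obtain ⟨q, hq⟩ := h
  have h0 := coprime_lf_ne η hη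
  have hq0 : q ≠ 0 := by
    intro hq0
    rw [hq0, mul_zero] at hq
    exact h0 hq
  have hdeg : (lf η).totalDegree = 1 := by
    refine IsHomogeneous.totalDegree ?_ h0
    unfold lf
    exact IsHomogeneous.sum _ _ _ (fun i _ => isHomogeneous_C_mul_X _ _)
  rw [hq, totalDegree_mul_of_isDomain hδ.ne_zero hq0] at hdeg
  have hδd : δ.totalDegree ≠ 0 := by
    intro hd
    rw [totalDegree_eq_zero_iff_eq_C] at hd
    apply hδ.not_isUnit
    rw [hd]
    refine (isUnit_iff_ne_zero.2 ?_).map C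
    intro hc
    rw [hc, map_zero] at hd
    exact hδ.ne_zero hd
  have hqd : q.totalDegree = 0 := by omega
  rw [totalDegree_eq_zero_iff_eq_C] at hqd
  refine ⟨coeff 0 q, ?_, ?_⟩
  · intro hc
    rw [hc, map_zero] at hqd
    exact hq0 hqd
  · rw [← hqd, hq, mul_comm]

theorem coprime_exists (δ : MvPolynomial (Fin 3) ℂ) (hδ : Irreducible δ) (w : Fin 3 → ℂ) :
    ∃ η : Fin 3 → ℂ, η ⬝ᵥ w = 0 ∧ ¬ δ ∣ lf η := by
  by_contra hcon
  push Not at hcon
  set L : (Fin 3 → ℂ) →ₗ[ℂ] ℂ :=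
    { toFun := fun η => η ⬝ᵥ w
      map_add' := fun a b => add_dotProduct a b w
      map_smul' := fun c a => smul_dotProduct c a w } with hL
  have hrk := LinearMap.finrank_range_add_finrank_ker L
  have hr1 : Module.finrank ℂ (LinearMap.range L) ≤ 1 := by
    have h := Submodule.finrank_le (LinearMap.range L)
    rwa [Module.finrank_self] at h
  rw [Module.finrank_fin_fun] at hrk
  have hk2 : 2 ≤ Module.finrank ℂ (LinearMap.ker L) := by omega
  have hne : LinearMap.ker L ≠ ⊥ := by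
    intro hb
    rw [hb, finrank_bot] at hk2
    omega
  obtain ⟨η1, hη1, hη1'⟩ := Submodule.exists_mem_ne_zero_of_ne_bot hne
  have hη1w : η1 ⬝ᵥ w = 0 := hη1
  obtain ⟨c1, hc1, he1⟩ := coprime_lf_dvd δ hδ η1 hη1' (hcon η1 hη1w)
  have hsub : LinearMap.ker L ≤ Submodule.span ℂ {η1} := by
    intro η2 hη2
    have hη2w : η2 ⬝ᵥ w = 0 := hη2
    by_cases h20 : η2 = 0
    · rw [h20]; exact Submodule.zero_mem _
    · obtain ⟨c2, hc2, he2⟩ := coprime_lf_dvd δ hδ η2 h20 (hcon η2 hη2w)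
      rw [Submodule.mem_span_singleton]
      refine ⟨c2 / c1, ?_⟩
      have h5 : lf ((c2 / c1) • η1 - η2) = 0 := by
        have h6 : lf ((c2 / c1) • η1 - η2) = C (c2 / c1) * lf η1 - lf η2 := by
          unfold lf
          rw [Finset.mul_sum, ← Finset.sum_sub_distrib]
          refine Finset.sum_congr rfl (fun i _ => ?_)
          rw [Pi.sub_apply, Pi.smul_apply, smul_eq_mul, map_sub, map_mul]
          ring
        rw [h6, he1, he2, ← mul_assoc, ← map_mul, div_mul_cancel₀ _ hc1, sub_self]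
      exact sub_eq_zero.1 (coprime_lf_inj _ h5)
  have h7 := Submodule.finrank_mono hsub
  rw [finrank_span_singleton hη1'] at h7
  omega

/-- the two generators have no common factor -/
theorem coprime_of_van {K : Type} [Fintype K] (w : K → Fin 3 → ℂ)
    (F G : MvPolynomial (Fin 3) ℂ) (hI : IsVan w (Ideal.span {F, G})) : IsRelPrime F G := by
  intro h hF hG
  by_contra hu
  obtain ⟨δ, hδ, hδF, hδG⟩ : ∃ δ : MvPolynomial (Fin 3) ℂ, Irreducible δ ∧ δ ∣ F ∧ δ ∣ G := by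
    by_cases h0 : h = 0
    · rw [h0] at hF hG
      rw [zero_dvd_iff] at hF hG
      refine ⟨X 0, (X_prime (i := (0 : Fin 3))).irreducible, ?_, ?_⟩
      · rw [hF]; exact dvd_zero _
      · rw [hG]; exact dvd_zero _
    · obtain ⟨δ, hδ, hδh⟩ := WfDvdMonoid.exists_irreducible_factor hu h0
      exact ⟨δ, hδ, hδh.trans hF, hδh.trans hG⟩
  have hδI : ∀ f ∈ Ideal.span {F, G}, δ ∣ f := by
    intro f hf
    obtain ⟨a, b, hab⟩ := Ideal.mem_span_pair.1 hf
    rw [← hab]
    exact dvd_add (hδF.mul_left a) (hδG.mul_left b)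
  choose η hη1 hη2 using fun k => coprime_exists δ hδ (w k)
  have hP : ∏ k, lf (η k) ∈ Ideal.span {F, G} := by
    rw [hI]
    intro k t
    rw [map_prod]
    refine Finset.prod_eq_zero (Finset.mem_univ k) ?_
    rw [eval_lf, dotProduct_smul, hη1, smul_zero]
  have h3 := hδI _ hP
  rw [hδ.prime.dvd_finsetProd_iff] at h3
  obtain ⟨k, _, hk⟩ := h3
  exact hη2 k hk

/-- coprime pairs are regular sequences -/
theorem isReg_pair {N : ℕ} (F G : MvPolynomial (Fin N) ℂ) (hF0 : F ≠ 0) (hFG : IsRelPrime F G) :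
    IsReg ![F, G] := by
  intro j g h
  fin_cases j
  · have h1 : {i : Fin 2 | i < (⟨0, by norm_num⟩ : Fin 2)} = ∅ := by
      ext i
      simp only [Set.mem_ofPred_eq, Set.mem_empty_iff_false, iff_false]
      intro h2
      exact absurd h2 (Fin.not_lt_zero i)
    have h2 : F * g ∈ Ideal.span (![F, G] '' {i : Fin 2 | i < (⟨0, by norm_num⟩ : Fin 2)}) := h
    show g ∈ Ideal.span (![F, G] '' {i : Fin 2 | i < (⟨0, by norm_num⟩ : Fin 2)})
    rw [h1, Set.image_empty, Ideal.span_empty, Ideal.mem_bot] at h2 ⊢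
    exact (mul_eq_zero.mp h2).resolve_left hF0
  · have h1 : ![F, G] '' {i : Fin 2 | i < (⟨1, by norm_num⟩ : Fin 2)} = {F} := by
      ext x
      constructor
      · rintro ⟨i, hi, rfl⟩
        have hi' : i < (1 : Fin 2) := hi
        have hi0 : i = 0 := by
          fin_cases i
          · rfl
          · exact absurd hi' (lt_irrefl _)
        rw [hi0]
        rfl
      · intro hx
        refine ⟨0, ?_, ?_⟩
        · show (0 : Fin 2) < 1
          decide
        · rw [Set.mem_singleton_iff.mp hx]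
          rfl
    have h2 : G * g ∈ Ideal.span (![F, G] '' {i : Fin 2 | i < (⟨1, by norm_num⟩ : Fin 2)}) := h
    show g ∈ Ideal.span (![F, G] '' {i : Fin 2 | i < (⟨1, by norm_num⟩ : Fin 2)})
    rw [h1, Ideal.mem_span_singleton] at h2 ⊢
    exact hFG.dvd_of_dvd_mul_left h2

end Pool.Agent.Helper947.Geo
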