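import Pool.Agent.Helper947.Geo.B1

set_option autoImplicit false
open MvPolynomial

namespace Pool.Agent.Helper947.Geo

theorem ek_pole {K : Type} [Fintype K] (z : K → Fin 4 → ℂ) (D c : ℕ)
    (h3 : ∀ k l m, k ≠ l → k ≠ m → l ≠ m → LinearIndependent ℂ ![z k, z l, z m])
    (hsp : ∀ η : Fin 4 → ℂ, (∀ k, η ⬝ᵥ z k = 0) → η = 0)
    (l : K → MvPolynomial (Fin 4) ℂ) (hl0 : ∀ k, l k ≠ 0)
    (Q : MvPolynomial (Fin 4) ℂ) (hQ : Q ≠ 0)
    (g : Fin 4 → MvPolynomial (Fin 4) ℂ) (hg : ∑ j, g j * X j = C (c : ℂ) * Q)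
    (hs : ∀ k, Q * DD (z k) (l k) = lin g (z k) * l k)
    (hp : ∀ δ : MvPolynomial (Fin 4) ℂ, Irreducible δ → δ ∣ Q → ∃ j, ¬ δ ∣ g j)
    (hW : ∀ δ : MvPolynomial (Fin 4) ℂ, Irreducible δ → ∃ k₁ k₂ k₃ : K,
      k₁ ≠ k₂ ∧ k₁ ≠ k₃ ∧ k₂ ≠ k₃ ∧ ¬ δ ∣ l k₁ ∧ ¬ δ ∣ l k₂ ∧ ¬ δ ∣ l k₃)
    (δ : MvPolynomial (Fin 4) ℂ) (hδ : Irreducible δ) (hδQ : δ ∣ Q) :
    ∃ (η : Fin 4 → ℂ) (μ : ℕ) (Q' : MvPolynomial (Fin 4) ℂ), Associated δ (lf η) ∧
      Irreducible (lf η) ∧ 1 ≤ μ ∧ Q = lf η * Q' ∧ ¬ lf η ∣ Q' ∧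
      (∀ k, η ⬝ᵥ z k ≠ 0 → ∃ ν, l k = lf η ^ μ * ν ∧ ¬ lf η ∣ ν) ∧
      ∀ x : Fin 4 → ℂ, lf η ∣ lin g x - C ((μ : ℂ) * (η ⬝ᵥ x)) * Q' := by
  obtain ⟨k₁, k₂, k₃, h12, h13, h23, hk₁, hk₂, hk₃⟩ := hW δ hδ
  obtain ⟨η, hη0, hass, hηW⟩ := pole_linear z h3 l Q g (c : ℂ) hg hs δ hδ hδQ (hp δ hδ hδQ)
    k₁ k₂ k₃ h12 h13 h23 hk₁ hk₂ hk₃
  have hirr : Irreducible (lf η) := hass.irreducible hδ
  have hdq : lf η ∣ Q := hass.dvd_iff_dvd_left.mp hδQ
  have hpj : ∃ j, ¬ lf η ∣ g j := by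
    obtain ⟨j, hj⟩ := hp δ hδ hδQ
    exact ⟨j, fun h => hj (hass.dvd_iff_dvd_left.mpr h)⟩
  have hWW : ∀ k, ¬ lf η ∣ l k → η ⬝ᵥ z k = 0 := by
    intro k hk
    exact hηW k (fun h => hk (hass.dvd_iff_dvd_left.mp h))
  obtain ⟨μ, Q', h1, h2, h4, h5, h6⟩ := pole_simple z hsp l hl0 Q g hs η hirr hQ hdq hpj hWW
    k₁ k₂ k₃ (h3 k₁ k₂ k₃ h12 h13 h23)
    (fun h => hk₁ (hass.dvd_iff_dvd_left.mpr h)) (fun h => hk₂ (hass.dvd_iff_dvd_left.mpr h))
    (fun h => hk₃ (hass.dvd_iff_dvd_left.mpr h))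
  exact ⟨η, μ, Q', hass, hirr, h1, h2, h4, h5, h6⟩

theorem ek_DD_one {d : ℕ} (z : Fin d → ℂ) : DD z (1 : MvPolynomial (Fin d) ℂ) = 0 := by
  simp [DD]

theorem ek_DD_pow {d : ℕ} (z : Fin d → ℂ) (a Q' Q : MvPolynomial (Fin d) ℂ) (h : Q = a * Q')
    (m : ℕ) : Q * DD z (a ^ m) = a ^ m * (C (m : ℂ) * DD z a * Q') := by
  induction m with
  | zero => simp [ek_DD_one]
  | succ m ih =>
    rw [pow_succ, DD_mul]
    have e1 : Q * (DD z (a ^ m) * a + a ^ m * DD z a) =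
        (Q * DD z (a ^ m)) * a + a ^ m * DD z a * Q := by ring
    rw [e1, ih]
    conv_lhs => rw [h]
    push_cast
    rw [C_add, C_1]
    ring

theorem ek_DD_prod {d s : ℕ} (z : Fin d → ℂ) (a Q' : Fin s → MvPolynomial (Fin d) ℂ)
    (μ : Fin s → ℕ) (Q : MvPolynomial (Fin d) ℂ) (h : ∀ i, Q = a i * Q' i) (t : Finset (Fin s)) :
    Q * DD z (∏ i ∈ t, a i ^ μ i) =
      (∏ i ∈ t, a i ^ μ i) * ∑ i ∈ t, C (μ i : ℂ) * DD z (a i) * Q' i := by
  classical
  induction t using Finset.induction_on with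
  | empty => simp [ek_DD_one]
  | insert i t hi ih =>
    rw [Finset.prod_insert hi, Finset.sum_insert hi, DD_mul, mul_add]
    have h1 := ek_DD_pow z (a i) (Q' i) Q (h i) (μ i)
    have e1 : Q * (DD z (a i ^ μ i) * ∏ x ∈ t, a x ^ μ x) =
        (Q * DD z (a i ^ μ i)) * ∏ x ∈ t, a x ^ μ x := by ring
    have e2 : Q * (a i ^ μ i * DD z (∏ x ∈ t, a x ^ μ x)) =
        a i ^ μ i * (Q * DD z (∏ x ∈ t, a x ^ μ x)) := by ring
    rw [e1, e2, h1, ih]
    ring

theorem ek_DD_deg {d : ℕ} (z : Fin d → ℂ) (f : MvPolynomial (Fin d) ℂ) (n : ℕ)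
    (hf : f.IsHomogeneous n) : DD z f = 0 ∨ (1 ≤ n ∧ (DD z f).totalDegree ≤ n - 1) := by
  rcases Nat.eq_zero_or_pos n with hn | hn
  · left
    subst hn
    have h1 : f.totalDegree = 0 := Nat.le_zero.mp hf.totalDegree_le
    rw [totalDegree_eq_zero_iff_eq_C] at h1
    rw [h1]
    simp [DD]
  · right
    refine ⟨hn, ?_⟩
    have h1 : (DD z f).IsHomogeneous (n - 1) := by
      unfold DD
      refine IsHomogeneous.sum _ _ _ ?_
      intro i _
      exact (hf.pderiv).C_mul _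
    exact h1.totalDegree_le

theorem ek_R_zero {d : ℕ} (z : Fin d → ℂ) (κ l R : MvPolynomial (Fin d) ℂ) (e D : ℕ)
    (hκ0 : κ ≠ 0) (hl0 : l ≠ 0) (hκ : κ.IsHomogeneous e) (hl : l.IsHomogeneous D)
    (h : κ * DD z l - l * DD z κ = κ * l * R) : R = 0 := by
  by_contra hR
  have hdeg : (κ * l * R).totalDegree = e + D + R.totalDegree := by
    rw [totalDegree_mul_of_isDomain (mul_ne_zero hκ0 hl0) hR,
      totalDegree_mul_of_isDomain hκ0 hl0, hκ.totalDegree hκ0, hl.totalDegree hl0]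
  have hne : κ * l * R ≠ 0 := mul_ne_zero (mul_ne_zero hκ0 hl0) hR
  have hA : κ * DD z l = 0 ∨ (κ * DD z l).totalDegree + 1 ≤ e + D := by
    rcases ek_DD_deg z l D hl with h1 | ⟨h1, h2⟩
    · left
      rw [h1, mul_zero]
    · right
      have h3 := totalDegree_mul κ (DD z l)
      rw [hκ.totalDegree hκ0] at h3
      omega
  have hB : l * DD z κ = 0 ∨ (l * DD z κ).totalDegree + 1 ≤ e + D := by
    rcases ek_DD_deg z κ e hκ with h1 | ⟨h1, h2⟩
    · left
      rw [h1, mul_zero]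
    · right
      have h3 := totalDegree_mul l (DD z κ)
      rw [hl.totalDegree hl0] at h3
      omega
  have hsub := totalDegree_sub (κ * DD z l) (l * DD z κ)
  rw [h, hdeg] at hsub
  rcases hA with hA | hA
  · rcases hB with hB | hB
    · rw [hA, hB, sub_zero] at h
      exact hne h.symm
    · rw [hA, totalDegree_zero] at hsub
      omega
  · rcases hB with hB | hB
    · rw [hB, totalDegree_zero] at hsub
      omega
    · omega

/-- the common denominator -/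
theorem exists_kappa {K : Type} [Fintype K] (z : K → Fin 4 → ℂ) (D c : ℕ)
    (h3 : ∀ k l m, k ≠ l → k ≠ m → l ≠ m → LinearIndependent ℂ ![z k, z l, z m])
    (hsp : ∀ η : Fin 4 → ℂ, (∀ k, η ⬝ᵥ z k = 0) → η = 0)
    (l : K → MvPolynomial (Fin 4) ℂ) (hl0 : ∀ k, l k ≠ 0) (hlD : ∀ k, (l k).IsHomogeneous D)
    (Q : MvPolynomial (Fin 4) ℂ) (hQ : Q ≠ 0)
    (g : Fin 4 → MvPolynomial (Fin 4) ℂ) (hg : ∑ j, g j * X j = C (c : ℂ) * Q)
    (hs : ∀ k, Q * DD (z k) (l k) = lin g (z k) * l k)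
    (hp : ∀ δ : MvPolynomial (Fin 4) ℂ, Irreducible δ → δ ∣ Q → ∃ j, ¬ δ ∣ g j)
    (hW : ∀ δ : MvPolynomial (Fin 4) ℂ, Irreducible δ → ∃ k₁ k₂ k₃ : K,
      k₁ ≠ k₂ ∧ k₁ ≠ k₃ ∧ k₂ ≠ k₃ ∧ ¬ δ ∣ l k₁ ∧ ¬ δ ∣ l k₂ ∧ ¬ δ ∣ l k₃) :
    ∃ (s : ℕ) (η : Fin s → Fin 4 → ℂ) (μ : Fin s → ℕ), (∀ i, Irreducible (lf (η i))) ∧
      (∀ i j, i ≠ j → ¬ lf (η i) ∣ lf (η j)) ∧ (∀ i, 1 ≤ μ i) ∧ ∑ i, μ i = c ∧
      (∀ i k, η i ⬝ᵥ z k ≠ 0 → ∃ ν, l k = lf (η i) ^ μ i * ν ∧ ¬ lf (η i) ∣ ν) ∧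
      ∀ k, (∏ i, lf (η i) ^ μ i) * DD (z k) (l k) = l k * DD (z k) (∏ i, lf (η i) ^ μ i) := by
  classical
  obtain ⟨F, hFp, hFQ⟩ := UniqueFactorizationMonoid.exists_prime_factors Q hQ
  obtain ⟨L, rfl⟩ : ∃ L : List (MvPolynomial (Fin 4) ℂ), F = (L : Multiset _) :=
    ⟨F.toList, (Multiset.coe_toList F).symm⟩
  rw [Multiset.prod_coe, ← Fin.prod_univ_getElem] at hFQ
  have hbp : ∀ i : Fin L.length, Prime (L[i.1]) := fun i =>
    hFp _ (by simp)
  have hbQ : ∀ i : Fin L.length, L[i.1] ∣ Q := by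
    intro i
    exact (Finset.dvd_prod_of_mem (fun i : Fin L.length => L[i.1]) (Finset.mem_univ i)).trans
      hFQ.dvd
  choose η μ Q' hass hirr hμ hQQ' hnd hν hres using fun i : Fin L.length =>
    ek_pole z D c h3 hsp l hl0 Q hQ g hg hs hp hW (L[i.1]) (hbp i).irreducible (hbQ i)
  have hPQ : Associated (∏ i, lf (η i)) Q :=
    (Associated.prod Finset.univ _ _ (fun i _ => (hass i).symm)).trans hFQ
  have hpair : ∀ i j, i ≠ j → ¬ lf (η i) ∣ lf (η j) := by
    intro i j hij hd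
    have h1 : lf (η i) * lf (η j) ∣ ∏ i, lf (η i) := by
      rw [← Finset.mul_prod_erase Finset.univ (fun i => lf (η i)) (Finset.mem_univ i)]
      refine mul_dvd_mul_left _ ?_
      exact Finset.dvd_prod_of_mem (fun i => lf (η i))
        (Finset.mem_erase.mpr ⟨hij.symm, Finset.mem_univ j⟩)
    have h2 : lf (η i) * lf (η j) ∣ lf (η i) * Q' i := by
      rw [← hQQ' i]
      exact h1.trans hPQ.dvd
    have h4 := (mul_dvd_mul_iff_left (hirr i).ne_zero).mp h2
    exact hnd i (hd.trans h4)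
  have hprime : ∀ i, Prime (lf (η i)) := fun i => (hirr i).prime
  have hdQ' : ∀ i j, i ≠ j → lf (η i) ∣ Q' j := by
    intro i j hij
    have h1 : lf (η i) ∣ lf (η j) * Q' j := by
      rw [← hQQ' j, hQQ' i]
      exact Dvd.intro _ rfl
    rcases (hprime i).dvd_or_dvd h1 with h2 | h2
    · exact absurd h2 (hpair i j hij)
    · exact h2
  have hQdvd : ∀ x : Fin 4 → ℂ, Q ∣ lin g x - ∑ i, C ((μ i : ℂ) * (η i ⬝ᵥ x)) * Q' i := by
    intro x
    refine hPQ.symm.dvd.trans ?_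
    refine Fintype.prod_dvd_of_isRelPrime ?_ ?_
    · intro i j hij
      exact (hirr i).isRelPrime_iff_not_dvd.mpr (hpair i j hij)
    · intro i
      rw [← Finset.add_sum_erase Finset.univ _ (Finset.mem_univ i), ← sub_sub]
      refine dvd_sub (hres i x) ?_
      refine Finset.dvd_sum ?_
      intro j hj
      exact dvd_mul_of_dvd_right (hdQ' i j (Finset.ne_of_mem_erase hj).symm) _
  have hgj : ∀ j : Fin 4, ∃ R : MvPolynomial (Fin 4) ℂ,
      g j = ∑ i, C ((μ i : ℂ) * η i j) * Q' i + Q * R := by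
    intro j
    obtain ⟨R, hR⟩ := hQdvd (Pi.single j 1)
    refine ⟨R, ?_⟩
    have h1 : lin g (Pi.single j 1) = g j := by
      unfold lin
      rw [Finset.sum_eq_single j]
      · simp
      · intro b _ hb
        rw [Pi.single_eq_of_ne hb]
        simp
      · intro h
        exact absurd (Finset.mem_univ j) h
    rw [h1] at hR
    have h2 : ∀ i, η i ⬝ᵥ Pi.single j 1 = η i j := by
      intro i
      simp
    simp only [h2] at hR
    linear_combination hR
  choose R hR using hgj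
  have hlin : ∀ x : Fin 4 → ℂ, lin g x = ∑ i, C ((μ i : ℂ) * (η i ⬝ᵥ x)) * Q' i +
      Q * ∑ j, R j * C (x j) := by
    intro x
    unfold lin
    have h1 : ∀ j, g j * C (x j) = ∑ i, C ((μ i : ℂ) * η i j) * Q' i * C (x j) +
        Q * (R j * C (x j)) := by
      intro j
      conv_lhs => rw [hR j]
      rw [add_mul, Finset.sum_mul]
      ring
    rw [Finset.sum_congr rfl (fun j _ => h1 j), Finset.sum_add_distrib, ← Finset.mul_sum]
    congr 1
    rw [Finset.sum_comm]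
    apply Finset.sum_congr rfl
    intro i _
    simp only [dotProduct]
    rw [Finset.mul_sum, map_sum, Finset.sum_mul]
    apply Finset.sum_congr rfl
    intro j _
    rw [← mul_assoc, C_mul (a := (μ i : ℂ) * η i j)]
    ring
  set κ : MvPolynomial (Fin 4) ℂ := ∏ i, lf (η i) ^ μ i with hκ
  have hκ0 : κ ≠ 0 := by
    rw [hκ]
    exact Finset.prod_ne_zero_iff.mpr (fun i _ => pow_ne_zero _ (hirr i).ne_zero)
  have hlfh : ∀ η : Fin 4 → ℂ, (lf η).IsHomogeneous 1 := by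
    intro η
    unfold lf
    refine IsHomogeneous.sum _ _ _ ?_
    intro i _
    exact (isHomogeneous_X ℂ i).C_mul _
  have hκh : κ.IsHomogeneous (∑ i, μ i) := by
    rw [hκ]
    refine IsHomogeneous.prod _ _ _ ?_
    intro i _
    have := (hlfh (η i)).pow (μ i)
    rwa [one_mul] at this
  have hDκ : ∀ x : Fin 4 → ℂ, Q * DD x κ = κ * ∑ i, C ((μ i : ℂ) * (η i ⬝ᵥ x)) * Q' i := by
    intro x
    have h1 := ek_DD_prod x (fun i => lf (η i)) Q' μ Q hQQ' Finset.univ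
    simp only [DD_lf] at h1
    rw [hκ, h1]
    congr 1
    apply Finset.sum_congr rfl
    intro i _
    rw [C_mul]
  have hRz : ∀ k, ∑ j, R j * C (z k j) = 0 := by
    intro k
    refine ek_R_zero (z k) κ (l k) _ (∑ i, μ i) D hκ0 (hl0 k) hκh (hlD k) ?_
    apply mul_left_cancel₀ hQ
    have h1 := hs k
    have h2 := hDκ (z k)
    have h4 := hlin (z k)
    calc Q * (κ * DD (z k) (l k) - l k * DD (z k) κ)
        = κ * (Q * DD (z k) (l k)) - l k * (Q * DD (z k) κ) := by ring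
      _ = κ * (lin g (z k) * l k) - l k * (κ * ∑ i, C ((μ i : ℂ) * (η i ⬝ᵥ z k)) * Q' i) := by
          rw [h1, h2]
      _ = Q * (κ * l k * ∑ j, R j * C (z k j)) := by
          rw [h4]
          ring
  have hR0 : ∀ j, R j = 0 := by
    intro j
    ext m
    rw [coeff_zero]
    have h1 : (fun j => coeff m (R j)) = 0 := by
      apply hsp
      intro k
      have h2 := congrArg (coeff m) (hRz k)
      rw [coeff_sum, coeff_zero] at h2
      have h5 : ∀ x, coeff m (R x * C (z k x)) = coeff m (R x) * z k x := by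
        intro x
        rw [mul_comm, coeff_C_mul, mul_comm]
      simp only [h5] at h2
      exact h2
    exact congrFun h1 j
  have hlin0 : ∀ x : Fin 4 → ℂ, lin g x = ∑ i, C ((μ i : ℂ) * (η i ⬝ᵥ x)) * Q' i := by
    intro x
    rw [hlin x]
    simp [hR0]
  refine ⟨L.length, η, μ, hirr, hpair, hμ, ?_, ?_, ?_⟩
  · have h1 : ∑ j, g j * X j = C ((∑ i, μ i : ℕ) : ℂ) * Q := by
      have h2 : ∀ j, g j * X j = ∑ i, C ((μ i : ℂ) * η i j) * Q' i * X j := by
        intro j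
        conv_lhs => rw [hR j, hR0 j, mul_zero, add_zero]
        rw [Finset.sum_mul]
      rw [Finset.sum_congr rfl (fun j _ => h2 j), Finset.sum_comm]
      have h5 : ∀ i, ∑ j, C ((μ i : ℂ) * η i j) * Q' i * X j = C (μ i : ℂ) * Q := by
        intro i
        conv_rhs => rw [hQQ' i]
        unfold lf
        rw [Finset.sum_mul, Finset.mul_sum]
        apply Finset.sum_congr rfl
        intro j _
        rw [C_mul]
        ring
      rw [Finset.sum_congr rfl (fun i _ => h5 i), ← Finset.sum_mul]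
      congr 1
      push_cast
      rw [map_sum]
    rw [hg] at h1
    have h6 := mul_right_cancel₀ hQ h1
    have h7 := C_injective (Fin 4) ℂ h6
    exact_mod_cast h7.symm
  · intro i k hik
    exact hν i k hik
  · intro k
    apply mul_left_cancel₀ hQ
    have h1 := hs k
    have h2 := hDκ (z k)
    have h4 := hlin0 (z k)
    calc Q * (κ * DD (z k) (l k)) = κ * (Q * DD (z k) (l k)) := by ring
      _ = κ * ((∑ i, C ((μ i : ℂ) * (η i ⬝ᵥ z k)) * Q' i) * l k) := by rw [h1, h4]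
      _ = l k * (Q * DD (z k) κ) := by
          rw [h2]
          ring
      _ = Q * (l k * DD (z k) κ) := by ring

theorem inv_poly (A B : Polynomial ℂ)
    (h : B * Polynomial.derivative A = A * Polynomial.derivative B) (r : ℂ) :
    A.eval r * B.eval 0 = A.eval 0 * B.eval r := by
  by_cases hg : EuclideanDomain.gcd A B = 0
  · have h1 := EuclideanDomain.gcd_eq_zero_iff.1 hg
    rw [h1.1, h1.2]
    simp
  · obtain ⟨a, ha⟩ := EuclideanDomain.gcd_dvd_left A B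
    obtain ⟨b, hb⟩ := EuclideanDomain.gcd_dvd_right A B
    have hab := EuclideanDomain.gcd_eq_gcd_ab A B
    generalize EuclideanDomain.gcd A B = g at *
    generalize EuclideanDomain.gcdA A B = u at *
    generalize EuclideanDomain.gcdB A B = v at *
    subst ha
    subst hb
    have hco : IsCoprime a b := by
      refine ⟨u, v, mul_left_cancel₀ hg ?_⟩
      linear_combination -hab
    have hw : Polynomial.wronskian a b = 0 := by
      have h1 : g ^ 2 * Polynomial.wronskian a b = 0 := by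
        unfold Polynomial.wronskian
        rw [Polynomial.derivative_mul, Polynomial.derivative_mul] at h
        linear_combination -h
      rcases mul_eq_zero.1 h1 with h2 | h2
      · exact absurd (pow_eq_zero_iff (two_ne_zero)|>.1 h2) hg
      · exact h2
    obtain ⟨h1, h2⟩ := hco.wronskian_eq_zero_iff.1 hw
    have h3 := Polynomial.eq_C_of_natDegree_eq_zero
      (Polynomial.derivative_eq_zero.1 h1)
    have h4 := Polynomial.eq_C_of_natDegree_eq_zero
      (Polynomial.derivative_eq_zero.1 h2)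
    rw [h3, h4]
    simp only [Polynomial.eval_mul, Polynomial.eval_C]
    ring

theorem inv_DD_C {d : ℕ} (z : Fin d → ℂ) (a : ℂ) : DD z (C a) = 0 := by
  unfold DD
  refine Finset.sum_eq_zero (fun i _ => ?_)
  rw [pderiv_C, mul_zero]

theorem inv_DD_X {d : ℕ} (z : Fin d → ℂ) (i : Fin d) : DD z (X i) = C (z i) := by
  unfold DD
  rw [Finset.sum_eq_single i]
  · rw [pderiv_X_self, mul_one]
  · intro j _ hj
    rw [pderiv_X_of_ne hj.symm, mul_zero]
  · intro h
    exact absurd (Finset.mem_univ i) h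

theorem inv_DD_add {d : ℕ} (z : Fin d → ℂ) (f g : MvPolynomial (Fin d) ℂ) :
    DD z (f + g) = DD z f + DD z g := by
  unfold DD
  rw [← Finset.sum_add_distrib]
  refine Finset.sum_congr rfl (fun i _ => ?_)
  rw [map_add, mul_add]

theorem inv_cur_C {d : ℕ} (P z : Fin d → ℂ) (a : ℂ) : cur P z (C a) = Polynomial.C a := by
  rw [cur, MvPolynomial.aeval_C]; rfl

theorem inv_cur_X {d : ℕ} (P z : Fin d → ℂ) (i : Fin d) :
    cur P z (X i) = Polynomial.C (P i) + Polynomial.C (z i) * Polynomial.X := by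
  rw [cur, MvPolynomial.aeval_X]

theorem inv_der {d : ℕ} (P z : Fin d → ℂ) (f : MvPolynomial (Fin d) ℂ) :
    Polynomial.derivative (cur P z f) = cur P z (DD z f) := by
  induction f using MvPolynomial.induction_on with
  | C a => rw [inv_cur_C, inv_DD_C, map_zero, Polynomial.derivative_C]
  | add p q hp hq => rw [map_add, Polynomial.derivative_add, hp, hq, inv_DD_add, map_add]
  | mul_X p i hp =>
    rw [map_mul, Polynomial.derivative_mul, hp, DD_mul, inv_DD_X, map_add, map_mul, map_mul,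
      inv_cur_C, inv_cur_X]
    congr 2
    simp

/-- invariance of a quotient with zero derivative -/
theorem invariance {d : ℕ} (z : Fin d → ℂ) (l κ : MvPolynomial (Fin d) ℂ)
    (h : κ * DD z l = l * DD z κ) (P : Fin d → ℂ) (r : ℂ) :
    eval (P + r • z) l * eval P κ = eval P l * eval (P + r • z) κ := by
  have h1 := inv_poly (cur P z l) (cur P z κ) (by
    rw [inv_der, inv_der, ← map_mul, ← map_mul, h]) r
  rw [eval_cur, eval_cur, eval_cur, eval_cur, zero_smul, add_zero] at h1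
  exact h1

end Pool.Agent.Helper947.Geo
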