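import Pool.Agent.Helper947.Geo.G1
import Pool.Agent.Helper947.Geo.Core3

set_option autoImplicit false
open MvPolynomial

namespace Pool.Agent.Helper947.Geo

/-- bound for the multiplicity of a pole -/
theorem mu_le {d : ℕ} {K : Type} [Fintype K] (z : K → Fin d → ℂ) (n : ℕ)
    (l : K → MvPolynomial (Fin d) ℂ) (hl : Rel z n l) (η : Fin d → ℂ) (hη : Irreducible (lf η))
    (μ : ℕ) (hμ : ∀ k, η ⬝ᵥ z k ≠ 0 → lf η ^ μ ∣ l k) (k₀ k₁ : K) (hk₀ : ¬ lf η ∣ l k₀)
    (hk₀' : η ⬝ᵥ z k₀ = 0) (hk₁ : η ⬝ᵥ z k₁ ≠ 0)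
    (φ : MvPolynomial (Fin d) ℂ) (hφ : φ ≠ 0)
    (h : ∀ P : Fin d → ℂ, eval P φ ≠ 0 → ∀ c ∈ relSpace z n P, c ≠ 0 → ∀ k, c k ≠ 0) :
    μ ≤ n := by
  classical
  by_contra hcon
  have hn : n + 1 ≤ μ := by omega
  have hex : ∀ k, ∃ ν : MvPolynomial (Fin d) ℂ, η ⬝ᵥ z k ≠ 0 → l k = lf η ^ (n + 1) * ν := by
    intro k
    by_cases hk : η ⬝ᵥ z k = 0
    · exact ⟨0, fun h' => absurd hk h'⟩
    · obtain ⟨ν, hν⟩ := (pow_dvd_pow (lf η) hn).trans (hμ k hk)
      exact ⟨ν, fun _ => hν⟩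
  choose ν hν using hex
  have hG : ∀ ζ : Fin d → ℂ, ∑ k, (if η ⬝ᵥ z k = 0 then l k * C ((z k ⬝ᵥ ζ) ^ n)
      else lf η * ν k * (lf η * C (z k ⬝ᵥ ζ) - lf ζ * C (z k ⬝ᵥ η)) ^ n) = 0 := by
    intro ζ
    have h1 : lf η * ∑ k, (if η ⬝ᵥ z k = 0 then l k * C ((z k ⬝ᵥ ζ) ^ n)
      else lf η * ν k * (lf η * C (z k ⬝ᵥ ζ) - lf ζ * C (z k ⬝ᵥ η)) ^ n) = 0 := by
      apply MvPolynomial.funext
      intro P
      rw [map_mul, map_zero]
      by_cases hP : eval P (lf η) = 0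
      · rw [hP, zero_mul]
      · have hP0 : P ≠ 0 := by
          rintro rfl
          exact hP (by rw [eval_lf, dotProduct_zero])
        have h2 := hl P hP0 ((eval P (lf η)) • ζ - (P ⬝ᵥ ζ) • η) (by
          rw [dotProduct_sub, dotProduct_smul, dotProduct_smul, eval_lf, dotProduct_comm η P]
          simp only [smul_eq_mul]
          ring)
        have h3 : (eval P (lf η)) ^ n * eval P (∑ k, (if η ⬝ᵥ z k = 0 then l k * C ((z k ⬝ᵥ ζ) ^ n)
            else lf η * ν k * (lf η * C (z k ⬝ᵥ ζ) - lf ζ * C (z k ⬝ᵥ η)) ^ n)) = 0 := by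
          rw [map_sum, Finset.mul_sum]
          refine Eq.trans (Finset.sum_congr rfl fun k _ => ?_) h2
          rw [dotProduct_sub, dotProduct_smul, dotProduct_smul, smul_eq_mul, smul_eq_mul]
          split_ifs with hk
          · rw [dotProduct_comm (z k) η, hk, mul_zero, sub_zero, map_mul, eval_C, mul_pow]
            ring
          · simp only [hν k hk, map_mul, map_pow, map_sub, eval_C, eval_lf ζ]
            rw [dotProduct_comm ζ P]
            ring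
        rcases mul_eq_zero.1 h3 with h4 | h4
        · exact absurd h4 (pow_ne_zero n hP)
        · rw [h4, mul_zero]
    rcases mul_eq_zero.1 h1 with h2 | h2
    · exact absurd h2 hη.ne_zero
    · exact h2
  obtain ⟨P0, hP0, hP0'⟩ := exists_point (lf η) (l k₀) hη hk₀
  have hc : ∀ ζ : Fin d → ℂ, ∑ k, (if η ⬝ᵥ z k = 0 then eval P0 (l k) else 0) * (z k ⬝ᵥ ζ) ^ n = 0 := by
    intro ζ
    have h1 := congrArg (eval P0) (hG ζ)
    rw [map_sum, map_zero] at h1
    refine Eq.trans (Finset.sum_congr rfl fun k _ => ?_) h1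
    split_ifs with hk
    · rw [map_mul, eval_C]
    · rw [map_mul, map_mul, hP0, zero_mul, zero_mul, zero_mul]
  obtain ⟨P, hP⟩ : ∃ P : Fin d → ℂ, eval P φ ≠ 0 := by
    by_contra hall
    push Not at hall
    exact hφ (MvPolynomial.funext fun P => by rw [hall P, map_zero])
  refine h P hP (fun k => if η ⬝ᵥ z k = 0 then eval P0 (l k) else 0) (fun ζ _ => hc ζ) ?_ k₁ ?_
  · intro h0
    have := congrFun h0 k₀
    simp only [hk₀', if_true, Pi.zero_apply] at this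
    exact hP0' this
  · simp only [hk₁, if_false]

end Pool.Agent.Helper947.Geo
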