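import Pool.Agent.Helper947.Geo.Core3

set_option autoImplicit false
open MvPolynomial

namespace Pool.Agent.Helper947.Geo

theorem ll_vec (x : Fin 2 → ℂ) : x = ![x 0, x 1] := by
  funext i
  fin_cases i <;> rfl

theorem ll_bind (κ : MvPolynomial (Fin 2) ℂ) (x y y0 : ℂ) :
    eval ![x, y] (bind₁ ![(X 0 : MvPolynomial (Fin 2) ℂ), C y0] κ) = eval ![x, y0] κ := by
  have h : (eval ![x, y]).comp (bind₁ ![(X 0 : MvPolynomial (Fin 2) ℂ), C y0] :
      MvPolynomial (Fin 2) ℂ →+* MvPolynomial (Fin 2) ℂ) = eval ![x, y0] := by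
    apply MvPolynomial.ringHom_ext
    · intro r
      simp
    · intro i
      fin_cases i <;> simp
  have := congrArg (fun g : MvPolynomial (Fin 2) ℂ →+* ℂ => g κ) h
  simpa using this

/-- comparison of degrees on a line -/
theorem line_lemma (A B κ : MvPolynomial (Fin 2) ℂ) (p q n : ℕ) (hA : A.IsHomogeneous p)
    (hB : B.IsHomogeneous p) (hκ : κ.IsHomogeneous q) (hκ0 : κ ≠ 0) (hAB : A ≠ 0 ∨ B ≠ 0)
    (h1 : X 1 ^ n * A + (-X 0) ^ n * B = 0)
    (h2 : ∀ x y r : ℂ, eval ![x + r, y] A * eval ![x, y] κ = eval ![x, y] A * eval ![x + r, y] κ)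
    (h3 : ∀ x y r : ℂ, eval ![x, y + r] B * eval ![x, y] κ = eval ![x, y] B * eval ![x, y + r] κ) :
    p + n = q := by
  obtain ⟨G, hG⟩ : ∃ G, G = X 1 ^ n * A := ⟨_, rfl⟩
  have hG' : G = -((-X 0) ^ n * B) := by rw [hG]; linear_combination h1
  have hX : ∀ i : Fin 2, (X i : MvPolynomial (Fin 2) ℂ) ≠ 0 := fun i => X_ne_zero i
  have hG0 : G ≠ 0 := by
    rcases hAB with h | h
    · rw [hG]
      exact mul_ne_zero (pow_ne_zero _ (hX 1)) h
    · rw [hG']
      exact neg_ne_zero.2 (mul_ne_zero (pow_ne_zero _ (neg_ne_zero.2 (hX 0))) h)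
  have hGh : G.IsHomogeneous (p + n) := by
    rw [hG, add_comm]
    exact ((isHomogeneous_X ℂ (1 : Fin 2)).pow n |>.mul hA) |> fun h => by simpa using h
  have e1 : ∀ x x' y : ℂ, eval ![x', y] G * eval ![x, y] κ = eval ![x, y] G * eval ![x', y] κ := by
    intro x x' y
    have h := h2 x y (x' - x)
    rw [add_sub_cancel] at h
    rw [hG]
    simp only [map_mul, map_pow, eval_X, Matrix.cons_val_one, Matrix.cons_val_fin_one]
    linear_combination y ^ n * h
  have e2 : ∀ x y y' : ℂ, eval ![x, y'] G * eval ![x, y] κ = eval ![x, y] G * eval ![x, y'] κ := by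
    intro x y y'
    have h := h3 x y (y' - y)
    rw [add_sub_cancel] at h
    rw [hG']
    simp only [map_mul, map_pow, map_neg, eval_X, Matrix.cons_val_zero]
    linear_combination (-(-x) ^ n) * h
  obtain ⟨x0, y0, hk0⟩ : ∃ x0 y0 : ℂ, eval ![x0, y0] κ ≠ 0 := by
    by_contra hcon
    push Not at hcon
    apply hκ0
    apply MvPolynomial.funext
    intro x
    rw [ll_vec x, hcon, map_zero]
  have key : (G * C (eval ![x0, y0] κ) - C (eval ![x0, y0] G) * κ) *
      (bind₁ ![(X 0 : MvPolynomial (Fin 2) ℂ), C y0] κ) = 0 := by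
    apply MvPolynomial.funext
    intro x
    rw [ll_vec x]
    simp only [map_mul, map_sub, eval_C, map_zero, ll_bind]
    have a1 := e2 (x 0) (x 1) y0
    have a2 := e1 x0 (x 0) y0
    linear_combination (-(eval ![x0, y0] κ)) * a1 + (eval ![x 0, x 1] κ) * a2
  have hb : (bind₁ ![(X 0 : MvPolynomial (Fin 2) ℂ), C y0] κ) ≠ 0 := by
    intro h
    have h4 := ll_bind κ x0 y0 y0
    rw [h, map_zero] at h4
    exact hk0 h4.symm
  have heq : G * C (eval ![x0, y0] κ) = C (eval ![x0, y0] G) * κ := by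
    rcases mul_eq_zero.1 key with h | h
    · exact sub_eq_zero.1 h
    · exact absurd h hb
  have hne : G * C (eval ![x0, y0] κ) ≠ 0 :=
    mul_ne_zero hG0 (by rw [Ne, C_eq_zero]; exact hk0)
  have hh1 : (G * C (eval ![x0, y0] κ)).IsHomogeneous (p + n) := by
    have := hGh.mul (isHomogeneous_C (Fin 2) (eval ![x0, y0] κ))
    simpa using this
  have hh2 : (G * C (eval ![x0, y0] κ)).IsHomogeneous q := by
    rw [heq]
    have := (isHomogeneous_C (Fin 2) (eval ![x0, y0] G)).mul hκ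
    simpa using this
  exact hh1.inj_right hh2 hne

/-- bihomogeneity of a polynomial -/
def SH (p : Polynomial (MvPolynomial (Fin 2) ℂ)) (D : ℕ) : Prop :=
  ∀ m, (m ≤ D → (p.coeff m).IsHomogeneous (D - m)) ∧ (D < m → p.coeff m = 0)

theorem SH.zero (D : ℕ) : SH 0 D := by
  intro m
  refine ⟨fun _ => ?_, fun _ => ?_⟩
  · rw [Polynomial.coeff_zero]; exact isHomogeneous_zero _ _ _
  · rw [Polynomial.coeff_zero]

theorem SH.add {p q : Polynomial (MvPolynomial (Fin 2) ℂ)} {D : ℕ} (hp : SH p D) (hq : SH q D) :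
    SH (p + q) D := by
  intro m
  refine ⟨fun h => ?_, fun h => ?_⟩
  · rw [Polynomial.coeff_add]; exact ((hp m).1 h).add ((hq m).1 h)
  · rw [Polynomial.coeff_add, (hp m).2 h, (hq m).2 h, add_zero]

theorem SH.mul {p q : Polynomial (MvPolynomial (Fin 2) ℂ)} {D E : ℕ} (hp : SH p D)
    (hq : SH q E) : SH (p * q) (D + E) := by
  intro m
  rw [Polynomial.coeff_mul]
  refine ⟨fun h => ?_, fun h => ?_⟩
  · refine IsHomogeneous.sum _ _ _ (fun x hx => ?_)
    have hx' := Finset.HasAntidiagonal.mem_antidiagonal.mp hx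
    by_cases h1 : x.1 ≤ D
    · by_cases h2 : x.2 ≤ E
      · have e : D + E - m = (D - x.1) + (E - x.2) := by omega
        rw [e]
        exact ((hp _).1 h1).mul ((hq _).1 h2)
      · rw [(hq _).2 (by omega), mul_zero]; exact isHomogeneous_zero _ _ _
    · rw [(hp _).2 (by omega), zero_mul]; exact isHomogeneous_zero _ _ _
  · refine Finset.sum_eq_zero (fun x hx => ?_)
    have hx' := Finset.HasAntidiagonal.mem_antidiagonal.mp hx
    by_cases h1 : x.1 ≤ D
    · rw [(hq _).2 (by omega), mul_zero]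
    · rw [(hp _).2 (by omega), zero_mul]

theorem SH.C (c : ℂ) : SH (Polynomial.C (MvPolynomial.C c)) 0 := by
  intro m
  refine ⟨fun h => ?_, fun h => ?_⟩
  · have : m = 0 := by omega
    subst this
    rw [Polynomial.coeff_C_zero]
    exact isHomogeneous_C _ _
  · rw [Polynomial.coeff_C_ne_zero (by omega)]

theorem SH.pow {p : Polynomial (MvPolynomial (Fin 2) ℂ)} {D : ℕ} (hp : SH p D) (n : ℕ) :
    SH (p ^ n) (n * D) := by
  induction n with
  | zero =>
    rw [pow_zero, zero_mul]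
    have h := SH.C 1
    rwa [map_one, map_one] at h
  | succ n ih =>
    rw [pow_succ, Nat.succ_mul]
    exact ih.mul hp

theorem SH.prod {ι : Type} (s : Finset ι) (p : ι → Polynomial (MvPolynomial (Fin 2) ℂ))
    (D : ι → ℕ) (hp : ∀ i ∈ s, SH (p i) (D i)) : SH (∏ i ∈ s, p i) (∑ i ∈ s, D i) := by
  classical
  induction s using Finset.induction_on with
  | empty =>
    rw [Finset.prod_empty, Finset.sum_empty]
    have h := SH.C 1
    rwa [map_one, map_one] at h
  | insert a s ha ih =>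
    rw [Finset.prod_insert ha, Finset.sum_insert ha]
    exact (hp a (Finset.mem_insert_self _ _)).mul
      (ih (fun i hi => hp i (Finset.mem_insert_of_mem hi)))

theorem SH.sum {ι : Type} (s : Finset ι) (p : ι → Polynomial (MvPolynomial (Fin 2) ℂ))
    (D : ℕ) (hp : ∀ i ∈ s, SH (p i) D) : SH (∑ i ∈ s, p i) D := by
  classical
  induction s using Finset.induction_on with
  | empty =>
    rw [Finset.sum_empty]
    exact SH.zero D
  | insert a s ha ih =>
    rw [Finset.sum_insert ha]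
    exact (hp a (Finset.mem_insert_self _ _)).add
      (ih (fun i hi => hp i (Finset.mem_insert_of_mem hi)))

theorem SH.exX {d : ℕ} (w w' v : Fin d → ℂ) (i : Fin d) : SH (ex w w' v (X i)) 1 := by
  have h1 : ex w w' v (X i) = Polynomial.C (MvPolynomial.C (w i) * X 0 + MvPolynomial.C (w' i) * X 1) +
      Polynomial.C (MvPolynomial.C (v i)) * Polynomial.X := by
    rw [ex, MvPolynomial.aeval_X]
  rw [h1]
  intro m
  rcases m with _ | _ | m
  · refine ⟨fun _ => ?_, fun h => absurd h (by omega)⟩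
    have e : (Polynomial.C (MvPolynomial.C (w i) * X 0 + MvPolynomial.C (w' i) * X 1) +
      Polynomial.C (MvPolynomial.C (v i)) * Polynomial.X :
        Polynomial (MvPolynomial (Fin 2) ℂ)).coeff 0 =
        MvPolynomial.C (w i) * X 0 + MvPolynomial.C (w' i) * X 1 := by
      simp
    rw [e]
    have a1 := (isHomogeneous_C (Fin 2) (w i)).mul (isHomogeneous_X ℂ (0 : Fin 2))
    have a2 := (isHomogeneous_C (Fin 2) (w' i)).mul (isHomogeneous_X ℂ (1 : Fin 2))
    exact a1.add a2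
  · refine ⟨fun _ => ?_, fun h => absurd h (by omega)⟩
    have e : (Polynomial.C (MvPolynomial.C (w i) * X 0 + MvPolynomial.C (w' i) * X 1) +
      Polynomial.C (MvPolynomial.C (v i)) * Polynomial.X :
        Polynomial (MvPolynomial (Fin 2) ℂ)).coeff (0 + 1) = MvPolynomial.C (v i) := by
      rw [Polynomial.coeff_add, Polynomial.coeff_C_mul, Polynomial.coeff_C_ne_zero (by omega)]
      simp
    rw [e]
    exact isHomogeneous_C _ _
  · refine ⟨fun h => absurd h (by omega), fun _ => ?_⟩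
    rw [Polynomial.coeff_add, Polynomial.coeff_C_mul, Polynomial.coeff_C_ne_zero (by omega),
      Polynomial.coeff_X_of_ne_one (by omega), mul_zero, add_zero]

/-- coefficients of the restriction are homogeneous -/
theorem ex_hom {d : ℕ} (w w' v : Fin d → ℂ) (f : MvPolynomial (Fin d) ℂ) (D : ℕ)
    (hf : f.IsHomogeneous D) (m : ℕ) :
    (m ≤ D → ((ex w w' v f).coeff m).IsHomogeneous (D - m)) ∧
      (D < m → (ex w w' v f).coeff m = 0) := by
  have key : SH (ex w w' v f) D := by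
    rw [← f.support_sum_monomial_coeff, map_sum]
    refine SH.sum _ _ _ (fun e he => ?_)
    have hdeg : ∑ i, e i * 1 = D := by
      have h1 := hf (mem_support_iff.mp he)
      rw [Finsupp.weight_apply, Finsupp.sum_fintype] at h1
      · simpa using h1
      · intro i; simp
    rw [monomial_eq, map_mul, ex_C, Finsupp.prod_fintype _ _ (fun i => pow_zero _), map_prod,
      ← hdeg, ← zero_add (∑ i, e i * 1)]
    refine (SH.C _).mul (SH.prod _ _ _ (fun i _ => ?_))
    rw [map_pow]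
    exact (SH.exX w w' v i).pow (e i)
  exact key m

/-- the leading relation along a line -/
theorem lead {d : ℕ} {K : Type} [Fintype K] (z : K → Fin d → ℂ) (n : ℕ)
    (l : K → MvPolynomial (Fin d) ℂ) (η₀ : Fin d → ℂ)
    (hl : ∀ P : Fin d → ℂ, P ≠ 0 → η₀ ⬝ᵥ P = 0 → (fun k => eval P (l k)) ∈ relSpace z n P)
    (w w' v : Fin d → ℂ) (hw : η₀ ⬝ᵥ w = 0) (hw' : η₀ ⬝ᵥ w' = 0) (hv : η₀ ⬝ᵥ v = 0)
    (hi : LinearIndependent ℂ ![w, w']) (m : ℕ)
    (hm : ∀ k, Polynomial.X ^ m ∣ ex w w' v (l k))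
    (x y : ℂ) (hxy : x ≠ 0 ∨ y ≠ 0) (η : Fin d → ℂ) (hη : (x • w + y • w') ⬝ᵥ η = 0) :
    ∑ k, eval ![x, y] ((ex w w' v (l k)).coeff m) * (z k ⬝ᵥ η) ^ n = 0 := by
  classical
  obtain ⟨P0, hP0⟩ : ∃ P0, P0 = x • w + y • w' := ⟨_, rfl⟩
  rw [← hP0] at hη
  have hne : P0 ≠ 0 := by
    intro h
    have h1 := LinearIndependent.pair_iff.mp hi x y (by rw [← hP0, h])
    rcases hxy with h2 | h2
    · exact h2 h1.1
    · exact h2 h1.2
  have hη0 : η₀ ⬝ᵥ P0 = 0 := by
    rw [hP0, dotProduct_add, dotProduct_smul, dotProduct_smul, hw, hw']; simp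
  obtain ⟨i, hi'⟩ := Function.ne_iff.mp hne
  obtain ⟨ζ, hζ⟩ : ∃ ζ, P0 ⬝ᵥ ζ = 1 :=
    ⟨Pi.single i (P0 i)⁻¹, by rw [dotProduct_single, mul_inv_cancel₀ hi']⟩
  have hcur : ∀ k, (ex w w' v (l k)).map (eval ![x, y]) = cur P0 v (l k) := fun k => by
    rw [map_ex, hP0]
  have hdiv : ∀ k, ∃ B : Polynomial ℂ, cur P0 v (l k) = Polynomial.X ^ m * B := by
    intro k
    obtain ⟨q, hq⟩ := hm k
    refine ⟨q.map (eval ![x, y]), ?_⟩
    rw [← hcur, hq, Polynomial.map_mul, Polynomial.map_pow, Polynomial.map_X]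
  choose B hB using hdiv
  have hB0 : ∀ k, (B k).eval 0 = eval ![x, y] ((ex w w' v (l k)).coeff m) := by
    intro k
    have h1 : (cur P0 v (l k)).coeff m = (B k).coeff 0 := by
      rw [hB, Polynomial.coeff_X_pow_mul']; simp
    rw [← hcur, Polynomial.coeff_map] at h1
    rw [h1, Polynomial.coeff_zero_eq_eval_zero]
  -- the polynomials
  obtain ⟨T, hT⟩ : ∃ T : K → Polynomial ℂ, ∀ k, T k =
      (1 + Polynomial.C (v ⬝ᵥ ζ) * Polynomial.X) * Polynomial.C (z k ⬝ᵥ η) -
        (Polynomial.C (v ⬝ᵥ η) * Polynomial.X) * Polynomial.C (z k ⬝ᵥ ζ) := ⟨_, fun _ => rfl⟩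
  obtain ⟨Q, hQ⟩ : ∃ Q : Polynomial ℂ, Q = ∑ k, B k * T k ^ n := ⟨_, rfl⟩
  have hkey : ∀ t : ℂ, t ≠ 0 → 1 + t * (v ⬝ᵥ ζ) ≠ 0 → Q.eval t = 0 := by
    intro t ht ht2
    have hPζ : (P0 + t • v) ⬝ᵥ ζ = 1 + t * (v ⬝ᵥ ζ) := by
      rw [add_dotProduct, smul_dotProduct, hζ, smul_eq_mul]
    have hPη : (P0 + t • v) ⬝ᵥ η = t * (v ⬝ᵥ η) := by
      rw [add_dotProduct, smul_dotProduct, hη, smul_eq_mul, zero_add]
    have hPne : P0 + t • v ≠ 0 := by
      intro h
      rw [h, zero_dotProduct] at hPζ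
      exact ht2 hPζ.symm
    have hP0' : η₀ ⬝ᵥ (P0 + t • v) = 0 := by
      rw [dotProduct_add, dotProduct_smul, hη0, hv]; simp
    have h1 := hl _ hPne hP0' ((1 + t * (v ⬝ᵥ ζ)) • η - (t * (v ⬝ᵥ η)) • ζ) (by
      rw [dotProduct_sub, dotProduct_smul, dotProduct_smul, hPζ, hPη, smul_eq_mul, smul_eq_mul]
      ring)
    simp only at h1
    have h2 : ∀ k, eval (P0 + t • v) (l k) = t ^ m * (B k).eval t := by
      intro k
      rw [← eval_cur, hB, Polynomial.eval_mul, Polynomial.eval_pow, Polynomial.eval_X]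
    have h3 : ∀ k, z k ⬝ᵥ ((1 + t * (v ⬝ᵥ ζ)) • η - (t * (v ⬝ᵥ η)) • ζ) = (T k).eval t := by
      intro k
      rw [hT, dotProduct_sub, dotProduct_smul, dotProduct_smul]
      simp
      ring
    have h4 : t ^ m * Q.eval t = 0 := by
      rw [← h1, hQ, Polynomial.eval_finset_sum, Finset.mul_sum]
      refine Finset.sum_congr rfl fun k _ => ?_
      rw [h2, h3, Polynomial.eval_mul, Polynomial.eval_pow]
      ring
    exact (mul_eq_zero.mp h4).resolve_left (pow_ne_zero _ ht)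
  have hR : Polynomial.X * ((1 + Polynomial.C (v ⬝ᵥ ζ) * Polynomial.X) * Q) = 0 := by
    refine Polynomial.funext fun t => ?_
    rw [Polynomial.eval_mul, Polynomial.eval_mul, Polynomial.eval_X, Polynomial.eval_zero]
    by_cases ht : t = 0
    · rw [ht, zero_mul]
    · by_cases ht2 : 1 + t * (v ⬝ᵥ ζ) = 0
      · have : Polynomial.eval t (1 + Polynomial.C (v ⬝ᵥ ζ) * Polynomial.X) = 0 := by
          simp
          rw [← ht2]; ring
        rw [this, zero_mul, mul_zero]
      · rw [hkey t ht ht2, mul_zero, mul_zero]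
  have hQ0 : Q = 0 := by
    rcases mul_eq_zero.mp hR with h | h
    · exact absurd h Polynomial.X_ne_zero
    · rcases mul_eq_zero.mp h with h | h
      · exfalso
        have := congrArg (Polynomial.eval 0) h
        simp at this
      · exact h
  have h5 : Q.eval 0 = 0 := by rw [hQ0, Polynomial.eval_zero]
  rw [hQ, Polynomial.eval_finset_sum] at h5
  rw [← h5]
  refine Finset.sum_congr rfl fun k _ => ?_
  rw [Polynomial.eval_mul, Polynomial.eval_pow, hB0, hT]
  simp

end Pool.Agent.Helper947.Geo
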