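import Pool.Agent.Helper947.Geo.B4

set_option autoImplicit false
open MvPolynomial

namespace Pool.Agent.Helper947.Geo

theorem lt_eta {d : ℕ} (w w' : Fin d → ℂ) (hi : LinearIndependent ℂ ![w, w']) (s t : ℂ) :
    ∃ η : Fin d → ℂ, w ⬝ᵥ η = s ∧ w' ⬝ᵥ η = t := by
  let M : Matrix (Fin 2) (Fin d) ℂ := Matrix.of ![w, w']
  have hr : M.rank = 2 := by
    have h := LinearIndependent.rank_matrix (M := M) hi
    rw [h]
    simp
  have htop : LinearMap.range M.mulVecLin = ⊤ := by
    apply Submodule.eq_top_of_finrank_eq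
    have h1 : Module.finrank ℂ (LinearMap.range M.mulVecLin) = 2 := hr
    rw [h1]
    simp
  obtain ⟨η, hη⟩ : ∃ η, M.mulVecLin η = ![s, t] := by
    have h : ![s, t] ∈ LinearMap.range M.mulVecLin := by
      rw [htop]
      exact Submodule.mem_top
    exact h
  refine ⟨η, ?_, ?_⟩
  · exact congrFun hη 0
  · exact congrFun hη 1

theorem lt_inv {d : ℕ} (w w' v : Fin d → ℂ) (f κ : MvPolynomial (Fin d) ℂ) (m k : ℕ)
    (hm : Polynomial.X ^ m ∣ ex w w' v f) (hk : Polynomial.X ^ k ∣ ex w w' v κ)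
    (x y x' y' : ℂ)
    (h : ∀ t : ℂ, eval (x' • w + y' • w' + t • v) f * eval (x • w + y • w' + t • v) κ
      = eval (x • w + y • w' + t • v) f * eval (x' • w + y' • w' + t • v) κ) :
    eval ![x', y'] ((ex w w' v f).coeff m) * eval ![x, y] ((ex w w' v κ).coeff k)
      = eval ![x, y] ((ex w w' v f).coeff m) * eval ![x', y'] ((ex w w' v κ).coeff k) := by
  have h1 : (ex w w' v f).map (eval ![x', y']) * (ex w w' v κ).map (eval ![x, y]) =
      (ex w w' v f).map (eval ![x, y]) * (ex w w' v κ).map (eval ![x', y']) := by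
    rw [map_ex, map_ex, map_ex, map_ex]
    apply Polynomial.funext
    intro t
    rw [Polynomial.eval_mul, Polynomial.eval_mul, eval_cur, eval_cur, eval_cur, eval_cur]
    exact h t
  obtain ⟨p, hp⟩ := hm
  obtain ⟨q, hq⟩ := hk
  have hc : ∀ (s s' : Fin 2 → ℂ),
      (((ex w w' v f).map (eval s)) * ((ex w w' v κ).map (eval s'))).coeff (m + k) =
      eval s ((ex w w' v f).coeff m) * eval s' ((ex w w' v κ).coeff k) := by
    intro s s'
    rw [hp, hq]
    have e1 : (Polynomial.X ^ m * p).map (eval s) * (Polynomial.X ^ k * q).map (eval s') =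
        Polynomial.X ^ (m + k) * (p.map (eval s) * q.map (eval s')) := by
      simp only [Polynomial.map_mul, Polynomial.map_pow, Polynomial.map_X]
      ring
    have e2 := Polynomial.coeff_X_pow_mul (p.map (eval s) * q.map (eval s')) (m + k) 0
    rw [zero_add] at e2
    have e3 := Polynomial.coeff_X_pow_mul p m 0
    rw [zero_add] at e3
    have e4 := Polynomial.coeff_X_pow_mul q k 0
    rw [zero_add] at e4
    rw [e1, e2, e3, e4, Polynomial.mul_coeff_zero, Polynomial.coeff_map, Polynomial.coeff_map]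
  rw [← hc, ← hc, h1]

theorem lt_succ {R : Type} [CommRing R] (p : Polynomial R) (m : ℕ) (h : Polynomial.X ^ m ∣ p)
    (h0 : p.coeff m = 0) : Polynomial.X ^ (m + 1) ∣ p := by
  rw [Polynomial.X_pow_dvd_iff] at h ⊢
  intro j hj
  rcases Nat.lt_succ_iff_lt_or_eq.mp hj with h' | h'
  · exact h j h'
  · rw [h', h0]

/-- orders along a line through two points -/
theorem line_two {d : ℕ} {K : Type} [Fintype K] [DecidableEq K] (z : K → Fin d → ℂ)
    (n D E τ k : ℕ)
    (l : K → MvPolynomial (Fin d) ℂ) (hlD : ∀ k, (l k).IsHomogeneous D) (η₀ : Fin d → ℂ)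
    (hl : ∀ P : Fin d → ℂ, P ≠ 0 → η₀ ⬝ᵥ P = 0 → (fun k => eval P (l k)) ∈ relSpace z n P)
    (κ : MvPolynomial (Fin d) ℂ) (hκ : κ.IsHomogeneous E) (hE : E ≤ D + n + τ)
    (a b : K) (hne : a ≠ b) (hab : LinearIndependent ℂ ![z a, z b]) (v : Fin d → ℂ)
    (ha : η₀ ⬝ᵥ z a = 0) (hb : η₀ ⬝ᵥ z b = 0) (hv : η₀ ⬝ᵥ v = 0)
    (hκk : Polynomial.X ^ k ∣ ex (z a) (z b) v κ)
    (hκk' : ¬ Polynomial.X ^ (k + 1) ∣ ex (z a) (z b) v κ)
    (hia : ∀ P : Fin d → ℂ, η₀ ⬝ᵥ P = 0 → ∀ r : ℂ,
      eval (P + r • z a) (l a) * eval P κ = eval P (l a) * eval (P + r • z a) κ)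
    (hib : ∀ P : Fin d → ℂ, η₀ ⬝ᵥ P = 0 → ∀ r : ℂ,
      eval (P + r • z b) (l b) * eval P κ = eval P (l b) * eval (P + r • z b) κ)
    (ho : ∀ c, c ≠ a → c ≠ b → Polynomial.X ^ (k - τ) ∣ ex (z a) (z b) v (l c)) :
    Polynomial.X ^ (k - τ) ∣ ex (z a) (z b) v (l a) ∧
      Polynomial.X ^ (k - τ) ∣ ex (z a) (z b) v (l b) := by
  classical
  by_contra hcon
  have hkt : 1 ≤ k - τ := by
    by_contra h
    have h0 : k - τ = 0 := by omega
    apply hcon
    rw [h0, pow_zero]
    exact ⟨one_dvd _, one_dvd _⟩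
  have hcon' : ¬ (Polynomial.X ^ (k - τ - 1 + 1) ∣ ex (z a) (z b) v (l a) ∧
      Polynomial.X ^ (k - τ - 1 + 1) ∣ ex (z a) (z b) v (l b)) := by
    rwa [Nat.sub_add_cancel hkt]
  have hex : ∃ m, ¬ (Polynomial.X ^ (m + 1) ∣ ex (z a) (z b) v (l a) ∧
      Polynomial.X ^ (m + 1) ∣ ex (z a) (z b) v (l b)) := ⟨k - τ - 1, hcon'⟩
  obtain ⟨m, hm⟩ : ∃ m, m = Nat.find hex := ⟨_, rfl⟩
  have hm1 : ¬ (Polynomial.X ^ (m + 1) ∣ ex (z a) (z b) v (l a) ∧
      Polynomial.X ^ (m + 1) ∣ ex (z a) (z b) v (l b)) := by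
    rw [hm]
    exact Nat.find_spec hex
  have hm2 : m ≤ k - τ - 1 := by
    rw [hm]
    exact Nat.find_min' hex hcon'
  have hm3 : Polynomial.X ^ m ∣ ex (z a) (z b) v (l a) ∧
      Polynomial.X ^ m ∣ ex (z a) (z b) v (l b) := by
    rcases Nat.eq_zero_or_pos m with h | h
    · rw [h, pow_zero]
      exact ⟨one_dvd _, one_dvd _⟩
    · have h5 := Nat.find_min hex (m := m - 1) (by rw [← hm]; omega)
      rw [not_not, Nat.sub_add_cancel h] at h5
      exact h5
  have hmall : ∀ c, Polynomial.X ^ m ∣ ex (z a) (z b) v (l c) := by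
    intro c
    by_cases h1 : c = a
    · rw [h1]
      exact hm3.1
    by_cases h2 : c = b
    · rw [h2]
      exact hm3.2
    exact dvd_trans (pow_dvd_pow _ (by omega)) (ho c h1 h2)
  have hc0 : ∀ c, c ≠ a → c ≠ b → (ex (z a) (z b) v (l c)).coeff m = 0 := by
    intro c h1 h2
    exact Polynomial.X_pow_dvd_iff.mp (ho c h1 h2) m (by omega)
  obtain ⟨A, hA⟩ : ∃ A, A = (ex (z a) (z b) v (l a)).coeff m := ⟨_, rfl⟩
  obtain ⟨B, hB⟩ : ∃ B, B = (ex (z a) (z b) v (l b)).coeff m := ⟨_, rfl⟩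
  obtain ⟨κ0, hκ0⟩ : ∃ κ0, κ0 = (ex (z a) (z b) v κ).coeff k := ⟨_, rfl⟩
  have hAB : A ≠ 0 ∨ B ≠ 0 := by
    by_contra h
    push Not at h
    apply hm1
    exact ⟨lt_succ _ m hm3.1 (by rw [← hA, h.1]), lt_succ _ m hm3.2 (by rw [← hB, h.2])⟩
  have hmD : m ≤ D := by
    by_contra h
    push Not at h
    rcases hAB with h' | h'
    · exact h' (by rw [hA]; exact (ex_hom _ _ _ _ D (hlD a) m).2 h)
    · exact h' (by rw [hB]; exact (ex_hom _ _ _ _ D (hlD b) m).2 h)
  have hAh : A.IsHomogeneous (D - m) := by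
    rw [hA]
    exact (ex_hom _ _ _ _ D (hlD a) m).1 hmD
  have hBh : B.IsHomogeneous (D - m) := by
    rw [hB]
    exact (ex_hom _ _ _ _ D (hlD b) m).1 hmD
  have hκne : κ0 ≠ 0 := by
    intro h
    exact hκk' (lt_succ _ k hκk (by rw [← hκ0, h]))
  have hkE : k ≤ E := by
    by_contra h
    push Not at h
    exact hκne (by rw [hκ0]; exact (ex_hom _ _ _ _ E hκ k).2 h)
  have hκh : κ0.IsHomogeneous (E - k) := by
    rw [hκ0]
    exact (ex_hom _ _ _ _ E hκ k).1 hkE
  have h1 : X 1 ^ n * A + (-X 0) ^ n * B = 0 := by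
    have hv0 : ∀ x y : ℂ, (x ≠ 0 ∨ y ≠ 0) →
        eval ![x, y] (X 1 ^ n * A + (-X 0) ^ n * B) = 0 := by
      intro x y hxy
      obtain ⟨η, hη1, hη2⟩ := lt_eta (z a) (z b) hab y (-x)
      have hη : (x • z a + y • z b) ⬝ᵥ η = 0 := by
        rw [add_dotProduct, smul_dotProduct, smul_dotProduct, hη1, hη2, smul_eq_mul, smul_eq_mul]
        ring
      have h6 := lead z n l η₀ hl (z a) (z b) v ha hb hv hab m hmall x y hxy η hη
      rw [Fintype.sum_eq_add a b hne (fun c hc => by rw [hc0 c hc.1 hc.2, map_zero, zero_mul]),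
        ← hA, ← hB, hη1, hη2] at h6
      rw [map_add, map_mul, map_mul, map_pow, map_pow, map_neg, eval_X, eval_X]
      show y ^ n * eval ![x, y] A + (-x) ^ n * eval ![x, y] B = 0
      linear_combination h6
    have h0 : X 0 * (X 1 ^ n * A + (-X 0) ^ n * B) = 0 := by
      apply MvPolynomial.funext
      intro f
      rw [map_mul, map_zero, eval_X]
      by_cases hf : f 0 = 0
      · rw [hf, zero_mul]
      · have h7 : ![f 0, f 1] = f := by
          ext i
          fin_cases i <;> rfl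
        have h8 := hv0 (f 0) (f 1) (Or.inl hf)
        rw [h7] at h8
        rw [h8, mul_zero]
    exact (mul_eq_zero.mp h0).resolve_left (X_ne_zero 0)
  have hperp : ∀ x y t : ℂ, η₀ ⬝ᵥ (x • z a + y • z b + t • v) = 0 := by
    intro x y t
    rw [dotProduct_add, dotProduct_add, dotProduct_smul, dotProduct_smul, dotProduct_smul, ha, hb,
      hv, smul_zero, smul_zero, smul_zero, add_zero, add_zero]
  have h2 : ∀ x y r : ℂ,
      eval ![x + r, y] A * eval ![x, y] κ0 = eval ![x, y] A * eval ![x + r, y] κ0 := by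
    intro x y r
    rw [hA, hκ0]
    refine lt_inv (z a) (z b) v (l a) κ m k hm3.1 hκk x y (x + r) y ?_
    intro t
    have h9 := hia _ (hperp x y t) r
    have h10 : x • z a + y • z b + t • v + r • z a = (x + r) • z a + y • z b + t • v := by
      rw [add_smul]
      abel
    rw [h10] at h9
    exact h9
  have h3 : ∀ x y r : ℂ,
      eval ![x, y + r] B * eval ![x, y] κ0 = eval ![x, y] B * eval ![x, y + r] κ0 := by
    intro x y r
    rw [hB, hκ0]
    refine lt_inv (z a) (z b) v (l b) κ m k hm3.2 hκk x y x (y + r) ?_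
    intro t
    have h9 := hib _ (hperp x y t) r
    have h10 : x • z a + y • z b + t • v + r • z b = x • z a + (y + r) • z b + t • v := by
      rw [add_smul]
      abel
    rw [h10] at h9
    exact h9
  have hfin := line_lemma A B κ0 (D - m) (E - k) n hAh hBh hκh hκne hAB h1 h2 h3
  omega

theorem line_one_eta {d : ℕ} (p q : Fin d → ℂ) (h : LinearIndependent ℂ ![p, q]) (x y : ℂ) :
    ∃ η : Fin d → ℂ, p ⬝ᵥ η = x ∧ q ⬝ᵥ η = y := by
  have hinj : Function.Injective (Fintype.linearCombination ℂ ![p, q]) :=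
    linearIndependent_iff_injective_fintypeLinearCombination.1 h
  obtain ⟨g, hg⟩ := LinearMap.exists_leftInverse_of_injective
    (Fintype.linearCombination ℂ ![p, q]) (LinearMap.ker_eq_bot.2 hinj)
  have h1 : g p = Pi.single 0 1 := by
    have := LinearMap.congr_fun hg (Pi.single 0 1)
    simpa [Fintype.linearCombination_apply] using this
  have h2 : g q = Pi.single 1 1 := by
    have := LinearMap.congr_fun hg (Pi.single 1 1)
    simpa [Fintype.linearCombination_apply] using this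
  let φ : (Fin d → ℂ) →ₗ[ℂ] ℂ := x • (LinearMap.proj 0 ∘ₗ g) + y • (LinearMap.proj 1 ∘ₗ g)
  refine ⟨fun i => φ (fun j => if i = j then 1 else 0), ?_, ?_⟩
  · have h3 := LinearMap.pi_apply_eq_sum_univ φ p
    have h4 : φ p = x := by
      simp [φ, h1]
    rw [← h4, h3]
    simp only [dotProduct, smul_eq_mul]
  · have h3 := LinearMap.pi_apply_eq_sum_univ φ q
    have h4 : φ q = y := by
      simp [φ, h2]
    rw [← h4, h3]
    simp only [dotProduct, smul_eq_mul]

/-- orders along a line through one point -/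
theorem line_one {d : ℕ} {K : Type} [Fintype K] [DecidableEq K] (z : K → Fin d → ℂ)
    (n k : ℕ) (l : K → MvPolynomial (Fin d) ℂ) (η₀ : Fin d → ℂ)
    (hl : ∀ P : Fin d → ℂ, P ≠ 0 → η₀ ⬝ᵥ P = 0 → (fun k => eval P (l k)) ∈ relSpace z n P)
    (a : K) (w' : Fin d → ℂ) (hab : LinearIndependent ℂ ![z a, w']) (v : Fin d → ℂ)
    (ha : η₀ ⬝ᵥ z a = 0) (hb : η₀ ⬝ᵥ w' = 0) (hv : η₀ ⬝ᵥ v = 0)
    (ho : ∀ c, c ≠ a → Polynomial.X ^ k ∣ ex (z a) w' v (l c)) :
    Polynomial.X ^ k ∣ ex (z a) w' v (l a) := by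
  have key : ∀ m, m ≤ k → Polynomial.X ^ m ∣ ex (z a) w' v (l a) := by
    intro m
    induction m with
    | zero => intro _; rw [pow_zero]; exact one_dvd _
    | succ m ih =>
      intro hm
      have hIH := ih (by omega)
      have hdv : ∀ c, Polynomial.X ^ m ∣ ex (z a) w' v (l c) := by
        intro c
        by_cases hc : c = a
        · rw [hc]; exact hIH
        · exact (pow_dvd_pow _ (by omega)).trans (ho c hc)
      have hcoef : ∀ c, c ≠ a → (ex (z a) w' v (l c)).coeff m = 0 := by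
        intro c hc
        exact Polynomial.X_pow_dvd_iff.1 (ho c hc) m (by omega)
      set q := (ex (z a) w' v (l a)).coeff m with hq
      have hq0 : ∀ x y : ℂ, y ≠ 0 → eval ![x, y] q = 0 := by
        intro x y hy
        obtain ⟨η, h1, h2⟩ := line_one_eta (z a) w' hab y (-x)
        have h3 := lead z n l η₀ hl (z a) w' v ha hb hv hab m hdv x y (Or.inr hy) η (by
          rw [add_dotProduct, smul_dotProduct, smul_dotProduct, h1, h2, smul_eq_mul, smul_eq_mul]
          ring)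
        rw [Finset.sum_eq_single a] at h3
        · rw [h1] at h3
          exact (mul_eq_zero.1 h3).resolve_right (pow_ne_zero _ hy)
        · intro c _ hc
          rw [hcoef c hc, map_zero, zero_mul]
        · intro h
          exact absurd (Finset.mem_univ _) h
      have hqX : q * X 1 = 0 := by
        refine MvPolynomial.funext (fun u => ?_)
        have hu : u = ![u 0, u 1] := by
          ext i; fin_cases i <;> rfl
        rw [map_mul, eval_X, map_zero]
        by_cases hy : u 1 = 0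
        · rw [hy, mul_zero]
        · have := hq0 (u 0) (u 1) hy
          rw [← hu] at this
          rw [this, zero_mul]
      have hq1 : q = 0 := (mul_eq_zero.1 hqX).resolve_right (MvPolynomial.X_ne_zero _)
      rw [Polynomial.X_pow_dvd_iff] at hIH ⊢
      intro j hj
      rcases Nat.lt_succ_iff_lt_or_eq.1 hj with h | h
      · exact hIH j h
      · rw [h]; exact hq1
  exact key k le_rfl

/-- order of a product of linear forms along a line -/
theorem kappa_ex {d : ℕ} {I : Type} [DecidableEq I] (J : Finset I) (η : I → Fin d → ℂ)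
    (μ : I → ℕ) (w w' v : Fin d → ℂ) (hv : ∀ j ∈ J, η j ⬝ᵥ v ≠ 0) (k : ℕ)
    (hk : k = ∑ j ∈ J, if (η j ⬝ᵥ w = 0 ∧ η j ⬝ᵥ w' = 0) then μ j else 0) :
    Polynomial.X ^ k ∣ ex w w' v (∏ j ∈ J, lf (η j) ^ μ j) ∧
      ¬ Polynomial.X ^ (k + 1) ∣ ex w w' v (∏ j ∈ J, lf (η j) ^ μ j) := by
  have hj : ∀ j ∈ J, ∃ h : Polynomial (MvPolynomial (Fin 2) ℂ),
      ex w w' v (lf (η j)) =
        Polynomial.X ^ (if (η j ⬝ᵥ w = 0 ∧ η j ⬝ᵥ w' = 0) then 1 else 0) * h ∧ h.coeff 0 ≠ 0 := by
    intro j hjJ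
    by_cases hc : η j ⬝ᵥ w = 0 ∧ η j ⬝ᵥ w' = 0
    · refine ⟨Polynomial.C (C (η j ⬝ᵥ v)), ?_, ?_⟩
      · rw [if_pos hc, ex_lf, hc.1, hc.2]
        simp only [map_zero, zero_mul, add_zero, zero_add, pow_one]
        ring
      · rw [Polynomial.coeff_C_zero]
        intro h0
        exact hv j hjJ (by simpa using h0)
    · refine ⟨ex w w' v (lf (η j)), ?_, ?_⟩
      · rw [if_neg hc, pow_zero, one_mul]
      · rw [ex_lf, Polynomial.coeff_add, Polynomial.coeff_C_zero, Polynomial.coeff_C_mul,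
          Polynomial.coeff_X_zero, mul_zero, add_zero]
        intro h0
        apply hc
        constructor
        · have := congrArg (eval ![(1 : ℂ), 0]) h0
          simpa using this
        · have := congrArg (eval ![(0 : ℂ), 1]) h0
          simpa using this
  choose! h hh1 hh2 using hj
  have hprod : ex w w' v (∏ j ∈ J, lf (η j) ^ μ j) =
      Polynomial.X ^ k * ∏ j ∈ J, h j ^ μ j := by
    rw [map_prod]
    have h1 : ∀ j ∈ J, ex w w' v (lf (η j) ^ μ j) =
        Polynomial.X ^ (if (η j ⬝ᵥ w = 0 ∧ η j ⬝ᵥ w' = 0) then μ j else 0) * h j ^ μ j := by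
      intro j hjJ
      rw [map_pow, hh1 j hjJ, mul_pow, ← pow_mul]
      congr 2
      split_ifs <;> simp
    rw [Finset.prod_congr rfl h1, Finset.prod_mul_distrib, Finset.prod_pow_eq_pow_sum, ← hk]
  have hc0 : (∏ j ∈ J, h j ^ μ j).coeff 0 ≠ 0 := by
    rw [← Polynomial.constantCoeff_apply, map_prod]
    refine Finset.prod_ne_zero_iff.mpr (fun j hjJ => ?_)
    rw [map_pow]
    exact pow_ne_zero _ (hh2 j hjJ)
  rw [hprod]
  refine ⟨Dvd.intro _ rfl, ?_⟩
  intro hdvd
  rw [pow_succ, mul_dvd_mul_iff_left (pow_ne_zero k Polynomial.X_ne_zero),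
    Polynomial.X_dvd_iff] at hdvd
  exact hc0 hdvd

/-- order of a product of linear forms at a point -/
theorem kappa_cur {d : ℕ} {I : Type} [DecidableEq I] (J : Finset I) (η : I → Fin d → ℂ)
    (μ : I → ℕ) (P v : Fin d → ℂ) (hv : ∀ j ∈ J, η j ⬝ᵥ v ≠ 0) (k : ℕ)
    (hk : k = ∑ j ∈ J, if η j ⬝ᵥ P = 0 then μ j else 0) :
    ∃ h : Polynomial ℂ, cur P v (∏ j ∈ J, lf (η j) ^ μ j) = Polynomial.X ^ k * h ∧
      h.eval 0 ≠ 0 := by
  subst hk
  induction J using Finset.induction_on with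
  | empty => exact ⟨1, by simp, by simp⟩
  | insert a s ha ih =>
    obtain ⟨h, h1, h2⟩ := ih (fun j hj => hv j (Finset.mem_insert_of_mem hj))
    have hva := hv a (Finset.mem_insert_self a s)
    rw [Finset.prod_insert ha, map_mul, map_pow, h1, cur_lf, Finset.sum_insert ha]
    by_cases h3 : η a ⬝ᵥ P = 0
    · refine ⟨Polynomial.C (η a ⬝ᵥ v) ^ μ a * h, ?_, ?_⟩
      · rw [h3, if_pos rfl, map_zero, zero_add, mul_pow, pow_add]
        ring
      · rw [Polynomial.eval_mul, Polynomial.eval_pow, Polynomial.eval_C]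
        exact mul_ne_zero (pow_ne_zero _ hva) h2
    · refine ⟨(Polynomial.C (η a ⬝ᵥ P) + Polynomial.C (η a ⬝ᵥ v) * Polynomial.X) ^ μ a * h,
        ?_, ?_⟩
      · rw [if_neg h3, zero_add]
        ring
      · rw [Polynomial.eval_mul, Polynomial.eval_pow]
        simp only [Polynomial.eval_add, Polynomial.eval_mul, Polynomial.eval_C,
          Polynomial.eval_X, mul_zero, add_zero]
        exact mul_ne_zero (pow_ne_zero _ h3) h2

/-- invariance in a transversal direction gives divisibility -/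
theorem inv_order {d : ℕ} {I : Type} [DecidableEq I] (J : Finset I) (η : I → Fin d → ℂ)
    (μ : I → ℕ) (w w' v u η₀ : Fin d → ℂ) (hw : η₀ ⬝ᵥ w = 0) (hw' : η₀ ⬝ᵥ w' = 0)
    (hv : η₀ ⬝ᵥ v = 0) (f : MvPolynomial (Fin d) ℂ)
    (hinv : ∀ P : Fin d → ℂ, η₀ ⬝ᵥ P = 0 → ∀ r : ℂ,
      eval (P + r • u) f * eval P (∏ j ∈ J, lf (η j) ^ μ j) =
        eval P f * eval (P + r • u) (∏ j ∈ J, lf (η j) ^ μ j))
    (hJ : ∀ j ∈ J, ¬ (η j ⬝ᵥ w = 0 ∧ η j ⬝ᵥ w' = 0 ∧ η j ⬝ᵥ u = 0)) (k : ℕ)
    (hk : Polynomial.X ^ k ∣ ex w w' v (∏ j ∈ J, lf (η j) ^ μ j)) :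
    Polynomial.X ^ k ∣ ex w w' v f := by
  set kap : MvPolynomial (Fin d) ℂ := ∏ j ∈ J, lf (η j) ^ μ j with hkap
  -- step 1
  have step1 : ∀ x y r : ℂ, eval (x • w + y • w' + r • u) kap ≠ 0 →
      ∀ i, i < k → eval ![x, y] ((ex w w' v f).coeff i) = 0 := by
    intro x y r hne i hi
    set P0 : Fin d → ℂ := x • w + y • w' with hP0
    have hid : cur (P0 + r • u) v f * cur P0 v kap = cur P0 v f * cur (P0 + r • u) v kap := by
      apply Polynomial.funext
      intro t
      rw [Polynomial.eval_mul, Polynomial.eval_mul, eval_cur, eval_cur, eval_cur, eval_cur]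
      have h0 : η₀ ⬝ᵥ (P0 + t • v) = 0 := by
        rw [hP0, dotProduct_add, dotProduct_add, dotProduct_smul, dotProduct_smul, dotProduct_smul,
          hw, hw', hv]
        simp
      have := hinv (P0 + t • v) h0 r
      have he : P0 + r • u + t • v = P0 + t • v + r • u := by
        rw [add_right_comm]
      rw [he]
      exact this
    have hd1 : Polynomial.X ^ k ∣ cur P0 v kap := by
      rw [hP0, ← map_ex w w' v kap x y]
      have := map_dvd (Polynomial.mapRingHom (eval ![x, y])) hk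
      simpa using this
    have hd2 : Polynomial.X ^ k ∣ cur P0 v f * cur (P0 + r • u) v kap := by
      rw [← hid]
      exact Dvd.dvd.mul_left hd1 _
    have hnd : ¬ (Polynomial.X ∣ cur (P0 + r • u) v kap) := by
      intro hX
      apply hne
      rw [Polynomial.X_dvd_iff, Polynomial.coeff_zero_eq_eval_zero, eval_cur, zero_smul,
        add_zero] at hX
      exact hX
    have hd3 : Polynomial.X ^ k ∣ cur P0 v f :=
      Polynomial.prime_X.pow_dvd_of_dvd_mul_right k hnd hd2
    rw [Polynomial.X_pow_dvd_iff] at hd3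
    have h4 := hd3 i hi
    rw [hP0, ← map_ex w w' v f x y, Polynomial.coeff_map] at h4
    exact h4
  rw [Polynomial.X_pow_dvd_iff]
  intro i hi
  set g : MvPolynomial (Fin 3) ℂ :=
    ∏ j ∈ J, (C (η j ⬝ᵥ w) * X 0 + C (η j ⬝ᵥ w') * X 1 + C (η j ⬝ᵥ u) * X 2) ^ μ j with hg
  have hg0 : g ≠ 0 := by
    rw [hg, Finset.prod_ne_zero_iff]
    intro j hj
    apply pow_ne_zero
    intro h
    apply hJ j hj
    refine ⟨?_, ?_, ?_⟩
    · have := congrArg (eval ![1, 0, 0]) h
      simpa using this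
    · have := congrArg (eval ![0, 1, 0]) h
      simpa using this
    · have := congrArg (eval ![0, 0, 1]) h
      simpa using this
  have hF : rename Fin.castSucc ((ex w w' v f).coeff i) * g = 0 := by
    apply MvPolynomial.funext
    intro q
    rw [map_mul, map_zero, eval_rename]
    by_cases hz : eval q g = 0
    · rw [hz, mul_zero]
    · have hq : (q ∘ Fin.castSucc : Fin 2 → ℂ) = ![q 0, q 1] := by
        funext a
        fin_cases a <;> rfl
      rw [hq]
      have hkq : eval (q 0 • w + q 1 • w' + q 2 • u) kap = eval q g := by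
        rw [hkap, hg, map_prod, map_prod]
        apply Finset.prod_congr rfl
        intro j _
        rw [map_pow, map_pow, eval_lf]
        congr 1
        rw [dotProduct_add, dotProduct_add, dotProduct_smul, dotProduct_smul, dotProduct_smul]
        simp only [map_add, map_mul, eval_C, eval_X, smul_eq_mul]
        ring
      rw [step1 (q 0) (q 1) (q 2) (by rw [hkq]; exact hz) i hi, zero_mul]
  have hF2 : rename Fin.castSucc ((ex w w' v f).coeff i) = (0 : MvPolynomial (Fin 3) ℂ) := by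
    rcases mul_eq_zero.mp hF with h | h
    · exact h
    · exact absurd h hg0
  have hinj := rename_injective (R := ℂ) (Fin.castSucc : Fin 2 → Fin 3) (Fin.castSucc_injective 2)
  apply hinj
  rw [hF2, map_zero]

end Pool.Agent.Helper947.Geo
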