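import Pool.Agent.Helper947.Geo.G1
import Pool.Agent.Helper947.Geo.B5

set_option autoImplicit false
open MvPolynomial

namespace Pool.Agent.Helper947.Geo

theorem ep_deg (P v : Fin 4 → ℂ) (f : MvPolynomial (Fin 4) ℂ) (D : ℕ) (hf : f.IsHomogeneous D) :
    (cur P v f).natDegree ≤ D := by
  have h := MvPolynomial.aeval_natDegree_le (m := D) (n := 1) f hf.totalDegree_le
    (fun i => Polynomial.C (P i) + Polynomial.C (v i) * Polynomial.X) (by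
      intro i
      rw [add_comm]
      exact Polynomial.natDegree_linear_le)
  rw [mul_one] at h
  exact h

theorem ep_comp (P v : Fin 4 → ℂ) (t : ℂ) (f : MvPolynomial (Fin 4) ℂ) :
    cur (P + t • v) v f = (cur P v f).comp (Polynomial.X + Polynomial.C t) := by
  have h : (Polynomial.compRingHom (Polynomial.X + Polynomial.C t)).comp
      (cur P v : MvPolynomial (Fin 4) ℂ →+* Polynomial ℂ)
      = (cur (P + t • v) v : MvPolynomial (Fin 4) ℂ →+* Polynomial ℂ) := by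
    apply MvPolynomial.ringHom_ext
    · intro r
      simp [cur]
    · intro i
      simp [cur]
      ring
  have := congrArg (fun g : MvPolynomial (Fin 4) ℂ →+* Polynomial ℂ => g f) h
  exact this.symm

theorem ep_dvd (F : Polynomial ℂ) (t : ℂ) (k : ℕ)
    (h : Polynomial.X ^ k ∣ F.comp (Polynomial.X + Polynomial.C t)) :
    (Polynomial.X - Polynomial.C t) ^ k ∣ F := by
  obtain ⟨q, hq⟩ := h
  have h1 : (F.comp (Polynomial.X + Polynomial.C t)).comp (Polynomial.X - Polynomial.C t) = F := by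
    rw [Polynomial.comp_assoc]
    simp
  rw [hq] at h1
  rw [← h1, Polynomial.mul_comp, Polynomial.pow_comp, Polynomial.X_comp]
  exact Dvd.intro _ rfl

theorem ep_count (m : Multiset ℂ) (T : Finset ℂ) : ∑ a ∈ T, m.count a ≤ m.card := by
  classical
  calc ∑ a ∈ T, m.count a ≤ ∑ a ∈ T ∪ m.toFinset, m.count a :=
        Finset.sum_le_sum_of_subset Finset.subset_union_left
    _ = m.card := Multiset.sum_count_eq_card fun a ha =>
        Finset.mem_union_right _ (Multiset.mem_toFinset.2 ha)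

theorem ep_root {I : Type} [DecidableEq I] (J : Finset I) (r : I → ℂ) (μ : I → ℕ)
    (F : Polynomial ℂ) (hF : F.natDegree < ∑ j ∈ J, μ j) :
    ∃ j₀ ∈ J, F.rootMultiplicity (r j₀) < ∑ j ∈ J, if r j = r j₀ then μ j else 0 := by
  classical
  by_contra hcon
  push Not at hcon
  have h1 : ∑ t ∈ J.image r, (∑ j ∈ J, if r j = t then μ j else 0) = ∑ j ∈ J, μ j := by
    rw [Finset.sum_comm]
    refine Finset.sum_congr rfl fun j hj => ?_
    rw [Finset.sum_ite_eq, if_pos (Finset.mem_image_of_mem r hj)]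
  have h2 : ∑ t ∈ J.image r, (∑ j ∈ J, if r j = t then μ j else 0) ≤
      ∑ t ∈ J.image r, F.roots.count t := by
    refine Finset.sum_le_sum fun t ht => ?_
    obtain ⟨j, hj, rfl⟩ := Finset.mem_image.1 ht
    rw [Polynomial.count_roots]
    exact hcon j hj
  have h3 := ep_count F.roots (J.image r)
  have h4 := F.card_roots'
  omega

theorem ep_lfL (η η' v P : Fin 4 → ℂ) :
    eval P (lf ((η' ⬝ᵥ v) • η - (η ⬝ᵥ v) • η')) = (η' ⬝ᵥ v) * (η ⬝ᵥ P) - (η ⬝ᵥ v) * (η' ⬝ᵥ P) := by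
  rw [eval_lf, sub_dotProduct, smul_dotProduct, smul_dotProduct, smul_eq_mul, smul_eq_mul]

/-- a function of negative degree on a plane has a pole -/
theorem exists_pole {I : Type} [DecidableEq I] (J : Finset I) (η : I → Fin 4 → ℂ)
    (μ : I → ℕ) (η₀ : Fin 4 → ℂ) (hη₀ : Irreducible (lf η₀))
    (v : Fin 4 → ℂ) (hv : η₀ ⬝ᵥ v = 0) (hvJ : ∀ j ∈ J, η j ⬝ᵥ v ≠ 0)
    (f : MvPolynomial (Fin 4) ℂ) (D : ℕ) (hf : f.IsHomogeneous D) (hf0 : ¬ lf η₀ ∣ f)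
    (hE : D < ∑ j ∈ J, μ j) :
    ∃ j₀ ∈ J, ∃ P : Fin 4 → ℂ, η₀ ⬝ᵥ P = 0 ∧ η j₀ ⬝ᵥ P = 0 ∧
      (∀ j ∈ J, η j ⬝ᵥ P = 0 → ∀ x : Fin 4 → ℂ, η₀ ⬝ᵥ x = 0 → η j₀ ⬝ᵥ x = 0 → η j ⬝ᵥ x = 0) ∧
      ¬ Polynomial.X ^ (∑ j ∈ J, if η j ⬝ᵥ P = 0 then μ j else 0) ∣ cur P v f := by
  classical
  have hprime : Prime (lf η₀) := hη₀.prime
  obtain ⟨L, hL⟩ : ∃ L : I × I → MvPolynomial (Fin 4) ℂ, L = fun q =>
    lf ((η q.2 ⬝ᵥ v) • η q.1 - (η q.1 ⬝ᵥ v) • η q.2) := ⟨_, rfl⟩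
  obtain ⟨Φ, hΦ⟩ : ∃ Φ : MvPolynomial (Fin 4) ℂ, Φ = f * ∏ q ∈ (J ×ˢ J).filter
    (fun q => ¬ lf η₀ ∣ L q), L q := ⟨_, rfl⟩
  have hndvd : ¬ lf η₀ ∣ Φ := by
    rw [hΦ]
    intro h
    rcases hprime.dvd_or_dvd h with h1 | h1
    · exact hf0 h1
    · obtain ⟨q, hq, hq'⟩ := (hprime.dvd_finsetProd_iff _).1 h1
      exact (Finset.mem_filter.1 hq).2 hq'
  obtain ⟨P₁, hP₁, hΦP⟩ := exists_point (lf η₀) Φ hη₀ hndvd
  rw [eval_lf] at hP₁
  rw [hΦ, map_mul, map_prod] at hΦP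
  have hfP : eval P₁ f ≠ 0 := left_ne_zero_of_mul hΦP
  have hLP : ∀ q ∈ J ×ˢ J, eval P₁ (L q) = 0 → lf η₀ ∣ L q := by
    intro q hq h0
    by_contra hnd
    exact (Finset.prod_ne_zero_iff.1 (right_ne_zero_of_mul hΦP)) q
      (Finset.mem_filter.2 ⟨hq, hnd⟩) h0
  obtain ⟨F, hF⟩ : ∃ F : Polynomial ℂ, F = cur P₁ v f := ⟨_, rfl⟩
  have hF0 : F ≠ 0 := by
    intro h
    apply hfP
    have h1 := eval_cur P₁ v f 0
    rw [← hF, h, zero_smul, add_zero, Polynomial.eval_zero] at h1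
    exact h1.symm
  have hFdeg : F.natDegree ≤ D := by
    rw [hF]
    exact ep_deg P₁ v f D hf
  obtain ⟨r, hr⟩ : ∃ r : I → ℂ, r = fun j => -(η j ⬝ᵥ P₁) / (η j ⬝ᵥ v) := ⟨_, rfl⟩
  obtain ⟨j₀, hj₀, hlt⟩ := ep_root J r μ F (lt_of_le_of_lt hFdeg hE)
  have hzero : ∀ j ∈ J, (η j ⬝ᵥ (P₁ + r j₀ • v) = 0 ↔ r j = r j₀) := by
    intro j hj
    have hne := hvJ j hj
    rw [dotProduct_add, dotProduct_smul, smul_eq_mul]
    constructor
    · intro h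
      have hrj : r j = -(η j ⬝ᵥ P₁) / (η j ⬝ᵥ v) := by rw [hr]
      rw [hrj, div_eq_iff hne]
      linear_combination -h
    · intro h
      rw [← h, hr]
      show η j ⬝ᵥ P₁ + -(η j ⬝ᵥ P₁) / (η j ⬝ᵥ v) * (η j ⬝ᵥ v) = 0
      rw [div_mul_cancel₀ _ hne]
      ring
  refine ⟨j₀, hj₀, P₁ + r j₀ • v, ?_, (hzero j₀ hj₀).2 rfl, ?_, ?_⟩
  · rw [dotProduct_add, dotProduct_smul, hP₁, hv, smul_zero, add_zero]
  · intro j hj hjP x hx0 hxj
    have h1 := (hzero j hj).1 hjP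
    have h0 := (hzero j₀ hj₀).2 rfl
    rw [dotProduct_add, dotProduct_smul, smul_eq_mul] at hjP h0
    have h2 : eval P₁ (L (j, j₀)) = 0 := by
      rw [hL]
      show eval P₁ (lf ((η j₀ ⬝ᵥ v) • η j - (η j ⬝ᵥ v) • η j₀)) = 0
      rw [ep_lfL]
      linear_combination (η j₀ ⬝ᵥ v) * hjP - (η j ⬝ᵥ v) * h0
    have h3 := hLP (j, j₀) (Finset.mem_product.2 ⟨hj, hj₀⟩) h2
    obtain ⟨g, hg⟩ := h3
    have h4 : eval x (L (j, j₀)) = 0 := by
      rw [hg, map_mul, eval_lf, hx0, zero_mul]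
    rw [hL] at h4
    have h5 : eval x (lf ((η j₀ ⬝ᵥ v) • η j - (η j ⬝ᵥ v) • η j₀)) = 0 := h4
    rw [ep_lfL, hxj, mul_zero, sub_zero] at h5
    exact (mul_eq_zero.1 h5).resolve_left (hvJ j₀ hj₀)
  · intro hdvd
    rw [ep_comp, ← hF] at hdvd
    have h1 := ep_dvd _ _ _ hdvd
    rw [← Polynomial.le_rootMultiplicity_iff hF0] at h1
    have h2 : (∑ j ∈ J, if η j ⬝ᵥ (P₁ + r j₀ • v) = 0 then μ j else 0) =
        ∑ j ∈ J, if r j = r j₀ then μ j else 0 := by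
      refine Finset.sum_congr rfl fun j hj => ?_
      by_cases hc : r j = r j₀
      · rw [if_pos hc, if_pos ((hzero j hj).2 hc)]
      · rw [if_neg hc, if_neg (fun h => hc ((hzero j hj).1 h))]
    rw [h2] at h1
    exact absurd h1 (not_le.2 hlt)

end Pool.Agent.Helper947.Geo
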