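import Pool.Agent.Helper947.Geo.B6

set_option autoImplicit false
open MvPolynomial

namespace Pool.Agent.Helper947.Geo

theorem inv_kap_aux {d : ℕ} (κ f : MvPolynomial (Fin d) ℂ) (η₀ u e : Fin d → ℂ)
    (he : η₀ ⬝ᵥ e ≠ 0) (hu : η₀ ⬝ᵥ u = 0) (M : ℕ)
    (h : ∀ (P : Fin d → ℂ) (r : ℂ), eval (P + r • u) f * eval P (lf η₀ ^ M * κ) =
      eval P f * eval (P + r • u) (lf η₀ ^ M * κ)) (P : Fin d → ℂ) (r : ℂ) :
    eval (P + r • u) f * eval P κ = eval P f * eval (P + r • u) κ := by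
  have h1 : (cur (P + r • u) e f * cur P e κ - cur P e f * cur (P + r • u) e κ) *
      (cur P e (lf η₀)) ^ M = 0 := by
    apply Polynomial.funext
    intro t
    have h2 := h (P + t • e) r
    have h3 : P + t • e + r • u = P + r • u + t • e := by
      rw [add_assoc, add_comm (t • e), ← add_assoc]
    rw [h3] at h2
    simp only [map_mul, map_pow, eval_lf] at h2
    have h4 : η₀ ⬝ᵥ (P + r • u + t • e) = η₀ ⬝ᵥ (P + t • e) := by
      rw [dotProduct_add, dotProduct_add, dotProduct_add, dotProduct_smul, dotProduct_smul, hu]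
      simp
    rw [h4] at h2
    rw [Polynomial.eval_mul, Polynomial.eval_sub, Polynomial.eval_mul, Polynomial.eval_mul,
      Polynomial.eval_pow, eval_cur, eval_cur, eval_cur, eval_cur, eval_cur, eval_lf,
      Polynomial.eval_zero]
    linear_combination h2
  have h2 : cur P e (lf η₀) ≠ 0 := by
    rw [cur_lf]
    intro h0
    have := congrArg (fun p => Polynomial.coeff p 1) h0
    simp [Polynomial.coeff_C] at this
    exact he this
  have h3 : cur (P + r • u) e f * cur P e κ - cur P e f * cur (P + r • u) e κ = 0 := by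
    rcases mul_eq_zero.1 h1 with h4 | h4
    · exact h4
    · exact absurd h4 (pow_ne_zero _ h2)
  have h4 := congrArg (Polynomial.eval 0) h3
  rw [Polynomial.eval_sub, Polynomial.eval_mul, Polynomial.eval_mul, eval_cur, eval_cur, eval_cur,
    eval_cur, Polynomial.eval_zero] at h4
  simp only [zero_smul, add_zero] at h4
  exact sub_eq_zero.1 h4

theorem span_aux (ρ : Submodule ℂ (Fin 4 → ℂ)) (hρ : Module.finrank ℂ ρ = 2)
    (w w' : Fin 4 → ℂ) (hw : w ∈ ρ) (hw' : w' ∈ ρ) (hli : LinearIndependent ℂ ![w, w'])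
    (x : Fin 4 → ℂ) (hx : x ∈ ρ) : ∃ a b : ℂ, x = a • w + b • w' := by
  have h1 : Submodule.span ℂ (Set.range ![w, w']) ≤ ρ := by
    rw [Submodule.span_le]
    rintro _ ⟨i, rfl⟩
    fin_cases i
    · exact hw
    · exact hw'
  have h2 : Module.finrank ℂ (Submodule.span ℂ (Set.range ![w, w'])) = 2 := by
    rw [finrank_span_eq_card hli]
    rfl
  have h3 := Submodule.eq_of_le_of_finrank_eq h1 (h2.trans hρ.symm)
  rw [← h3] at hx
  have h4 : Set.range ![w, w'] = {w, w'} := by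
    simp only [Matrix.range_cons, Matrix.range_empty, Set.union_empty, Set.singleton_union]
  rw [h4, Submodule.mem_span_pair] at hx
  obtain ⟨a, b, h⟩ := hx
  exact ⟨a, b, h.symm⟩

/-- all multiplicities are one -/
theorem mu_eq_one {K : Type} [Fintype K] [DecidableEq K] (z : K → Fin 4 → ℂ) (n D : ℕ)
    (h3 : ∀ k l m, k ≠ l → k ≠ m → l ≠ m → LinearIndependent ℂ ![z k, z l, z m])
    (h2 : ∀ k l, k ≠ l → LinearIndependent ℂ ![z k, z l]) (h1 : ∀ k, z k ≠ 0)
    (l : K → MvPolynomial (Fin 4) ℂ) (hl : Rel z n l) (hlD : ∀ k, (l k).IsHomogeneous D)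
    (s : ℕ) (η : Fin s → Fin 4 → ℂ) (μ : Fin s → ℕ) (hirr : ∀ i, Irreducible (lf (η i)))
    (hne : ∀ i j, i ≠ j → ¬ lf (η i) ∣ lf (η j)) (hsum : ∑ i, μ i = D + n + 2)
    (hord : ∀ i k, η i ⬝ᵥ z k ≠ 0 → lf (η i) ∣ l k)
    (hinv : ∀ k, ∀ (P : Fin 4 → ℂ) (r : ℂ),
      eval (P + r • z k) (l k) * eval P (∏ i, lf (η i) ^ μ i) =
        eval P (l k) * eval (P + r • z k) (∏ i, lf (η i) ^ μ i))
    (i : Fin s) (hi : μ i ≤ n) (k₀ : K) (hk₀ : ¬ lf (η i) ∣ l k₀) : μ i ≤ 1 := by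
  by_contra hcon
  push Not at hcon
  obtain ⟨J, hJ⟩ : ∃ J : Finset (Fin s), J = Finset.univ.erase i := ⟨_, rfl⟩
  have hJmem : ∀ j, j ∈ J ↔ j ≠ i := by
    intro j
    rw [hJ]
    simp
  have hsumJ : μ i + ∑ j ∈ J, μ j = D + n + 2 := by
    rw [hJ, Finset.add_sum_erase Finset.univ μ (Finset.mem_univ i), hsum]
  have hprodJ : (∏ j, lf (η j) ^ μ j) = lf (η i) ^ μ i * ∏ j ∈ J, lf (η j) ^ μ j := by
    rw [hJ, Finset.mul_prod_erase Finset.univ (fun j => lf (η j) ^ μ j) (Finset.mem_univ i)]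
  obtain ⟨e, he⟩ : ∃ e, η i ⬝ᵥ e ≠ 0 := by
    by_contra h
    push Not at h
    apply (hirr i).ne_zero
    unfold lf
    apply Finset.sum_eq_zero
    intro j _
    have := h (Pi.single j 1)
    rw [dotProduct_single, mul_one] at this
    rw [this, map_zero, zero_mul]
  -- (a)
  have ha : ∀ c, η i ⬝ᵥ z c = 0 → ∀ (P : Fin 4 → ℂ) (r : ℂ),
      eval (P + r • z c) (l c) * eval P (∏ j ∈ J, lf (η j) ^ μ j) =
        eval P (l c) * eval (P + r • z c) (∏ j ∈ J, lf (η j) ^ μ j) := by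
    intro c hc P r
    apply inv_kap_aux _ _ (η i) (z c) e he hc (μ i)
    intro P' r'
    rw [← hprodJ]
    exact hinv c P' r'
  -- (b)
  have hdvd : ¬ lf (η i) ∣ ∏ j ∈ J, lf (η j) := by
    intro h
    obtain ⟨j, hj, hdj⟩ := ((hirr i).prime.dvd_finsetProd_iff _).1 h
    exact hne i j (fun h' => (hJmem j).1 hj h'.symm) hdj
  obtain ⟨v, hv, hvJ⟩ := exists_point _ _ (hirr i) hdvd
  rw [eval_lf] at hv
  have hvJ' : ∀ j ∈ J, η j ⬝ᵥ v ≠ 0 := by
    intro j hj h
    apply hvJ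
    rw [map_prod]
    apply Finset.prod_eq_zero hj
    rw [eval_lf, h]
  -- (c)
  obtain ⟨j₀, hj₀, P, hP0, hPj0, hPJ, hPX⟩ := exists_pole J η μ (η i) (hirr i) v hv hvJ' (l k₀) D
    (hlD k₀) hk₀ (by omega)
  obtain ⟨k, hk⟩ : ∃ k, k = ∑ j ∈ J, if η j ⬝ᵥ P = 0 then μ j else 0 := ⟨_, rfl⟩
  rw [← hk] at hPX
  have hzk0 : η i ⬝ᵥ z k₀ = 0 := by
    by_contra h
    exact hk₀ (hord i k₀ h)
  have hu : ∀ u, η i ⬝ᵥ u = 0 → η j₀ ⬝ᵥ u ≠ 0 → ∀ j ∈ J, η j ⬝ᵥ P = 0 → η j ⬝ᵥ u ≠ 0 := by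
    intro u hu0 huj j hj hjP hju
    have h1 := hPJ j hj hjP (v - ((η j₀ ⬝ᵥ v) / (η j₀ ⬝ᵥ u)) • u)
      (by rw [dotProduct_sub, dotProduct_smul, hv, hu0]; simp)
      (by rw [dotProduct_sub, dotProduct_smul, smul_eq_mul, div_mul_cancel₀ _ huj, sub_self])
    rw [dotProduct_sub, dotProduct_smul, hju, smul_zero, sub_zero] at h1
    exact hvJ' j hj h1
  -- (d)
  have hkρ : η j₀ ⬝ᵥ z k₀ = 0 := by
    by_contra h
    apply hPX
    have hkap := kappa_ex J η μ P P v hvJ' k (by rw [hk]; simp only [and_self])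
    have h5 := inv_order J η μ P P v (z k₀) (η i) hP0 hP0 hv (l k₀)
      (fun P' _ r => ha k₀ hzk0 P' r)
      (by
        rintro j hj ⟨h6, -, h7⟩
        exact hu (z k₀) hzk0 h j hj h6 h7) k hkap.1
    obtain ⟨q, hq⟩ := h5
    have h6 := map_ex P P v (l k₀) 1 0
    rw [hq, Polynomial.map_mul, Polynomial.map_pow, Polynomial.map_X] at h6
    have h7 : (1 : ℂ) • P + (0 : ℂ) • P = P := by simp
    rw [h7] at h6
    rw [← h6]
    exact dvd_mul_right _ _
  -- (e)
  let L : (Fin 4 → ℂ) →ₗ[ℂ] (Fin 2 → ℂ) :=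
    { toFun := fun x => ![η i ⬝ᵥ x, η j₀ ⬝ᵥ x]
      map_add' := by
        intro x y
        ext a
        fin_cases a <;> simp [dotProduct_add]
      map_smul' := by
        intro c x
        ext a
        fin_cases a <;> simp [dotProduct_smul] }
  have hLs : Function.Surjective L := by
    intro t
    have hc : η j₀ ⬝ᵥ v ≠ 0 := hvJ' j₀ hj₀
    refine ⟨(t 0 / (η i ⬝ᵥ e)) • e +
      ((t 1 - (t 0 / (η i ⬝ᵥ e)) * (η j₀ ⬝ᵥ e)) / (η j₀ ⬝ᵥ v)) • v, ?_⟩
    ext a
    fin_cases a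
    · change η i ⬝ᵥ _ = t 0
      rw [dotProduct_add, dotProduct_smul, dotProduct_smul, hv, smul_zero, add_zero, smul_eq_mul,
        div_mul_cancel₀ _ he]
    · change η j₀ ⬝ᵥ _ = t 1
      rw [dotProduct_add, dotProduct_smul, dotProduct_smul, smul_eq_mul, smul_eq_mul,
        div_mul_cancel₀ _ hc]
      ring
  obtain ⟨ρ, hρ⟩ : ∃ ρ : Submodule ℂ (Fin 4 → ℂ), ρ = LinearMap.ker L := ⟨_, rfl⟩
  have hρmem : ∀ x, x ∈ ρ ↔ η i ⬝ᵥ x = 0 ∧ η j₀ ⬝ᵥ x = 0 := by
    intro x
    rw [hρ, LinearMap.mem_ker]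
    constructor
    · intro h
      exact ⟨congrFun h 0, congrFun h 1⟩
    · rintro ⟨h4, h5⟩
      ext a
      fin_cases a
      · exact h4
      · exact h5
  have hρdim : Module.finrank ℂ ρ = 2 := by
    have h4 := LinearMap.finrank_range_add_finrank_ker L
    rw [LinearMap.range_eq_top.2 hLs, finrank_top, Module.finrank_fin_fun, Module.finrank_fin_fun,
      ← hρ] at h4
    omega
  have hwρ : z k₀ ∈ ρ := (hρmem _).2 ⟨hzk0, hkρ⟩
  have hPρ : P ∈ ρ := (hρmem _).2 ⟨hP0, hPj0⟩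
  have hkw : ∀ w' ∈ ρ, LinearIndependent ℂ ![z k₀, w'] →
      k = ∑ j ∈ J, if (η j ⬝ᵥ z k₀ = 0 ∧ η j ⬝ᵥ w' = 0) then μ j else 0 := by
    intro w' hw' hli
    rw [hk]
    apply Finset.sum_congr rfl
    intro j hj
    have hiff : (η j ⬝ᵥ P = 0) ↔ (η j ⬝ᵥ z k₀ = 0 ∧ η j ⬝ᵥ w' = 0) := by
      constructor
      · intro h
        have hw'' := (hρmem _).1 hw'
        exact ⟨hPJ j hj h _ hzk0 hkρ, hPJ j hj h _ hw''.1 hw''.2⟩
      · rintro ⟨h4, h5⟩
        obtain ⟨a, b, hab⟩ := span_aux ρ hρdim _ _ hwρ hw' hli P hPρ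
        rw [hab, dotProduct_add, dotProduct_smul, dotProduct_smul, h4, h5]
        simp
    simp only [hiff]
  have hfinal : ∀ w' ∈ ρ, LinearIndependent ℂ ![z k₀, w'] →
      Polynomial.X ^ k ∣ ex (z k₀) w' v (l k₀) → False := by
    intro w' hw' hli hdiv
    apply hPX
    obtain ⟨a, b, hab⟩ := span_aux ρ hρdim _ _ hwρ hw' hli P hPρ
    obtain ⟨q, hq⟩ := hdiv
    have h6 := map_ex (z k₀) w' v (l k₀) a b
    rw [hq, Polynomial.map_mul, Polynomial.map_pow, Polynomial.map_X, ← hab] at h6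
    rw [← h6]
    exact dvd_mul_right _ _
  have hother : ∀ w' ∈ ρ, LinearIndependent ℂ ![z k₀, w'] → ∀ c, z c ∉ ρ →
      Polynomial.X ^ k ∣ ex (z k₀) w' v (l c) := by
    intro w' hw' hli c hc
    have hw'' := (hρmem _).1 hw'
    by_cases h0 : η i ⬝ᵥ z c = 0
    · have hj : η j₀ ⬝ᵥ z c ≠ 0 := fun h => hc ((hρmem _).2 ⟨h0, h⟩)
      have hkap := kappa_ex J η μ (z k₀) w' v hvJ' k (hkw w' hw' hli)
      apply inv_order J η μ (z k₀) w' v (z c) (η i) hzk0 hw''.1 hv (l c)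
        (fun P' _ r => ha c h0 P' r) _ k hkap.1
      rintro j hj' ⟨h6, h7, h8⟩
      refine hu (z c) h0 hj j hj' ?_ h8
      obtain ⟨a, b, hab⟩ := span_aux ρ hρdim _ _ hwρ hw' hli P hPρ
      rw [hab, dotProduct_add, dotProduct_smul, dotProduct_smul, h6, h7]
      simp
    · obtain ⟨q, hq⟩ := hord i c h0
      have h5 : ex (z k₀) w' v (lf (η i)) = 0 := by
        rw [ex_lf, hzk0, hw''.1, hv]
        simp
      rw [hq, map_mul, h5, zero_mul]
      exact dvd_zero _
  by_cases hb : ∃ b, b ≠ k₀ ∧ z b ∈ ρ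
  · obtain ⟨b, hbk, hbρ⟩ := hb
    have hli := h2 k₀ b hbk.symm
    have hbρ' := (hρmem _).1 hbρ
    have hkap := kappa_ex J η μ (z k₀) (z b) v hvJ' k (hkw _ hbρ hli)
    have hdeg : (∏ j ∈ J, lf (η j) ^ μ j).IsHomogeneous (∑ j ∈ J, μ j) := by
      apply MvPolynomial.IsHomogeneous.prod
      intro j _
      have h5 : (lf (η j)).IsHomogeneous 1 := by
        unfold lf
        apply MvPolynomial.IsHomogeneous.sum
        intro a _
        have := (isHomogeneous_C (Fin 4) (η j a)).mul (isHomogeneous_X ℂ a)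
        simpa using this
      simpa using h5.pow (μ j)
    have hres := line_two z n D (∑ j ∈ J, μ j) 0 k l hlD (η i) (fun P' hP' _ => hl P' hP')
      (∏ j ∈ J, lf (η j) ^ μ j) hdeg (by omega) k₀ b hbk.symm hli v hzk0 hbρ'.1 hv hkap.1 hkap.2
      (fun P' _ r => ha k₀ hzk0 P' r) (fun P' _ r => ha b hbρ'.1 P' r)
      (by
        intro c hc1 hc2
        rw [Nat.sub_zero]
        apply hother _ hbρ hli
        intro hcρ
        obtain ⟨x, y, hxy⟩ := span_aux ρ hρdim _ _ hwρ hbρ hli _ hcρ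
        have hli3 := h3 k₀ b c hbk.symm (Ne.symm hc1) (Ne.symm hc2)
        rw [Fintype.linearIndependent_iff] at hli3
        have := hli3 ![x, y, -1] (by
          simp only [Fin.sum_univ_three, Matrix.cons_val_zero, Matrix.cons_val_one,
            Matrix.cons_val]
          rw [hxy]
          module) 2
        simp at this)
    rw [Nat.sub_zero] at hres
    exact hfinal _ hbρ hli hres.1
  · push Not at hb
    obtain ⟨w', hw', hli⟩ : ∃ w' ∈ ρ, LinearIndependent ℂ ![z k₀, w'] := by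
      by_contra hno
      push Not at hno
      have hle : ρ ≤ Submodule.span ℂ {z k₀} := by
        intro x hx
        have h5 := hno x hx
        by_contra h6
        apply h5
        rw [LinearIndependent.pair_iff]
        intro s' t' hst
        have ht' : t' = 0 := by
          by_contra ht'
          apply h6
          rw [Submodule.mem_span_singleton]
          refine ⟨-(t'⁻¹ * s'), ?_⟩
          have h7 : x = t'⁻¹ • (t' • x) := by rw [smul_smul, inv_mul_cancel₀ ht', one_smul]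
          have h8 : t' • x = -(s' • z k₀) := by
            rw [eq_neg_iff_add_eq_zero, add_comm]
            exact hst
          rw [h7, h8, smul_neg, smul_smul, neg_smul]
        rw [ht', zero_smul, add_zero] at hst
        rcases smul_eq_zero.1 hst with h7 | h7
        · exact ⟨h7, ht'⟩
        · exact absurd h7 (h1 k₀)
      have h5 := Submodule.finrank_mono hle
      rw [hρdim, finrank_span_singleton (h1 k₀)] at h5
      omega
    have hw'' := (hρmem _).1 hw'
    apply hfinal w' hw' hli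
    apply line_one z n k l (η i) (fun P' hP' _ => hl P' hP') k₀ w' hli v hzk0 hw''.1 hv
    intro c hc
    exact hother w' hw' hli c (hb c hc)

theorem plt_homog {d : ℕ} (η : Fin d → ℂ) : (lf η).IsHomogeneous 1 := by
  unfold lf
  exact MvPolynomial.IsHomogeneous.sum _ _ _ fun i _ => isHomogeneous_C_mul_X _ _

theorem plt_prop (u : Fin 3 → Fin 4 → ℂ) (hu : LinearIndependent ℂ u) (x y : Fin 4 → ℂ)
    (hx : x ≠ 0) (h1 : ∀ i, x ⬝ᵥ u i = 0) (h2 : ∀ i, y ⬝ᵥ u i = 0) : ∃ c : ℂ, c • x = y := by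
  let M : Matrix (Fin 3) (Fin 4) ℂ := Matrix.of u
  have hr : Module.finrank ℂ (LinearMap.range M.mulVecLin) = 3 := by
    have h3 : M.rank = Fintype.card (Fin 3) := LinearIndependent.rank_matrix (M := M) hu
    rw [Fintype.card_fin] at h3
    exact h3
  have hk : Module.finrank ℂ (LinearMap.ker M.mulVecLin) = 1 := by
    have h4 := LinearMap.finrank_range_add_finrank_ker M.mulVecLin
    rw [hr, Module.finrank_fin_fun] at h4
    omega
  have hmem : ∀ w : Fin 4 → ℂ, (∀ i, w ⬝ᵥ u i = 0) → w ∈ LinearMap.ker M.mulVecLin := by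
    intro w hw
    rw [LinearMap.mem_ker, Matrix.mulVecLin_apply]
    ext i
    show u i ⬝ᵥ w = 0
    rw [dotProduct_comm]
    exact hw i
  have hx' : (⟨x, hmem x h1⟩ : LinearMap.ker M.mulVecLin) ≠ 0 := by
    intro h
    exact hx (congrArg Subtype.val h)
  obtain ⟨c, hc⟩ := (finrank_eq_one_iff_of_nonzero' _ hx').1 hk ⟨y, hmem y h2⟩
  exact ⟨c, congrArg Subtype.val hc⟩

theorem plt_smul {d : ℕ} (c : ℂ) (η : Fin d → ℂ) : lf (c • η) = C c * lf η := by
  unfold lf
  rw [Finset.mul_sum]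
  apply Finset.sum_congr rfl
  intro i _
  rw [Pi.smul_apply, smul_eq_mul, map_mul, mul_assoc]

/-- along every line through two points the poles have order at most two -/
theorem pole_le_two {K : Type} [Fintype K] [DecidableEq K] (z : K → Fin 4 → ℂ) (n D : ℕ)
    (h3 : ∀ k l m, k ≠ l → k ≠ m → l ≠ m → LinearIndependent ℂ ![z k, z l, z m])
    (h2 : ∀ k l, k ≠ l → LinearIndependent ℂ ![z k, z l])
    (l : K → MvPolynomial (Fin 4) ℂ) (hl : Rel z n l) (hlD : ∀ k, (l k).IsHomogeneous D)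
    (s : ℕ) (η : Fin s → Fin 4 → ℂ) (hirr : ∀ i, Irreducible (lf (η i)))
    (hne : ∀ i j, i ≠ j → ¬ lf (η i) ∣ lf (η j)) (hsum : s = D + n + 2)
    (hord : ∀ i k, η i ⬝ᵥ z k ≠ 0 → lf (η i) ∣ l k)
    (hinv : ∀ k, ∀ (P : Fin 4 → ℂ) (r : ℂ),
      eval (P + r • z k) (l k) * eval P (∏ i, lf (η i)) =
        eval P (l k) * eval (P + r • z k) (∏ i, lf (η i)))
    (v : Fin 4 → ℂ) (hv : ∀ i, η i ⬝ᵥ v ≠ 0) (a b : K) (hab : a ≠ b) :
    Polynomial.X ^ ((∑ i, if (η i ⬝ᵥ z a = 0 ∧ η i ⬝ᵥ z b = 0) then 1 else 0) - 2) ∣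
      ex (z a) (z b) v (l a) := by
  classical
  set k := ∑ i, if (η i ⬝ᵥ z a = 0 ∧ η i ⬝ᵥ z b = 0) then 1 else 0 with hk
  have hκ : (∏ i, lf (η i)).IsHomogeneous s := by
    have h1 := MvPolynomial.IsHomogeneous.prod Finset.univ (fun i => lf (η i)) (fun _ => 1)
      (fun i _ => plt_homog (η i))
    simpa using h1
  have hkap := kappa_ex Finset.univ η (fun _ => 1) (z a) (z b) v (fun j _ => hv j) k hk
  simp only [pow_one] at hkap
  refine (line_two z n D s 2 k l hlD 0 (fun P hP _ => hl P hP) (∏ i, lf (η i)) hκ hsum.le a b hab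
    (h2 a b hab) v (zero_dotProduct _) (zero_dotProduct _) (zero_dotProduct _) hkap.1 hkap.2
    (fun P _ r => hinv a P r) (fun P _ r => hinv b P r) ?_).1
  intro c hca hcb
  let S : Finset (Fin s) := Finset.univ.filter fun i => η i ⬝ᵥ z a = 0 ∧ η i ⬝ᵥ z b = 0
  have hkS : k = S.card := by
    rw [hk, Finset.card_filter]
  let T : Finset (Fin s) := S.filter fun i => η i ⬝ᵥ z c ≠ 0
  have hTS : S.card ≤ T.card + 1 := by
    have h1 : (S.filter fun i => ¬ (η i ⬝ᵥ z c ≠ 0)).card ≤ 1 := by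
      rw [Finset.card_le_one]
      intro i hi j hj
      by_contra hij
      rw [Finset.mem_filter, not_not] at hi hj
      have hi1 := (Finset.mem_filter.1 hi.1).2
      have hj1 := (Finset.mem_filter.1 hj.1).2
      have h0 : η i ≠ 0 := by
        intro h
        apply (hirr i).ne_zero
        rw [h]
        simp [lf]
      obtain ⟨r, hr⟩ := plt_prop ![z a, z b, z c] (h3 a b c hab (Ne.symm hca) (Ne.symm hcb))
        (η i) (η j) h0 (by
          intro m
          fin_cases m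
          · exact hi1.1
          · exact hi1.2
          · exact hi.2) (by
          intro m
          fin_cases m
          · exact hj1.1
          · exact hj1.2
          · exact hj.2)
      apply hne i j hij
      rw [← hr, plt_smul]
      exact dvd_mul_left _ _
    have h2' := Finset.card_filter_add_card_filter_not (s := S) (fun i => η i ⬝ᵥ z c ≠ 0)
    have h3' : T.card + (S.filter fun i => ¬ (η i ⬝ᵥ z c ≠ 0)).card = S.card := h2'
    omega
  have hdvd : ∏ i ∈ T, lf (η i) ∣ l c := by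
    refine Finset.prod_dvd_of_isRelPrime ?_ ?_
    · intro i _ j _ hij
      exact ((hirr i).isRelPrime_iff_not_dvd).2 (hne i j hij)
    · intro i hi
      exact hord i c (Finset.mem_filter.1 hi).2
  have hX : ∀ i ∈ T, (Polynomial.X : Polynomial (MvPolynomial (Fin 2) ℂ)) ∣
      ex (z a) (z b) v (lf (η i)) := by
    intro i hi
    have hi1 := (Finset.mem_filter.1 (Finset.mem_filter.1 hi).1).2
    rw [ex_lf, hi1.1, hi1.2]
    simp
  have h4 : (Polynomial.X : Polynomial (MvPolynomial (Fin 2) ℂ)) ^ T.card ∣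
      ex (z a) (z b) v (l c) := by
    refine dvd_trans ?_ (map_dvd (ex (z a) (z b) v) hdvd)
    rw [map_prod, ← Finset.prod_const]
    exact Finset.prod_dvd_prod_of_dvd _ _ hX
  exact (pow_dvd_pow _ (by omega)).trans h4

end Pool.Agent.Helper947.Geo
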