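import Pool.Agent.Helper947.Geo.G5
import Pool.Agent.Helper947.Geo.Core3

set_option autoImplicit false
open MvPolynomial

namespace Pool.Agent.Helper947.Geo

/-- a cone with given vertex through the points -/
theorem exists_cone {K : Type} [Fintype K] [DecidableEq K] (z : K → Fin 4 → ℂ) (n : ℕ)
    (hn : 1 ≤ n) (hcard : Fintype.card K ≤ (n + 2).choose 2) (a : K) (ha : z a ≠ 0) :
    ∃ f : MvPolynomial (Fin 4) ℂ, f ≠ 0 ∧
      (∀ (c : K → ℂ) (v : Fin 4 → ℂ) (c₀ : ℂ),
        (∀ η : Fin 4 → ℂ, z a ⬝ᵥ η = 0 →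
          ∑ k ∈ Finset.univ.erase a, c k * (z k ⬝ᵥ η) ^ n + c₀ * (v ⬝ᵥ η) ^ n = 0) →
        c₀ * eval v f = 0) := by
  classical
  obtain ⟨j, hj⟩ : ∃ j, z a j ≠ 0 := by
    by_contra h
    push Not at h
    exact ha (funext h)
  obtain ⟨E, hE⟩ : ∃ E : Fin 3 → Fin 4 → ℂ, ∀ i, E i =
      z a j • Pi.single (j.succAbove i) 1 - z a (j.succAbove i) • Pi.single j 1 :=
    ⟨_, fun _ => rfl⟩
  have hdot : ∀ (x : Fin 4 → ℂ) i, x ⬝ᵥ E i = x (j.succAbove i) * z a j - x j * z a (j.succAbove i) := by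
    intro x i
    rw [hE, dotProduct_sub, dotProduct_smul, dotProduct_smul, dotProduct_single,
      dotProduct_single, smul_eq_mul, smul_eq_mul]
    ring
  obtain ⟨p, hp⟩ : ∃ p : (Fin 4 → ℂ) → (Fin 3 → ℂ), ∀ x i, p x i = x ⬝ᵥ E i :=
    ⟨fun x i => x ⬝ᵥ E i, fun _ _ => rfl⟩
  have hsurj : ∀ y, ∃ x, p x = y := by
    intro y
    refine ⟨j.insertNth 0 (fun i => y i / z a j), ?_⟩
    funext i
    rw [hp, hdot, Fin.insertNth_apply_succAbove, Fin.insertNth_apply_same]
    field_simp
    ring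
  have hbil : ∀ (x : Fin 4 → ℂ) (η' : Fin 3 → ℂ), x ⬝ᵥ (∑ i, η' i • E i) = p x ⬝ᵥ η' := by
    intro x η'
    rw [dotProduct_sum]
    simp only [dotProduct_smul, smul_eq_mul]
    rw [dotProduct]
    refine Finset.sum_congr rfl fun i _ => ?_
    rw [hp]; ring
  -- the linear conditions
  obtain ⟨Φ, hΦ⟩ : ∃ Φ : homogeneousSubmodule (Fin 3) ℂ n →ₗ[ℂ] ({k // k ≠ a} → ℂ),
      ∀ g k, Φ g k = eval (p (z k)) (g : MvPolynomial (Fin 3) ℂ) :=
    ⟨LinearMap.pi fun k => ((MvPolynomial.aeval (p (z k))).toLinearMap : MvPolynomial (Fin 3) ℂ →ₗ[ℂ] ℂ).comp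
      (homogeneousSubmodule (Fin 3) ℂ n).subtype, fun g k => by
        simp [MvPolynomial.aeval_eq_eval]⟩
  have hfr : Module.finrank ℂ (homogeneousSubmodule (Fin 3) ℂ n) = (n + 2).choose 2 := by
    have := finrank_forms 2 n
    rwa [add_comm 2 n] at this
  have hcK : 0 < Fintype.card K := Fintype.card_pos_iff.2 ⟨a⟩
  have hcard2 : Fintype.card {k // k ≠ a} = Fintype.card K - 1 := by
    rw [Fintype.card_subtype_compl, Fintype.card_subtype_eq]
  haveI : FiniteDimensional ℂ (homogeneousSubmodule (Fin 3) ℂ n) :=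
    Module.finite_of_finrank_pos (by rw [hfr]; exact Nat.choose_pos (by omega))
  have hker : LinearMap.ker Φ ≠ ⊥ := by
    apply LinearMap.ker_ne_bot_of_finrank_lt
    rw [Module.finrank_fintype_fun_eq_card, hcard2, hfr]
    omega
  obtain ⟨g, hgk, hg0⟩ := Submodule.exists_mem_ne_zero_of_ne_bot hker
  have hgv : ∀ k, k ≠ a → eval (p (z k)) (g : MvPolynomial (Fin 3) ℂ) = 0 := by
    intro k hk
    have := congrFun (LinearMap.mem_ker.1 hgk) ⟨k, hk⟩
    rw [hΦ] at this
    simpa using this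
  have hghom : (g : MvPolynomial (Fin 3) ℂ).IsHomogeneous n :=
    (mem_homogeneousSubmodule n _).1 g.2
  have hev : ∀ v : Fin 4 → ℂ, eval v (aeval (fun i => lf (E i)) (g : MvPolynomial (Fin 3) ℂ)) =
      eval (p v) (g : MvPolynomial (Fin 3) ℂ) := by
    intro v
    have h : (eval v).comp (aeval (fun i => lf (E i)) :
        MvPolynomial (Fin 3) ℂ →ₐ[ℂ] MvPolynomial (Fin 4) ℂ).toRingHom = eval (p v) := by
      apply MvPolynomial.ringHom_ext
      · intro r
        simp
      · intro i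
        simp only [RingHom.comp_apply, AlgHom.toRingHom_eq_coe, RingHom.coe_coe, aeval_X, eval_lf,
          eval_X]
        rw [hp, dotProduct_comm]
    exact congrArg (fun q : MvPolynomial (Fin 3) ℂ →+* ℂ => q g) h
  refine ⟨aeval (fun i => lf (E i)) (g : MvPolynomial (Fin 3) ℂ), ?_, ?_⟩
  · intro h0
    apply hg0
    apply Subtype.ext
    apply MvPolynomial.funext
    intro y
    obtain ⟨x, rfl⟩ := hsurj y
    rw [← hev, h0]
    simp
  · intro c v c₀ hrel
    rw [hev]
    have hmem : Function.update c a c₀ ∈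
        evRel (Function.update (fun k => p (z k)) a (p v)) n := by
      apply polarize
      intro η'
      rw [← Finset.sum_erase_add _ _ (Finset.mem_univ a)]
      have hz : z a ⬝ᵥ (∑ i, η' i • E i) = 0 := by
        rw [hbil, dotProduct]
        refine Finset.sum_eq_zero fun i _ => ?_
        rw [hp, hdot]; ring
      have := hrel _ hz
      rw [← this]
      congr 1
      · refine Finset.sum_congr rfl fun k hk => ?_
        have hka := Finset.ne_of_mem_erase hk
        rw [Function.update_of_ne hka, Function.update_of_ne hka, hbil]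
      · rw [Function.update_self, Function.update_self, hbil]
    have h1 := hmem g hghom
    rw [← Finset.sum_erase_add _ _ (Finset.mem_univ a)] at h1
    rw [Function.update_self, Function.update_self] at h1
    rw [Finset.sum_eq_zero, zero_add] at h1
    · exact h1
    · intro k hk
      have hka := Finset.ne_of_mem_erase hk
      rw [Function.update_of_ne hka, Function.update_of_ne hka, hgv k hka, mul_zero]

end Pool.Agent.Helper947.Geo
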