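import Pool.Agent.Helper947.Geo.B7
import Pool.Agent.Helper947.Geo.B8

set_option autoImplicit false
open MvPolynomial

namespace Pool.Agent.Helper947.Geo

theorem fs_ev {g : MvPolynomial (Fin 4) ℂ} {m : ℕ} (hg : g.IsHomogeneous m) (v : Fin 4 → ℂ)
    (t : ℂ) : eval (t • v) g = t ^ m * eval v g := by
  rw [MvPolynomial.eval_eq', MvPolynomial.eval_eq', Finset.mul_sum]
  apply Finset.sum_congr rfl
  intro d hd
  have h1 : ∑ i, d i = m := by
    have := hg (MvPolynomial.mem_support_iff.mp hd)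
    rw [← this, Finsupp.weight_apply, Finsupp.sum_fintype]
    · simp
    · simp
  simp only [Pi.smul_apply, smul_eq_mul, mul_pow, Finset.prod_mul_distrib,
    Finset.prod_pow_eq_pow_sum, h1]
  ring

theorem fs_lf (y : Fin 4 → ℂ) : (lf y).IsHomogeneous 1 := by
  unfold lf
  apply MvPolynomial.IsHomogeneous.sum
  intro i _
  have h := (MvPolynomial.isHomogeneous_C (Fin 4) (y i)).mul (MvPolynomial.isHomogeneous_X ℂ i)
  simpa using h

theorem fs_root (q : Polynomial ℂ) (hq : q ≠ 0) : ∃ r, q.eval r ≠ 0 := by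
  by_contra hc
  have hc' : ∀ x, q.eval x = 0 := fun x => by
    by_contra hx
    exact hc ⟨x, hx⟩
  exact hq (Polynomial.funext (fun x => by rw [hc' x, Polynomial.eval_zero]))

/-- cancelling powers of `X` -/
theorem fs_cancel (a b kL kw : ℕ) (hab : kL ≤ 2 + a) (G k1 Q h : Polynomial ℂ)
    (h0 : h.eval 0 ≠ 0)
    (he : Polynomial.X ^ a * G * (Polynomial.X ^ kw * k1) = Q * (Polynomial.X ^ kL * h)) :
    Polynomial.X ^ kw ∣ Polynomial.X ^ 2 * Q := by
  have hX : (Polynomial.X : Polynomial ℂ) ≠ 0 := Polynomial.X_ne_zero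
  obtain ⟨e, he'⟩ := Nat.exists_eq_add_of_le hab
  have h1 : Polynomial.X ^ kL * (h * (Polynomial.X ^ 2 * Q)) =
      Polynomial.X ^ kL * (Polynomial.X ^ kw * (Polynomial.X ^ e * (G * k1))) := by
    calc Polynomial.X ^ kL * (h * (Polynomial.X ^ 2 * Q))
        = Polynomial.X ^ 2 * (Q * (Polynomial.X ^ kL * h)) := by ring
      _ = Polynomial.X ^ 2 * (Polynomial.X ^ a * G * (Polynomial.X ^ kw * k1)) := by rw [he]
      _ = Polynomial.X ^ (2 + a) * (G * (Polynomial.X ^ kw * k1)) := by rw [pow_add]; ring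
      _ = Polynomial.X ^ (kL + e) * (G * (Polynomial.X ^ kw * k1)) := by rw [he']
      _ = _ := by rw [pow_add]; ring
  have h2 := mul_left_cancel₀ (pow_ne_zero kL hX) h1
  have h3 : Polynomial.X ^ kw ∣ h * (Polynomial.X ^ 2 * Q) := ⟨_, h2⟩
  refine Polynomial.prime_X.pow_dvd_of_dvd_mul_left kw ?_ h3
  rw [Polynomial.X_dvd_iff, Polynomial.coeff_zero_eq_eval_zero]
  exact h0

/-- the final contradiction at a point of the set -/
theorem final_step {K : Type} [Fintype K] [DecidableEq K] (z : K → Fin 4 → ℂ) (n D : ℕ)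
    (hn : 1 ≤ n) (hcard : Fintype.card K ≤ (n + 2).choose 2)
    (h3 : ∀ k l m, k ≠ l → k ≠ m → l ≠ m → LinearIndependent ℂ ![z k, z l, z m])
    (h2 : ∀ k l, k ≠ l → LinearIndependent ℂ ![z k, z l])
    (l : K → MvPolynomial (Fin 4) ℂ) (hl0 : ∀ k, l k ≠ 0) (hl : Rel z n l)
    (hlD : ∀ k, (l k).IsHomogeneous D)
    (s : ℕ) (η : Fin s → Fin 4 → ℂ) (hirr : ∀ i, Irreducible (lf (η i)))
    (hne : ∀ i j, i ≠ j → ¬ lf (η i) ∣ lf (η j)) (hsum : s = D + n + 2)
    (hord : ∀ i k, η i ⬝ᵥ z k ≠ 0 → lf (η i) ∣ l k)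
    (hinv : ∀ k, ∀ (P : Fin 4 → ℂ) (r : ℂ),
      eval (P + r • z k) (l k) * eval P (∏ i, lf (η i)) =
        eval P (l k) * eval (P + r • z k) (∏ i, lf (η i)))
    (a : K) (ha : z a ≠ 0) : False := by
  set kap : MvPolynomial (Fin 4) ℂ := ∏ i, lf (η i) with hkap
  have hkap0 : kap ≠ 0 := Finset.prod_ne_zero_iff.mpr (fun i _ => (hirr i).ne_zero)
  obtain ⟨f, hf0, hf⟩ := exists_cone z n hn hcard a ha
  obtain ⟨v, hv⟩ : ∃ v : Fin 4 → ℂ, eval v (kap * l a * f) ≠ 0 := by
    by_contra hc
    have hc' : ∀ x, eval x (kap * l a * f) = 0 := fun x => by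
      by_contra hx
      exact hc ⟨x, hx⟩
    have h1 : kap * l a * f ≠ 0 := mul_ne_zero (mul_ne_zero hkap0 (hl0 a)) hf0
    exact h1 (MvPolynomial.funext (fun x => by rw [hc' x, map_zero]))
  rw [map_mul, map_mul] at hv
  have hv3 : eval v f ≠ 0 := right_ne_zero_of_mul hv
  have hv2 : eval v (l a) ≠ 0 := right_ne_zero_of_mul (left_ne_zero_of_mul hv)
  have hv1 : eval v kap ≠ 0 := left_ne_zero_of_mul (left_ne_zero_of_mul hv)
  have hηv : ∀ i, η i ⬝ᵥ v ≠ 0 := by
    intro i h
    apply hv1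
    rw [hkap, map_prod]
    exact Finset.prod_eq_zero (Finset.mem_univ i) (by rw [eval_lf, h])
  have hK : ∀ P : Fin 4 → ℂ, ∃ h : Polynomial ℂ,
      cur P v kap = Polynomial.X ^ (∑ i, if η i ⬝ᵥ P = 0 then 1 else 0) * h ∧ h.eval 0 ≠ 0 := by
    intro P
    obtain ⟨h, h1, h2⟩ := kappa_cur Finset.univ η (fun _ => 1) P v (fun j _ => hηv j) _ rfl
    refine ⟨h, ?_, h2⟩
    rw [hkap]
    simpa only [pow_one] using h1
  obtain ⟨kap1, hk1, hk1'⟩ := hK (z a)
  set kw : ℕ := ∑ i, if η i ⬝ᵥ z a = 0 then 1 else 0 with hkw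
  have hkapH : kap.IsHomogeneous s := by
    rw [hkap]
    have := MvPolynomial.IsHomogeneous.prod Finset.univ (fun i => lf (η i)) (fun _ => 1)
      (fun i _ => fs_lf (η i))
    simpa using this
  have hA : Polynomial.X ^ (n + 2) * (Polynomial.C (eval v kap) * cur (z a) v (l a)) =
      Polynomial.X ^ kw * (Polynomial.C (eval v (l a)) * kap1) := by
    have h1 : Polynomial.X ^ D * (Polynomial.X ^ (n + 2) *
        (Polynomial.C (eval v kap) * cur (z a) v (l a))) =
        Polynomial.X ^ D * (Polynomial.X ^ kw * (Polynomial.C (eval v (l a)) * kap1)) := by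
      apply Polynomial.funext
      intro t
      have h2 := hinv a (t • v) 1
      rw [one_smul, fs_ev hkapH, fs_ev (hlD a)] at h2
      have h3 : (cur (z a) v kap).eval t = eval (z a + t • v) kap := eval_cur _ _ _ _
      rw [hk1] at h3
      simp only [Polynomial.eval_mul, Polynomial.eval_pow, Polynomial.eval_X,
        Polynomial.eval_C] at h3 ⊢
      rw [eval_cur]
      rw [add_comm (t • v) (z a), hsum, show D + n + 2 = D + (n + 2) by ring, pow_add] at h2
      calc t ^ D * (t ^ (n + 2) * (eval v kap * eval (z a + t • v) (l a)))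
          = eval (z a + t • v) (l a) * (t ^ D * t ^ (n + 2) * eval v kap) := by ring
        _ = t ^ D * eval v (l a) * eval (z a + t • v) kap := h2
        _ = t ^ D * eval v (l a) * (t ^ kw * Polynomial.eval t kap1) := by rw [h3]
        _ = _ := by ring
    exact mul_left_cancel₀ (pow_ne_zero _ Polynomial.X_ne_zero) h1
  have hB : ∀ c, c ≠ a → Polynomial.X ^ kw ∣ Polynomial.X ^ 2 * cur (z a) v (l c) := by
    intro c hc
    have hp := pole_le_two z n D h3 h2 l hl hlD s η hirr hne hsum hord hinv v hηv c a hc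
    set kL : ℕ := ∑ i, if (η i ⬝ᵥ z c = 0 ∧ η i ⬝ᵥ z a = 0) then 1 else 0 with hkL
    obtain ⟨r, hr⟩ : ∃ r : ℂ, ∀ i, ¬ (η i ⬝ᵥ z c = 0 ∧ η i ⬝ᵥ z a = 0) →
        η i ⬝ᵥ (z a + r • z c) ≠ 0 := by
      have hq : (∏ i ∈ Finset.univ.filter (fun i => ¬ (η i ⬝ᵥ z c = 0 ∧ η i ⬝ᵥ z a = 0)),
          (Polynomial.C (η i ⬝ᵥ z a) + Polynomial.C (η i ⬝ᵥ z c) * Polynomial.X) :
            Polynomial ℂ) ≠ 0 := by
        rw [Finset.prod_ne_zero_iff]
        intro i hi h
        rw [Finset.mem_filter] at hi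
        apply hi.2
        constructor
        · have := congrArg (fun p => Polynomial.coeff p 1) h
          simpa using this
        · have := congrArg (fun p => Polynomial.coeff p 0) h
          simpa using this
      obtain ⟨r, hr⟩ : ∃ r, (∏ i ∈ Finset.univ.filter
          (fun i => ¬ (η i ⬝ᵥ z c = 0 ∧ η i ⬝ᵥ z a = 0)),
          (Polynomial.C (η i ⬝ᵥ z a) + Polynomial.C (η i ⬝ᵥ z c) * Polynomial.X) :
            Polynomial ℂ).eval r ≠ 0 := fs_root _ hq
      refine ⟨r, fun i hi h => hr ?_⟩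
      rw [Polynomial.eval_prod]
      apply Finset.prod_eq_zero (Finset.mem_filter.mpr ⟨Finset.mem_univ i, hi⟩)
      simp only [Polynomial.eval_add, Polynomial.eval_C, Polynomial.eval_mul, Polynomial.eval_X]
      rw [dotProduct_add, dotProduct_smul, smul_eq_mul] at h
      rw [← h]
      ring
    obtain ⟨h, hh1, hh2⟩ := hK (z a + r • z c)
    have hsumL : (∑ i, if η i ⬝ᵥ (z a + r • z c) = 0 then 1 else 0) = kL := by
      rw [hkL]
      apply Finset.sum_congr rfl
      intro i _
      by_cases hi : (η i ⬝ᵥ z c = 0 ∧ η i ⬝ᵥ z a = 0)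
      · rw [if_pos hi, if_pos]
        rw [dotProduct_add, dotProduct_smul, hi.1, hi.2]
        simp
      · rw [if_neg hi, if_neg (hr i hi)]
    rw [hsumL] at hh1
    obtain ⟨g, hg⟩ := hp
    have hg' : cur (z a + r • z c) v (l c) =
        Polynomial.X ^ (kL - 2) * g.map (eval ![r, 1]) := by
      have h1 := map_ex (z c) (z a) v (l c) r 1
      rw [hg, Polynomial.map_mul, Polynomial.map_pow, Polynomial.map_X, one_smul, add_comm] at h1
      exact h1.symm
    have hinv' : cur (z a + r • z c) v (l c) * cur (z a) v kap =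
        cur (z a) v (l c) * cur (z a + r • z c) v kap := by
      apply Polynomial.funext
      intro t
      rw [Polynomial.eval_mul, Polynomial.eval_mul, eval_cur, eval_cur, eval_cur, eval_cur]
      have := hinv c (z a + t • v) r
      rw [show z a + r • z c + t • v = z a + t • v + r • z c by abel]
      exact this
    rw [hg', hk1, hh1] at hinv'
    exact fs_cancel (kL - 2) 0 kL kw (by omega) _ kap1 _ h hh2 hinv'
  have hB' : ∀ c, ∃ B : Polynomial ℂ,
      c ≠ a → Polynomial.X ^ 2 * cur (z a) v (l c) = Polynomial.X ^ kw * B := by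
    intro c
    by_cases hc : c = a
    · exact ⟨0, fun h => absurd hc h⟩
    · obtain ⟨B, hB1⟩ := hB c hc
      exact ⟨B, fun _ => hB1⟩
  choose B hB'' using hB'
  have hfin := hf (fun k => eval v kap * (B k).eval 0) v
    ((-1) ^ n * eval v (l a) * kap1.eval 0) ?_
  · exact (mul_ne_zero (mul_ne_zero (mul_ne_zero (pow_ne_zero _ (by norm_num)) hv2) hk1') hv3)
      hfin
  · intro y hy
    obtain ⟨i0, hi0⟩ := Function.ne_iff.mp ha
    have hi0' : z a i0 ≠ 0 := hi0
    obtain ⟨ζ, hζ⟩ : ∃ ζ : Fin 4 → ℂ, z a ⬝ᵥ ζ = 1 := by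
      refine ⟨Pi.single i0 (z a i0)⁻¹, ?_⟩
      rw [dotProduct_single]
      exact mul_inv_cancel₀ hi0'
    obtain ⟨Th, hThd⟩ : ∃ Th : (Fin 4 → ℂ) → Polynomial ℂ, ∀ u, Th u =
        (1 + Polynomial.C (v ⬝ᵥ ζ) * Polynomial.X) * Polynomial.C (u ⬝ᵥ y) -
          Polynomial.X * Polynomial.C (v ⬝ᵥ y) * Polynomial.C (u ⬝ᵥ ζ) := ⟨_, fun _ => rfl⟩
    have hTh : ∀ (u : Fin 4 → ℂ) (t : ℂ), (Th u).eval t =
        u ⬝ᵥ ((1 + v ⬝ᵥ ζ * t) • y - (t * (v ⬝ᵥ y)) • ζ) := by
      intro u t
      rw [hThd, dotProduct_sub, dotProduct_smul, dotProduct_smul]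
      simp only [Polynomial.eval_sub, Polynomial.eval_mul, Polynomial.eval_add,
        Polynomial.eval_one, Polynomial.eval_C, Polynomial.eval_X, smul_eq_mul]
    have hS : ∑ c, cur (z a) v (l c) * (Th (z c)) ^ n = 0 := by
      have h1 : (Polynomial.C (z a i0) + Polynomial.C (v i0) * Polynomial.X) *
          ∑ c, cur (z a) v (l c) * (Th (z c)) ^ n = 0 := by
        apply Polynomial.funext
        intro t
        rw [Polynomial.eval_mul, Polynomial.eval_zero]
        by_cases hP : z a + t • v = 0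
        · have h2 : z a i0 + v i0 * t = 0 := by
            have := congrFun hP i0
            simpa [mul_comm] using this
          have h3 : (Polynomial.C (z a i0) + Polynomial.C (v i0) * Polynomial.X).eval t = 0 := by
            simp only [Polynomial.eval_mul, Polynomial.eval_add, Polynomial.eval_C,
              Polynomial.eval_X]
            exact h2
          rw [h3, zero_mul]
        · rw [mul_eq_zero]
          right
          rw [Polynomial.eval_finsetSum]
          have hθ : (z a + t • v) ⬝ᵥ ((1 + v ⬝ᵥ ζ * t) • y - (t * (v ⬝ᵥ y)) • ζ) = 0 := by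
            simp only [dotProduct_sub, dotProduct_smul, add_dotProduct, smul_dotProduct,
              smul_eq_mul, hy, hζ]
            ring
          have h4 := hl (z a + t • v) hP _ hθ
          simp only [Polynomial.eval_mul, Polynomial.eval_pow, eval_cur, hTh]
          exact h4
      rcases mul_eq_zero.mp h1 with h | h
      · exfalso
        apply hi0'
        have := congrArg (fun p => Polynomial.coeff p 0) h
        simpa using this
      · exact h
    rw [← Finset.add_sum_erase Finset.univ _ (Finset.mem_univ a)] at hS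
    have hTa : Th (z a) = - (Polynomial.X * Polynomial.C (v ⬝ᵥ y)) := by
      rw [hThd, hy, hζ]
      simp
    have hT : Polynomial.X ^ kw * (∑ c ∈ Finset.univ.erase a,
        Polynomial.C (eval v kap) * B c * (Th (z c)) ^ n +
        Polynomial.C ((-1) ^ n * eval v (l a) * (v ⬝ᵥ y) ^ n) * kap1) = 0 := by
      have h1 : Polynomial.X ^ kw * (∑ c ∈ Finset.univ.erase a,
          Polynomial.C (eval v kap) * B c * (Th (z c)) ^ n) =
          Polynomial.C (eval v kap) * Polynomial.X ^ 2 *
            ∑ c ∈ Finset.univ.erase a, cur (z a) v (l c) * (Th (z c)) ^ n := by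
        rw [Finset.mul_sum, Finset.mul_sum]
        apply Finset.sum_congr rfl
        intro c hc
        have h2 := hB'' c (Finset.ne_of_mem_erase hc)
        calc Polynomial.X ^ kw * (Polynomial.C (eval v kap) * B c * Th (z c) ^ n)
            = Polynomial.C (eval v kap) * (Polynomial.X ^ kw * B c) * Th (z c) ^ n := by ring
          _ = Polynomial.C (eval v kap) * (Polynomial.X ^ 2 * cur (z a) v (l c)) *
              Th (z c) ^ n := by rw [h2]
          _ = _ := by ring
      have h2 : Polynomial.X ^ kw *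
          (Polynomial.C ((-1) ^ n * eval v (l a) * (v ⬝ᵥ y) ^ n) * kap1) =
          Polynomial.C (eval v kap) * Polynomial.X ^ 2 *
            (cur (z a) v (l a) * (Th (z a)) ^ n) := by
        rw [hTa]
        simp only [Polynomial.C_mul, Polynomial.C_pow, Polynomial.C_neg, Polynomial.C_1]
        calc Polynomial.X ^ kw * ((-1) ^ n * Polynomial.C (eval v (l a)) *
              Polynomial.C (v ⬝ᵥ y) ^ n * kap1)
            = (-1) ^ n * Polynomial.C (v ⬝ᵥ y) ^ n *
                (Polynomial.X ^ kw * (Polynomial.C (eval v (l a)) * kap1)) := by ring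
          _ = (-1) ^ n * Polynomial.C (v ⬝ᵥ y) ^ n * (Polynomial.X ^ (n + 2) *
                (Polynomial.C (eval v kap) * cur (z a) v (l a))) := by rw [hA]
          _ = _ := by
            rw [neg_pow (Polynomial.X * Polynomial.C (v ⬝ᵥ y)) n,
              mul_pow Polynomial.X (Polynomial.C (v ⬝ᵥ y)) n, pow_add]
            ring
      rw [mul_add, h1, h2, ← mul_add, add_comm, hS, mul_zero]
    rcases mul_eq_zero.mp hT with h | h
    · exact absurd h (pow_ne_zero _ Polynomial.X_ne_zero)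
    · have h1 := congrArg (Polynomial.eval 0) h
      rw [Polynomial.eval_add, Polynomial.eval_finsetSum, Polynomial.eval_zero] at h1
      simp only [Polynomial.eval_mul, Polynomial.eval_pow, Polynomial.eval_C, hTh, mul_zero,
        add_zero, one_smul, zero_mul, zero_smul, sub_zero] at h1
      refine Eq.trans ?_ h1
      congr 1
      ring

end Pool.Agent.Helper947.Geo
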