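import Pool.Agent.Helper947.Geo.G3

set_option autoImplicit false
open MvPolynomial

namespace Pool.Agent.Helper947.Geo

theorem g4_off_lines {d : ℕ} (hd : 4 ≤ d) {K : Type} [Fintype K] [DecidableEq K]
    (z : K → Fin d → ℂ) (δ : MvPolynomial (Fin d) ℂ) (hδ : Irreducible δ) :
    ∃ φ : MvPolynomial (Fin d) ℂ, ¬ δ ∣ φ ∧
      ∀ P : Fin d → ℂ, eval P φ ≠ 0 → ∀ k l, P ∉ Submodule.span ℂ {z k, z l} := by
  choose f hf1 hf2 using fun (q : K × K) => off_line hd δ hδ (z q.1) (z q.2)
  refine ⟨∏ q : K × K, f q, ?_, ?_⟩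
  · intro h
    rw [Prime.dvd_finsetProd_iff hδ.prime] at h
    obtain ⟨q, -, hq⟩ := h
    exact hf1 q hq
  · intro P hP k l
    rw [map_prod] at hP
    exact hf2 (k, l) P (Finset.prod_ne_zero_iff.mp hP (k, l) (Finset.mem_univ _))

theorem g4_pt {d : ℕ} (hd : 4 ≤ d) {K : Type} [Fintype K] [DecidableEq K]
    (z : K → Fin d → ℂ) (n : ℕ) (hn : 2 ≤ n) (l : K → MvPolynomial (Fin d) ℂ) (hl : Rel z n l)
    (P : Fin d → ℂ) (W : Finset K) (hW : W.Nonempty)
    (hind : LinearIndependent ℂ (fun k : W => z k))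
    (hP : ∀ k l, P ∉ Submodule.span ℂ {z k, z l})
    (h1 : ∀ k ∈ W, eval P (l k) ≠ 0) (h2 : ∀ k, k ∉ W → eval P (l k) = 0) : False := by
  have hP0 : P ≠ 0 := by
    rintro rfl
    obtain ⟨k, hk⟩ := hW
    exact hP k k (Submodule.zero_mem _)
  apply no_rel hd z n hn P W hW hind (fun k _ l _ => hP k l) (fun k => eval P (l k)) h1
  intro η hη
  have h3 := hl P hP0 η hη
  rw [← Finset.sum_subset (Finset.subset_univ W)] at h3
  · exact h3
  · intro k _ hk
    simp only
    rw [h2 k hk, zero_mul]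

theorem g4_exists_ne {d : ℕ} (φ : MvPolynomial (Fin d) ℂ) (hφ : φ ≠ 0) :
    ∃ P : Fin d → ℂ, eval P φ ≠ 0 := by
  by_contra h
  push Not at h
  apply hφ
  apply MvPolynomial.funext
  intro x
  rw [h x, map_zero]

/-- the contradiction for linearly general sets -/
theorem core_general {d : ℕ} (hd : 4 ≤ d) {K : Type} [Fintype K] [DecidableEq K]
    (z : K → Fin d → ℂ) (n : ℕ) (hn : 2 ≤ n)
    (hgen : ∀ s : Finset K, s.card ≤ d → LinearIndependent ℂ (fun k : s => z k))
    (φ : MvPolynomial (Fin d) ℂ) (hφ : φ ≠ 0)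
    (h1 : ∀ P : Fin d → ℂ, eval P φ ≠ 0 → relSpace z n P ≠ ⊥)
    (h2 : ∀ P : Fin d → ℂ, eval P φ ≠ 0 →
      Module.finrank ℂ (relSpace z (n - 1) P) ≤ d - 1) : False := by
  classical
  obtain ⟨D, l, hl0, hlD, hl, hprim⟩ := exists_primitive z n φ hφ h1
  have : NeZero d := ⟨by omega⟩
  -- the support has at least d points
  have hbasis : ∀ S : Finset K, d ≤ S.card →
      ∃ b : Fin d → K, (∀ i, b i ∈ S) ∧ LinearIndependent ℂ (fun i => z (b i)) := by
    intro S hS
    obtain ⟨T, hTS, hT⟩ := Finset.exists_subset_card_eq hS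
    have e : Fin d ≃ T := (Fintype.equivFinOfCardEq (by simp [hT])).symm
    refine ⟨fun i => (e i : K), fun i => hTS (e i).2, ?_⟩
    exact (hgen T (le_of_eq hT)).comp e e.injective
  set S : Finset K := Finset.univ.filter (fun k => l k ≠ 0) with hSdef
  have hScard : d ≤ S.card := by
    by_contra hlt
    push Not at hlt
    have hSne : S.Nonempty := by
      by_contra hne
      rw [Finset.not_nonempty_iff_eq_empty] at hne
      apply hl0
      funext k
      by_contra hk
      have : k ∈ S := by simp only [hSdef, Finset.mem_filter, Finset.mem_univ, true_and]; exact hk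
      rw [hne] at this
      exact absurd this (Finset.notMem_empty _)
    obtain ⟨ψ, hψ1, hψ2⟩ := g4_off_lines hd z (X 0 : MvPolynomial (Fin d) ℂ)
      MvPolynomial.X_prime.irreducible
    have hψ0 : ψ ≠ 0 := by rintro rfl; exact hψ1 (dvd_zero _)
    obtain ⟨P, hP⟩ := g4_exists_ne (ψ * ∏ k ∈ S, l k) (mul_ne_zero hψ0
      (Finset.prod_ne_zero_iff.mpr (fun k hk => (Finset.mem_filter.mp hk).2)))
    rw [map_mul, map_prod] at hP
    exact g4_pt hd z n hn l hl P S hSne (hgen S hlt.le) (hψ2 P (left_ne_zero_of_mul hP))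
      (fun k hk => Finset.prod_ne_zero_iff.mp (right_ne_zero_of_mul hP) k hk)
      (fun k hk => by
        have : l k = 0 := by
          by_contra h
          exact hk (by simp only [hSdef, Finset.mem_filter, Finset.mem_univ, true_and]; exact h)
        rw [this, map_zero])
  obtain ⟨b, hbS, hb⟩ := hbasis S hScard
  have hb' : ∀ i, l (b i) ≠ 0 := fun i => (Finset.mem_filter.mp (hbS i)).2
  obtain ⟨Q, g, hQ, hg, hstar, hQprim⟩ := star (by omega) z n D (by omega) l hl hlD b hb hb' φ hφ h2
  have hnoirr : ∀ δ : MvPolynomial (Fin d) ℂ, Irreducible δ → ¬ δ ∣ Q := by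
    intro δ hδ hδQ
    set W : Finset K := Finset.univ.filter (fun k => ¬ δ ∣ l k) with hWdef
    have hWne : W.Nonempty := by
      obtain ⟨k, hk⟩ := hprim δ hδ
      exact ⟨k, by simp only [hWdef, Finset.mem_filter, Finset.mem_univ, true_and]; exact hk⟩
    have hWcard : W.card < d := by
      by_contra hge
      push Not at hge
      obtain ⟨b2, hb2, hb2i⟩ := hbasis W hge
      obtain ⟨j, hj⟩ := hQprim δ hδ hδQ
      apply hj
      have hdiv : ∀ i, δ ∣ lin g (z (b2 i)) := by
        intro i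
        have h3 := hstar (b2 i)
        have h4 : δ ∣ lin g (z (b2 i)) * l (b2 i) := by
          rw [← h3]; exact Dvd.dvd.mul_right hδQ _
        rcases hδ.prime.dvd_or_dvd h4 with h5 | h5
        · exact h5
        · exact absurd h5 (Finset.mem_filter.mp (hb2 i)).2
      have hspan : Submodule.span ℂ (Set.range fun i => z (b2 i)) = ⊤ := by
        apply hb2i.span_eq_top_of_card_eq_finrank
        simp
      have hmem : (Pi.single j (1:ℂ) : Fin d → ℂ) ∈ Submodule.span ℂ (Set.range fun i => z (b2 i)) := by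
        rw [hspan]; trivial
      obtain ⟨c, hc⟩ := (Submodule.mem_span_range_iff_exists_fun ℂ).mp hmem
      have h6 : g j = ∑ i, C (c i) * lin g (z (b2 i)) := by
        simp only [lin, Finset.mul_sum]
        rw [Finset.sum_comm]
        have h7 : ∀ y, ∑ x, C (c x) * (g y * C (z (b2 x) y)) = g y * C ((Pi.single j (1:ℂ) : Fin d → ℂ) y) := by
          intro y
          rw [← hc]
          simp only [Finset.sum_apply, Pi.smul_apply, smul_eq_mul, map_sum, map_mul, Finset.mul_sum]
          apply Finset.sum_congr rfl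
          intro i _
          ring
        simp only [h7]
        rw [Finset.sum_eq_single j]
        · simp
        · intro y _ hy
          simp [Pi.single_eq_of_ne hy]
        · simp
      rw [h6]
      exact Finset.dvd_sum (fun i _ => Dvd.dvd.mul_left (hdiv i) _)
    obtain ⟨ψ, hψ1, hψ2⟩ := g4_off_lines hd z δ hδ
    obtain ⟨P, hP0, hP⟩ := exists_point δ (ψ * ∏ k ∈ W, l k) hδ (by
      intro h
      rcases hδ.prime.dvd_or_dvd h with h | h
      · exact hψ1 h
      · rw [Prime.dvd_finsetProd_iff hδ.prime] at h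
        obtain ⟨k, hk, hk2⟩ := h
        exact (Finset.mem_filter.mp hk).2 hk2)
    rw [map_mul, map_prod] at hP
    refine g4_pt hd z n hn l hl P W hWne (hgen W hWcard.le) (hψ2 P (left_ne_zero_of_mul hP))
      (fun k hk => Finset.prod_ne_zero_iff.mp (right_ne_zero_of_mul hP) k hk)
      (fun k hk => ?_)
    have : δ ∣ l k := by
      by_contra h
      exact hk (by simp only [hWdef, Finset.mem_filter, Finset.mem_univ, true_and]; exact h)
    obtain ⟨q, hq⟩ := this
    rw [hq, map_mul, hP0, zero_mul]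
  have hunit : IsUnit Q := by
    by_contra hnu
    obtain ⟨δ, hδ, hδQ⟩ := WfDvdMonoid.exists_irreducible_factor hnu hQ
    exact hnoirr δ hδ hδQ
  have h8 : eval (0 : Fin d → ℂ) Q ≠ 0 := by
    have := hunit.map (eval (0 : Fin d → ℂ))
    exact this.ne_zero
  have h9 := congrArg (eval (0 : Fin d → ℂ)) hg
  simp only [map_sum, map_mul, eval_X, Pi.zero_apply, mul_zero, Finset.sum_const_zero, eval_C] at h9
  rcases mul_eq_zero.mp h9.symm with h10 | h10
  · have : (D + n + d - 2 : ℕ) = 0 := by exact_mod_cast h10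
    omega
  · exact h8 h10

end Pool.Agent.Helper947.Geo
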