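import Pool.Agent.Helper947.Geo.G5
import Pool.Agent.Helper947.Geo.G4

set_option autoImplicit false
open MvPolynomial

namespace Pool.Agent.Helper947.Geo

theorem rse_dot1 {N : ℕ} (P z : Fin (N + 1) → ℂ) (η' : Fin N → ℂ) :
    z ⬝ᵥ (Fin.snoc (fun i => P (Fin.last N) * η' i) (-∑ i, P i.castSucc * η' i) :
      Fin (N + 1) → ℂ) = projv P z ⬝ᵥ η' := by
  unfold dotProduct projv
  rw [Fin.sum_univ_castSucc]
  simp only [Fin.snoc_castSucc, Fin.snoc_last]
  rw [mul_neg, Finset.mul_sum, ← Finset.sum_neg_distrib, ← Finset.sum_add_distrib]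
  refine Finset.sum_congr rfl fun i _ => ?_
  ring

theorem rse_dot2 {N : ℕ} (P z η : Fin (N + 1) → ℂ) (h : P ⬝ᵥ η = 0) :
    projv P z ⬝ᵥ (fun i => η i.castSucc) = P (Fin.last N) * (z ⬝ᵥ η) := by
  unfold dotProduct at h ⊢
  unfold projv
  rw [Fin.sum_univ_castSucc] at h ⊢
  have h1 : ∑ i : Fin N, (P (Fin.last N) * z i.castSucc - z (Fin.last N) * P i.castSucc) *
      η i.castSucc = P (Fin.last N) * ∑ i : Fin N, z i.castSucc * η i.castSucc -
      z (Fin.last N) * ∑ i : Fin N, P i.castSucc * η i.castSucc := by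
    rw [Finset.mul_sum, Finset.mul_sum, ← Finset.sum_sub_distrib]
    refine Finset.sum_congr rfl fun i _ => ?_
    ring
  rw [h1]
  linear_combination -z (Fin.last N) * h

/-- relations modulo `P` are relations between the projections -/
theorem relSpace_eq {N : ℕ} {K : Type} [Fintype K] (z : K → Fin (N + 1) → ℂ) (m : ℕ)
    (P : Fin (N + 1) → ℂ) (hP : P (Fin.last N) ≠ 0) :
    relSpace z m P = evRel (fun k => projv P (z k)) m := by
  ext c
  constructor
  · intro hc
    apply polarize
    intro η'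
    have h1 := hc (Fin.snoc (fun i => P (Fin.last N) * η' i) (-∑ i, P i.castSucc * η' i))
      (by
        rw [rse_dot1]
        unfold dotProduct projv
        apply Finset.sum_eq_zero
        intro i _
        ring)
    simp only [rse_dot1] at h1
    exact h1
  · intro hc η hη
    have hf : ((∑ i : Fin N, C (η i.castSucc) * X i) ^ m : MvPolynomial (Fin N) ℂ).IsHomogeneous m := by
      have h1 : (∑ i : Fin N, C (η i.castSucc) * X i : MvPolynomial (Fin N) ℂ).IsHomogeneous 1 := by
        apply IsHomogeneous.sum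
        intro i _
        have := (isHomogeneous_C (Fin N) (η i.castSucc)).mul (isHomogeneous_X ℂ i)
        rwa [zero_add] at this
      have := h1.pow m
      rwa [one_mul] at this
    have h2 := hc _ hf
    have h3 : ∀ k, eval (projv P (z k)) ((∑ i : Fin N, C (η i.castSucc) * X i) ^ m) =
        P (Fin.last N) ^ m * (z k ⬝ᵥ η) ^ m := by
      intro k
      rw [map_pow, map_sum, ← mul_pow, ← rse_dot2 P (z k) η hη]
      congr 1
      unfold dotProduct
      refine Finset.sum_congr rfl fun i _ => ?_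
      rw [map_mul, eval_C, eval_X]
      ring
    simp only [h3] at h2
    have h4 : P (Fin.last N) ^ m * ∑ k, c k * (z k ⬝ᵥ η) ^ m = 0 := by
      rw [← h2, Finset.mul_sum]
      refine Finset.sum_congr rfl fun k _ => ?_
      ring
    exact (mul_eq_zero.1 h4).resolve_left (pow_ne_zero m hP)

theorem zz_eval_lin {N : ℕ} (F : MvPolynomial (Fin N) ℂ) (hF : F.IsHomogeneous 1) :
    ∃ L : (Fin N → ℂ) →ₗ[ℂ] ℂ, ∀ v, L v = eval v F := by
  have h1 : F ∈ homogeneousSubmodule (Fin N) ℂ 1 := (mem_homogeneousSubmodule 1 F).2 hF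
  rw [homogeneousSubmodule_one_eq_span_X] at h1
  clear hF
  induction h1 using Submodule.span_induction with
  | mem x hx =>
    obtain ⟨i, rfl⟩ := hx
    exact ⟨LinearMap.proj i, fun v => by simp⟩
  | zero => exact ⟨0, fun v => by simp⟩
  | add x y _ _ hx hy =>
    obtain ⟨L, hL⟩ := hx
    obtain ⟨M, hM⟩ := hy
    exact ⟨L + M, fun v => by rw [LinearMap.add_apply, hL, hM, map_add]⟩
  | smul c x _ hx =>
    obtain ⟨L, hL⟩ := hx
    exact ⟨c • L, fun v => by rw [LinearMap.smul_apply, hL, smul_eval, smul_eq_mul]⟩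

theorem zz_deg {N : ℕ} {K : Type} [Fintype K] (w : K → Fin (N + 1) → ℂ)
    (hsp : Submodule.span ℂ (Set.range w) = ⊤)
    (F : Fin N → MvPolynomial (Fin (N + 1)) ℂ) (a : Fin N → ℕ)
    (ha : ∀ i, (F i).IsHomogeneous (a i)) (hF : IsReg F)
    (hI : IsVan w (Ideal.span (Set.range F))) :
    (∀ i, F i ≠ 0) ∧ (∀ i, 2 ≤ a i) := by
  have hK : Nonempty K := by
    by_contra hcon
    rw [not_nonempty_iff] at hcon
    rw [Set.range_eq_empty, Submodule.span_empty] at hsp
    exact bot_ne_top hsp
  obtain ⟨k⟩ := hK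
  have hv : ∀ i k, eval (w k) (F i) = 0 := by
    intro i k
    have := (hI (F i)).1 (Ideal.subset_span ⟨i, rfl⟩) k 1
    rwa [one_smul] at this
  have hne : ∀ i, F i ≠ 0 := by
    intro i hi
    have h1 := hF i 1 (by rw [hi, zero_mul]; exact Submodule.zero_mem _)
    have h2 : (1 : MvPolynomial (Fin (N + 1)) ℂ) ∈ Ideal.span (Set.range F) :=
      Ideal.span_mono (Set.image_subset_range _ _) h1
    have h3 := (hI 1).1 h2 k 1
    simp at h3
  refine ⟨hne, fun i => ?_⟩
  by_contra hlt
  have h01 : a i = 0 ∨ a i = 1 := by omega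
  rcases h01 with h | h
  · have h4 := ha i
    rw [h] at h4
    rw [← totalDegree_zero_iff_isHomogeneous, totalDegree_eq_zero_iff_eq_C] at h4
    have h5 := hv i k
    rw [h4, eval_C] at h5
    apply hne i
    rw [h4, h5, C_0]
  · have h4 := ha i
    rw [h] at h4
    obtain ⟨L, hL⟩ := zz_eval_lin (F i) h4
    have hL0 : L = 0 := by
      apply LinearMap.ext_on_range hsp
      intro k
      rw [hL, hv, LinearMap.zero_apply]
    apply hne i
    apply MvPolynomial.funext
    intro v
    rw [← hL, hL0, LinearMap.zero_apply, map_zero]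

/-- relations for complete intersections of points -/
theorem ci_rel {N : ℕ} {K : Type} [Fintype K] (w : K → Fin (N + 1) → ℂ)
    (hw : ∀ k l, k ≠ l → LinearIndependent ℂ ![w k, w l]) (h0 : ∀ k, w k ≠ 0)
    (hsp : Submodule.span ℂ (Set.range w) = ⊤)
    (F : Fin N → MvPolynomial (Fin (N + 1)) ℂ) (a : Fin N → ℕ)
    (ha : ∀ i, (F i).IsHomogeneous (a i)) (hF : IsReg F)
    (hI : IsVan w (Ideal.span (Set.range F))) :
    (∀ i, 2 ≤ a i) ∧ ∀ n, n + (N + 1) = ∑ i, a i →
      Module.finrank ℂ (evRel w n) = 1 ∧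
        (1 ≤ n → Module.finrank ℂ (evRel w (n - 1)) = N + 1) := by
  obtain ⟨hne, h2⟩ := zz_deg w hsp F a ha hF hI
  refine ⟨h2, fun n hn => ?_⟩
  have hev : ∀ j, (Module.finrank ℂ (evRel w j) : ℤ) = (Fintype.card K : ℤ) -
      ((Module.finrank ℂ (homogeneousSubmodule (Fin (N + 1)) ℂ j) : ℤ) -
        (Module.finrank ℂ (part F N j) : ℤ)) := by
    intro j
    have h3 := finrank_evRel w j _ hI
    have h4 : part F N j = homogeneousSubmodule (Fin (N + 1)) ℂ j ⊓
        (Ideal.span (Set.range F)).restrictScalars ℂ := by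
      unfold part
      have : F '' {l | l.1 < N} = Set.range F := by
        rw [← Set.image_univ]
        congr 1
        ext l
        simp
      rw [this]
    rw [h4]
    omega
  have key := numeric N a h2 (fun i j =>
      (Module.finrank ℂ (homogeneousSubmodule (Fin (N + 1)) ℂ j) : ℤ) -
        (Module.finrank ℂ (part F i j) : ℤ)) ?_ ?_ n hn (Fintype.card K) ?_
  · obtain ⟨k1, k2⟩ := key
    refine ⟨?_, fun h1n => ?_⟩
    · have := hev n
      omega
    · have := hev (n - 1)
      have k3 := k2 h1n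
      omega
  · intro j
    have h5 : part F 0 j = ⊥ := by
      unfold part
      have : F '' {l | l.1 < 0} = ∅ := by
        simp
      rw [this, Ideal.span_empty]
      simp
    rw [h5, finrank_forms, finrank_bot]
    simp
  · intro i hi j
    have h6 := part_succ F a ha hne hF i hi j
    split_ifs at h6 ⊢ with h7
    · omega
    · omega
  · refine ⟨Fintype.card K, fun j hj => ?_⟩
    have h8 := evRel_large w hw h0 j hj
    have h9 := hev j
    rw [h8, finrank_bot] at h9
    push_cast at h9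
    omega

/-- semicontinuity of the number of relations -/
theorem semicont {d : ℕ} {K : Type} [Fintype K] (z : K → Fin d → ℂ) (m r : ℕ)
    (P₁ : Fin d → ℂ) (hP : P₁ ≠ 0) (h : Module.finrank ℂ (relSpace z m P₁) ≤ r) :
    ∃ φ : MvPolynomial (Fin d) ℂ, φ ≠ 0 ∧ ∀ P : Fin d → ℂ, eval P φ ≠ 0 →
      Module.finrank ℂ (relSpace z m P) ≤ r := by
  classical
  obtain ⟨j, hj⟩ : ∃ j, P₁ j ≠ 0 := by
    by_contra hcon
    push Not at hcon
    exact hP (funext hcon)
  obtain ⟨U, hU⟩ := Submodule.exists_isCompl (relSpace z m P₁)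
  -- the vector orthogonal to P
  let et : (Fin d → ℂ) → (Fin d → ℂ) → (Fin d → ℂ) := fun P η =>
    P j • η - (P ⬝ᵥ η) • (Pi.single j 1 : Fin d → ℂ)
  have het : ∀ P η, P ⬝ᵥ et P η = 0 := by
    intro P η
    simp only [et, dotProduct_sub, dotProduct_smul, dotProduct_single_one, smul_eq_mul]
    ring
  have hzet : ∀ k P η, z k ⬝ᵥ et P η = P j * (z k ⬝ᵥ η) - (P ⬝ᵥ η) * z k j := by
    intro k P η
    simp only [et, dotProduct_sub, dotProduct_smul, dotProduct_single_one, smul_eq_mul]
  -- the functionals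
  let ℓ : (Fin d → ℂ) → (Fin d → ℂ) → ((K → ℂ) →ₗ[ℂ] ℂ) := fun P η =>
    ∑ k, ((z k ⬝ᵥ et P η) ^ m) • LinearMap.proj k
  have hℓ : ∀ P η c, ℓ P η c = ∑ k, c k * (z k ⬝ᵥ et P η) ^ m := by
    intro P η c
    simp only [ℓ, LinearMap.sum_apply, LinearMap.smul_apply, LinearMap.proj_apply, smul_eq_mul]
    exact Finset.sum_congr rfl fun k _ => mul_comm _ _
  have hrel : ∀ P c, c ∈ relSpace z m P → ∀ η, ℓ P η c = 0 := by
    intro P c hc η
    rw [hℓ]
    exact hc _ (het P η)
  have hrel1 : ∀ c, (∀ η, ℓ P₁ η c = 0) → c ∈ relSpace z m P₁ := by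
    intro c hc ξ hξ
    have h1 := hc ((P₁ j)⁻¹ • ξ)
    rw [hℓ] at h1
    have h2 : et P₁ ((P₁ j)⁻¹ • ξ) = ξ := by
      simp only [et, dotProduct_smul, hξ, smul_zero, zero_smul, sub_zero]
      rw [smul_smul, mul_inv_cancel₀ hj, one_smul]
    rw [h2] at h1
    exact h1
  -- restricted functionals span the dual of U
  let ρ : (Fin d → ℂ) → Module.Dual ℂ U := fun η => (ℓ P₁ η).comp U.subtype
  have hspan : ⊤ ≤ Submodule.span ℂ (Set.range ρ) := by
    have h1 : (Submodule.span ℂ (Set.range ρ)).dualCoannihilator = ⊥ := by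
      rw [eq_bot_iff]
      intro x hx
      rw [Submodule.mem_dualCoannihilator] at hx
      have h2 : (x : K → ℂ) ∈ relSpace z m P₁ := by
        apply hrel1
        intro η
        exact hx (ρ η) (Submodule.subset_span ⟨η, rfl⟩)
      have h3 : (x : K → ℂ) ∈ relSpace z m P₁ ⊓ U := ⟨h2, x.2⟩
      rw [hU.inf_eq_bot, Submodule.mem_bot] at h3
      rw [Submodule.mem_bot]
      exact Subtype.ext h3
    have h4 := Subspace.dualCoannihilator_dualAnnihilator_eq
      (W := Submodule.span ℂ (Set.range ρ))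
    rw [h1, Submodule.dualAnnihilator_bot] at h4
    exact h4.le
  let b := Module.Basis.ofSpan hspan
  haveI : Finite ((linearIndepOn_empty ℂ id).extend (Set.empty_subset (Set.range ρ))) :=
    Module.Finite.finite_basis b
  letI : Fintype ((linearIndepOn_empty ℂ id).extend (Set.empty_subset (Set.range ρ))) :=
    Fintype.ofFinite _
  have hb : ∀ i, ∃ η, ρ η = b i := by
    intro i
    exact Module.Basis.ofSpan_subset hspan ⟨i, rfl⟩
  choose η hη using hb
  let bU := b.dualBasis.map (Module.evalEquiv ℂ U).symm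
  have hbU : ∀ i l, b i (bU l) = if i = l then 1 else 0 := by
    intro i l
    have h1 : b i (bU l) = Module.evalEquiv ℂ U (bU l) (b i) := rfl
    rw [h1]
    simp only [bU, Module.Basis.map_apply, LinearEquiv.apply_symm_apply]
    rw [Module.Basis.dualBasis_apply_self]
  -- polynomial matrix
  let q : K → (Fin d → ℂ) → MvPolynomial (Fin d) ℂ := fun k η =>
    C (z k ⬝ᵥ η) * X j - (∑ i, C (η i) * X i) * C (z k j)
  have hq : ∀ k η P, eval P (q k η) = z k ⬝ᵥ et P η := by
    intro k η P
    rw [hzet]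
    simp only [q, map_sub, map_mul, eval_C, eval_X, map_sum, dotProduct]
    congr 1
    · ring
    · congr 1
      exact Finset.sum_congr rfl fun i _ => mul_comm _ _
  let Np : Matrix _ _ (MvPolynomial (Fin d) ℂ) := fun i l =>
    ∑ k, C ((bU l : K → ℂ) k) * (q k (η i)) ^ m
  have hNp : ∀ P i l, eval P (Np i l) = ℓ P (η i) (bU l : K → ℂ) := by
    intro P i l
    rw [hℓ]
    simp only [Np, map_sum, map_mul, eval_C, map_pow, hq]
  have hdet : ∀ P, eval P Np.det = Matrix.det (fun i l => ℓ P (η i) (bU l : K → ℂ)) := by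
    intro P
    rw [RingHom.map_det]
    congr 1
    ext i l
    exact hNp P i l
  have hdet1 : eval P₁ Np.det = 1 := by
    rw [hdet]
    have : (fun i l => ℓ P₁ (η i) (bU l : K → ℂ)) = (1 : Matrix _ _ ℂ) := by
      ext i l
      rw [Matrix.one_apply, ← hbU i l, ← hη i]
      rfl
    rw [this, Matrix.det_one]
  refine ⟨Np.det * X j, ?_, ?_⟩
  · intro h0
    have h1 := congrArg (eval P₁) h0
    rw [map_mul, hdet1, eval_X, map_zero, one_mul] at h1
    exact hj h1
  · intro P hPφ
    rw [map_mul] at hPφ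
    have hd : eval P Np.det ≠ 0 := left_ne_zero_of_mul hPφ
    rw [hdet] at hd
    have hdisj : Disjoint (relSpace z m P) U := by
      rw [Submodule.disjoint_def]
      intro c hc hcU
      have h1 : ∀ i, ∑ l, ℓ P (η i) (bU l : K → ℂ) * bU.repr ⟨c, hcU⟩ l = 0 := by
        intro i
        have h2 := hrel P c hc (η i)
        have h3 : c = ∑ l, bU.repr ⟨c, hcU⟩ l • (bU l : K → ℂ) := by
          have h4 := congrArg Subtype.val (bU.sum_repr ⟨c, hcU⟩)
          rw [Submodule.coe_sum] at h4
          exact h4.symm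
        rw [h3, map_sum] at h2
        rw [← h2]
        refine Finset.sum_congr rfl fun l _ => ?_
        rw [map_smul, smul_eq_mul, mul_comm]
      have h5 : (fun l => bU.repr ⟨c, hcU⟩ l) = 0 := by
        apply Matrix.eq_zero_of_mulVec_eq_zero hd
        ext i
        exact h1 i
      have h6 : bU.repr ⟨c, hcU⟩ = 0 := by
        ext l
        exact congrFun h5 l
      have h7 : (⟨c, hcU⟩ : U) = 0 := by
        rw [← bU.repr.map_eq_zero_iff]
        exact h6
      exact congrArg Subtype.val h7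
    have e1 := Submodule.finrank_add_finrank_le_of_disjoint hdisj
    have e2 := Submodule.finrank_add_eq_of_isCompl hU
    omega

end Pool.Agent.Helper947.Geo
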