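import Pool.Agent.Helper947.Geo.B2
import Pool.Agent.Helper947.Geo.B3
import Pool.Agent.Helper947.Geo.B9
import Pool.Agent.Helper947.Geo.G6
import Pool.Agent.Helper947.Geo.A2

set_option autoImplicit false
open MvPolynomial

namespace Pool.Agent.Helper947.Geo

theorem c1_card {K : Type} [Fintype K] [DecidableEq K]
    (z : K → Fin 4 → ℂ) (n : ℕ)
    (h2 : ∀ k l, k ≠ l → LinearIndependent ℂ ![z k, z l]) (h1 : ∀ k, z k ≠ 0)
    (l : K → MvPolynomial (Fin 4) ℂ) (hl : Rel z n l)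
    (δ : MvPolynomial (Fin 4) ℂ) (hδ : Irreducible δ) (hk : ∃ k, ¬ δ ∣ l k) :
    ∃ W : Finset K, (∀ k ∈ W, ¬ δ ∣ l k) ∧ n + 2 ≤ W.card := by
  classical
  let W : Finset K := Finset.univ.filter (fun k => ¬ δ ∣ l k)
  have hW : ∀ k, k ∈ W ↔ ¬ δ ∣ l k := by
    intro k
    simp [W]
  obtain ⟨ψ, hψ1, hψ2⟩ := g4_off_lines (le_refl 4) z δ hδ
  obtain ⟨P, hP0, hP⟩ := exists_point δ (ψ * ∏ k ∈ W, l k) hδ (by
    intro h
    rcases hδ.prime.dvd_or_dvd h with h | h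
    · exact hψ1 h
    · rw [Prime.dvd_finsetProd_iff hδ.prime] at h
      obtain ⟨k, hk, hk2⟩ := h
      exact (hW k).mp hk hk2)
  rw [map_mul, map_prod] at hP
  have hoff := hψ2 P (left_ne_zero_of_mul hP)
  obtain ⟨k₀, hk₀⟩ := hk
  have hPne : P ≠ 0 := by
    rintro rfl
    exact hoff k₀ k₀ (Submodule.zero_mem _)
  refine ⟨W, fun k hk => (hW k).mp hk, ?_⟩
  refine card_rel z n P (fun k => eval P (l k)) (hl P hPne) W ⟨k₀, (hW k₀).mpr hk₀⟩
    (fun k hk => Finset.prod_ne_zero_iff.mp (right_ne_zero_of_mul hP) k hk) ?_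
    (fun k _ m _ => hoff k m) (fun k _ m _ hkm => h2 k m hkm) (fun k _ => h1 k)
  intro k hk
  have : δ ∣ l k := by
    by_contra h
    exact hk ((hW k).mpr h)
  obtain ⟨q, hq⟩ := this
  rw [hq, map_mul, hP0, zero_mul]

theorem c1_basis {d : ℕ} {K : Type} [Fintype K] (z : K → Fin d → ℂ)
    (hsp : Submodule.span ℂ (Set.range z) = ⊤) :
    ∃ b : Fin d → K, LinearIndependent ℂ (fun i => z (b i)) := by
  classical
  obtain ⟨B, hB1, hB2, hB3⟩ := exists_linearIndependent ℂ (Set.range z)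
  rw [hsp] at hB2
  have hBf : B.Finite := (Set.finite_range z).subset hB1
  haveI : Fintype B := hBf.fintype
  have hc : Fintype.card B = d := by
    have h1 := finrank_span_set_eq_card hB3
    have h2 : Module.finrank ℂ (Submodule.span ℂ B) = d := by
      rw [hB2, finrank_top]
      simp
    rw [h2] at h1
    exact ((Set.toFinset_card B).symm.trans h1.symm)
  let e : Fin d ≃ B := (Fintype.equivFinOfCardEq hc).symm
  choose f hf using fun i => hB1 (e i).2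
  refine ⟨f, ?_⟩
  have : (fun i => z (f i)) = (Subtype.val : B → _) ∘ e := by
    funext i
    exact hf i
  rw [this]
  exact hB3.comp e e.injective

/-- the contradiction for sets without collinear triples -/
theorem core_collinear {K : Type} [Fintype K] [DecidableEq K]
    (z : K → Fin 4 → ℂ) (n : ℕ) (hn : 2 ≤ n)
    (hcard : Fintype.card K ≤ (n + 2).choose 2)
    (h3 : ∀ k l m, k ≠ l → k ≠ m → l ≠ m → LinearIndependent ℂ ![z k, z l, z m])
    (h2 : ∀ k l, k ≠ l → LinearIndependent ℂ ![z k, z l]) (h1 : ∀ k, z k ≠ 0)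
    (hsp : Submodule.span ℂ (Set.range z) = ⊤)
    (φ : MvPolynomial (Fin 4) ℂ) (hφ : φ ≠ 0)
    (hA : ∀ P : Fin 4 → ℂ, eval P φ ≠ 0 → relSpace z n P ≠ ⊥)
    (hA' : ∀ P : Fin 4 → ℂ, eval P φ ≠ 0 → ∀ c ∈ relSpace z n P, c ≠ 0 → ∀ k, c k ≠ 0)
    (hB : ∀ P : Fin 4 → ℂ, eval P φ ≠ 0 →
      Module.finrank ℂ (relSpace z (n - 1) P) ≤ 4 - 1) : False := by
  classical
  obtain ⟨D, l, hl0, hlD, hl, hprim⟩ := exists_primitive z n φ hφ hA
  -- all coordinates are nonzero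
  have hlk : ∀ k, l k ≠ 0 := by
    obtain ⟨k₁, hk₁⟩ := Function.ne_iff.mp hl0
    obtain ⟨P, hP⟩ := g4_exists_ne (φ * (l k₁ * X 0))
      (mul_ne_zero hφ (mul_ne_zero hk₁ (X_ne_zero 0)))
    rw [map_mul, map_mul, eval_X] at hP
    have hP1 := left_ne_zero_of_mul hP
    have hP2 := left_ne_zero_of_mul (right_ne_zero_of_mul hP)
    have hP3 := right_ne_zero_of_mul (right_ne_zero_of_mul hP)
    have hPne : P ≠ 0 := by rintro rfl; exact hP3 rfl
    intro k hk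
    refine hA' P hP1 _ (hl P hPne) ?_ k ?_
    · intro h
      exact hP2 (congrFun h k₁)
    · rw [hk, map_zero]
  obtain ⟨b, hb⟩ := c1_basis z hsp
  have hsp' : ∀ η : Fin 4 → ℂ, (∀ k, η ⬝ᵥ z k = 0) → η = 0 := by
    intro η h
    have h6 : ∀ x : Fin 4 → ℂ, η ⬝ᵥ x = 0 := by
      intro x
      have hx : x ∈ Submodule.span ℂ (Set.range z) := by rw [hsp]; trivial
      induction hx using Submodule.span_induction with
      | mem x hx => obtain ⟨k, rfl⟩ := hx; exact h k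
      | zero => simp
      | add x y _ _ hx hy => rw [dotProduct_add, hx, hy, add_zero]
      | smul a x _ hx => rw [dotProduct_smul, hx, smul_zero]
    funext i
    have := h6 (Pi.single i 1)
    simpa using this
  obtain ⟨Q, g, hQ, hg, hstar, hQprim⟩ := star (by omega) z n D (by omega) l hl hlD b hb
    (fun i => hlk _) φ hφ hB
  have hWc : ∀ δ : MvPolynomial (Fin 4) ℂ, Irreducible δ → ∃ k₁ k₂ k₃ : K,
      k₁ ≠ k₂ ∧ k₁ ≠ k₃ ∧ k₂ ≠ k₃ ∧ ¬ δ ∣ l k₁ ∧ ¬ δ ∣ l k₂ ∧ ¬ δ ∣ l k₃ := by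
    intro δ hδ
    obtain ⟨W, hW1, hW2⟩ := c1_card z n h2 h1 l hl δ hδ (hprim δ hδ)
    obtain ⟨k₁, k₂, k₃, hk₁, hk₂, hk₃, h12, h13, h23⟩ := (Finset.two_lt_card_iff (s := W)).mp (by omega)
    exact ⟨k₁, k₂, k₃, h12, h13, h23, hW1 _ hk₁, hW1 _ hk₂, hW1 _ hk₃⟩
  obtain ⟨s, η, μ, hirr, hne, hμ1, hμs, hord, hκ⟩ := exists_kappa z D (D + n + 4 - 2) h3 hsp' l hlk hlD
    Q hQ g hg hstar hQprim hWc
  have hord' : ∀ i k, η i ⬝ᵥ z k ≠ 0 → lf (η i) ∣ l k := by
    intro i k h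
    obtain ⟨ν, hν, -⟩ := hord i k h
    rw [hν]
    exact Dvd.dvd.mul_right (dvd_pow_self _ (by have := hμ1 i; omega)) _
  have hordp : ∀ i k, η i ⬝ᵥ z k ≠ 0 → lf (η i) ^ μ i ∣ l k := by
    intro i k h
    obtain ⟨ν, hν, -⟩ := hord i k h
    exact ⟨ν, hν⟩
  have hinv : ∀ k, ∀ (P : Fin 4 → ℂ) (r : ℂ),
      eval (P + r • z k) (l k) * eval P (∏ i, lf (η i) ^ μ i) =
        eval P (l k) * eval (P + r • z k) (∏ i, lf (η i) ^ μ i) := by
    intro k P r
    exact invariance (z k) (l k) _ (hκ k) P r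
  have hle : ∀ i, μ i ≤ 1 := by
    intro i
    obtain ⟨k₀, hk₀⟩ := hprim (lf (η i)) (hirr i)
    have hk₀' : η i ⬝ᵥ z k₀ = 0 := by
      by_contra h
      exact hk₀ (hord' i k₀ h)
    have hη0 : η i ≠ 0 := by
      intro h
      apply (hirr i).ne_zero
      rw [h]
      simp [lf]
    obtain ⟨k₁, hk₁⟩ : ∃ k, η i ⬝ᵥ z k ≠ 0 := by
      by_contra h
      push Not at h
      exact hη0 (hsp' _ h)
    have hmn := mu_le z n l hl (η i) (hirr i) (μ i) (hordp i) k₀ k₁ hk₀ hk₀' hk₁ φ hφ hA'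
    exact mu_eq_one z n D h3 h2 h1 l hl hlD s η μ hirr hne (by rw [hμs]; omega) hord' hinv i hmn k₀ hk₀
  have hμe : ∀ i, μ i = 1 := fun i => le_antisymm (hle i) (hμ1 i)
  have hprod : (∏ i, lf (η i) ^ μ i) = ∏ i, lf (η i) := by
    apply Finset.prod_congr rfl
    intro i _
    rw [hμe i, pow_one]
  have hs : s = D + n + 2 := by
    have : ∑ i, μ i = s := by simp [hμe]
    omega
  rw [hprod] at hinv
  exact final_step z n D (by omega) hcard h3 h2 l hlk hl hlD s η hirr hne hs hord' hinv (b 0) (h1 _)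

end Pool.Agent.Helper947.Geo
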