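import Pool.Agent.Helper947.Geo.C1
import Pool.Agent.Helper947.Geo.A3
import Pool.Agent.Helper947.Geo.B10

set_option autoImplicit false
open MvPolynomial

namespace Pool.Agent.Helper947.Geo

/-- homogenization of a genericity condition -/
theorem generic_cone {N : ℕ} (h : MvPolynomial (Fin N) ℂ) (hh : h ≠ 0) :
    ∃ φ : MvPolynomial (Fin (N + 1)) ℂ, φ ≠ 0 ∧ ∀ P : Fin (N + 1) → ℂ, eval P φ ≠ 0 →
      P (Fin.last N) ≠ 0 ∧ eval (fun i => P i.castSucc / P (Fin.last N)) h ≠ 0 := by
  classical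
  let M := h.totalDegree
  let H : MvPolynomial (Fin (N + 1)) ℂ := ∑ m ∈ h.support,
    C (coeff m h) * (∏ i, X (Fin.castSucc i) ^ m i) * X (Fin.last N) ^ (M - ∑ i, m i)
  have key : ∀ P : Fin (N + 1) → ℂ, P (Fin.last N) ≠ 0 →
      eval P H = P (Fin.last N) ^ M * eval (fun i => P i.castSucc / P (Fin.last N)) h := by
    intro P hP
    rw [eval_eq' (fun i => P (Fin.castSucc i) / P (Fin.last N)) h, Finset.mul_sum]
    simp only [H, map_sum, map_mul, eval_C, map_prod, map_pow, eval_X]
    apply Finset.sum_congr rfl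
    intro m hm
    have hdeg : ∑ i, m i ≤ M := by
      have h1 := le_totalDegree hm
      rw [Finsupp.sum_fintype _ _ (fun _ => rfl)] at h1
      exact h1
    have h2 : ∏ i, (P (Fin.castSucc i) / P (Fin.last N)) ^ m i =
        (∏ i, P (Fin.castSucc i) ^ m i) / P (Fin.last N) ^ (∑ i, m i) := by
      simp only [div_pow, Finset.prod_div_distrib, Finset.prod_pow_eq_pow_sum]
    rw [h2]
    have h3 : P (Fin.last N) ^ M = P (Fin.last N) ^ (M - ∑ i, m i) * P (Fin.last N) ^ (∑ i, m i) := by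
      rw [← pow_add, Nat.sub_add_cancel hdeg]
    rw [h3]
    have h4 : P (Fin.last N) ^ (∑ i, m i) ≠ 0 := pow_ne_zero _ hP
    field_simp
  refine ⟨X (Fin.last N) * H, ?_, ?_⟩
  · apply mul_ne_zero (X_ne_zero _)
    intro h0
    obtain ⟨p, hp⟩ := g4_exists_ne h hh
    have h1 := key (Fin.snoc p 1) (by simp)
    rw [h0, map_zero] at h1
    simp only [Fin.snoc_last, one_pow, one_mul, Fin.snoc_castSucc, div_one] at h1
    exact hp h1.symm
  · intro P hP
    rw [map_mul, eval_X] at hP
    have hl := left_ne_zero_of_mul hP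
    refine ⟨hl, ?_⟩
    have h1 := right_ne_zero_of_mul hP
    rw [key P hl] at h1
    exact right_ne_zero_of_mul h1

end Pool.Agent.Helper947.Geo
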