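import Pool.Agent.Helper947.Geo.C2

set_option autoImplicit false
open MvPolynomial

namespace Pool.Agent.Helper947.Geo

theorem c3_card {K : Type} [Fintype K] (w : K → Fin 3 → ℂ)
    (I : Ideal (MvPolynomial (Fin 3) ℂ)) (hI : IsVan w I) (n a : ℕ) (ha : a ≤ n)
    (F : MvPolynomial (Fin 3) ℂ) (hF : F.IsHomogeneous a) (hF0 : F ≠ 0) (hFI : F ∈ I)
    (h1 : Module.finrank ℂ (evRel w n) = 1) : Fintype.card K ≤ (n + 2).choose 2 := by
  have h2 := finrank_evRel w n I hI
  have h3 := finrank_forms 2 n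
  have hfin : Module.Finite ℂ (homogeneousSubmodule (Fin 3) ℂ n) := part_succ_fin 3 n
  have h4 : 1 ≤ Module.finrank ℂ
        ↥(homogeneousSubmodule (Fin 3) ℂ n ⊓ I.restrictScalars ℂ) := by
    have hfin2 : Module.Finite ℂ ↥(homogeneousSubmodule (Fin 3) ℂ n ⊓ I.restrictScalars ℂ) :=
      Submodule.finiteDimensional_of_le inf_le_left
    rw [Nat.one_le_iff_ne_zero]
    intro h0
    rw [Submodule.finrank_eq_zero] at h0
    have hmem : F * X 0 ^ (n - a) ∈ (homogeneousSubmodule (Fin 3) ℂ n ⊓ I.restrictScalars ℂ) := by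
      refine ⟨?_, ?_⟩
      · have := hF.mul ((isHomogeneous_X ℂ (0 : Fin 3)).pow (n - a))
        rw [one_mul, Nat.add_sub_cancel' ha] at this
        exact this
      · exact I.mul_mem_right _ hFI
    rw [h0, Submodule.mem_bot] at hmem
    exact mul_ne_zero hF0 (pow_ne_zero _ (X_ne_zero 0)) hmem
  rw [show homogeneousSubmodule (Fin 3) ℂ n = homogeneousSubmodule (Fin (2 + 1)) ℂ n from rfl] at h2 h4
  rw [h3, h1] at h2
  rw [add_comm n 2]
  omega

theorem geo_pair {K : Type} [Fintype K] [DecidableEq K] (z : K → Fin 4 → ℂ)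
    (h3 : ∀ k l m, k ≠ l → k ≠ m → l ≠ m → LinearIndependent ℂ ![z k, z l, z m])
    (h2 : ∀ k l, k ≠ l → LinearIndependent ℂ ![z k, z l]) (h1 : ∀ k, z k ≠ 0)
    (hsp : Submodule.span ℂ (Set.range z) = ⊤) (a b : ℕ)
    (h : MvPolynomial (Fin 3) ℂ) (hh : h ≠ 0)
    (hp : ∀ p : Fin 3 → ℂ, eval p h ≠ 0 →
      ∃ F G : MvPolynomial (Fin 3) ℂ, F.IsHomogeneous a ∧ G.IsHomogeneous b ∧
        ∀ f : MvPolynomial (Fin 3) ℂ,
          ((∀ k, ∀ t : ℂ, eval (t • (fun i : Fin 3 => z k (Fin.castSucc i) -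
            z k (Fin.last 3) * p i)) f = 0) ↔ f ∈ Ideal.span {F, G})) :
    Fintype.card K = 4 := by
  classical
  haveI hKne : Nonempty K := by
    by_contra hcon
    rw [not_nonempty_iff] at hcon
    rw [Set.range_eq_empty, Submodule.span_empty] at hsp
    exact bot_ne_top hsp
  obtain ⟨φ₀, hφ₀, hφ₀'⟩ := generic_cone h hh
  obtain ⟨φ₁, hφ₁, hφ₁'⟩ := projv_indep z h2 h1 (le_refl 3) hsp
  -- the situation at a good point
  have key : ∀ P : Fin 4 → ℂ, eval P (φ₀ * φ₁) ≠ 0 →
      P (Fin.last 3) ≠ 0 ∧ 2 ≤ a ∧ 2 ≤ b ∧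
      Submodule.span ℂ (Set.range fun k => projv P (z k)) = ⊤ ∧
      ∃ F G : MvPolynomial (Fin 3) ℂ, F.IsHomogeneous a ∧ G.IsHomogeneous b ∧ F ≠ 0 ∧ G ≠ 0 ∧
        IsVan (fun k => projv P (z k)) (Ideal.span {F, G}) ∧
        ∀ n, n + 3 = a + b → Module.finrank ℂ (evRel (fun k => projv P (z k)) n) = 1 ∧
          (1 ≤ n → Module.finrank ℂ (evRel (fun k => projv P (z k)) (n - 1)) = 3) ∧
          ∀ c ∈ evRel (fun k => projv P (z k)) n, c ≠ 0 → ∀ k, c k ≠ 0 := by
    intro P hP
    rw [map_mul] at hP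
    obtain ⟨hl, hpP⟩ := hφ₀' P (left_ne_zero_of_mul hP)
    obtain ⟨_, hw, hw0, hwsp⟩ := hφ₁' P (right_ne_zero_of_mul hP)
    obtain ⟨F, G, hF, hG, hFG⟩ := hp _ hpP
    have hproj : ∀ k, projv P (z k) = P (Fin.last 3) • (fun i : Fin 3 => z k (Fin.castSucc i) -
            z k (Fin.last 3) * (P i.castSucc / P (Fin.last 3))) := by
      intro k
      funext i
      simp only [projv, Pi.smul_apply, smul_eq_mul]
      field_simp
    have hvan : IsVan (fun k => projv P (z k)) (Ideal.span {F, G}) := by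
      intro f
      rw [← hFG f]
      constructor
      · intro h k t
        simp only
        rw [hproj k, smul_smul]
        exact h k _
      · intro h k t
        have := h k (t / P (Fin.last 3))
        simp only at this
        rw [hproj k, smul_smul, div_mul_cancel₀ _ hl] at this
        exact this
    have hcop := coprime_of_van (fun k => projv P (z k)) F G hvan
    have hnotunit : ∀ H : MvPolynomial (Fin 3) ℂ, H ∈ Ideal.span ({F, G} : Set (MvPolynomial (Fin 3) ℂ)) →
        ¬ IsUnit H := by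
      intro H hH hu
      have htop := Ideal.eq_top_of_isUnit_mem _ hH hu
      have h1 : (1 : MvPolynomial (Fin 3) ℂ) ∈ Ideal.span ({F, G} : Set (MvPolynomial (Fin 3) ℂ)) := by
        rw [htop]; trivial
      have := (hvan 1).mp h1 (Classical.arbitrary K) 1
      simp at this
    have hF0 : F ≠ 0 := by
      intro h0
      apply hnotunit G (Ideal.subset_span (by simp))
      exact hcop (by rw [h0]; exact dvd_zero _) (dvd_refl _)
    have hG0 : G ≠ 0 := by
      intro h0
      apply hnotunit F (Ideal.subset_span (by simp))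
      exact hcop (dvd_refl _) (by rw [h0]; exact dvd_zero _)
    have hreg := isReg_pair F G hF0 hcop
    have hrange : Set.range ![F, G] = {F, G} := by
      simp [Matrix.range_cons, Matrix.range_empty, Set.pair_comm G F]
    have hci := ci_rel (fun k => projv P (z k)) hw hw0 hwsp ![F, G] ![a, b] (by
      intro i
      fin_cases i
      · exact hF
      · exact hG) hreg (by rw [hrange]; exact hvan)
    obtain ⟨hci1, hci2⟩ := hci
    have ha2 : 2 ≤ a := by simpa using hci1 0
    have hb2 : 2 ≤ b := by simpa using hci1 1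
    refine ⟨hl, ha2, hb2, hwsp, F, G, hF, hG, hF0, hG0, hvan, ?_⟩
    intro n hn
    have h5 := hci2 n (by simpa using hn)
    refine ⟨h5.1, h5.2, ?_⟩
    intro c hc hc0
    exact cb_nonzero (fun k => projv P (z k)) hw0 F G a b n hF hG hF0 hG0 hcop hn hvan h5.1 c hc hc0
  obtain ⟨P₀, hP₀⟩ := g4_exists_ne (φ₀ * φ₁) (mul_ne_zero hφ₀ hφ₁)
  obtain ⟨hl0, ha, hb, hwsp0, F, G, hF, hG, hF0, hG0, hvan, hrel⟩ := key P₀ hP₀
  obtain ⟨n, hn⟩ : ∃ n, n + 3 = a + b := ⟨a + b - 3, by omega⟩
  obtain ⟨hr1, hr2, hr3⟩ := hrel n hn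
  by_cases hn2 : 2 ≤ n
  · exfalso
    have hcard : Fintype.card K ≤ (n + 2).choose 2 := by
      rcases le_or_gt 3 b with hb3 | hb3
      · exact c3_card _ _ hvan n a (by omega) F hF hF0 (Ideal.subset_span (by simp)) hr1
      · exact c3_card _ _ hvan n b (by omega) G hG hG0 (Ideal.subset_span (by simp)) hr1
    refine core_collinear z n hn2 hcard h3 h2 h1 hsp (φ₀ * φ₁) (mul_ne_zero hφ₀ hφ₁) ?_ ?_ ?_
    · intro P hP hbot
      obtain ⟨hl, _, _, _, F, G, _, _, _, _, _, hrel⟩ := key P hP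
      have h5 := (hrel n hn).1
      rw [← relSpace_eq z n P hl, hbot, finrank_bot] at h5
      omega
    · intro P hP c hc hc0
      obtain ⟨hl, _, _, _, F, G, _, _, _, _, _, hrel⟩ := key P hP
      have h5 := (hrel n hn).2.2
      rw [relSpace_eq z n P hl] at hc
      exact h5 c hc hc0
    · intro P hP
      obtain ⟨hl, _, _, _, F, G, _, _, _, _, _, hrel⟩ := key P hP
      have h5 := (hrel n hn).2.1 (by omega)
      rw [relSpace_eq z (n - 1) P hl, h5]
  · have hn1 : n = 1 := by omega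
    subst hn1
    exact card_four _ hwsp0 _ hvan hr1

end Pool.Agent.Helper947.Geo
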