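import Pool.Agent.Helper947.Geo.C3
import Pool.Agent.Helper947.Geo.A5

set_option autoImplicit false
open MvPolynomial
open scoped LinearAlgebra.Projectivization

namespace Pool.Agent.Helper947.Geo

theorem c4_pair {d : ℕ} (x y : ℙ ℂ (Fin d → ℂ)) (h : x ≠ y) :
    LinearIndependent ℂ ![x.rep, y.rep] := by
  rw [LinearIndependent.pair_iff' x.rep_nonzero]
  intro a ha
  apply h
  rw [← x.mk_rep, ← y.mk_rep, Projectivization.mk_eq_mk_iff']
  have ha0 : a ≠ 0 := by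
    rintro rfl
    rw [zero_smul] at ha
    exact y.rep_nonzero ha.symm
  refine ⟨a⁻¹, ?_⟩
  rw [← ha, smul_smul, inv_mul_cancel₀ ha0, one_smul]

theorem c4_triple {d : ℕ} (x y w : Fin d → ℂ) (h : LinearIndependent ℂ ![x, y])
    (hw : w ∉ Submodule.span ℂ {x, y}) : LinearIndependent ℂ ![x, y, w] := by
  rw [Fintype.linearIndependent_iff]
  intro g hg
  simp only [Fin.sum_univ_three, Matrix.cons_val_zero, Matrix.cons_val_one, Matrix.cons_val_two,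
    Matrix.head_cons, Matrix.tail_cons] at hg
  have hg' : g 0 • x + g 1 • y + g 2 • w = 0 := by simpa using hg
  have h2 : g 2 = 0 := by
    by_contra hne
    apply hw
    rw [Submodule.mem_span_pair]
    refine ⟨-(g 2)⁻¹ * g 0, -(g 2)⁻¹ * g 1, ?_⟩
    have : g 2 • w = -(g 0 • x + g 1 • y) := by
      rw [eq_neg_iff_add_eq_zero, add_comm]
      exact hg'
    have h3 : w = (g 2)⁻¹ • (g 2 • w) := by
      rw [smul_smul, inv_mul_cancel₀ hne, one_smul]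
    rw [h3, this]
    simp only [smul_neg, smul_add, smul_smul, neg_mul, neg_smul]
    rw [neg_add]
  rw [h2, zero_smul, add_zero] at hg'
  have h4 := LinearIndependent.pair_iff.mp h (g 0) (g 1) hg'
  intro i
  fin_cases i
  · exact h4.1
  · exact h4.2
  · exact h2

theorem c4_span {d : ℕ} (Z : Finset (ℙ ℂ (Fin d → ℂ)))
    (hspan : ∀ c : Fin d → ℂ, (∀ z ∈ Z, ∑ i, c i * z.rep i = 0) → c = 0) :
    Submodule.span ℂ (Set.range (fun z : Z => (z : ℙ ℂ (Fin d → ℂ)).rep)) = ⊤ := by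
  by_contra hne
  obtain ⟨f, hf0, hf⟩ := Submodule.exists_le_ker_of_lt_top _ (lt_top_iff_ne_top.mpr hne)
  apply hf0
  have h1 : (fun i => f (Pi.single i 1)) = (0 : Fin d → ℂ) := by
    apply hspan
    intro z hz
    have h2 : f z.rep = 0 := by
      have := hf (Submodule.subset_span ⟨⟨z, hz⟩, rfl⟩)
      simpa using this
    have h3 : z.rep = ∑ i, z.rep i • (Pi.single i (1 : ℂ) : Fin d → ℂ) := by
      funext j
      simp [Finset.sum_apply, Pi.single_apply]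
    rw [h3, map_sum] at h2
    simp only [map_smul, smul_eq_mul] at h2
    rw [← h2]
    apply Finset.sum_congr rfl
    intro i _
    ring
  apply LinearMap.pi_ext'
  intro i
  ext
  simpa using congrFun h1 i

theorem s00039_main (Z : Finset (ℙ ℂ (Fin 4 → ℂ))) (a b : ℕ)
    (hZ : ∃ h : MvPolynomial (Fin 3) ℂ, h ≠ 0 ∧
      ∀ p : Fin 3 → ℂ, MvPolynomial.eval p h ≠ 0 →
        ∃ F G : MvPolynomial (Fin 3) ℂ, F.IsHomogeneous a ∧ G.IsHomogeneous b ∧
          ∀ f : MvPolynomial (Fin 3) ℂ,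
            ((∀ z ∈ Z, ∀ t : ℂ,
              MvPolynomial.eval
                (t • (fun i : Fin 3 => z.rep (Fin.castSucc i) - z.rep (Fin.last 3) * p i)) f = 0) ↔
            f ∈ Ideal.span {F, G}))
    (hspan : ∀ c : Fin 4 → ℂ, (∀ z ∈ Z, ∑ i, c i * z.rep i = 0) → c = 0)
    (hgrid : ¬ (∃ (m n : ℕ) (L : Fin m → Submodule ℂ (Fin 4 → ℂ))
        (M : Fin n → Submodule ℂ (Fin 4 → ℂ)),
        (∀ i, Module.finrank ℂ (L i) = 2) ∧ (∀ j, Module.finrank ℂ (M j) = 2) ∧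
        (∀ i i', i ≠ i' → L i ⊓ L i' = ⊥) ∧ (∀ j j', j ≠ j' → M j ⊓ M j' = ⊥) ∧
        (∀ i j, L i ⊓ M j ≠ ⊥) ∧
        ∀ z : ℙ ℂ (Fin 4 → ℂ), z ∈ Z ↔ ∃ i j, z.rep ∈ L i ∧ z.rep ∈ M j)) :
    ∃ x ∈ Z, ∃ y ∈ Z, ∃ w ∈ Z, x ≠ y ∧ x ≠ w ∧ y ≠ w ∧
      w.rep ∈ Submodule.span ℂ {x.rep, y.rep} := by
  classical
  by_contra hcon
  push Not at hcon
  obtain ⟨h, hh, hp⟩ := hZ
  have h2 : ∀ k l : Z, k ≠ l → LinearIndependent ℂ
      ![(k : ℙ ℂ (Fin 4 → ℂ)).rep, (l : ℙ ℂ (Fin 4 → ℂ)).rep] := by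
    intro k l hkl
    exact c4_pair _ _ (fun h => hkl (Subtype.ext h))
  have h3 : ∀ k l m : Z, k ≠ l → k ≠ m → l ≠ m → LinearIndependent ℂ
      ![(k : ℙ ℂ (Fin 4 → ℂ)).rep, (l : ℙ ℂ (Fin 4 → ℂ)).rep, (m : ℙ ℂ (Fin 4 → ℂ)).rep] := by
    intro k l m hkl hkm hlm
    exact c4_triple _ _ _ (h2 k l hkl) (hcon k k.2 l l.2 m m.2 (fun h => hkl (Subtype.ext h))
      (fun h => hkm (Subtype.ext h)) (fun h => hlm (Subtype.ext h)))
  have h4 := geo_pair (fun k : Z => (k : ℙ ℂ (Fin 4 → ℂ)).rep) h3 h2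
    (fun k => (k : ℙ ℂ (Fin 4 → ℂ)).rep_nonzero) (c4_span Z hspan) a b h hh (by
      intro p hpp
      obtain ⟨F, G, hF, hG, hFG⟩ := hp p hpp
      refine ⟨F, G, hF, hG, fun f => ?_⟩
      rw [← hFG f]
      constructor
      · intro h z hz t
        exact h ⟨z, hz⟩ t
      · intro h k t
        exact h k.1 k.2 t)
  apply hgrid
  exact grid_four Z (by simpa using h4) hspan

end Pool.Agent.Helper947.Geo
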