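import Mathlib

set_option autoImplicit false
open MvPolynomial

namespace Pool.Agent.Helper947.Geo

/-- directional derivative in the direction `z` -/
noncomputable def DD {d : ℕ} (z : Fin d → ℂ) (f : MvPolynomial (Fin d) ℂ) : MvPolynomial (Fin d) ℂ :=
  ∑ i, C (z i) * pderiv i f

/-- relations of degree `m` between the images of the vectors `z k` modulo `P` -/
def relSpace {d : ℕ} {K : Type} [Fintype K] (z : K → Fin d → ℂ) (m : ℕ) (P : Fin d → ℂ) :
    Submodule ℂ (K → ℂ) where
  carrier := {c | ∀ η : Fin d → ℂ, P ⬝ᵥ η = 0 → ∑ k, c k * (z k ⬝ᵥ η) ^ m = 0}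
  add_mem' := by
    intro a b ha hb η hη
    have h1 := ha η hη
    have h2 := hb η hη
    simp only [Pi.add_apply, add_mul, Finset.sum_add_distrib]
    rw [h1, h2, add_zero]
  zero_mem' := by
    intro η _
    simp
  smul_mem' := by
    intro c a ha η hη
    have h1 := ha η hη
    simp only [Pi.smul_apply, smul_eq_mul, mul_assoc, ← Finset.mul_sum]
    rw [h1, mul_zero]

/-- a family of polynomials which is a relation at every point `P ≠ 0` -/
def Rel {d : ℕ} {K : Type} [Fintype K] (z : K → Fin d → ℂ) (m : ℕ)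
    (μ : K → MvPolynomial (Fin d) ℂ) : Prop :=
  ∀ P : Fin d → ℂ, P ≠ 0 → (fun k => eval P (μ k)) ∈ relSpace z m P

/-- the linear form `x ↦ ∑ g j * x j` with polynomial coefficients, at a vector -/
noncomputable def lin {d : ℕ} (g : Fin d → MvPolynomial (Fin d) ℂ) (z : Fin d → ℂ) :
    MvPolynomial (Fin d) ℂ := ∑ j, g j * C (z j)

end Pool.Agent.Helper947.Geo
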