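import Pool.Agent.Helper947.Geo.Core

set_option autoImplicit false
open MvPolynomial

namespace Pool.Agent.Helper947.Geo

/-- projection from `P` to the hyperplane `x_last = 0` -/
def projv {N : ℕ} (P z : Fin (N + 1) → ℂ) : Fin N → ℂ :=
  fun i => P (Fin.last N) * z i.castSucc - z (Fin.last N) * P i.castSucc

/-- relations of degree `m` between evaluations at the vectors `w k` -/
def evRel {N : ℕ} {K : Type} [Fintype K] (w : K → Fin N → ℂ) (m : ℕ) : Submodule ℂ (K → ℂ) where
  carrier := {c | ∀ f : MvPolynomial (Fin N) ℂ, f.IsHomogeneous m → ∑ k, c k * eval (w k) f = 0}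
  add_mem' := by
    intro a b ha hb f hf
    have h1 := ha f hf
    have h2 := hb f hf
    simp only [Pi.add_apply, add_mul, Finset.sum_add_distrib]
    rw [h1, h2, add_zero]
  zero_mem' := by
    intro f _
    simp
  smul_mem' := by
    intro c a ha f hf
    have h1 := ha f hf
    simp only [Pi.smul_apply, smul_eq_mul, mul_assoc, ← Finset.mul_sum]
    rw [h1, mul_zero]

/-- regular sequences, in the order given -/
def IsReg {N m : ℕ} (F : Fin m → MvPolynomial (Fin N) ℂ) : Prop :=
  ∀ j : Fin m, ∀ g : MvPolynomial (Fin N) ℂ,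
    F j * g ∈ Ideal.span (F '' {i | i < j}) → g ∈ Ideal.span (F '' {i | i < j})

/-- homogeneous part of degree `j` of the ideal generated by the first `i` forms -/
noncomputable def part {N m : ℕ} (F : Fin m → MvPolynomial (Fin N) ℂ) (i j : ℕ) :
    Submodule ℂ (MvPolynomial (Fin N) ℂ) :=
  homogeneousSubmodule (Fin N) ℂ j ⊓
    (Ideal.span (F '' {l | l.1 < i})).restrictScalars ℂ

/-- the vanishing ideal of the lines spanned by the vectors `w k` -/
def IsVan {N : ℕ} {K : Type} (w : K → Fin N → ℂ) (I : Ideal (MvPolynomial (Fin N) ℂ)) : Prop :=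
  ∀ f : MvPolynomial (Fin N) ℂ, f ∈ I ↔ ∀ k, ∀ t : ℂ, eval (t • w k) f = 0

end Pool.Agent.Helper947.Geo
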