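import Pool.Agent.Helper947.Geo.Core

set_option autoImplicit false
open MvPolynomial

namespace Pool.Agent.Helper947.Geo

/-- density: a generic relation is a relation everywhere -/
theorem rel_of_generic {d : ℕ} {K : Type} [Fintype K] (z : K → Fin d → ℂ) (m : ℕ)
    (μ : K → MvPolynomial (Fin d) ℂ) (φ : MvPolynomial (Fin d) ℂ) (hφ : φ ≠ 0)
    (h : ∀ P : Fin d → ℂ, eval P φ ≠ 0 → (fun k => eval P (μ k)) ∈ relSpace z m P) :
    Rel z m μ := by
  classical
  intro P0 hP0 η0 hη0
  obtain ⟨i0, hi0⟩ : ∃ i, P0 i ≠ 0 := by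
    by_contra hcon
    push Not at hcon
    exact hP0 (funext hcon)
  obtain ⟨ζ, hζ⟩ : ∃ ζ : Fin d → ℂ, P0 ⬝ᵥ ζ = 1 := by
    refine ⟨Pi.single i0 (P0 i0)⁻¹, ?_⟩
    rw [dotProduct_single]
    exact mul_inv_cancel₀ hi0
  -- the vector `η(P)`
  have hdot : ∀ P : Fin d → ℂ, P ⬝ᵥ (fun j => (P ⬝ᵥ ζ) * η0 j - (P ⬝ᵥ η0) * ζ j) = 0 := by
    intro P
    have e1 : (fun j => (P ⬝ᵥ ζ) * η0 j - (P ⬝ᵥ η0) * ζ j) = (P ⬝ᵥ ζ) • η0 - (P ⬝ᵥ η0) • ζ := rfl
    rw [e1, dotProduct_sub, dotProduct_smul, dotProduct_smul, smul_eq_mul, smul_eq_mul]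
    ring
  have hl : ∀ (v P : Fin d → ℂ), eval P (∑ i, X i * C (v i) : MvPolynomial (Fin d) ℂ) = P ⬝ᵥ v := by
    intro v P
    simp [dotProduct]
  let Fp : MvPolynomial (Fin d) ℂ := ∑ k, μ k * (∑ j, C (z k j) *
    ((∑ i, X i * C (ζ i)) * C (η0 j) - (∑ i, X i * C (η0 i)) * C (ζ j))) ^ m
  have hF : ∀ P : Fin d → ℂ, eval P Fp =
      ∑ k, eval P (μ k) * (z k ⬝ᵥ (fun j => (P ⬝ᵥ ζ) * η0 j - (P ⬝ᵥ η0) * ζ j)) ^ m := by
    intro P
    show eval P (∑ k, μ k * (∑ j, C (z k j) *
      ((∑ i, X i * C (ζ i)) * C (η0 j) - (∑ i, X i * C (η0 i)) * C (ζ j))) ^ m) = _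
    rw [map_sum]
    apply Finset.sum_congr rfl
    intro k _
    rw [map_mul, map_pow, map_sum]
    congr 2
    unfold dotProduct
    apply Finset.sum_congr rfl
    intro j _
    rw [map_mul, map_sub, map_mul, map_mul, hl, hl, eval_C, eval_C, eval_C]
    rfl
  have hprod : Fp * φ = 0 := by
    apply MvPolynomial.funext
    intro P
    rw [map_mul, map_zero]
    by_cases hP : eval P φ = 0
    · rw [hP, mul_zero]
    · have h1 := h P hP _ (hdot P)
      rw [hF, h1, zero_mul]
  have hFp : Fp = 0 := by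
    rcases mul_eq_zero.1 hprod with h1 | h1
    · exact h1
    · exact absurd h1 hφ
  have h2 := hF P0
  rw [hFp, map_zero, hζ, hη0] at h2
  have e2 : (fun j => 1 * η0 j - 0 * ζ j) = η0 := by
    funext j
    ring
  rw [e2] at h2
  exact h2.symm

/-- coefficient vectors with polynomial entries -/
noncomputable def wvec {d : ℕ} {K : Type} (z : K → Fin d → ℂ) (j : Fin d) (k : K) (i : Fin d) :
    MvPolynomial (Fin d) ℂ := X j * C (z k i) - C (z k j) * X i

/-- the powers as polynomials in `η` with polynomial coefficients -/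
noncomputable def Wp {d : ℕ} {K : Type} (z : K → Fin d → ℂ) (m : ℕ) (j : Fin d) (k : K) :
    MvPolynomial (Fin d) (MvPolynomial (Fin d) ℂ) := (∑ i, C (wvec z j k i) * X i) ^ m

theorem eval_Wp {d : ℕ} {K : Type} (z : K → Fin d → ℂ) (m : ℕ) (j : Fin d) (k : K)
    (P η : Fin d → ℂ) : eval η (map (eval P) (Wp z m j k)) =
      (z k ⬝ᵥ (P j • η - (P ⬝ᵥ η) • Pi.single j 1)) ^ m := by
  unfold Wp wvec
  rw [map_pow, map_pow, map_sum, map_sum]
  congr 1
  have h1 : z k ⬝ᵥ (P j • η - (P ⬝ᵥ η) • Pi.single j 1) =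
      P j * (z k ⬝ᵥ η) - (P ⬝ᵥ η) * z k j := by
    rw [dotProduct_sub, dotProduct_smul, dotProduct_smul, dotProduct_single]
    simp
  rw [h1]
  simp only [dotProduct, Finset.mul_sum, Finset.sum_mul, ← Finset.sum_sub_distrib]
  refine Finset.sum_congr rfl fun i _ => ?_
  simp
  ring

theorem mem_relSpace_iff {d : ℕ} {K : Type} [Fintype K] (z : K → Fin d → ℂ) (m : ℕ) (j : Fin d)
    (P : Fin d → ℂ) (hP : P j ≠ 0) (c : K → ℂ) : c ∈ relSpace z m P ↔
      ∀ α, ∑ k, c k * eval P (coeff α (Wp z m j k)) = 0 := by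
  set G : MvPolynomial (Fin d) ℂ := ∑ k, C (c k) * map (eval P) (Wp z m j k) with hG
  have hco : ∀ α, coeff α G = ∑ k, c k * eval P (coeff α (Wp z m j k)) := by
    intro α
    rw [hG, coeff_sum]
    refine Finset.sum_congr rfl fun k _ => ?_
    rw [coeff_C_mul, coeff_map]
  have hev : ∀ η : Fin d → ℂ, eval η G =
      ∑ k, c k * (z k ⬝ᵥ (P j • η - (P ⬝ᵥ η) • Pi.single j 1)) ^ m := by
    intro η
    rw [hG, map_sum]
    refine Finset.sum_congr rfl fun k _ => ?_
    rw [map_mul, eval_C, eval_Wp]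
  constructor
  · intro hc α
    have h0 : G = 0 := by
      apply MvPolynomial.funext
      intro η
      rw [hev, map_zero]
      apply hc
      rw [dotProduct_sub, dotProduct_smul, dotProduct_smul, dotProduct_single]
      simp
      ring
    rw [← hco, h0, coeff_zero]
  · intro hc
    have h0 : G = 0 := by
      ext α
      rw [hco, hc, coeff_zero]
    intro η hη
    have h1 := hev ((P j)⁻¹ • η)
    rw [h0, map_zero] at h1
    rw [dotProduct_smul, hη, smul_zero, zero_smul, sub_zero, smul_smul, mul_inv_cancel₀ hP,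
      one_smul] at h1
    exact h1.symm

/-- existence of a polynomial relation -/
theorem exists_rel {d : ℕ} {K : Type} [Fintype K] (z : K → Fin d → ℂ) (m : ℕ)
    (φ : MvPolynomial (Fin d) ℂ) (hφ : φ ≠ 0)
    (h : ∀ P : Fin d → ℂ, eval P φ ≠ 0 → relSpace z m P ≠ ⊥) :
    ∃ μ : K → MvPolynomial (Fin d) ℂ, μ ≠ 0 ∧ Rel z m μ := by
  classical
  rcases Nat.eq_zero_or_pos d with hd | hd
  · subst hd
    have hP : eval (0 : Fin 0 → ℂ) φ ≠ 0 := by
      intro h0
      apply hφ
      apply MvPolynomial.funext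
      intro P
      rw [Subsingleton.elim P 0, h0, map_zero]
    obtain ⟨c, hc, hc0⟩ := (Submodule.ne_bot_iff _).1 (h 0 hP)
    refine ⟨fun k => C (c k), ?_, fun P hPne => absurd (Subsingleton.elim P 0) hPne⟩
    intro h1
    apply hc0
    funext k
    have h2 := congrFun h1 k
    simpa using h2
  · set j : Fin d := ⟨0, hd⟩
    let F := FractionRing (MvPolynomial (Fin d) ℂ)
    let S : Finset (Fin d →₀ ℕ) := Finset.univ.biUnion fun k => (Wp z m j k).support
    have hS : ∀ α ∉ S, ∀ k, coeff α (Wp z m j k) = 0 := by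
      intro α hα k
      by_contra h1
      exact hα (Finset.mem_biUnion.2 ⟨k, Finset.mem_univ _, mem_support_iff.2 h1⟩)
    let E : Matrix S K (MvPolynomial (Fin d) ℂ) := fun α k => coeff α.1 (Wp z m j k)
    let E' : Matrix S K F := E.map (algebraMap (MvPolynomial (Fin d) ℂ) F)
    have hinjF : Function.Injective (algebraMap (MvPolynomial (Fin d) ℂ) F) :=
      IsFractionRing.injective _ _
    by_cases hinj : Function.Injective (Matrix.toLin' E')
    · exfalso
      obtain ⟨L, hL⟩ := LinearMap.exists_leftInverse_of_injective (Matrix.toLin' E')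
        (LinearMap.ker_eq_bot.2 hinj)
      have hLm : LinearMap.toMatrix' L * E' = 1 := by
        have h1 := congrArg LinearMap.toMatrix' hL
        rw [LinearMap.toMatrix'_comp, LinearMap.toMatrix'_toLin', LinearMap.toMatrix'_id] at h1
        exact h1
      obtain ⟨b, hb⟩ := IsLocalization.exist_integer_multiples_of_finite
        (nonZeroDivisors (MvPolynomial (Fin d) ℂ))
        (fun q : K × S => (LinearMap.toMatrix' L q.1 q.2 : F))
      choose L' hL' using hb
      have hprod : ∀ k k' : K, ∑ α : S, L' (k, α) * E α k' =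
          if k = k' then (b : MvPolynomial (Fin d) ℂ) else 0 := by
        intro k k'
        apply hinjF
        have h2 := congrFun (congrFun hLm k) k'
        rw [Matrix.mul_apply, Matrix.one_apply] at h2
        rw [map_sum]
        calc ∑ α : S, algebraMap (MvPolynomial (Fin d) ℂ) F (L' (k, α) * E α k')
            = ∑ α : S, (b : MvPolynomial (Fin d) ℂ) •
                (LinearMap.toMatrix' L k α * E' α k') := by
              refine Finset.sum_congr rfl fun α _ => ?_
              rw [map_mul, hL' (k, α)]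
              show ((b : MvPolynomial (Fin d) ℂ) • LinearMap.toMatrix' L k α) *
                algebraMap _ F (E α k') = _
              rw [smul_mul_assoc]
              rfl
          _ = (b : MvPolynomial (Fin d) ℂ) • ∑ α : S, LinearMap.toMatrix' L k α * E' α k' := by
              rw [Finset.smul_sum]
          _ = algebraMap (MvPolynomial (Fin d) ℂ) F
                (if k = k' then (b : MvPolynomial (Fin d) ℂ) else 0) := by
              rw [h2]
              split_ifs
              · rw [Algebra.smul_def, mul_one]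
              · simp
      have hbne : (b : MvPolynomial (Fin d) ℂ) ≠ 0 := nonZeroDivisors.coe_ne_zero b
      have hne : (b : MvPolynomial (Fin d) ℂ) * φ * X j ≠ 0 :=
        mul_ne_zero (mul_ne_zero hbne hφ) (X_ne_zero j)
      obtain ⟨P, hP⟩ : ∃ P : Fin d → ℂ, eval P ((b : MvPolynomial (Fin d) ℂ) * φ * X j) ≠ 0 := by
        by_contra hcon
        push Not at hcon
        apply hne
        apply MvPolynomial.funext
        intro P
        rw [hcon P, map_zero]
      rw [map_mul, map_mul, eval_X] at hP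
      have hPb : eval P (b : MvPolynomial (Fin d) ℂ) ≠ 0 := left_ne_zero_of_mul (left_ne_zero_of_mul hP)
      have hPφ : eval P φ ≠ 0 := right_ne_zero_of_mul (left_ne_zero_of_mul hP)
      have hPj : P j ≠ 0 := right_ne_zero_of_mul hP
      obtain ⟨c, hc, hc0⟩ := (Submodule.ne_bot_iff _).1 (h P hPφ)
      have hc1 := (mem_relSpace_iff z m j P hPj c).1 hc
      apply hc0
      funext k
      have h3 : eval P (b : MvPolynomial (Fin d) ℂ) * c k = 0 := by
        calc eval P (b : MvPolynomial (Fin d) ℂ) * c k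
            = ∑ k', (eval P (if k = k' then (b : MvPolynomial (Fin d) ℂ) else 0)) * c k' := by
              rw [Finset.sum_eq_single k]
              · simp
              · intro k' _ hk'
                simp [Ne.symm hk']
              · simp
          _ = ∑ k', (∑ α : S, eval P (L' (k, α)) * eval P (E α k')) * c k' := by
              refine Finset.sum_congr rfl fun k' _ => ?_
              rw [← hprod k k', map_sum]
              simp only [map_mul]
          _ = ∑ α : S, eval P (L' (k, α)) * ∑ k', c k' * eval P (E α k') := by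
              simp only [Finset.sum_mul, Finset.mul_sum]
              rw [Finset.sum_comm]
              refine Finset.sum_congr rfl fun α _ => Finset.sum_congr rfl fun k' _ => ?_
              ring
          _ = 0 := by
              refine Finset.sum_eq_zero fun α _ => ?_
              have : ∑ k', c k' * eval P (E α k') = 0 := hc1 α.1
              rw [this, mul_zero]
      exact (mul_eq_zero.1 h3).resolve_left hPb
    · have hker : LinearMap.ker (Matrix.toLin' E') ≠ ⊥ := fun h1 => hinj (LinearMap.ker_eq_bot.1 h1)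
      obtain ⟨v, hv, hv0⟩ := (Submodule.ne_bot_iff _).1 hker
      obtain ⟨b, hb⟩ := IsLocalization.exist_integer_multiples_of_finite
        (nonZeroDivisors (MvPolynomial (Fin d) ℂ)) (fun k : K => (v k : F))
      choose μ hμ using hb
      have hbne : (b : MvPolynomial (Fin d) ℂ) ≠ 0 := nonZeroDivisors.coe_ne_zero b
      refine ⟨μ, ?_, ?_⟩
      · intro h1
        apply hv0
        funext k
        have h2 := hμ k
        rw [h1] at h2
        have h3 : (b : MvPolynomial (Fin d) ℂ) • v k = 0 := by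
          rw [Pi.zero_apply, map_zero] at h2
          exact h2.symm
        rw [Algebra.smul_def] at h3
        rcases mul_eq_zero.1 h3 with h4 | h4
        · exact absurd (hinjF (h4.trans (map_zero _).symm)) hbne
        · exact h4
      · apply rel_of_generic z m μ (X j) (X_ne_zero j)
        intro P hPj
        rw [eval_X] at hPj
        rw [mem_relSpace_iff z m j P hPj]
        intro α
        have hα : ∑ k, μ k * coeff α (Wp z m j k) = 0 := by
          by_cases hαS : α ∈ S
          · apply hinjF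
            rw [map_sum, map_zero]
            have h4 := congrFun (LinearMap.mem_ker.1 hv) ⟨α, hαS⟩
            rw [Matrix.toLin'_apply] at h4
            have h4' : ∑ k, E' ⟨α, hαS⟩ k * v k = 0 := h4
            calc ∑ k, algebraMap (MvPolynomial (Fin d) ℂ) F (μ k * coeff α (Wp z m j k))
                = ∑ k, (b : MvPolynomial (Fin d) ℂ) • (E' ⟨α, hαS⟩ k * v k) := by
                  refine Finset.sum_congr rfl fun k _ => ?_
                  rw [map_mul, hμ k, mul_comm, ← mul_smul_comm]
                  rfl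
              _ = 0 := by rw [← Finset.smul_sum, h4', smul_zero]
          · refine Finset.sum_eq_zero fun k _ => ?_
            rw [hS α hαS k, mul_zero]
        have h5 := congrArg (eval P) hα
        rw [map_sum, map_zero] at h5
        simpa only [map_mul] using h5

theorem rc_eval_smul {d : ℕ} (f : MvPolynomial (Fin d) ℂ) (D : ℕ) (hf : f.IsHomogeneous D)
    (t : ℂ) (P : Fin d → ℂ) : eval (t • P) f = t ^ D * eval P f := by
  rw [eval_eq, eval_eq, Finset.mul_sum]
  refine Finset.sum_congr rfl fun e he => ?_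
  have h1 : ∑ i ∈ e.support, e i = D := by
    have h2 := hf (mem_support_iff.1 he)
    have h3 : (Finsupp.weight (fun _ : Fin d => 1)) e = D := h2
    rw [← Finsupp.degree_eq_weight_one] at h3
    rw [← h3]
    rfl
  simp only [Pi.smul_apply, smul_eq_mul, mul_pow, Finset.prod_mul_distrib]
  rw [Finset.prod_pow_eq_pow_sum, h1]
  ring

theorem rc_sum {d : ℕ} (f : MvPolynomial (Fin d) ℂ) (N : ℕ) (hN : f.totalDegree < N)
    (t : ℂ) (P : Fin d → ℂ) :
    eval (t • P) f = ∑ D ∈ Finset.range N, t ^ D * eval P (homogeneousComponent D f) := by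
  have h1 : ∑ D ∈ Finset.range N, homogeneousComponent D f = f := by
    conv_rhs => rw [← sum_homogeneousComponent f]
    symm
    apply Finset.sum_subset
    · intro i hi
      rw [Finset.mem_range] at hi ⊢
      omega
    · intro i _ hi
      rw [Finset.mem_range] at hi
      exact homogeneousComponent_eq_zero _ _ (by omega)
  conv_lhs => rw [← h1]
  rw [map_sum]
  refine Finset.sum_congr rfl fun D _ => ?_
  exact rc_eval_smul _ D (homogeneousComponent_isHomogeneous D f) t P

/-- homogeneous components of a relation are relations -/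
theorem rel_component {d : ℕ} {K : Type} [Fintype K] (z : K → Fin d → ℂ) (m : ℕ)
    (μ : K → MvPolynomial (Fin d) ℂ) (h : Rel z m μ) (D : ℕ) :
    Rel z m (fun k => homogeneousComponent D (μ k)) := by
  intro P hP η hη
  obtain ⟨N, hN⟩ : ∃ N : ℕ, N = (∑ k, (μ k).totalDegree) + D + 1 := ⟨_, rfl⟩
  have hNk : ∀ k, (μ k).totalDegree < N := by
    intro k
    have := Finset.single_le_sum (f := fun k => (μ k).totalDegree) (fun _ _ => Nat.zero_le _)
      (Finset.mem_univ k)
    omega
  obtain ⟨q, hq⟩ : ∃ q : Polynomial ℂ, q = ∑ D ∈ Finset.range N, Polynomial.C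
    (∑ k, eval P (homogeneousComponent D (μ k)) * (z k ⬝ᵥ η) ^ m) * Polynomial.X ^ D := ⟨_, rfl⟩
  have hqe : ∀ t : ℂ, t ≠ 0 → q.eval t = 0 := by
    intro t ht
    have h1 := h (t • P) (smul_ne_zero ht hP) η (by rw [smul_dotProduct, hη, smul_zero])
    rw [hq, Polynomial.eval_finsetSum]
    rw [← h1]
    simp only [Polynomial.eval_mul, Polynomial.eval_C, Polynomial.eval_pow, Polynomial.eval_X]
    have h2 : ∀ k, eval (t • P) (μ k) * (z k ⬝ᵥ η) ^ m =
        ∑ D ∈ Finset.range N, t ^ D * eval P (homogeneousComponent D (μ k)) * (z k ⬝ᵥ η) ^ m := by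
      intro k
      rw [rc_sum (μ k) N (hNk k), Finset.sum_mul]
    simp only [h2]
    rw [Finset.sum_comm]
    refine Finset.sum_congr rfl fun D _ => ?_
    rw [Finset.sum_mul]
    refine Finset.sum_congr rfl fun k _ => ?_
    ring
  have hq0 : q = 0 := by
    by_contra hne
    have h1 : {t : ℂ | t ≠ 0} ⊆ {t : ℂ | q.IsRoot t} := fun t ht => hqe t ht
    have h2 : {t : ℂ | q.IsRoot t}.Finite := Polynomial.finite_setOfPred_isRoot hne
    have h3 : {t : ℂ | t ≠ 0}.Infinite := by
      have : {t : ℂ | t ≠ 0} = ({0} : Set ℂ)ᶜ := rfl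
      rw [this]
      exact (Set.finite_singleton (0:ℂ)).infinite_compl
    exact h3 (h2.subset h1)
  have h3 := congrArg (fun r : Polynomial ℂ => r.coeff D) hq0
  simp only [Polynomial.coeff_zero] at h3
  rw [hq, Polynomial.finsetSum_coeff] at h3
  simp only [Polynomial.coeff_C_mul_X_pow] at h3
  rw [Finset.sum_ite_eq, if_pos (Finset.mem_range.2 (by omega))] at h3
  exact h3

/-- a primitive homogeneous relation -/
theorem exists_primitive {d : ℕ} {K : Type} [Fintype K] (z : K → Fin d → ℂ) (m : ℕ)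
    (φ : MvPolynomial (Fin d) ℂ) (hφ : φ ≠ 0)
    (h : ∀ P : Fin d → ℂ, eval P φ ≠ 0 → relSpace z m P ≠ ⊥) :
    ∃ (D : ℕ) (μ : K → MvPolynomial (Fin d) ℂ), μ ≠ 0 ∧ (∀ k, (μ k).IsHomogeneous D) ∧ Rel z m μ ∧
      ∀ δ : MvPolynomial (Fin d) ℂ, Irreducible δ → ∃ k, ¬ δ ∣ μ k := by
  classical
  have hcomp : ∀ (ν : K → MvPolynomial (Fin d) ℂ), Rel z m ν → ∀ k, ν k ≠ 0 →
      ∃ e ≤ (ν k).totalDegree, ∃ μ : K → MvPolynomial (Fin d) ℂ, μ ≠ 0 ∧
        (∀ k, (μ k).IsHomogeneous e) ∧ Rel z m μ := by
    intro ν hν k hk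
    have h1 : ∃ e ≤ (ν k).totalDegree, homogeneousComponent e (ν k) ≠ 0 := by
      by_contra hcon
      push Not at hcon
      apply hk
      rw [← sum_homogeneousComponent (ν k)]
      apply Finset.sum_eq_zero
      intro i hi
      exact hcon i (Nat.lt_succ_iff.1 (Finset.mem_range.1 hi))
    obtain ⟨e, he, hne⟩ := h1
    refine ⟨e, he, fun k => homogeneousComponent e (ν k), ?_, ?_, rel_component z m ν hν e⟩
    · intro h0
      exact hne (congrFun h0 k)
    · intro k
      exact homogeneousComponent_isHomogeneous e _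
  have hex : ∃ D : ℕ, ∃ μ : K → MvPolynomial (Fin d) ℂ, μ ≠ 0 ∧
      (∀ k, (μ k).IsHomogeneous D) ∧ Rel z m μ := by
    obtain ⟨μ, hμ, hr⟩ := exists_rel z m φ hφ h
    obtain ⟨k, hk⟩ := Function.ne_iff.1 hμ
    obtain ⟨e, _, he⟩ := hcomp μ hr k hk
    exact ⟨e, he⟩
  obtain ⟨μ, hμ, hhom, hrel⟩ := Nat.find_spec hex
  refine ⟨Nat.find hex, μ, hμ, hhom, hrel, ?_⟩
  intro δ hδ
  by_contra hcon
  push Not at hcon
  choose ν hν using hcon
  have hνrel : Rel z m ν := by
    rcases Nat.eq_zero_or_pos d with hd | hd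
    · subst hd
      intro P hP
      exact absurd (Subsingleton.elim P 0) hP
    · apply rel_of_generic z m ν (δ * X ⟨0, hd⟩) (mul_ne_zero hδ.ne_zero (X_ne_zero _))
      intro P hP
      rw [map_mul, eval_X] at hP
      have hP1 := left_ne_zero_of_mul hP
      have hP2 := right_ne_zero_of_mul hP
      have hP0 : P ≠ 0 := by
        intro h0
        apply hP2
        rw [h0]
        rfl
      have h2 := (relSpace z m P).smul_mem (eval P δ)⁻¹ (hrel P hP0)
      have h3 : (eval P δ)⁻¹ • (fun k => eval P (μ k)) = fun k => eval P (ν k) := by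
        funext k
        rw [Pi.smul_apply, hν k, map_mul, smul_eq_mul, inv_mul_cancel_left₀ hP1]
      rwa [h3] at h2
  obtain ⟨k, hk⟩ := Function.ne_iff.1 hμ
  have hk' : μ k ≠ 0 := hk
  have hνk : ν k ≠ 0 := by
    intro h0
    apply hk'
    rw [hν k, h0, mul_zero]
  have hdeg : Nat.find hex = δ.totalDegree + (ν k).totalDegree := by
    rw [← (hhom k).totalDegree hk', hν k, totalDegree_mul_of_isDomain hδ.ne_zero hνk]
  have hδd : 1 ≤ δ.totalDegree := by
    by_contra hlt
    have h0 : δ.totalDegree = 0 := by omega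
    rw [totalDegree_eq_zero_iff_eq_C] at h0
    apply hδ.not_isUnit
    rw [h0]
    apply IsUnit.map
    rw [isUnit_iff_ne_zero]
    intro hc
    apply hδ.ne_zero
    rw [h0, hc, map_zero]
  obtain ⟨e, he, hSe⟩ := hcomp ν hνrel k hνk
  exact Nat.find_min hex (m := e) (by omega) hSe

/-- points on an irreducible hypersurface off another one -/
theorem exists_point {d : ℕ} (δ φ : MvPolynomial (Fin d) ℂ) (hδ : Irreducible δ) (h : ¬ δ ∣ φ) :
    ∃ P : Fin d → ℂ, eval P δ = 0 ∧ eval P φ ≠ 0 := by
  by_contra hcon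
  push Not at hcon
  have hpr : Prime δ := hδ.prime
  have h1 : φ ∈ MvPolynomial.vanishingIdeal ℂ
      (MvPolynomial.zeroLocus ℂ (Ideal.span {δ})) := by
    rw [MvPolynomial.mem_vanishingIdeal_iff]
    intro x hx
    rw [MvPolynomial.mem_zeroLocus_iff] at hx
    have h2 := hx δ (Ideal.mem_span_singleton_self δ)
    rw [MvPolynomial.aeval_eq_eval] at h2 ⊢
    exact hcon x h2
  rw [MvPolynomial.vanishingIdeal_zeroLocus_eq_radical] at h1
  have h3 : (Ideal.span {δ}).IsPrime := (Ideal.span_singleton_prime hpr.ne_zero).2 hpr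
  rw [h3.radical, Ideal.mem_span_singleton] at h1
  exact h h1

lemma off_line_ker {d : ℕ} (hd : 4 ≤ d) (w : Fin 3 → Fin d → ℂ) :
    ∃ e : Fin d → ℂ, e ≠ 0 ∧ ∀ i, w i ⬝ᵥ e = 0 := by
  have h1 : LinearMap.ker (Matrix.mulVecLin (Matrix.of w)) ≠ ⊥ := by
    apply LinearMap.ker_ne_bot_of_finrank_lt
    rw [Module.finrank_fin_fun, Module.finrank_fin_fun]
    omega
  obtain ⟨e, he, he0⟩ := (Submodule.ne_bot_iff _).1 h1
  refine ⟨e, he0, fun i => ?_⟩
  have h2 := LinearMap.mem_ker.1 he
  have h3 := congrFun h2 i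
  simpa [Matrix.mulVec] using h3

noncomputable def off_line_form {d : ℕ} (e : Fin d → ℂ) : MvPolynomial (Fin d) ℂ :=
  ∑ j, C (e j) * X j

lemma off_line_eval {d : ℕ} (e P : Fin d → ℂ) : eval P (off_line_form e) = P ⬝ᵥ e := by
  simp only [off_line_form, map_sum, map_mul, eval_C, eval_X, dotProduct]
  exact Finset.sum_congr rfl fun i _ => mul_comm _ _

lemma off_line_coeff {d : ℕ} (e : Fin d → ℂ) (j : Fin d) :
    coeff (Finsupp.single j 1) (off_line_form e) = e j := by
  classical
  simp only [off_line_form, coeff_sum, coeff_C_mul, coeff_X']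
  rw [Finset.sum_eq_single j]
  · simp
  · intro b _ hb
    rw [if_neg, mul_zero]
    intro h
    exact hb ((Finsupp.single_left_inj one_ne_zero).1 h)
  · intro h
    exact absurd (Finset.mem_univ j) h

lemma off_line_ne {d : ℕ} {e : Fin d → ℂ} (he : e ≠ 0) : off_line_form e ≠ 0 := by
  obtain ⟨j, hj⟩ := Function.ne_iff.1 he
  intro h
  have h2 := off_line_coeff e j
  rw [h, coeff_zero] at h2
  exact hj h2.symm

lemma off_line_deg {d : ℕ} (e : Fin d → ℂ) : (off_line_form e).totalDegree ≤ 1 := by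
  unfold off_line_form
  apply totalDegree_finsetSum_le
  intro i _
  refine (totalDegree_mul _ _).trans ?_
  rw [totalDegree_C, totalDegree_X]

lemma off_line_quot {d : ℕ} {δ : MvPolynomial (Fin d) ℂ} (hδ : Irreducible δ)
    {e : Fin d → ℂ} (he : e ≠ 0) (h : δ ∣ off_line_form e) :
    ∃ a : ℂ, off_line_form e = δ * C a := by
  obtain ⟨q, hq⟩ := h
  have hne := off_line_ne he
  have hq0 : q ≠ 0 := by
    rintro rfl
    exact hne (by rw [hq, mul_zero])
  have hdeg := totalDegree_mul_of_isDomain hδ.ne_zero hq0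
  rw [← hq] at hdeg
  have h1 := off_line_deg e
  have h2 : 1 ≤ δ.totalDegree := by
    by_contra hcon
    have h0 : δ.totalDegree = 0 := by omega
    rw [totalDegree_eq_zero_iff_eq_C] at h0
    apply hδ.not_isUnit
    rw [h0]
    refine IsUnit.map C ?_
    rw [isUnit_iff_ne_zero]
    intro hc
    apply hδ.ne_zero
    rw [h0, hc, C_0]
  have h3 : q.totalDegree = 0 := by omega
  rw [totalDegree_eq_zero_iff_eq_C] at h3
  exact ⟨_, by rw [hq, ← h3]⟩

/-- a general point of a hypersurface is not on a given line -/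
theorem off_line {d : ℕ} (hd : 4 ≤ d) (δ : MvPolynomial (Fin d) ℂ) (hδ : Irreducible δ)
    (u v : Fin d → ℂ) :
    ∃ φ : MvPolynomial (Fin d) ℂ, ¬ δ ∣ φ ∧
      ∀ P : Fin d → ℂ, eval P φ ≠ 0 → P ∉ Submodule.span ℂ {u, v} := by
  have key : ∀ e : Fin d → ℂ, u ⬝ᵥ e = 0 → v ⬝ᵥ e = 0 →
      ∀ P : Fin d → ℂ, eval P (off_line_form e) ≠ 0 → P ∉ Submodule.span ℂ {u, v} := by
    intro e hu hv P hP hmem
    obtain ⟨a, b, rfl⟩ := Submodule.mem_span_pair.1 hmem
    apply hP
    rw [off_line_eval, add_dotProduct, smul_dotProduct, smul_dotProduct, hu, hv]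
    simp
  obtain ⟨e1, he1, hk1⟩ := off_line_ker hd ![u, v, 0]
  obtain ⟨j, hj⟩ := Function.ne_iff.1 he1
  obtain ⟨e2, he2, hk2⟩ := off_line_ker hd ![u, v, Pi.single j 1]
  have hu1 : u ⬝ᵥ e1 = 0 := by simpa using hk1 0
  have hv1 : v ⬝ᵥ e1 = 0 := by simpa using hk1 1
  have hu2 : u ⬝ᵥ e2 = 0 := by simpa using hk2 0
  have hv2 : v ⬝ᵥ e2 = 0 := by simpa using hk2 1
  have hj2 : e2 j = 0 := by simpa using hk2 2
  by_cases h1 : δ ∣ off_line_form e1
  · by_cases h2 : δ ∣ off_line_form e2
    · exfalso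
      obtain ⟨a, ha⟩ := off_line_quot hδ he1 h1
      obtain ⟨b, hb⟩ := off_line_quot hδ he2 h2
      have h3 : C b * off_line_form e1 = C a * off_line_form e2 := by
        rw [ha, hb]; ring
      have h4 := congrArg (coeff (Finsupp.single j 1)) h3
      rw [coeff_C_mul, coeff_C_mul, off_line_coeff, off_line_coeff, hj2, mul_zero] at h4
      have hb0 : b = 0 := by
        rcases mul_eq_zero.1 h4 with h | h
        · exact h
        · exact absurd h hj
      apply off_line_ne he2
      rw [hb, hb0, C_0, mul_zero]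
    · exact ⟨_, h2, key e2 hu2 hv2⟩
  · exact ⟨_, h1, key e1 hu1 hv1⟩

theorem s_ext {d : ℕ} {ι : Type*} (v : ι → Fin d → ℂ) (hv : LinearIndependent ℂ v)
    (x : ι → ℂ) : ∃ η : Fin d → ℂ, ∀ i, v i ⬝ᵥ η = x i := by
  obtain ⟨g, hg⟩ := LinearMap.exists_extend ((Finsupp.linearCombination ℂ x).comp hv.repr)
  refine ⟨fun i => g (fun j => if i = j then 1 else 0), fun i => ?_⟩
  have h1 : g (v i) = x i := by
    have h2 := LinearMap.congr_fun hg ⟨v i, Submodule.subset_span (Set.mem_range_self i)⟩
    simp only [LinearMap.comp_apply, Submodule.subtype_apply] at h2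
    rw [h2, hv.repr_eq_single i _ rfl]
    simp
  rw [← h1, LinearMap.pi_apply_eq_sum_univ g (v i)]
  rfl

theorem s_three {ι : Type*} [Fintype ι] [DecidableEq ι] (i j k : ι) (hij : i ≠ j) (hik : i ≠ k)
    (hjk : j ≠ k) (F : ι → ℂ → ℂ) (hF : ∀ l, F l 0 = 0) (α β γ : ℂ) :
    ∑ l, F l (if l = i then α else if l = j then β else if l = k then γ else 0) =
      F i α + F j β + F k γ := by
  have h : ∑ l ∈ ({i, j, k} : Finset ι),
      F l (if l = i then α else if l = j then β else if l = k then γ else 0) =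
      ∑ l, F l (if l = i then α else if l = j then β else if l = k then γ else 0) := by
    apply Finset.sum_subset (Finset.subset_univ _)
    intro l _ hl
    simp only [Finset.mem_insert, Finset.mem_singleton, not_or] at hl
    rw [if_neg hl.1, if_neg hl.2.1, if_neg hl.2.2]
    exact hF l
  rw [← h, Finset.sum_insert, Finset.sum_insert, Finset.sum_singleton]
  · rw [if_pos rfl, if_neg hij.symm, if_pos rfl, if_neg hik.symm, if_neg hjk.symm, if_pos rfl]
    ring
  · simpa using hjk
  · simp only [Finset.mem_insert, Finset.mem_singleton, not_or]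
    exact ⟨hij, hik⟩

theorem s_num (n : ℕ) (hn : 2 ≤ n) (A B C : ℂ) (hA : A ≠ 0)
    (h : ∀ α β γ : ℂ, α + β + γ = 0 → A * α ^ n + B * β ^ n + C * γ ^ n = 0) : False := by
  have hn0 : n ≠ 0 := by omega
  have h1 := h 1 (-1) 0 (by ring)
  have h2 := h 1 0 (-1) (by ring)
  have h3 := h 0 1 (-1) (by ring)
  have h4 := h 1 1 (-2) (by ring)
  rw [zero_pow hn0, one_pow] at h1 h2 h3
  rw [one_pow] at h4
  rcases Nat.even_or_odd n with he | ho
  · rw [he.neg_one_pow] at h1 h2 h3
    apply hA
    linear_combination (h1 + h2 - h3) / 2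
  · rw [ho.neg_one_pow] at h1 h2 h3
    rw [ho.neg_pow] at h4
    have h5 : A * (2 - (2 : ℂ) ^ n) = 0 := by
      linear_combination h4 + h1 + (-(2 : ℂ) ^ n) * h2
    rcases mul_eq_zero.mp h5 with h6 | h6
    · exact hA h6
    · have h7 : (2 : ℂ) ^ n = 2 := by linear_combination -h6
      have h8 : (2 : ℕ) ^ n = 2 := by exact_mod_cast h7
      have h9 : 2 ^ 2 ≤ 2 ^ n := Nat.pow_le_pow_right (by norm_num) hn
      omega

/-- no relation between powers of independent vectors modulo a general point -/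
theorem no_rel {d : ℕ} (hd : 4 ≤ d) {K : Type} [Fintype K] [DecidableEq K] (z : K → Fin d → ℂ)
    (n : ℕ) (hn : 2 ≤ n) (P : Fin d → ℂ) (W : Finset K) (hW : W.Nonempty)
    (hind : LinearIndependent ℂ (fun k : W => z k))
    (hP : ∀ k ∈ W, ∀ l ∈ W, P ∉ Submodule.span ℂ {z k, z l})
    (c : K → ℂ) (hc : ∀ k ∈ W, c k ≠ 0) :
    ¬ (∀ η : Fin d → ℂ, P ⬝ᵥ η = 0 → ∑ k ∈ W, c k * (z k ⬝ᵥ η) ^ n = 0) := by
  intro hrel
  have hn0 : n ≠ 0 := by omega
  have hrel' : ∀ η : Fin d → ℂ, P ⬝ᵥ η = 0 → ∑ k : W, c k * (z k ⬝ᵥ η) ^ n = 0 := by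
    intro η hη
    rw [← hrel η hη]
    exact Finset.sum_coe_sort W (fun k => c k * (z k ⬝ᵥ η) ^ n)
  by_cases hspan : P ∈ Submodule.span ℂ (Set.range (fun k : W => z k))
  · rw [Submodule.mem_span_range_iff_exists_fun] at hspan
    obtain ⟨a, ha⟩ := hspan
    have star : ∀ x : W → ℂ, ∑ k, a k * x k = 0 → ∑ k : W, c k * x k ^ n = 0 := by
      intro x hx
      obtain ⟨η, hη⟩ := s_ext _ hind x
      have h1 : P ⬝ᵥ η = 0 := by
        rw [← ha, sum_dotProduct, ← hx]
        apply Finset.sum_congr rfl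
        intro k _
        rw [smul_dotProduct, hη, smul_eq_mul]
      have h2 := hrel' η h1
      rw [← h2]
      apply Finset.sum_congr rfl
      intro k _
      rw [← hη k]
    by_cases ha0 : ∃ k, a k = 0
    · obtain ⟨k0, hk0⟩ := ha0
      have h1 := star (fun k => if k = k0 then 1 else 0) (by simp [hk0])
      have h2 : ∑ k : W, c k * (if k = k0 then (1 : ℂ) else 0) ^ n = c k0 := by
        rw [Finset.sum_eq_single k0]
        · simp
        · intro b _ hb
          rw [if_neg hb, zero_pow hn0, mul_zero]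
        · intro h
          exact absurd (Finset.mem_univ _) h
      rw [h2] at h1
      exact hc k0 k0.2 h1
    · push Not at ha0
      have two : ∀ i j : W, ∃ k : W, i ≠ k ∧ j ≠ k := by
        intro i j
        by_contra hcon
        push Not at hcon
        apply hP i i.2 j j.2
        rw [← ha]
        apply Submodule.sum_mem
        intro k _
        apply Submodule.smul_mem
        apply Submodule.subset_span
        by_cases hik : i = k
        · left; rw [hik]
        · right
          have := hcon k hik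
          rw [this]; rfl
      obtain ⟨w, hw⟩ := hW
      let i : W := ⟨w, hw⟩
      obtain ⟨j, hij, _⟩ := two i i
      obtain ⟨k, hik, hjk⟩ := two i j
      apply s_num n hn (c i / a i ^ n) (c j / a j ^ n) (c k / a k ^ n)
        (div_ne_zero (hc i i.2) (pow_ne_zero _ (ha0 i)))
      intro α β γ hs
      have h1 := star (fun l => if l = i then α / a i else if l = j then β / a j else
        if l = k then γ / a k else 0) (by
          have := s_three i j k hij hik hjk (fun l t => a l * t) (fun l => mul_zero _)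
            (α / a i) (β / a j) (γ / a k)
          rw [this, mul_div_cancel₀ _ (ha0 i), mul_div_cancel₀ _ (ha0 j),
            mul_div_cancel₀ _ (ha0 k)]
          exact hs)
      have h2 := s_three i j k hij hik hjk (fun l t => c l * t ^ n)
        (fun l => by simp [zero_pow hn0]) (α / a i) (β / a j) (γ / a k)
      rw [h2] at h1
      rw [← h1, div_pow, div_pow, div_pow]
      ring
  · have hind2 := linearIndependent_option'.mpr ⟨hind, hspan⟩
    obtain ⟨w, hw⟩ := hW
    let k0 : W := ⟨w, hw⟩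
    obtain ⟨η, hη⟩ := s_ext _ hind2 (fun o => if o = some k0 then 1 else 0)
    have h0 : P ⬝ᵥ η = 0 := by
      have := hη none
      simpa using this
    have h1 : ∀ k : W, z k ⬝ᵥ η = if k = k0 then 1 else 0 := by
      intro k
      have := hη (some k)
      simpa using this
    have h2 := hrel' η h0
    have h3 : ∑ k : W, c k * (z k ⬝ᵥ η) ^ n = c k0 := by
      rw [Finset.sum_eq_single k0]
      · rw [h1, if_pos rfl, one_pow, mul_one]
      · intro b _ hb
        rw [h1, if_neg hb, zero_pow hn0, mul_zero]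
      · intro h
        exact absurd (Finset.mem_univ _) h
    rw [h3] at h2
    exact hc k0 k0.2 h2

end Pool.Agent.Helper947.Geo
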