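import Pool.Agent.Helper947.Geo.G1

set_option autoImplicit false
open MvPolynomial

namespace Pool.Agent.Helper947.Geo

theorem hasDerivAt_eval_ki {d : ℕ} (i : Fin d) (P : Fin d → ℂ) (f : MvPolynomial (Fin d) ℂ) :
    HasDerivAt (fun t : ℂ => eval (P + t • Pi.single i 1) f) (eval P (pderiv i f)) 0 := by
  induction f using MvPolynomial.induction_on with
  | C a => simpa using hasDerivAt_const (0:ℂ) a
  | add p q hp hq =>
    have e0 : (fun t : ℂ => eval (P + t • Pi.single i 1) (p + q)) =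
        ((fun t : ℂ => eval (P + t • Pi.single i 1) p) +
          fun t : ℂ => eval (P + t • Pi.single i 1) q) := by
      funext t
      simp
    rw [e0, map_add, map_add]
    exact hp.add hq
  | mul_X p l hp =>
    have h1 : HasDerivAt (fun t : ℂ => (P l + t * (Pi.single i (1:ℂ) : Fin d → ℂ) l))
        ((Pi.single i (1:ℂ) : Fin d → ℂ) l) 0 := by
      simpa using ((hasDerivAt_id (0:ℂ)).mul_const
        ((Pi.single i (1:ℂ) : Fin d → ℂ) l)).const_add (P l)
    have h2 := hp.mul h1
    simp only [zero_smul, add_zero, zero_mul] at h2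
    have e1 : (fun t : ℂ => eval (P + t • Pi.single i 1) (p * X l)) =
        ((fun t : ℂ => eval (P + t • Pi.single i 1) p) *
          fun t : ℂ => (P l + t * (Pi.single i (1:ℂ) : Fin d → ℂ) l)) := by
      funext t
      simp
    have e2 : eval P (pderiv i (p * X l)) =
        eval P (pderiv i p) * P l + eval P p * (Pi.single i (1:ℂ) : Fin d → ℂ) l := by
      rw [Derivation.leibniz, pderiv_X]
      simp only [smul_eq_mul, map_add, map_mul, eval_X]
      have : eval P ((Pi.single i 1 : Fin d → MvPolynomial (Fin d) ℂ) l) =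
          (Pi.single i (1:ℂ) : Fin d → ℂ) l := by
        by_cases hl : l = i
        · subst hl; simp
        · simp [Pi.single_eq_of_ne hl]
      rw [this]
      ring
    rw [e1, e2]
    exact h2

theorem zero_of_deriv_ki (f : ℂ → ℂ) (a : ℂ) (hf : ∀ t, f t = 0) (h : HasDerivAt f a 0) :
    a = 0 := by
  have : f = fun _ => 0 := funext hf
  rw [this] at h
  exact h.unique (hasDerivAt_const _ _)

/-- the key identity -/
theorem key_identity {d : ℕ} {K : Type} [Fintype K] (z : K → Fin d → ℂ) (n D : ℕ) (hn : 1 ≤ n)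
    (μ : K → MvPolynomial (Fin d) ℂ) (hμ : ∀ k, (μ k).IsHomogeneous D) (h : Rel z n μ)
    (hd : 2 ≤ d) (j : Fin d) :
    Rel z (n - 1) (fun k => X j * DD (z k) (μ k)
      - C (((D + n + d - 2 : ℕ) : ℂ) * z k j) * μ k) := by
  obtain ⟨m, rfl⟩ : ∃ m, n = m + 1 := ⟨n - 1, by omega⟩
  have hF : ∀ P η : Fin d → ℂ, ∑ k, eval P (μ k) *
      (P j * (z k ⬝ᵥ η) - z k j * (P ⬝ᵥ η)) ^ (m + 1) = 0 := by
    intro P η
    by_cases hP : P = 0
    · subst hP
      simp
    · have h1 := h P hP (P j • η - (P ⬝ᵥ η) • Pi.single j 1) (by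
        rw [dotProduct_sub, dotProduct_smul, dotProduct_smul]
        simp [mul_comm])
      rw [← h1]
      apply Finset.sum_congr rfl
      intro k _
      congr 2
      rw [dotProduct_sub, dotProduct_smul, dotProduct_smul]
      simp [mul_comm]
  have hF1 : ∀ (P η : Fin d → ℂ) (i : Fin d), ∑ k, eval P (μ k) *
      ((P j * (z k ⬝ᵥ η) - z k j * (P ⬝ᵥ η)) ^ m * (P j * z k i - z k j * P i)) = 0 := by
    intro P η i
    have hd1 : HasDerivAt (fun s : ℂ => ∑ k, eval P (μ k) *
        ((P j * (z k ⬝ᵥ η) - z k j * (P ⬝ᵥ η)) + s * (P j * z k i - z k j * P i)) ^ (m + 1))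
        (∑ k, eval P (μ k) * (((m + 1 : ℕ) : ℂ) *
          ((P j * (z k ⬝ᵥ η) - z k j * (P ⬝ᵥ η)) + 0 * (P j * z k i - z k j * P i)) ^ m *
          (P j * z k i - z k j * P i))) 0 := by
      apply HasDerivAt.fun_sum
      intro k _
      apply HasDerivAt.const_mul
      have h2 : HasDerivAt (fun s : ℂ => (P j * (z k ⬝ᵥ η) - z k j * (P ⬝ᵥ η)) +
          s * (P j * z k i - z k j * P i)) (P j * z k i - z k j * P i) 0 := by
        simpa using ((hasDerivAt_id (0:ℂ)).mul_const
          (P j * z k i - z k j * P i)).const_add (P j * (z k ⬝ᵥ η) - z k j * (P ⬝ᵥ η))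
      exact h2.pow (m + 1)
    have h3 := zero_of_deriv_ki _ _ (by
      intro s
      rw [← hF P (η + s • Pi.single i 1)]
      apply Finset.sum_congr rfl
      intro k _
      congr 2
      rw [dotProduct_add, dotProduct_smul, dotProduct_add, dotProduct_smul]
      simp
      ring) hd1
    have h4 : ((m + 1 : ℕ) : ℂ) * ∑ k, eval P (μ k) *
      ((P j * (z k ⬝ᵥ η) - z k j * (P ⬝ᵥ η)) ^ m * (P j * z k i - z k j * P i)) = 0 := by
      rw [← h3, Finset.mul_sum]
      apply Finset.sum_congr rfl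
      intro k _
      rw [zero_mul, add_zero]
      ring
    rcases mul_eq_zero.1 h4 with h5 | h5
    · exfalso
      exact Nat.cast_ne_zero.2 (Nat.succ_ne_zero m) h5
    · exact h5
  -- second derivative
  have hF2 : ∀ (P η : Fin d → ℂ) (i : Fin d), ∑ k, (eval P (pderiv i (μ k)) *
      ((P j * (z k ⬝ᵥ η) - z k j * (P ⬝ᵥ η)) ^ m * (P j * z k i - z k j * P i)) +
      eval P (μ k) * ((m : ℂ) * (P j * (z k ⬝ᵥ η) - z k j * (P ⬝ᵥ η)) ^ (m - 1) *
        ((Pi.single i (1:ℂ) : Fin d → ℂ) j * (z k ⬝ᵥ η) - z k j * η i) *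
        (P j * z k i - z k j * P i) +
        (P j * (z k ⬝ᵥ η) - z k j * (P ⬝ᵥ η)) ^ m *
          ((Pi.single i (1:ℂ) : Fin d → ℂ) j * z k i - z k j))) = 0 := by
    intro P η i
    have hd1 : HasDerivAt (fun s : ℂ => ∑ k, eval (P + s • Pi.single i 1) (μ k) *
        (((P j * (z k ⬝ᵥ η) - z k j * (P ⬝ᵥ η)) +
          s * ((Pi.single i (1:ℂ) : Fin d → ℂ) j * (z k ⬝ᵥ η) - z k j * η i)) ^ m *
        ((P j * z k i - z k j * P i) +
          s * ((Pi.single i (1:ℂ) : Fin d → ℂ) j * z k i - z k j))))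
        (∑ k, (eval P (pderiv i (μ k)) *
          (((P j * (z k ⬝ᵥ η) - z k j * (P ⬝ᵥ η)) +
          0 * ((Pi.single i (1:ℂ) : Fin d → ℂ) j * (z k ⬝ᵥ η) - z k j * η i)) ^ m *
        ((P j * z k i - z k j * P i) +
          0 * ((Pi.single i (1:ℂ) : Fin d → ℂ) j * z k i - z k j))) +
          eval (P + (0:ℂ) • Pi.single i 1) (μ k) *
          ((m : ℂ) * ((P j * (z k ⬝ᵥ η) - z k j * (P ⬝ᵥ η)) +
          0 * ((Pi.single i (1:ℂ) : Fin d → ℂ) j * (z k ⬝ᵥ η) - z k j * η i)) ^ (m - 1) *
        ((Pi.single i (1:ℂ) : Fin d → ℂ) j * (z k ⬝ᵥ η) - z k j * η i) *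
        ((P j * z k i - z k j * P i) +
          0 * ((Pi.single i (1:ℂ) : Fin d → ℂ) j * z k i - z k j)) +
          ((P j * (z k ⬝ᵥ η) - z k j * (P ⬝ᵥ η)) +
          0 * ((Pi.single i (1:ℂ) : Fin d → ℂ) j * (z k ⬝ᵥ η) - z k j * η i)) ^ m *
          ((Pi.single i (1:ℂ) : Fin d → ℂ) j * z k i - z k j)))) 0 := by
      apply HasDerivAt.fun_sum
      intro k _
      have a1 := hasDerivAt_eval_ki i P (μ k)
      have a2 : HasDerivAt (fun s : ℂ => (P j * (z k ⬝ᵥ η) - z k j * (P ⬝ᵥ η)) +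
          s * ((Pi.single i (1:ℂ) : Fin d → ℂ) j * (z k ⬝ᵥ η) - z k j * η i))
          ((Pi.single i (1:ℂ) : Fin d → ℂ) j * (z k ⬝ᵥ η) - z k j * η i) 0 := by
        simpa using ((hasDerivAt_id (0:ℂ)).mul_const
          ((Pi.single i (1:ℂ) : Fin d → ℂ) j * (z k ⬝ᵥ η) - z k j * η i)).const_add
          (P j * (z k ⬝ᵥ η) - z k j * (P ⬝ᵥ η))
      have a3 : HasDerivAt (fun s : ℂ => (P j * z k i - z k j * P i) +
          s * ((Pi.single i (1:ℂ) : Fin d → ℂ) j * z k i - z k j))
          ((Pi.single i (1:ℂ) : Fin d → ℂ) j * z k i - z k j) 0 := by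
        simpa using ((hasDerivAt_id (0:ℂ)).mul_const
          ((Pi.single i (1:ℂ) : Fin d → ℂ) j * z k i - z k j)).const_add
          (P j * z k i - z k j * P i)
      exact a1.mul ((a2.pow m).mul a3)
    have h3 := zero_of_deriv_ki _ _ (by
      intro s
      rw [← hF1 (P + s • Pi.single i 1) η i]
      apply Finset.sum_congr rfl
      intro k _
      rw [add_dotProduct, smul_dotProduct]
      simp only [Pi.add_apply, Pi.smul_apply, smul_eq_mul, single_dotProduct, one_mul,
        Pi.single_eq_same, mul_one]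
      congr 2
      · congr 1
        ring
      · ring) hd1
    rw [← h3]
    apply Finset.sum_congr rfl
    intro k _
    simp only [zero_mul, add_zero, zero_smul]
  have hF3 : ∀ (P η : Fin d → ℂ), ∑ k, (P j * (z k ⬝ᵥ η) - z k j * (P ⬝ᵥ η)) ^ m *
      (P j * eval P (DD (z k) (μ k)) - ((D + (m + 1) + d - 2 : ℕ) : ℂ) * z k j *
        eval P (μ k)) = 0 := by
    intro P η
    have h1 : ∑ i, ∑ k, (eval P (pderiv i (μ k)) *
      ((P j * (z k ⬝ᵥ η) - z k j * (P ⬝ᵥ η)) ^ m * (P j * z k i - z k j * P i)) +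
      eval P (μ k) * ((m : ℂ) * (P j * (z k ⬝ᵥ η) - z k j * (P ⬝ᵥ η)) ^ (m - 1) *
        ((Pi.single i (1:ℂ) : Fin d → ℂ) j * (z k ⬝ᵥ η) - z k j * η i) *
        (P j * z k i - z k j * P i) +
        (P j * (z k ⬝ᵥ η) - z k j * (P ⬝ᵥ η)) ^ m *
          ((Pi.single i (1:ℂ) : Fin d → ℂ) j * z k i - z k j))) = 0 :=
      Finset.sum_eq_zero (fun i _ => hF2 P η i)
    rw [Finset.sum_comm] at h1
    rw [← h1]
    apply Finset.sum_congr rfl
    intro k _
    set G : ℂ := P j * (z k ⬝ᵥ η) - z k j * (P ⬝ᵥ η) with hG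
    -- Euler
    have hE : ∑ i, P i * eval P (pderiv i (μ k)) = (D : ℂ) * eval P (μ k) := by
      have := (hμ k).sum_X_mul_pderiv
      have h2 := congrArg (eval P) this
      simpa using h2
    have hDD : eval P (DD (z k) (μ k)) = ∑ i, z k i * eval P (pderiv i (μ k)) := by
      unfold DD
      simp
    have s1 : ∑ i, eval P (pderiv i (μ k)) * (G ^ m * (P j * z k i - z k j * P i)) =
        G ^ m * (P j * eval P (DD (z k) (μ k)) - z k j * ((D : ℂ) * eval P (μ k))) := by
      rw [hDD, ← hE, Finset.mul_sum, Finset.mul_sum, ← Finset.sum_sub_distrib, Finset.mul_sum]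
      apply Finset.sum_congr rfl
      intro i _
      ring
    have s2 : ∑ i, ((Pi.single i (1:ℂ) : Fin d → ℂ) j * (z k ⬝ᵥ η) - z k j * η i) *
        (P j * z k i - z k j * P i) = - (z k j * G) := by
      have b1 : ∑ i, (Pi.single i (1:ℂ) : Fin d → ℂ) j * ((z k ⬝ᵥ η) *
          (P j * z k i - z k j * P i)) = 0 := by
        rw [Finset.sum_eq_single j]
        · simp; right; ring
        · intro i _ hi
          rw [Pi.single_eq_of_ne (Ne.symm hi)]
          simp
        · simp
      have b2 : ∑ i, η i * (P j * z k i - z k j * P i) = G := by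
        rw [hG, dotProduct, dotProduct, Finset.mul_sum, Finset.mul_sum,
          ← Finset.sum_sub_distrib]
        apply Finset.sum_congr rfl
        intro i _
        ring
      calc _ = (∑ i, (Pi.single i (1:ℂ) : Fin d → ℂ) j * ((z k ⬝ᵥ η) *
          (P j * z k i - z k j * P i))) - z k j * ∑ i, η i * (P j * z k i - z k j * P i) := by
            rw [Finset.mul_sum, ← Finset.sum_sub_distrib]
            apply Finset.sum_congr rfl
            intro i _
            ring
        _ = _ := by rw [b1, b2]; ring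
    have s3 : ∑ i, ((Pi.single i (1:ℂ) : Fin d → ℂ) j * z k i - z k j) =
        - (((d : ℂ) - 1) * z k j) := by
      rw [Finset.sum_sub_distrib]
      have b1 : ∑ i, (Pi.single i (1:ℂ) : Fin d → ℂ) j * z k i = z k j := by
        rw [Finset.sum_eq_single j]
        · simp
        · intro i _ hi
          rw [Pi.single_eq_of_ne (Ne.symm hi)]
          simp
        · simp
      rw [b1]
      simp
      ring
    have s4 : (m : ℂ) * G ^ (m - 1) * G = (m : ℂ) * G ^ m := by
      rcases Nat.eq_zero_or_pos m with h0 | h0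
      · subst h0; simp
      · obtain ⟨r, rfl⟩ : ∃ r, m = r + 1 := ⟨m - 1, by omega⟩
        simp only [Nat.add_sub_cancel]
        ring
    have e1 : ((D + (m + 1) + d - 2 : ℕ) : ℂ) = (D : ℂ) + m + (d - 1) := by
      have : D + (m + 1) + d - 2 = D + m + (d - 1) := by omega
      rw [this]
      push_cast [Nat.cast_sub (by omega : 1 ≤ d)]
      ring
    rw [Finset.sum_add_distrib, s1]
    have s5 : ∑ i, eval P (μ k) * ((m : ℂ) * G ^ (m - 1) *
        ((Pi.single i (1:ℂ) : Fin d → ℂ) j * (z k ⬝ᵥ η) - z k j * η i) *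
        (P j * z k i - z k j * P i) +
        G ^ m * ((Pi.single i (1:ℂ) : Fin d → ℂ) j * z k i - z k j)) =
        eval P (μ k) * ((m : ℂ) * G ^ (m - 1) * (∑ i,
        ((Pi.single i (1:ℂ) : Fin d → ℂ) j * (z k ⬝ᵥ η) - z k j * η i) *
        (P j * z k i - z k j * P i)) +
        G ^ m * ∑ i, ((Pi.single i (1:ℂ) : Fin d → ℂ) j * z k i - z k j)) := by
      rw [← Finset.mul_sum, Finset.sum_add_distrib, ← Finset.mul_sum]
      congr 2
      rw [Finset.mul_sum]
      apply Finset.sum_congr rfl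
      intro i _
      ring
    rw [s5, s2, s3, e1]
    linear_combination (eval P (μ k)) * z k j * s4
  apply rel_of_generic z (m + 1 - 1) _ (X j) (X_ne_zero j)
  intro P hP η hη
  rw [eval_X] at hP
  have h1 := hF3 P η
  rw [hη] at h1
  have h2 : P j ^ m * ∑ k, (eval P (X j * DD (z k) (μ k)
      - C (((D + (m + 1) + d - 2 : ℕ) : ℂ) * z k j) * μ k)) * (z k ⬝ᵥ η) ^ (m + 1 - 1) = 0 := by
    rw [← h1, Finset.mul_sum]
    apply Finset.sum_congr rfl
    intro k _
    simp only [map_sub, map_mul, eval_X, eval_C, Nat.add_sub_cancel, mul_zero, sub_zero]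
    rw [mul_pow]
    ring
  rcases mul_eq_zero.1 h2 with h3 | h3
  · exact absurd h3 (pow_ne_zero m hP)
  · exact h3

/-- two polynomials which agree at all points where a nonzero polynomial does not vanish are equal -/
theorem rp22342_ext {d : ℕ} (F ψ : MvPolynomial (Fin d) ℂ) (hψ : ψ ≠ 0)
    (h : ∀ P : Fin d → ℂ, eval P ψ ≠ 0 → eval P F = 0) : F = 0 := by
  have h1 : F * ψ = 0 := by
    apply MvPolynomial.funext
    intro P
    rw [map_mul, map_zero]
    by_cases hP : eval P ψ = 0
    · rw [hP, mul_zero]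
    · rw [h P hP, zero_mul]
  exact (mul_eq_zero.mp h1).resolve_right hψ

/-- differentiating a relation of degree `n` -/
theorem rp22342_diff {d : ℕ} {K : Type} [Fintype K] (z : K → Fin d → ℂ) (n : ℕ) (hn : 1 ≤ n)
    (P : Fin d → ℂ) (c : K → ℂ) (hc : c ∈ relSpace z n P) (η : Fin d → ℂ) (hη : P ⬝ᵥ η = 0) :
    (fun k => (z k ⬝ᵥ η) * c k) ∈ relSpace z (n - 1) P := by
  intro θ hθ
  obtain ⟨m, rfl⟩ : ∃ m, n = m + 1 := ⟨n - 1, by omega⟩
  -- the polynomial in `t`
  let p : Polynomial ℂ := ∑ k, Polynomial.C (c k) *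
    (Polynomial.C (z k ⬝ᵥ θ) + Polynomial.C (z k ⬝ᵥ η) * Polynomial.X) ^ (m + 1)
  have hp : p = 0 := by
    apply Polynomial.funext
    intro t
    have h1 := hc (θ + t • η) (by rw [dotProduct_add, dotProduct_smul, hη, hθ, smul_zero, add_zero])
    rw [Polynomial.eval_zero, ← h1]
    simp only [p, Polynomial.eval_finset_sum, Polynomial.eval_mul, Polynomial.eval_C,
      Polynomial.eval_pow, Polynomial.eval_add, Polynomial.eval_X, dotProduct_add, dotProduct_smul,
      smul_eq_mul]
    apply Finset.sum_congr rfl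
    intro k _
    rw [mul_comm t]
  have hd : Polynomial.eval 0 (Polynomial.derivative p) = 0 := by
    rw [hp]
    simp
  have hd2 : Polynomial.eval 0 (Polynomial.derivative p) =
      ((m : ℂ) + 1) * ∑ k, (z k ⬝ᵥ η) * c k * (z k ⬝ᵥ θ) ^ m := by
    simp only [p, Polynomial.derivative_sum, Polynomial.eval_finset_sum, Finset.mul_sum]
    apply Finset.sum_congr rfl
    intro k _
    simp only [Polynomial.derivative_mul, Polynomial.derivative_C, zero_mul, zero_add,
      Polynomial.derivative_pow, Polynomial.derivative_add, Polynomial.derivative_X, mul_one,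
      Polynomial.eval_mul, Polynomial.eval_C, Polynomial.eval_pow, Polynomial.eval_add,
      Polynomial.eval_X, mul_zero, add_zero, Nat.add_sub_cancel]
    simp
    ring
  rw [hd2] at hd
  have h3 : ((m : ℂ) + 1) ≠ 0 := by exact_mod_cast Nat.succ_ne_zero m
  have h4 := (mul_eq_zero.mp hd).resolve_left h3
  simpa using h4

/-- all relations of degree `n - 1` are multiples of the given relation of degree `n` -/
theorem rel_pred {d : ℕ} {K : Type} [Fintype K] (z : K → Fin d → ℂ) (n : ℕ) (hn : 1 ≤ n) (hd : 0 < d)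
    (l : K → MvPolynomial (Fin d) ℂ) (hl : Rel z n l)
    (b : Fin d → K) (hb : LinearIndependent ℂ (fun i => z (b i))) (hb' : ∀ i, l (b i) ≠ 0)
    (φ : MvPolynomial (Fin d) ℂ) (hφ : φ ≠ 0)
    (h : ∀ P : Fin d → ℂ, eval P φ ≠ 0 →
      Module.finrank ℂ (relSpace z (n - 1) P) ≤ d - 1)
    (μ : K → MvPolynomial (Fin d) ℂ) (hμ : Rel z (n - 1) μ) :
    ∃ (Q : MvPolynomial (Fin d) ℂ) (g : Fin d → MvPolynomial (Fin d) ℂ), Q ≠ 0 ∧
      ∑ j, g j * X j = 0 ∧ ∀ k, Q * μ k = lin g (z k) * l k := by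
  classical
  let Q : MvPolynomial (Fin d) ℂ := ∏ i, l (b i)
  have hQ : Q ≠ 0 := Finset.prod_ne_zero_iff.mpr fun i _ => hb' i
  -- the matrix and its inverse
  let B : Matrix (Fin d) (Fin d) ℂ := Matrix.of fun i => z (b i)
  have hBu : IsUnit B := Matrix.linearIndependent_rows_iff_isUnit.mp hb
  have hBB : B * B⁻¹ = 1 := Matrix.mul_nonsing_inv B ((Matrix.isUnit_iff_isUnit_det B).mp hBu)
  have hBB' : B⁻¹ * B = 1 := Matrix.nonsing_inv_mul B ((Matrix.isUnit_iff_isUnit_det B).mp hBu)
  let w : Fin d → MvPolynomial (Fin d) ℂ := fun i => μ (b i) * ∏ i' ∈ Finset.univ.erase i, l (b i')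
  have hw : ∀ i, w i * l (b i) = Q * μ (b i) := by
    intro i
    have h1 : l (b i) * ∏ i' ∈ Finset.univ.erase i, l (b i') = Q :=
      Finset.mul_prod_erase _ _ (Finset.mem_univ i)
    rw [← h1]
    simp only [w]
    ring
  let g : Fin d → MvPolynomial (Fin d) ℂ := fun j => ∑ i, C (B⁻¹ j i) * w i
  have hgz : ∀ (P : Fin d → ℂ) (x : Fin d → ℂ), eval P (lin g x) = (fun j => eval P (g j)) ⬝ᵥ x := by
    intro P x
    simp only [lin, map_sum, map_mul, eval_C, dotProduct]
  have hBg : ∀ P : Fin d → ℂ, B.mulVec (fun j => eval P (g j)) = fun i => eval P (w i) := by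
    intro P
    have h1 : (fun j => eval P (g j)) = (B⁻¹).mulVec (fun i => eval P (w i)) := by
      funext j
      simp only [g, map_sum, map_mul, eval_C, Matrix.mulVec, dotProduct]
    rw [h1, Matrix.mulVec_mulVec, hBB, Matrix.one_mulVec]
  have hinj : ∀ u : Fin d → ℂ, B.mulVec u = 0 → u = 0 := by
    intro u hu
    have h1 : (B⁻¹).mulVec (B.mulVec u) = u := by
      rw [Matrix.mulVec_mulVec, hBB', Matrix.one_mulVec]
    rw [← h1, hu, Matrix.mulVec_zero]
  -- the key claim at good points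
  have key : ∀ P : Fin d → ℂ, eval P (φ * Q * X ⟨0, hd⟩) ≠ 0 → ∃ η : Fin d → ℂ, P ⬝ᵥ η = 0 ∧
      (∀ k, eval P (μ k) = (z k ⬝ᵥ η) * eval P (l k)) ∧ (fun j => eval P (g j)) = (eval P Q) • η := by
    intro P hP
    rw [map_mul, map_mul, eval_X] at hP
    have hP1 : eval P φ ≠ 0 := fun h0 => hP (by rw [h0, zero_mul, zero_mul])
    have hP2 : eval P Q ≠ 0 := fun h0 => hP (by rw [h0, mul_zero, zero_mul])
    have hP3 : P ≠ 0 := fun h0 => hP (by rw [h0, Pi.zero_apply, mul_zero])
    have hlb : ∀ i, eval P (l (b i)) ≠ 0 := by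
      intro i h0
      apply hP2
      rw [map_prod]
      exact Finset.prod_eq_zero (Finset.mem_univ i) h0
    -- the hyperplane
    let ℓ : (Fin d → ℂ) →ₗ[ℂ] ℂ := dotProductBilin ℂ ℂ P
    have hℓ : ∀ η, ℓ η = P ⬝ᵥ η := fun η => rfl
    let T : LinearMap.ker ℓ →ₗ[ℂ] relSpace z (n - 1) P :=
      { toFun := fun η => ⟨fun k => (z k ⬝ᵥ η.1) * eval P (l k),
          rp22342_diff z n hn P (fun k => eval P (l k)) (hl P hP3) η.1 η.2⟩
        map_add' := by
          intro a a'
          apply Subtype.ext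
          funext k
          change (z k ⬝ᵥ (a.1 + a'.1)) * eval P (l k) =
            (z k ⬝ᵥ a.1) * eval P (l k) + (z k ⬝ᵥ a'.1) * eval P (l k)
          rw [dotProduct_add, add_mul]
        map_smul' := by
          intro c a
          apply Subtype.ext
          funext k
          change (z k ⬝ᵥ (c • a.1)) * eval P (l k) = c * ((z k ⬝ᵥ a.1) * eval P (l k))
          rw [dotProduct_smul, smul_eq_mul, mul_assoc] }
    have hTinj : Function.Injective T := by
      rw [← LinearMap.ker_eq_bot, LinearMap.ker_eq_bot']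
      intro η hη
      apply Subtype.ext
      apply hinj
      funext i
      have h1 := congrFun (congrArg Subtype.val hη) (b i)
      change (z (b i) ⬝ᵥ η.1) * eval P (l (b i)) = 0 at h1
      exact (mul_eq_zero.mp h1).resolve_right (hlb i)
    have hker : d - 1 ≤ Module.finrank ℂ (LinearMap.ker ℓ) := by
      have h1 := LinearMap.finrank_range_add_finrank_ker ℓ
      have h2 : Module.finrank ℂ (LinearMap.range ℓ) ≤ 1 := by
        have := Submodule.finrank_le (LinearMap.range ℓ)
        rwa [Module.finrank_self] at this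
      rw [Module.finrank_fin_fun] at h1
      omega
    have hTsurj : Function.Surjective T := by
      have h1 := h P hP1
      have h2 : Module.finrank ℂ (LinearMap.range T) = Module.finrank ℂ (LinearMap.ker ℓ) :=
        LinearMap.finrank_range_of_inj hTinj
      have h3 : Module.finrank ℂ (LinearMap.range T) ≤ Module.finrank ℂ (relSpace z (n - 1) P) :=
        Submodule.finrank_le _
      rw [← LinearMap.range_eq_top]
      apply Submodule.eq_top_of_finrank_eq
      omega
    obtain ⟨η, hη⟩ := hTsurj ⟨fun k => eval P (μ k), hμ P hP3⟩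
    have hη' : ∀ k, eval P (μ k) = (z k ⬝ᵥ η.1) * eval P (l k) := by
      intro k
      have h1 := congrFun (congrArg Subtype.val hη) k
      exact h1.symm
    refine ⟨η.1, η.2, hη', ?_⟩
    have h1 : B.mulVec ((fun j => eval P (g j)) - (eval P Q) • η.1) = 0 := by
      rw [Matrix.mulVec_sub, hBg, Matrix.mulVec_smul]
      funext i
      change eval P (w i) - eval P Q * (z (b i) ⬝ᵥ η.1) = 0
      have h2 : eval P (w i) * eval P (l (b i)) = eval P Q * eval P (μ (b i)) := by
        rw [← map_mul, ← map_mul, hw]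
      rw [hη' (b i)] at h2
      have h3 : (eval P (w i) - eval P Q * (z (b i) ⬝ᵥ η.1)) * eval P (l (b i)) = 0 := by
        rw [sub_mul, h2]
        ring
      exact (mul_eq_zero.mp h3).resolve_right (hlb i)
    have h4 := hinj _ h1
    exact sub_eq_zero.mp h4
  have hψ : φ * Q * X ⟨0, hd⟩ ≠ (0 : MvPolynomial (Fin d) ℂ) :=
    mul_ne_zero (mul_ne_zero hφ hQ) (X_ne_zero _)
  refine ⟨Q, g, hQ, ?_, ?_⟩
  · apply rp22342_ext _ _ hψ
    intro P hP
    obtain ⟨η, h1, -, h3⟩ := key P hP
    have h4 : eval P (∑ j, g j * X j) = (fun j => eval P (g j)) ⬝ᵥ P := by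
      simp only [map_sum, map_mul, eval_X, dotProduct]
    rw [h4, h3, smul_dotProduct, dotProduct_comm, h1, smul_zero]
  · intro k
    rw [← sub_eq_zero]
    apply rp22342_ext _ _ hψ
    intro P hP
    obtain ⟨η, h1, h2, h3⟩ := key P hP
    rw [map_sub, map_mul, map_mul, hgz, h3, h2 k, smul_dotProduct, dotProduct_comm η, smul_eq_mul]
    ring

end Pool.Agent.Helper947.Geo
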