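import Pool.Agent.Helper947.Geo.G2

set_option autoImplicit false
open MvPolynomial

namespace Pool.Agent.Helper947.Geo

theorem aux_irr_deg {d : ℕ} (δ : MvPolynomial (Fin d) ℂ) (h : Irreducible δ) :
    1 ≤ δ.totalDegree := by
  by_contra hcon
  have h0 : δ.totalDegree = 0 := by omega
  rw [totalDegree_eq_zero_iff_eq_C] at h0
  apply h.not_isUnit
  rw [h0]
  have hne : coeff 0 δ ≠ 0 := by
    intro h1
    rw [h1, map_zero] at h0
    exact h.ne_zero h0
  exact (isUnit_iff_ne_zero.2 hne).map C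

theorem aux_min {d : ℕ} {K : Type} (z : K → Fin d → ℂ) (c : ℂ)
    (l : K → MvPolynomial (Fin d) ℂ) : ∀ (N : ℕ) (Q : MvPolynomial (Fin d) ℂ)
    (g : Fin d → MvPolynomial (Fin d) ℂ), Q.totalDegree ≤ N → Q ≠ 0 →
      ∑ j, g j * X j = C c * Q → (∀ k, Q * DD (z k) (l k) = lin g (z k) * l k) →
    ∃ (Q : MvPolynomial (Fin d) ℂ) (g : Fin d → MvPolynomial (Fin d) ℂ), Q ≠ 0 ∧
      ∑ j, g j * X j = C c * Q ∧
      (∀ k, Q * DD (z k) (l k) = lin g (z k) * l k) ∧
      ∀ δ : MvPolynomial (Fin d) ℂ, Irreducible δ → δ ∣ Q → ∃ j, ¬ δ ∣ g j := by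
  intro N
  induction N with
  | zero =>
    intro Q g hN hQ h1 h2
    refine ⟨Q, g, hQ, h1, h2, ?_⟩
    intro δ hδ hdvd
    exfalso
    obtain ⟨Q', rfl⟩ := hdvd
    have hδ0 : δ ≠ 0 := hδ.ne_zero
    have hQ' : Q' ≠ 0 := right_ne_zero_of_mul hQ
    rw [totalDegree_mul_of_isDomain hδ0 hQ'] at hN
    have := aux_irr_deg δ hδ
    omega
  | succ N ih =>
    intro Q g hN hQ h1 h2
    by_cases hall : ∀ δ : MvPolynomial (Fin d) ℂ, Irreducible δ → δ ∣ Q → ∃ j, ¬ δ ∣ g j
    · exact ⟨Q, g, hQ, h1, h2, hall⟩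
    · push Not at hall
      obtain ⟨δ, hδ, ⟨Q', rfl⟩, hg⟩ := hall
      choose g' hg' using hg
      have hδ0 : δ ≠ 0 := hδ.ne_zero
      have hQ' : Q' ≠ 0 := right_ne_zero_of_mul hQ
      rw [totalDegree_mul_of_isDomain hδ0 hQ'] at hN
      have hd1 := aux_irr_deg δ hδ
      refine ih Q' g' (by omega) hQ' ?_ ?_
      · apply mul_left_cancel₀ hδ0
        rw [Finset.mul_sum]
        calc ∑ j, δ * (g' j * X j) = ∑ j, g j * X j := by
              refine Finset.sum_congr rfl fun j _ => ?_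
              rw [hg' j]; ring
          _ = δ * (C c * Q') := by rw [h1]; ring
      · intro k
        apply mul_left_cancel₀ hδ0
        have h3 := h2 k
        have h4 : lin g (z k) = δ * lin g' (z k) := by
          unfold lin
          rw [Finset.mul_sum]
          refine Finset.sum_congr rfl fun j _ => ?_
          rw [hg' j]; ring
        rw [h4] at h3
        calc δ * (Q' * DD (z k) (l k)) = δ * Q' * DD (z k) (l k) := by ring
          _ = δ * lin g' (z k) * l k := h3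
          _ = _ := by ring

/-- the polynomial equation satisfied by the relation -/
theorem star {d : ℕ} (hd : 2 ≤ d) {K : Type} [Fintype K] (z : K → Fin d → ℂ) (n D : ℕ) (hn : 1 ≤ n)
    (l : K → MvPolynomial (Fin d) ℂ) (hl : Rel z n l) (hD : ∀ k, (l k).IsHomogeneous D)
    (b : Fin d → K) (hb : LinearIndependent ℂ (fun i => z (b i))) (hb' : ∀ i, l (b i) ≠ 0)
    (φ : MvPolynomial (Fin d) ℂ) (hφ : φ ≠ 0)
    (h : ∀ P : Fin d → ℂ, eval P φ ≠ 0 →
      Module.finrank ℂ (relSpace z (n - 1) P) ≤ d - 1) :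
    ∃ (Q : MvPolynomial (Fin d) ℂ) (g : Fin d → MvPolynomial (Fin d) ℂ), Q ≠ 0 ∧
      ∑ j, g j * X j = C ((D + n + d - 2 : ℕ) : ℂ) * Q ∧
      (∀ k, Q * DD (z k) (l k) = lin g (z k) * l k) ∧
      ∀ δ : MvPolynomial (Fin d) ℂ, Irreducible δ → δ ∣ Q → ∃ j, ¬ δ ∣ g j := by
  classical
  let j0 : Fin d := ⟨0, by omega⟩
  have hkey := key_identity z n D hn l hD hl hd j0
  obtain ⟨Q0, g0, hQ0, hs0, hm0⟩ := rel_pred z n hn (by omega) l hl b hb hb' φ hφ h _ hkey
  refine aux_min z _ l (Q0 * X j0).totalDegree (Q0 * X j0)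
    (fun j => g0 j + if j = j0 then C ((D + n + d - 2 : ℕ) : ℂ) * Q0 else 0) le_rfl
    (mul_ne_zero hQ0 (X_ne_zero j0)) ?_ ?_
  · have e : ∀ j, (g0 j + if j = j0 then C ((D + n + d - 2 : ℕ) : ℂ) * Q0 else 0) * X j
        = g0 j * X j + if j = j0 then C ((D + n + d - 2 : ℕ) : ℂ) * Q0 * X j0 else 0 := by
      intro j
      by_cases hj : j = j0
      · subst hj; simp only [if_true]; ring
      · simp only [if_neg hj]; ring
    rw [Finset.sum_congr rfl fun j _ => e j, Finset.sum_add_distrib, hs0, zero_add,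
      Finset.sum_ite_eq' Finset.univ j0, if_pos (Finset.mem_univ _)]
    ring
  · intro k
    have h1 := hm0 k
    have h2 : lin (fun j => g0 j + if j = j0 then C ((D + n + d - 2 : ℕ) : ℂ) * Q0 else 0) (z k)
        = lin g0 (z k) + C ((D + n + d - 2 : ℕ) : ℂ) * Q0 * C (z k j0) := by
      unfold lin
      have e : ∀ j, (g0 j + if j = j0 then C ((D + n + d - 2 : ℕ) : ℂ) * Q0 else 0) * C (z k j)
          = g0 j * C (z k j)
            + if j = j0 then C ((D + n + d - 2 : ℕ) : ℂ) * Q0 * C (z k j0) else 0 := by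
        intro j
        by_cases hj : j = j0
        · subst hj; simp only [if_true]; ring
        · simp only [if_neg hj]; ring
      rw [Finset.sum_congr rfl fun j _ => e j, Finset.sum_add_distrib,
        Finset.sum_ite_eq' Finset.univ j0, if_pos (Finset.mem_univ _)]
    rw [h2, add_mul, ← h1, C_mul]
    ring

end Pool.Agent.Helper947.Geo
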