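import Pool.Agent.Helper947.Geo.Core2

set_option autoImplicit false
open MvPolynomial

namespace Pool.Agent.Helper947.Geo

section part_succ_aux

attribute [local instance] MvPolynomial.gradedAlgebra

/-- the ideal of the first `i` forms -/
noncomputable abbrev part_succ_J {N m : ℕ} (F : Fin m → MvPolynomial (Fin N) ℂ) (i : ℕ) :
    Ideal (MvPolynomial (Fin N) ℂ) := Ideal.span (F '' {l | l.1 < i})

theorem part_succ_hom {N m : ℕ} (F : Fin m → MvPolynomial (Fin N) ℂ) (a : Fin m → ℕ)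
    (ha : ∀ i, (F i).IsHomogeneous (a i)) (i : ℕ) :
    (part_succ_J F i).IsHomogeneous (homogeneousSubmodule (Fin N) ℂ) := by
  apply Ideal.homogeneous_span
  rintro x ⟨l, -, rfl⟩
  exact ⟨a l, ha l⟩

theorem part_succ_sup {N m : ℕ} (F : Fin m → MvPolynomial (Fin N) ℂ) (i : ℕ) (hi : i < m) :
    part_succ_J F (i + 1) = part_succ_J F i ⊔ Ideal.span {F ⟨i, hi⟩} := by
  unfold part_succ_J
  rw [← Ideal.span_union]
  congr 1
  ext x
  constructor
  · rintro ⟨l, hl, rfl⟩
    rcases Nat.lt_succ_iff_lt_or_eq.1 hl with h | h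
    · exact Or.inl ⟨l, h, rfl⟩
    · right
      have : l = ⟨i, hi⟩ := Fin.ext h
      rw [this]
      rfl
  · rintro (⟨l, hl, rfl⟩ | hx)
    · exact ⟨l, Nat.lt_succ_of_lt hl, rfl⟩
    · rw [Set.mem_singleton_iff] at hx
      exact ⟨⟨i, hi⟩, Nat.lt_succ_self i, hx.symm⟩

theorem part_succ_mem {N m : ℕ} (F : Fin m → MvPolynomial (Fin N) ℂ) (i j : ℕ)
    (f : MvPolynomial (Fin N) ℂ) :
    f ∈ part F i j ↔ f ∈ homogeneousSubmodule (Fin N) ℂ j ∧ f ∈ part_succ_J F i := Iff.rfl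

theorem part_succ_decomp {N m : ℕ} (F : Fin m → MvPolynomial (Fin N) ℂ) (a : Fin m → ℕ)
    (ha : ∀ i, (F i).IsHomogeneous (a i)) (i : ℕ) (hi : i < m)
    (j : ℕ) (f : MvPolynomial (Fin N) ℂ) (hf : f ∈ part F (i + 1) j) :
    ∃ u ∈ part F i j, ∃ g : MvPolynomial (Fin N) ℂ,
      f = u + (DirectSum.decompose (homogeneousSubmodule (Fin N) ℂ) (F ⟨i, hi⟩ * g) j :
        MvPolynomial (Fin N) ℂ) := by
  rw [part_succ_mem, part_succ_sup F i hi] at hf
  obtain ⟨hf1, hf2⟩ := hf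
  obtain ⟨u, hu, v, hv, huv⟩ := Submodule.mem_sup.1 hf2
  obtain ⟨g, hg⟩ := Ideal.mem_span_singleton.1 hv
  refine ⟨(DirectSum.decompose (homogeneousSubmodule (Fin N) ℂ) u j : MvPolynomial (Fin N) ℂ),
    ?_, g, ?_⟩
  · rw [part_succ_mem]
    exact ⟨SetLike.coe_mem _, part_succ_hom F a ha i j hu⟩
  · rw [← hg]
    have h1 := DirectSum.decompose_of_mem_same (homogeneousSubmodule (Fin N) ℂ) hf1
    rw [← huv, DirectSum.decompose_add, DirectSum.add_apply, Submodule.coe_add] at h1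
    rw [h1, huv]

theorem part_succ_le {N m : ℕ} (F : Fin m → MvPolynomial (Fin N) ℂ) (i j : ℕ) :
    part F i j ≤ part F (i + 1) j := by
  intro f hf
  rw [part_succ_mem] at hf ⊢
  refine ⟨hf.1, ?_⟩
  refine Ideal.span_mono ?_ hf.2
  rintro x ⟨l, hl, rfl⟩
  exact ⟨l, Nat.lt_succ_of_lt hl, rfl⟩

theorem part_succ_fin (N j : ℕ) : Module.Finite ℂ (homogeneousSubmodule (Fin N) ℂ j) :=
  Module.Finite.iff_fg.2 (homogeneousSubmodule_fg (σ := Fin N) (R := ℂ) j)

theorem part_succ_fin2 {N m : ℕ} (F : Fin m → MvPolynomial (Fin N) ℂ) (i j : ℕ) :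
    Module.Finite ℂ (part F i j) := by
  haveI := part_succ_fin N j
  exact Submodule.finiteDimensional_of_le (inf_le_left : part F i j ≤ _)

/-- recursion for the Hilbert function of a regular sequence -/
theorem part_succ_aux {N m : ℕ} (F : Fin m → MvPolynomial (Fin N) ℂ) (a : Fin m → ℕ)
    (ha : ∀ i, (F i).IsHomogeneous (a i)) (hne : ∀ i, F i ≠ 0) (hF : IsReg F) (i : ℕ) (hi : i < m)
    (j : ℕ) :
    Module.finrank ℂ (part F (i + 1) j) +
        (if a ⟨i, hi⟩ ≤ j then Module.finrank ℂ (part F i (j - a ⟨i, hi⟩)) else 0) =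
      Module.finrank ℂ (part F i j) +
        (if a ⟨i, hi⟩ ≤ j then
          Module.finrank ℂ (homogeneousSubmodule (Fin N) ℂ (j - a ⟨i, hi⟩)) else 0) := by
  by_cases haj : a ⟨i, hi⟩ ≤ j
  · rw [if_pos haj, if_pos haj]
    set L : MvPolynomial (Fin N) ℂ →ₗ[ℂ] MvPolynomial (Fin N) ℂ :=
      LinearMap.mulLeft ℂ (F ⟨i, hi⟩) with hL
    have hLinj : Function.Injective L := by
      intro x y hxy
      simp only [hL, LinearMap.mulLeft_apply] at hxy
      exact mul_left_cancel₀ (hne ⟨i, hi⟩) hxy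
    set t := (homogeneousSubmodule (Fin N) ℂ (j - a ⟨i, hi⟩)).map L with ht
    have hmulmem : ∀ g ∈ homogeneousSubmodule (Fin N) ℂ (j - a ⟨i, hi⟩),
        F ⟨i, hi⟩ * g ∈ homogeneousSubmodule (Fin N) ℂ j := by
      intro g hg
      have h1 : (F ⟨i, hi⟩ * g).IsHomogeneous (a ⟨i, hi⟩ + (j - a ⟨i, hi⟩)) :=
        (ha ⟨i, hi⟩).mul hg
      rw [Nat.add_sub_cancel' haj] at h1
      exact h1
    have hsup : part F i j ⊔ t = part F (i + 1) j := by
      apply le_antisymm
      · refine sup_le (part_succ_le F i j) ?_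
        rintro x ⟨g, hg, rfl⟩
        rw [part_succ_mem, part_succ_sup F i hi]
        refine ⟨hmulmem g hg, ?_⟩
        exact Ideal.mem_sup_right (Ideal.mem_span_singleton.2 ⟨g, rfl⟩)
      · intro f hf
        obtain ⟨u, hu, g, rfl⟩ := part_succ_decomp F a ha i hi j f hf
        rw [DirectSum.coe_decompose_mul_of_left_mem_of_le
          (homogeneousSubmodule (Fin N) ℂ) (ha ⟨i, hi⟩) haj]
        exact Submodule.add_mem_sup hu ⟨_, SetLike.coe_mem _, rfl⟩
    have hinf : part F i j ⊓ t = (part F i (j - a ⟨i, hi⟩)).map L := by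
      ext x
      constructor
      · rintro ⟨hx1, ⟨g, hg, rfl⟩⟩
        refine ⟨g, ?_, rfl⟩
        have h2 : F ⟨i, hi⟩ * g ∈ part_succ_J F i := ((part_succ_mem F i j _).1 hx1).2
        exact (part_succ_mem F i _ _).2 ⟨hg, hF ⟨i, hi⟩ g h2⟩
      · rintro ⟨g, hg, rfl⟩
        have hg' := (part_succ_mem F i _ _).1 hg
        refine ⟨(part_succ_mem F i j _).2 ⟨hmulmem g hg'.1, ?_⟩, ⟨g, hg'.1, rfl⟩⟩
        exact Ideal.mul_mem_left _ _ hg'.2
    haveI := part_succ_fin2 F i j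
    haveI := part_succ_fin N (j - a ⟨i, hi⟩)
    have hmain := Submodule.finrank_sup_add_finrank_inf_eq (part F i j) t
    rw [hsup, hinf] at hmain
    have e1 : Module.finrank ℂ ((part F i (j - a ⟨i, hi⟩)).map L) =
        Module.finrank ℂ (part F i (j - a ⟨i, hi⟩)) :=
      (Submodule.equivMapOfInjective L hLinj _).finrank_eq.symm
    have e2 : Module.finrank ℂ t =
        Module.finrank ℂ (homogeneousSubmodule (Fin N) ℂ (j - a ⟨i, hi⟩)) :=
      (Submodule.equivMapOfInjective L hLinj _).finrank_eq.symm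
    rw [e1, e2] at hmain
    exact hmain
  · rw [if_neg haj, if_neg haj]
    have heq : part F (i + 1) j = part F i j := by
      apply le_antisymm _ (part_succ_le F i j)
      intro f hf
      obtain ⟨u, hu, g, rfl⟩ := part_succ_decomp F a ha i hi j f hf
      rw [DirectSum.coe_decompose_mul_of_left_mem_of_not_le
          (homogeneousSubmodule (Fin N) ℂ) (ha ⟨i, hi⟩) haj, add_zero]
      exact hu
    rw [heq]

end part_succ_aux

/-- recursion for the Hilbert function of a regular sequence -/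
theorem part_succ {N m : ℕ} (F : Fin m → MvPolynomial (Fin N) ℂ) (a : Fin m → ℕ)
    (ha : ∀ i, (F i).IsHomogeneous (a i)) (hne : ∀ i, F i ≠ 0) (hF : IsReg F) (i : ℕ) (hi : i < m)
    (j : ℕ) :
    Module.finrank ℂ (part F (i + 1) j) +
        (if a ⟨i, hi⟩ ≤ j then Module.finrank ℂ (part F i (j - a ⟨i, hi⟩)) else 0) =
      Module.finrank ℂ (part F i j) +
        (if a ⟨i, hi⟩ ≤ j then
          Module.finrank ℂ (homogeneousSubmodule (Fin N) ℂ (j - a ⟨i, hi⟩)) else 0) :=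
  part_succ_aux F a ha hne hF i hi j

end Pool.Agent.Helper947.Geo
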